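import Pool.Agent.Lib.MP_4d22c1_co.Chk

/-!
Readable forms of the steps of the checker. This file is generated.
-/

set_option linter.unusedVariables false

namespace Pool.Agent.Lib.MP_4d22c1_co.Chk

noncomputable def req (b : Bool) (k : Nat) : Nat := @Bool.rec (fun _ => Nat) 0 k b
noncomputable def cnd (b : Bool) (t e : Nat) : Nat := @Bool.rec (fun _ => Nat) e t b
noncomputable def prd (n : Nat) (f : Nat → Nat) : Nat := @Nat.rec (fun _ => Nat) 0 (fun v _ => f v) n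
noncomputable def prz {α : Type} (z : α) (n : Nat) (f : Nat → α) : α :=
  @Nat.rec (fun _ => α) z (fun v _ => f v) n
def frc (n : Nat) (f : Nat → Nat) : Nat := f n

def fld (c sh m : Nat) : Nat := ((c >>> sh) &&& m)
def dif (a b : Nat) : Nat := (a ^^^ (a &&& b))
def lk2 (W ONE M T3 T1 q : Nat) : Nat := ((fld T3 ((q / M) * W) ONE) &&& (T1 >>> ((q % M) * W)))
def low (c n : Nat) : Nat := (c &&& ((1 <<< n) - 1))
def volq (vt b : Nat) : Nat := (fld vt (b * 9) 511)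
def hsh (a b : Nat) : Nat := ((a ^^^ b) % 509)
def tc (rep t ad tp sm x : Nat) : Nat := (((((x * rep) &&& t) + ad) &&& tp) % sm)
def lwh (a : Nat) : Nat := (hsh a (a - 1))
def aent (ta c : Nat) : Nat := (ta >>> (c &&& 8176))
def aval (ta c : Nat) : Nat := ((aent ta c) &&& 4095)
def arest (ta c : Nat) : Nat := (c >>> (fld (aent ta c) 12 15))
def smr (m d S : Nat) : Nat := (S ||| ((S >>> d) &&& m))
def ups (m d S : Nat) : Nat := (S ||| ((S &&& m) <<< d))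
def upf (h nh S : Nat) : Nat := (((h - (S &&& nh)) ^^^ h) ||| S)
def cnds (st0 st1 M w0 w1 w2 w3 I Y : Nat) : Nat := ((I &&& (((Y <<< st0) ||| w0) &&& ((Y <<< st1) ||| w1))) &&& (((Y <<< M) ||| w2) &&& ((Y <<< 1) ||| w3)))
def clr (a : Nat) : Nat := (a &&& (a - 1))

noncomputable def exs (G : Grp) (D A CE C1 : Nat) (k : Nat → Nat → Nat → Nat) (m t acc : Nat) : Nat :=
  (prz (acc ||| t) m (fun m1 => (prz 1 (lwh (CE >>> (C1 - (fld A (fs G m1) 65535)))) (fun h => (k (m &&& m1) (t ^^^ (fb G m1)) (acc ||| ((D >>> (fw G m1)) &&& (uph G h))))))))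

noncomputable def chs (ht : Nat) (k : Nat → Nat → Nat → Bool) (T tp base : Nat) : Bool :=
  (prz (Nat.ble (base + 1) T) tp (fun t1 => (k T (clr (clr (tp &&& t1))) ((base + (volq ht (hsh tp (tp &&& t1)))) + ((volq ht (hsh (tp &&& t1) (clr (tp &&& t1)))) + (volq ht (hsh (clr (tp &&& t1)) (clr (clr (tp &&& t1))))))))))

theorem ltk_eq (G : Grp) (k v : Nat) :
    ltk G k v =
      (fld (sel4 G.lt0 G.lt1 G.lt2 G.lt3 k) (v * G.W) G.ONE) := rfl

theorem xk_eq (G : Grp) (k : Nat) :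
    xk G k =
      (sel4 G.X0 G.X1 G.X2 G.M k) := rfl

theorem stq_eq (G : Grp) (k : Nat) :
    stq G k =
      (sel4 G.st0 G.st1 G.M 1 k) := rfl

theorem up_eq (G : Grp) (q : Nat) :
    up G q =
      (lk2 G.W G.ONE G.M G.up3 G.ge3 q) := rfl

theorem dn_eq (G : Grp) (q : Nat) :
    dn G q =
      (lk2 G.W G.ONE G.M G.dn3 G.le3 q) := rfl

theorem sd_eq (G : Grp) (q : Nat) :
    sd G q =
      (lk2 G.W G.ONE G.M G.sd3 G.sle3 q) := rfl

theorem su_eq (G : Grp) (q : Nat) :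
    su G q =
      (lk2 G.W G.ONE G.M G.su3 G.sge3 q) := rfl

theorem nup_eq (G : Grp) (q : Nat) :
    nup G q =
      ((up G q) ^^^ G.ONE) := rfl

theorem hqv_eq (G : Grp) (h : Nat) :
    hqv G h =
      ((volq G.hq (h + 1)) - 1) := rfl

theorem uph_eq (G : Grp) (h : Nat) :
    uph G h =
      (up G (hqv G h)) := rfl

theorem rp_eq (G : Grp) (k u : Nat) :
    rp G k u =
      (bld G.W 16 (fun m => (cnd (Nat.beq (sb m k) u) 1 0))) := rfl

theorem h16_eq (G : Grp) (k u : Nat) :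
    h16 G k u =
      (frc (u % 2) (fun a => (frc (1 - a) (fun b => ((((ltk G k (u / 2)) ^^^ G.ONE) * (rp G k a)) ||| ((ltk G k ((xk G k) - (u / 2))) * (rp G k b))))))) := rfl

theorem cA_eq (G : Grp) (u : Nat) :
    cA G u =
      (frc ((((u / 4) / G.X1) * 2) + (sb u 0)) (fun u0 => (frc ((((u / 4) % G.X1) * 2) + (sb u 1)) (fun u1 => ((h16 G 0 u0) &&& (h16 G 1 u1)))))) := rfl

theorem cB_eq (G : Grp) (u : Nat) :
    cB G u =
      (frc ((((u / 4) / G.M) * 2) + (sb u 0)) (fun u0 => (frc ((((u / 4) % G.M) * 2) + (sb u 1)) (fun u1 => ((h16 G 2 u0) &&& (h16 G 3 u1)))))) := rfl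

theorem cone_eq (G : Grp) (r : Nat) :
    cone G r =
      (frc ((((r % G.W) / G.st1) * 4) + ((r / G.W) &&& 3)) (fun u0 => (frc ((((r % G.W) % G.st1) * 4) + ((r / G.W) >>> 2)) (fun u1 => ((cA G u0) &&& (cB G u1)))))) := rfl

theorem cnr_eq (G : Grp) (v : Nat) :
    cnr G v =
      (frc v (fun r => (cone G r))) := rfl

theorem cell_eq (G : Grp) (r : Nat) :
    cell G r =
      (prd ((16 * G.W) - r) (fun rb => ((cone G r) &&& (cone G rb)))) := rfl

theorem cn0_eq (G : Grp) (r : Nat) :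
    cn0 G r =
      ((cone G r) &&& G.ONE) := rfl

theorem nc0_eq (G : Grp) (r : Nat) :
    nc0 G r =
      ((cn0 G r) ^^^ G.ONE) := rfl

theorem room_eq (G : Grp) (r : Nat) :
    room G r =
      (dn G ((G.W - 1) - (r % G.W))) := rfl

theorem f0_eq (G : Grp) (r : Nat) :
    f0 G r =
      (dif (room G r) 1) := rfl

theorem x0_eq (G : Grp) (r : Nat) :
    x0 G r =
      (hqv G ((lwh (cell G r)) - 1)) := rfl

theorem cor_eq (G : Grp) (v : Nat) :
    cor G v =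
      (dif ((ltk G 3 1) ||| ((ltk G 3 (v - 1)) ^^^ G.ONE)) G.ncorn) := rfl

theorem vw0_eq (G : Grp) (v : Nat) :
    vw0 G v =
      (G.srt &&& (ltk G 3 v)) := rfl

theorem bey_eq (G : Grp) (v : Nat) :
    bey G v =
      (h16 G 3 (v * 2)) := rfl

theorem dq_eq (G : Grp) (d : Nat) :
    dq G d =
      ((((d &&& 63) * G.st0) + ((fld d 6 63) * G.st1)) + (((fld d 12 63) * G.M) + (fld d 18 63))) := rfl

theorem mq_eq (G : Grp) (d : Nat) :
    mq G d =
      ((G.W - 1) - (dq G d)) := rfl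

theorem lo1_eq (G : Grp) (d : Nat) :
    lo1 G d =
      (nup G (mq G d)) := rfl

theorem lo2_eq (G : Grp) (d : Nat) :
    lo2 G d =
      (dn G (mq G d)) := rfl

theorem cl1_eq (G : Grp) (d : Nat) :
    cl1 G d =
      ((su G (mq G d)) ^^^ G.ONE) := rfl

theorem cl2_eq (G : Grp) (d : Nat) :
    cl2 G d =
      (sd G (mq G d)) := rfl

theorem ch1_eq (G : Grp) (d : Nat) :
    ch1 G d =
      ((sd G (dq G d)) ^^^ G.ONE) := rfl

theorem ch2_eq (G : Grp) (d : Nat) :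
    ch2 G d =
      (su G (dq G d)) := rfl

theorem cmp_eq (G : Grp) (p : Nat) :
    cmp G p =
      ((sd G p) ||| (su G p)) := rfl

theorem sqh_eq (G : Grp) (h : Nat) :
    sqh G h =
      (volq G.sq (hqv G h)) := rfl

theorem cb0_eq (G : Grp) (h : Nat) :
    cb0 G h =
      ((su G (sqh G h)) &&& (sd G (sqh G h))) := rfl

theorem cb1_eq (G : Grp) (h : Nat) :
    cb1 G h =
      ((cb0 G h) ^^^ G.ONE) := rfl

theorem cb2_eq (G : Grp) (h : Nat) :
    cb2 G h =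
      (cmp G (sqh G h)) := rfl

theorem ctc_eq (G : Grp) (k p : Nat) :
    ctc G k p =
      ((((sel4 ((p / G.st1) % G.X1) (p / G.st0) (p / G.st0) (p / G.st0) k) * G.st1) + ((sel4 ((p / G.M) % G.X2) ((p / G.M) % G.X2) ((p / G.st1) % G.X1) ((p / G.st1) % G.X1) k) * G.M)) + (sel4 (p % G.M) (p % G.M) (p % G.M) ((p / G.M) % G.X2) k)) := rfl

theorem ct2_eq (G : Grp) (k h : Nat) :
    ct2 G k h =
      (fld G.tt ((ctc G k (sqh G h)) * G.W) G.ONE) := rfl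

theorem ct1_eq (G : Grp) (k h : Nat) :
    ct1 G k h =
      ((ct2 G k h) ^^^ G.ONE) := rfl

theorem fx1_eq (G : Grp) (h : Nat) :
    fx1 G h =
      ((1 <<< (hqv G h)) &&& (cb0 G h)) := rfl

theorem fx3_eq (G : Grp) (h : Nat) :
    fx3 G h =
      (dn G (hqv G h)) := rfl

theorem fr_eq (G : Grp) (m : Nat) :
    fr G m =
      (hqv G ((hsh m (m + 1)) - 1)) := rfl

theorem fw_eq (G : Grp) (m : Nat) :
    fw G m =
      ((fr G m) * G.W) := rfl

theorem fs_eq (G : Grp) (m : Nat) :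
    fs G m =
      (16 * (fr G m)) := rfl

theorem fb_eq (G : Grp) (m : Nat) :
    fb G m =
      (1 <<< (fw G m)) := rfl

theorem tl_eq (G : Grp) (t : Nat) :
    tl G t =
      (frc (t >>> 4) (fun o => (fld (nthN G.hf o) ((t &&& 15) * 4096) ((1 <<< 4096) - 1)))) := rfl

theorem tn_eq (G : Grp) (t m : Nat) :
    tn G t m =
      (tl G (t + (fr G m))) := rfl

theorem gtv_eq (G : Grp) (r : Nat) :
    gtv G r =
      ((fld G.lev (r * G.W) G.ONE) ^^^ G.ONE) := rfl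

theorem vlv_eq (G : Grp) (r : Nat) :
    vlv G r =
      (volq G.vl r) := rfl

theorem sNOP_eq (tb : Nat) (k : K) (A R Ll Lu P cx c U B F Z LB D : Nat) :
    (sNOP tb).1 k A R Ll Lu P cx c U B F Z LB D =
      (k A R Ll Lu P tb c U B F Z LB D) := rfl

attribute [local irreducible] Nat.shiftLeft in
theorem sLO_eq (G : Grp) (rep tt ad tp sm ONE C1 jW js tb : Nat) (k : K) (A R Ll Lu P cx c U B F Z LB D : Nat) :
    (sLO G rep tt ad tp sm ONE C1 jW js tb).1 k A R Ll Lu P cx c U B F Z LB D =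
      (prd (tc rep tt ad tp sm (fld D jW ONE)) (fun d => (prd (((fld A js 65535) - (mq G d)) - (((fld D jW ONE) &&& (lo1 G d)) <<< 16)) (fun rb => (k A R Ll Lu P tb c U B (dif F ((lo2 G d) <<< jW)) (Z ||| ((cnr G (C1 - (fld A js 65535))) &&& (cone G rb))) ((cnr G (C1 - (fld A js 65535))) &&& (cone G rb)) D))))) := rfl

theorem sCa_eq (c1 c2 : Nat → Nat) (rep tt ad tp sm ONE jW bj tb : Nat) (k : K) (A R Ll Lu P cx c U B F Z LB D : Nat) :
    (sCa c1 c2 rep tt ad tp sm ONE jW bj tb).1 k A R Ll Lu P cx c U B F Z LB D =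
      (prd (tc rep tt ad tp sm (fld D jW ONE)) (fun h => (req (Nat.ble (((fld D jW ONE) &&& (c1 h)) + 1) (fld R jW 1)) (k A R Ll Lu P tb c (dif U (c2 h)) (B ||| ((c2 h) <<< jW)) F Z LB (dif D ((c2 h) * (R ^^^ bj))))))) := rfl

theorem sCb_eq (c1 c2 : Nat → Nat) (ONE jW bj tb : Nat) (k : K) (A R Ll Lu P cx c U B F Z LB D : Nat) :
    (sCb c1 c2 ONE jW bj tb).1 k A R Ll Lu P cx c U B F Z LB D =
      (prd (lwh (fld D jW ONE)) (fun h => (req (Nat.beq ((fld D jW ONE) &&& (c1 h)) 0) (k A R Ll Lu P tb c (dif U (c2 h)) (B ||| ((c2 h) <<< jW)) F Z LB (dif D ((c2 h) * (R ^^^ bj))))))) := rfl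

attribute [local irreducible] Nat.shiftLeft in
theorem sFIX_eq (G : Grp) (ONE C1 jW js bj tb : Nat) (k : K) (A R Ll Lu P cx c U B F Z LB D : Nat) :
    (sFIX G ONE C1 jW js bj tb).1 k A R Ll Lu P cx c U B F Z LB D =
      (prd (lwh (fld D jW ONE)) (fun h => (prd (((fld A js 65535) - (hqv G h)) - (((fld D jW ONE) ^^^ (fx1 G h)) <<< 16)) (fun rb => (k A R Ll Lu (dif P ((nc0 G rb) <<< jW)) tb c (dif U (cb2 G h)) (B ||| ((cb2 G h) <<< jW)) (dif F ((fx3 G h) <<< jW)) (Z ||| ((cnr G (C1 - (fld A js 65535))) &&& (cone G rb))) ((cnr G (C1 - (fld A js 65535))) &&& (cone G rb)) (dif D ((cb2 G h) * (R ^^^ bj)))))))) := rfl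

theorem sGEl_eq (G : Grp) (ONE C1 jW js tb : Nat) (k : K) (A R Ll Lu P cx c U B F Z LB D : Nat) :
    (sGEl G ONE C1 jW js tb).1 k A R Ll Lu P cx c U B F Z LB D =
      (prd (lwh (((LB >>> (C1 - (fld A js 65535))) &&& (F >>> jW)) &&& ONE)) (fun h => (k A R Ll Lu P tb c U B F Z LB (dif D ((uph G h) <<< jW))))) := rfl

theorem sGE_eq (cl : Nat → Nat) (ONE C1 jW js tb : Nat) (k : K) (A R Ll Lu P cx c U B F Z LB D : Nat) :
    (sGE cl ONE C1 jW js tb).1 k A R Ll Lu P cx c U B F Z LB D =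
      (k A R Ll Lu P tb c U B F Z LB (dif D ((cl (((Z >>> (C1 - (fld A js 65535))) &&& (F >>> jW)) &&& ONE)) <<< jW))) := rfl

theorem sNEW_eq (G : Grp) (cl : Nat → Nat) (W ONE C1 M st0 st1 w0 w1 w2 w3 wm hq ta cxb : Nat) (k : K) (A R Ll Lu P cx c U B F Z LB D : Nat) :
    (sNEW G cl W ONE C1 M st0 st1 w0 w1 w2 w3 wm hq ta cxb).1 k A R Ll Lu P cx c U B F Z LB D =
      (frc (R % wm) (fun mr => (prd ((((aent ta c) &&& 15) * W) + (volq hq (lwh (skp (fld (aent ta c) 4 255) (cnds st0 st1 M w0 w1 w2 w3 ((fld (Z ||| (bey G Ll)) (((aent ta c) &&& 15) * W) ONE) ^^^ ONE) (fld Z (((aent ta c) &&& 15) * W) ONE)))))) (fun r => (req (Nat.beq (q16 (exs G D A (cell G r) C1) (fun _ _ _ => 1) (((P >>> (x0 G r)) &&& R) % wm) ((P >>> (x0 G r)) &&& R) ((R &&& (fb G mr)) ||| (1 - (skp (fld (aent ta c) 4 255) (cnds st0 st1 M w0 w1 w2 w3 ((fld (Z ||| (bey G Ll)) (((aent ta c) &&& 15) * W) ONE) ^^^ ONE) (fld Z (((aent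 ta c) &&& 15) * W) ONE)))))) 0) (k (A ||| ((C1 - r) <<< (fs G mr))) (R ||| (fb G mr)) Ll Lu (P ||| ((cn0 G r) <<< (fw G mr))) (tn G cxb mr) (arest ta c) U B (F ||| ((f0 G r) <<< (fw G mr))) (Z ||| (cell G r)) (cell G r) (D ||| ((dif (U &&& (room G r)) (cl ((Z >>> r) &&& (f0 G r)))) <<< (fw G mr))))))))) := rfl

theorem sDROP_eq (G : Grp) (ONE C1 hq jW js nm tb : Nat) (k : K) (A R Ll Lu P cx c U B F Z LB D : Nat) :
    (sDROP G ONE C1 hq jW js nm tb).1 k A R Ll Lu P cx c U B F Z LB D =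
      (frc (C1 - (fld A js 65535)) (fun r => (frc ((fld A js 65535) - (volq hq (lwh (fld D jW ONE)))) (fun rb => (req (Nat.beq (dif (room G r) ((F >>> jW) ||| (((cone G r) &&& (cone G rb)) >>> r))) 0) (k (A ^^^ ((fld A js 65535) <<< js)) (dif R nm) Ll Lu (dif P nm) tb c (U ||| (fld D jW ONE)) (dif B nm) (dif F nm) (dif Z ((cone G r) &&& (cone G rb))) 0 (dif D nm))))))) := rfl

theorem sS3_eq (G : Grp) (C1 jW js ta tb : Nat) (k : K) (A R Ll Lu P cx c U B F Z LB D : Nat) :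
    (sS3 G C1 jW js ta tb).1 k A R Ll Lu P cx c U B F Z LB D =
      (prd (aval ta c) (fun q => (frc ((C1 - (fld A js 65535)) + q) (fun rq => (req (Nat.ble 1 ((cell G rq) &&& (cor G Lu))) (k A R Ll Lu P tb (arest ta c) U B F Z LB (dif D (((up G q) &&& ((D ^^^ (D - 1)) >>> 1)) <<< jW)))))))) := rfl

theorem sLL_eq (G : Grp) (ta tb : Nat) (k : K) (A R Ll Lu P cx c U B F Z LB D : Nat) :
    (sLL G ta tb).1 k A R Ll Lu P cx c U B F Z LB D =
      (prd (aval ta c) (fun v => (req (Nat.ble v Lu) (req (Nat.ble 1 (Z &&& (dif (ltk G 3 Lu) (ltk G 3 v)))) (k A R (v + 1) Lu P tb (arest ta c) U B F Z LB D))))) := rfl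

theorem sSPX_eq (G : Grp) (jW ta tb tr : Nat) (k : K) (A R Ll Lu P cx c U B F Z LB D : Nat) :
    (sSPX G jW ta tb tr).1 k A R Ll Lu P cx c U B F Z LB D =
      (prd (aval ta c) (fun q => (prd (k A R Ll Lu P tb (arest ta c) U B F Z LB (dif D ((up G q) <<< jW))) (fun e => (k A R Ll Lu P tr e U B F Z LB (dif D ((nup G q) <<< jW))))))) := rfl

theorem sSPXt_eq (G : Grp) (jW ta tb tr : Nat) (k : K) (A R Ll Lu P cx c U B F Z LB D : Nat) :
    (sSPXt G jW ta tb tr).1 k A R Ll Lu P cx c U B F Z LB D =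
      (prd (aval ta c) (fun q => (req (Nat.ble 1 (k A R Ll Lu P tb (low ((arest ta c) >>> 21) ((fld (arest ta c) 4 2097151) + 4)) U B F Z LB (dif D ((up G q) <<< jW)))) (k A R Ll Lu P tr (((arest ta c) >>> 21) >>> (fld (arest ta c) 4 2097151)) U B F Z LB (dif D ((nup G q) <<< jW)))))) := rfl

theorem sSPL_eq (G : Grp) (ta tb tr : Nat) (k : K) (A R Ll Lu P cx c U B F Z LB D : Nat) :
    (sSPL G ta tb tr).1 k A R Ll Lu P cx c U B F Z LB D =
      (prd (aval ta c) (fun v => (req (Nat.ble v Lu) (prd (k A R Ll v P tb (arest ta c) U B F (Z ||| (bey G v)) LB D) (fun e => (k A R (v + 1) Lu P tr e U B F Z LB D)))))) := rfl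

theorem sSPLt_eq (G : Grp) (ta tb tr : Nat) (k : K) (A R Ll Lu P cx c U B F Z LB D : Nat) :
    (sSPLt G ta tb tr).1 k A R Ll Lu P cx c U B F Z LB D =
      (prd (aval ta c) (fun v => (req (Nat.ble v Lu) (req (Nat.ble 1 (k A R Ll v P tb (low ((arest ta c) >>> 21) ((fld (arest ta c) 4 2097151) + 4)) U B F (Z ||| (bey G v)) LB D)) (k A R (v + 1) Lu P tr (((arest ta c) >>> 21) >>> (fld (arest ta c) 4 2097151)) U B F Z LB D))))) := rfl

theorem sDEAD_eq (bj nm : Nat) (k : K) (A R Ll Lu P cx c U B F Z LB D : Nat) :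
    (sDEAD bj nm).1 k A R Ll Lu P cx c U B F Z LB D =
      (req (Nat.ble ((D &&& nm) + 1) (R &&& bj)) (c + 1)) := rfl

theorem sTRIV_eq (G : Grp) (j : Nat) (k : K) (A R Ll Lu P cx c U B F Z LB D : Nat) :
    (sTRIV G j).1 k A R Ll Lu P cx c U B F Z LB D =
      (req (Nat.beq ((dif (ltk G 3 Lu) Z) ||| (D &&& ((ltk G j ((sel4 G.X0 G.X1 G.X2 Lu j) - 1)) * R))) 0) (c + 1)) := rfl

theorem sVOL_eq (G : Grp) (vz : KV) (AA tb : Nat) (k : K) (A R Ll Lu P cx c U B F Z LB D : Nat) :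
    (sVOL G vz AA tb).1 k A R Ll Lu P cx c U B F Z LB D =
      (vz D B (AA * Ll) tb c (vw0 G Lu) 0) := rfl

theorem sCUT_eq (cut : K) (tb : Nat) (k : K) (A R Ll Lu P cx c U B F Z LB D : Nat) :
    (sCUT cut tb).1 k A R Ll Lu P cx c U B F Z LB D =
      (cut A R Ll Lu P tb (fld c 4 4095) U B F Z LB D) := rfl

theorem up5_eq (h nh m1 d1 m2 d2 m3 d3 m4 d4 m5 d5 : Nat) (S : Nat) :
    (up5 h nh m1 d1 m2 d2 m3 d3 m4 d4 m5 d5).1 S =
      (ups m5 d5 (ups m4 d4 (ups m3 d3 (ups m2 d2 (ups m1 d1 (upf h nh S)))))) := rfl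

theorem up6_eq (h nh m1 d1 m2 d2 m3 d3 m4 d4 m5 d5 m6 d6 : Nat) (S : Nat) :
    (up6 h nh m1 d1 m2 d2 m3 d3 m4 d4 m5 d5 m6 d6).1 S =
      (ups m6 d6 (ups m5 d5 (ups m4 d4 (ups m3 d3 (ups m2 d2 (ups m1 d1 (upf h nh S))))))) := rfl

theorem up7_eq (h nh m1 d1 m2 d2 m3 d3 m4 d4 m5 d5 m6 d6 m7 d7 : Nat) (S : Nat) :
    (up7 h nh m1 d1 m2 d2 m3 d3 m4 d4 m5 d5 m6 d6 m7 d7).1 S =
      (ups m7 d7 (ups m6 d6 (ups m5 d5 (ups m4 d4 (ups m3 d3 (ups m2 d2 (ups m1 d1 (upf h nh S)))))))) := rfl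

theorem up8_eq (h nh m1 d1 m2 d2 m3 d3 m4 d4 m5 d5 m6 d6 m7 d7 m8 d8 : Nat) (S : Nat) :
    (up8 h nh m1 d1 m2 d2 m3 d3 m4 d4 m5 d5 m6 d6 m7 d7 m8 d8).1 S =
      (ups m8 d8 (ups m7 d7 (ups m6 d6 (ups m5 d5 (ups m4 d4 (ups m3 d3 (ups m2 d2 (ups m1 d1 (upf h nh S))))))))) := rfl

theorem sm3_eq (k1 k2 k4 : Nat) (S : Nat) :
    (sm3 k1 k2 k4).1 S =
      (smr k4 4 (smr k2 2 (smr k1 1 S))) := rfl

theorem sm4_eq (k1 k2 k4 k8 : Nat) (S : Nat) :
    (sm4 k1 k2 k4 k8).1 S =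
      (smr k8 8 (smr k4 4 (smr k2 2 (smr k1 1 S)))) := rfl

theorem sm6_eq (k1 k2 k4 k8 k16 k32 : Nat) (S : Nat) :
    (sm6 k1 k2 k4 k8 k16 k32).1 S =
      (smr k32 32 (smr k16 16 (smr k8 8 (smr k4 4 (smr k2 2 (smr k1 1 S)))))) := rfl

theorem sS2_eq (G : Grp) (rep tt ad tp sm ONE jW tb : Nat) (k : KV) (D B T cx c Wm base : Nat) :
    (sS2 G rep tt ad tp sm ONE jW tb).1 k D B T cx c Wm base =
      (prd (tc rep tt ad tp sm (fld D jW ONE)) (fun r => (req (Nat.beq ((fld D jW ONE) &&& (gtv G r)) 0) (k D B T tb c (dif Wm (B >>> jW)) (base + (vlv G r)))))) := rfl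

theorem sVS_eq (G : Grp) (vt ta tb tr : Nat) (k : KV) (D B T cx c Wm base : Nat) :
    (sVS G vt ta tb tr).1 k D B T cx c Wm base =
      (prd (aval ta c) (fun p => (prd (k D B T tb (arest ta c) (dif Wm (1 <<< p)) base) (fun e => (k D B T tr e (dif Wm (cmp G p)) (base + (volq vt p))))))) := rfl

attribute [local irreducible] q8 in
theorem sVL_eq (sm : Nat → Nat) (ht k1 : Nat) (k : KV) (D B T cx c Wm base : Nat) :
    (sVL sm ht k1).1 k D B T cx c Wm base =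
      (req (q8 (q8 (chs ht)) (fun _ _ _ => false) T (dif Wm (((sm Wm) >>> 1) &&& k1)) base) (c + 1)) := rfl

end Pool.Agent.Lib.MP_4d22c1_co.Chk
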