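import Mathlib
import Pool.Agent.Lib.MP_4d22c1_co.ChkEq

/-!
Bit-level lemmas for the checker.
-/

namespace Pool.Agent.Lib.MP_4d22c1_co.Chk

theorem req_ne {b : Bool} {k : ℕ} : req b k ≠ 0 ↔ b = true ∧ k ≠ 0 := by
  cases b <;> simp [req]

theorem prd_ne {n : ℕ} {f : ℕ → ℕ} : prd n f ≠ 0 ↔ ∃ v, n = v + 1 ∧ f v ≠ 0 := by
  cases n <;> simp [prd]

theorem ble_one {k : ℕ} : Nat.ble 1 k = true ↔ k ≠ 0 := by
  rw [Nat.ble_eq]; omega

theorem beq_false {a b : ℕ} : Nat.beq a b = false ↔ a ≠ b := by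
  rw [← Bool.not_eq_true, Nat.beq_eq]

theorem tb_dif (a b i : ℕ) : (dif a b).testBit i = (a.testBit i && !b.testBit i) := by
  simp only [dif, Nat.testBit_xor, Nat.testBit_and]
  cases a.testBit i <;> cases b.testBit i <;> rfl

theorem tb_fld (c sh m i : ℕ) : (fld c sh m).testBit i = (c.testBit (sh + i) && m.testBit i) := by
  simp only [fld, Nat.testBit_and, Nat.testBit_shiftRight]

theorem tb_one (n i : ℕ) : (1 <<< n).testBit i = decide (n = i) := by
  rw [Nat.one_shiftLeft, Nat.testBit_two_pow]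

theorem tb_low (c n i : ℕ) : (low c n).testBit i = (c.testBit i && decide (i < n)) := by
  simp only [low, Nat.testBit_and, Nat.one_shiftLeft, Nat.testBit_two_pow_sub_one]

theorem fld_one (c sh : ℕ) : fld c sh 1 = (c.testBit sh).toNat := by
  simp only [fld, Nat.and_one_is_mod, Nat.shiftRight_eq_div_pow, Nat.toNat_testBit]

theorem fld_one_eq_one {c sh : ℕ} : fld c sh 1 = 1 ↔ c.testBit sh = true := by
  rw [fld_one]; cases c.testBit sh <;> simp

theorem fld_one_eq_zero {c sh : ℕ} : fld c sh 1 = 0 ↔ c.testBit sh = false := by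
  rw [fld_one]; cases c.testBit sh <;> simp

theorem fld_one_le (c sh : ℕ) : fld c sh 1 ≤ 1 := by
  rw [fld_one]; cases c.testBit sh <;> simp

theorem tb_of_and_eq {a b : ℕ} (h : a &&& b = a) {i : ℕ} (hi : a.testBit i = true) :
    b.testBit i = true := by
  rw [← h, Nat.testBit_and] at hi
  exact (Bool.and_eq_true _ _ ▸ hi).2

theorem tb_of_eq_zero {a : ℕ} (h : a = 0) (i : ℕ) : a.testBit i = false := by
  simp [h]

theorem exists_tb {a : ℕ} (h : a ≠ 0) : ∃ i, a.testBit i = true := Nat.exists_testBit_of_ne_zero h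

theorem fld_le (c sh m : ℕ) : fld c sh m ≤ m := Nat.and_le_right

theorem div_slot {W j y : ℕ} (hy : y < W) : (j * W + y) / W = j := by
  rw [Nat.add_comm, Nat.add_mul_div_right _ _ (by omega), Nat.div_eq_of_lt hy, Nat.zero_add]

theorem mod_slot {W j y : ℕ} (hy : y < W) : (j * W + y) % W = y := by
  rw [Nat.add_comm, Nat.add_mul_mod_self_right, Nat.mod_eq_of_lt hy]

theorem slot_inj {W j y j' y' : ℕ} (hy : y < W) (hy' : y' < W) (h : j * W + y = j' * W + y') :
    j = j' ∧ y = y' := by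
  have h1 := div_slot (j := j) hy
  have h2 := mod_slot (j := j) hy
  rw [h] at h1 h2
  exact ⟨h1.symm.trans (div_slot hy'), h2.symm.trans (mod_slot hy')⟩

/-- All set bits of `m` lie below `W`. -/
def Small (W m : ℕ) : Prop := ∀ y, m.testBit y = true → y < W

theorem Small.lt {W m : ℕ} (h : Small W m) : m < 2 ^ W :=
  Nat.lt_pow_two_of_testBit _ fun i hi => by
    by_contra hb
    have := h i (by simpa using hb)
    omega

theorem tb_shl_slot {W m j z : ℕ} (hm : Small W m) :
    (m <<< (j * W)).testBit z = true ↔ ∃ y, y < W ∧ z = j * W + y ∧ m.testBit y = true := by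
  rw [Nat.testBit_shiftLeft]
  constructor
  · intro h
    simp only [ge_iff_le, Bool.and_eq_true, decide_eq_true_eq] at h
    exact ⟨z - j * W, hm _ h.2, by omega, h.2⟩
  · rintro ⟨y, _, rfl, h⟩
    simp [h]

theorem tb_shl_slot' {W m j j' y : ℕ} (hm : Small W m) (hy : y < W) :
    (m <<< (j * W)).testBit (j' * W + y) = true ↔ j' = j ∧ m.testBit y = true := by
  rw [tb_shl_slot hm]
  constructor
  · rintro ⟨y', hy', h, h2⟩
    obtain ⟨rfl, rfl⟩ := slot_inj hy hy' h
    exact ⟨rfl, h2⟩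
  · rintro ⟨rfl, h⟩
    exact ⟨y, hy, rfl, h⟩

/-- All set bits of `R` are at multiples of `W`. -/
def Sparse (W R : ℕ) : Prop := ∀ z, R.testBit z = true → z % W = 0

theorem tb_mul_sparse {W m : ℕ} (hW : 0 < W) (hm : Small W m) (j : ℕ) :
    ∀ (R : ℕ), Sparse W R → ∀ y, y < W →
      (m * R).testBit (j * W + y) = (m.testBit y && R.testBit (j * W)) := by
  induction j with
  | zero =>
    intro R hR y hy
    have h0 : R % 2 ^ W = (R.testBit 0).toNat := by
      apply Nat.eq_of_testBit_eq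
      intro i
      rw [Nat.testBit_mod_two_pow, Nat.testBit_bool_toNat]
      by_cases hi : i = 0
      · subst hi; simp [hW]
      · by_cases h : R.testBit i = true
        · have := hR i h
          by_cases hiW : i < W
          · rw [Nat.mod_eq_of_lt hiW] at this; omega
          · simp [hi, hiW]
        · simp [hi, h]
    have h1 : m * R = 2 ^ W * (m * (R / 2 ^ W)) + m * (R % 2 ^ W) := by
      conv_lhs => rw [← Nat.div_add_mod R (2 ^ W)]
      ring
    have h2 : m * (R % 2 ^ W) < 2 ^ W := by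
      rw [h0]
      have := hm.lt
      cases R.testBit 0 <;> simp <;> omega
    rw [h1, Nat.testBit_two_pow_mul_add _ h2, h0]
    simp only [Nat.zero_mul, Nat.zero_add, hy, if_true]
    cases R.testBit 0 <;> simp
  | succ j ih =>
    intro R hR y hy
    have h0 : R % 2 ^ W ≤ 1 := by
      have : R % 2 ^ W = (R.testBit 0).toNat := by
        apply Nat.eq_of_testBit_eq
        intro i
        rw [Nat.testBit_mod_two_pow, Nat.testBit_bool_toNat]
        by_cases hi : i = 0
        · subst hi; simp [hW]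
        · by_cases h : R.testBit i = true
          · have := hR i h
            by_cases hiW : i < W
            · rw [Nat.mod_eq_of_lt hiW] at this; omega
            · simp [hi, hiW]
          · simp [hi, h]
      rw [this]; cases R.testBit 0 <;> simp
    have h1 : m * R = 2 ^ W * (m * (R / 2 ^ W)) + m * (R % 2 ^ W) := by
      conv_lhs => rw [← Nat.div_add_mod R (2 ^ W)]
      ring
    have h2 : m * (R % 2 ^ W) < 2 ^ W := by
      have := hm.lt
      calc m * (R % 2 ^ W) ≤ m * 1 := Nat.mul_le_mul_left _ h0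
        _ < 2 ^ W := by omega
    have hR' : Sparse W (R / 2 ^ W) := by
      intro z hz
      rw [Nat.testBit_div_two_pow] at hz
      have := hR _ hz
      rwa [Nat.add_mod_right] at this
    have e1 : (j + 1) * W + y - W = j * W + y := by rw [Nat.add_mul]; omega
    have e2 : ¬ (j + 1) * W + y < W := by rw [Nat.add_mul]; omega
    rw [h1, Nat.testBit_two_pow_mul_add _ h2, if_neg e2, e1, ih _ hR' y hy,
      Nat.testBit_div_two_pow]
    congr 2
    ring

theorem lowbit {n : ℕ} (hn : n ≠ 0) : ∃ b, n.testBit b = true ∧ n ^^^ (n &&& (n - 1)) = 2 ^ b ∧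
    ∀ i, (n &&& (n - 1)).testBit i = (n.testBit i && decide (i ≠ b)) := by
  obtain ⟨b, m, hm, rfl⟩ := Nat.exists_eq_two_pow_mul_odd hn
  obtain ⟨m, rfl⟩ := hm
  have hp : 0 < 2 ^ b := Nat.two_pow_pos b
  have e : 2 ^ b * (2 * m + 1) - 1 = 2 ^ b * (2 * m) + (2 ^ b - 1) := by
    rw [Nat.mul_add]; omega
  have key : ∀ i, (2 ^ b * (2 * m + 1) &&& (2 ^ b * (2 * m + 1) - 1)).testBit i =
      ((2 ^ b * (2 * m + 1)).testBit i && decide (i ≠ b)) := by
    intro i
    rw [Nat.testBit_and, e, Nat.testBit_two_pow_mul_add _ (by omega), Nat.testBit_two_pow_mul]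
    rcases lt_trichotomy i b with h | h | h
    · have : ¬ b ≤ i := by omega
      simp [this]
    · subst h
      simp
    · obtain ⟨d, rfl⟩ : ∃ d, i = b + (d + 1) := ⟨i - b - 1, by omega⟩
      have h1 : b + (d + 1) - b = d + 1 := by omega
      have h2 : ¬ b + (d + 1) < b := by omega
      have h3 : (2 * m + 1) / 2 = m := by omega
      have h4 : (2 * m) / 2 = m := by omega
      simp [h1, h2, Nat.testBit_succ, h3, h4]
  have hb : (2 ^ b * (2 * m + 1)).testBit b = true := by
    rw [Nat.testBit_two_pow_mul]; simp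
  refine ⟨b, hb, ?_, key⟩
  apply Nat.eq_of_testBit_eq
  intro i
  rw [Nat.testBit_xor, key, Nat.testBit_two_pow]
  by_cases h : i = b
  · subst h; simp [hb]
  · have : ¬ b = i := fun h' => h h'.symm
    simp [h, this]

theorem lowest {n : ℕ} (hn : n ≠ 0) : ∃ b, n.testBit b = true ∧
    (∀ i, n.testBit i = true → b ≤ i) ∧ n ^^^ (n - 1) = 2 ^ (b + 1) - 1 := by
  obtain ⟨b, m, hm, rfl⟩ := Nat.exists_eq_two_pow_mul_odd hn
  obtain ⟨m, rfl⟩ := hm
  have hp : 0 < 2 ^ b := Nat.two_pow_pos b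
  have e : 2 ^ b * (2 * m + 1) - 1 = 2 ^ b * (2 * m) + (2 ^ b - 1) := by
    rw [Nat.mul_add]; omega
  refine ⟨b, by rw [Nat.testBit_two_pow_mul]; simp, fun i hi => ?_, ?_⟩
  · rw [Nat.testBit_two_pow_mul, Bool.and_eq_true, decide_eq_true_eq] at hi
    exact hi.1
  apply Nat.eq_of_testBit_eq
  intro i
  rw [Nat.testBit_xor, e, Nat.testBit_two_pow_mul_add _ (by omega), Nat.testBit_two_pow_mul,
    Nat.testBit_two_pow_sub_one, Nat.testBit_two_pow_sub_one]
  rcases lt_trichotomy i b with h | h | h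
  · have : ¬ b ≤ i := by omega
    have : i < b + 1 := by omega
    simp [*]
  · subst h
    simp
  · obtain ⟨d, rfl⟩ : ∃ d, i = b + (d + 1) := ⟨i - b - 1, by omega⟩
    have h1 : b + (d + 1) - b = d + 1 := by omega
    have h2 : ¬ b + (d + 1) < b := by omega
    have h3 : (2 * m + 1) / 2 = m := by omega
    have h4 : (2 * m) / 2 = m := by omega
    have h5 : ¬ b + (d + 1) < b + 1 := by omega
    simp [h1, h2, Nat.testBit_succ, h3, h4, h5]

theorem lwh_zero : lwh 0 = 0 := rfl

theorem tb_skp (n : ℕ) : ∀ x i, (skp n x).testBit i = true → x.testBit i = true := by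
  induction n with
  | zero => exact fun _ _ h => h
  | succ n ih =>
    intro x i h
    have := ih (x &&& (x - 1)) i h
    rw [Nat.testBit_and, Bool.and_eq_true] at this
    exact this.1

theorem tb_sub {h s n y : ℕ} (hn : n ≤ y) (h1 : s ≤ h) (h2 : s % 2 ^ n ≤ h % 2 ^ n)
    (h3 : ∀ q, n ≤ q → q ≤ y → s.testBit q = false) : (h - s).testBit y = h.testBit y := by
  have e1 : s % 2 ^ (y + 1) = s % 2 ^ n := by
    apply Nat.eq_of_testBit_eq
    intro i
    rw [Nat.testBit_mod_two_pow, Nat.testBit_mod_two_pow]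
    by_cases a : i < n
    · simp [a, (by omega : i < y + 1)]
    · by_cases b : i < y + 1
      · simp [h3 i (by omega) (by omega)]
      · simp [a, b]
  have e2 : h % 2 ^ (y + 1) % 2 ^ n = h % 2 ^ n :=
    Nat.mod_mod_of_dvd _ (Nat.pow_dvd_pow 2 (by omega))
  have a1 := Nat.div_add_mod s (2 ^ (y + 1))
  have a2 := Nat.div_add_mod h (2 ^ (y + 1))
  have a3 := Nat.div_add_mod (h % 2 ^ (y + 1)) (2 ^ n)
  have a4 : s / 2 ^ (y + 1) ≤ h / 2 ^ (y + 1) := Nat.div_le_div_right h1
  have a5 : h % 2 ^ (y + 1) < 2 ^ (y + 1) := Nat.mod_lt _ (Nat.two_pow_pos _)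
  have a6 : h % 2 ^ n < 2 ^ n := Nat.mod_lt _ (Nat.two_pow_pos _)
  rw [e2] at a3
  rw [e1] at a1
  obtain ⟨d, hd⟩ := Nat.exists_eq_add_of_le a4
  have b1 : h - s = 2 ^ (y + 1) * d +
      (2 ^ n * (h % 2 ^ (y + 1) / 2 ^ n) + (h % 2 ^ n - s % 2 ^ n)) := by
    rw [hd, Nat.mul_add] at a2
    omega
  have b2 : h = 2 ^ (y + 1) * (h / 2 ^ (y + 1)) +
      (2 ^ n * (h % 2 ^ (y + 1) / 2 ^ n) + h % 2 ^ n) := by omega
  rw [b1, Nat.testBit_two_pow_mul_add _ (by omega), if_pos (by omega),
    Nat.testBit_two_pow_mul_add _ (by omega), if_neg (by omega)]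
  conv_rhs => rw [b2, Nat.testBit_two_pow_mul_add _ (by omega), if_pos (by omega),
    Nat.testBit_two_pow_mul_add _ a6, if_neg (by omega)]

theorem two_pow_le_of_tb {x i : ℕ} (h : x.testBit i = true) : 2 ^ i ≤ x :=
  Nat.ge_two_pow_of_testBit h

end Pool.Agent.Lib.MP_4d22c1_co.Chk
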