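/-!
A proof checker for the non-existence of non-trivial incomparable tilings of small boxes.
The definitions are written with raw recursors and raw arithmetic so that the kernel runs them fast;
readable forms are in `ChkEq`. This file is generated.
-/

set_option linter.unusedVariables false

namespace Pool.Agent.Lib.MP_4d22c1_co.Chk

abbrev K := Nat → Nat → Nat → Nat → Nat → Nat → Nat → Nat → Nat → Nat → Nat → Nat → Nat → Nat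

abbrev KV := Nat → Nat → Nat → Nat → Nat → Nat → Nat → Nat

structure Fn where
  f : K → K

structure FnV where
  f : KV → KV

structure Cf where
  f : Nat → Nat

structure Tc where
  rep : Nat
  tt : Nat
  ad : Nat
  tp : Nat
  sm : Nat

structure Grp where
  X0 : Nat
  X1 : Nat
  X2 : Nat
  M : Nat
  W : Nat
  ONE : Nat
  st0 : Nat
  st1 : Nat
  AA : Nat
  up3 : Nat
  ge3 : Nat
  dn3 : Nat
  le3 : Nat
  lt0 : Nat
  lt1 : Nat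
  lt2 : Nat
  lt3 : Nat
  sd3 : Nat
  sle3 : Nat
  su3 : Nat
  sge3 : Nat
  tt : Nat
  vt : Nat
  srt : Nat
  ncorn : Nat
  D0 : Nat
  lev : Nat
  vl : Nat
  ht : Nat
  hq : Nat
  k1 : Nat
  k2 : Nat
  k4 : Nat
  k8 : Nat
  k16 : Nat
  k32 : Nat
  nl : Nat
  sq : Nat
  cd : Nat
  aX : Nat
  aN : Nat
  aV : Nat
  aS : Nat
  aL : Nat
  hf : List Nat

def tw {α : Type} (f : α → α) (k : α) : α := f (f k)
def q8 {α : Type} (f : α → α) (k : α) : α := f (f (f (f (f (f (f (f k)))))))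
def q16 {α : Type} (f : α → α) (k : α) : α :=
  f (f (f (f (f (f (f (f (f (f (f (f (f (f (f (f k)))))))))))))))

def sb (s k : Nat) : Nat := Nat.land (Nat.shiftRight s k) 1

noncomputable def bld (w n : Nat) (f : Nat → Nat) : Nat :=
  @Nat.rec (fun _ => Nat) 0 (fun j r => Nat.lor r (Nat.shiftLeft (f j) (Nat.mul j w))) n

noncomputable def sel4 (a b c d k : Nat) : Nat :=
  @Nat.rec (fun _ => Nat) a (fun k _ => @Nat.rec (fun _ => Nat) b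
    (fun k _ => @Nat.rec (fun _ => Nat) c (fun _ _ => d) k) k) k

noncomputable def nthN (l : List Nat) : Nat → Nat :=
  @List.rec Nat (fun _ => Nat → Nat) (fun _ => 0)
    (fun a _ r i => @Nat.rec (fun _ => Nat) a (fun j _ => r j) i) l

noncomputable def skp (n x : Nat) : Nat :=
  @Nat.rec (fun _ => Nat → Nat) (fun x => x)
    (fun _ r x => r (Nat.land x (Nat.sub x (nat_lit 1)))) n x

def sNO : Fn := Fn.mk fun _ _ _ _ _ _ _ _ _ _ _ _ _ _ => 0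

def sNOV : FnV := FnV.mk fun _ _ _ _ _ _ _ _ => 0

noncomputable def ltk (G : Grp) (k v : Nat) : Nat :=
  (Nat.land (Nat.shiftRight (sel4 G.lt0 G.lt1 G.lt2 G.lt3 k) (Nat.mul v G.W)) G.ONE)

noncomputable def xk (G : Grp) (k : Nat) : Nat :=
  (sel4 G.X0 G.X1 G.X2 G.M k)

noncomputable def stq (G : Grp) (k : Nat) : Nat :=
  (sel4 G.st0 G.st1 G.M (nat_lit 1) k)

noncomputable def up (G : Grp) (q : Nat) : Nat :=
  (Nat.land (Nat.land (Nat.shiftRight G.up3 (Nat.mul (Nat.div q G.M) G.W)) G.ONE) (Nat.shiftRight G.ge3 (Nat.mul (Nat.mod q G.M) G.W)))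

noncomputable def dn (G : Grp) (q : Nat) : Nat :=
  (Nat.land (Nat.land (Nat.shiftRight G.dn3 (Nat.mul (Nat.div q G.M) G.W)) G.ONE) (Nat.shiftRight G.le3 (Nat.mul (Nat.mod q G.M) G.W)))

noncomputable def sd (G : Grp) (q : Nat) : Nat :=
  (Nat.land (Nat.land (Nat.shiftRight G.sd3 (Nat.mul (Nat.div q G.M) G.W)) G.ONE) (Nat.shiftRight G.sle3 (Nat.mul (Nat.mod q G.M) G.W)))

noncomputable def su (G : Grp) (q : Nat) : Nat :=
  (Nat.land (Nat.land (Nat.shiftRight G.su3 (Nat.mul (Nat.div q G.M) G.W)) G.ONE) (Nat.shiftRight G.sge3 (Nat.mul (Nat.mod q G.M) G.W)))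

noncomputable def nup (G : Grp) (q : Nat) : Nat :=
  (Nat.xor (up G q) G.ONE)

noncomputable def hqv (G : Grp) (h : Nat) : Nat :=
  (Nat.sub (Nat.land (Nat.shiftRight G.hq (Nat.mul (Nat.succ h) (nat_lit 9))) (nat_lit 511)) (nat_lit 1))

noncomputable def uph (G : Grp) (h : Nat) : Nat :=
  (up G (hqv G h))

noncomputable def rp (G : Grp) (k u : Nat) : Nat :=
  (bld G.W (nat_lit 16) (fun m => (@Bool.rec (fun _ => Nat) (nat_lit 0) (nat_lit 1) (Nat.beq (sb m k) u))))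

noncomputable def h16 (G : Grp) (k u : Nat) : Nat :=
  (@Nat.rec (fun _ => Nat) (nat_lit 0) (fun a _ => (@Nat.rec (fun _ => Nat) (nat_lit 0) (fun b _ => (Nat.lor (Nat.mul (Nat.xor (ltk G k (Nat.div u (nat_lit 2))) G.ONE) (rp G k a)) (Nat.mul (ltk G k (Nat.sub (xk G k) (Nat.div u (nat_lit 2)))) (rp G k b)))) (Nat.succ (Nat.sub (nat_lit 1) a)))) (Nat.succ (Nat.mod u (nat_lit 2))))

noncomputable def cA (G : Grp) (u : Nat) : Nat :=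
  (@Nat.rec (fun _ => Nat) (nat_lit 0) (fun u0 _ => (@Nat.rec (fun _ => Nat) (nat_lit 0) (fun u1 _ => (Nat.land (h16 G (nat_lit 0) u0) (h16 G (nat_lit 1) u1))) (Nat.succ (Nat.add (Nat.mul (Nat.mod (Nat.div u (nat_lit 4)) G.X1) (nat_lit 2)) (sb u (nat_lit 1)))))) (Nat.succ (Nat.add (Nat.mul (Nat.div (Nat.div u (nat_lit 4)) G.X1) (nat_lit 2)) (sb u (nat_lit 0)))))

noncomputable def cB (G : Grp) (u : Nat) : Nat :=
  (@Nat.rec (fun _ => Nat) (nat_lit 0) (fun u0 _ => (@Nat.rec (fun _ => Nat) (nat_lit 0) (fun u1 _ => (Nat.land (h16 G (nat_lit 2) u0) (h16 G (nat_lit 3) u1))) (Nat.succ (Nat.add (Nat.mul (Nat.mod (Nat.div u (nat_lit 4)) G.M) (nat_lit 2)) (sb u (nat_lit 1)))))) (Nat.succ (Nat.add (Nat.mul (Nat.div (Nat.div u (nat_lit 4)) G.M) (nat_lit 2)) (sb u (nat_lit 0)))))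

noncomputable def cone (G : Grp) (r : Nat) : Nat :=
  (@Nat.rec (fun _ => Nat) (nat_lit 0) (fun u0 _ => (@Nat.rec (fun _ => Nat) (nat_lit 0) (fun u1 _ => (Nat.land (cA G u0) (cB G u1))) (Nat.succ (Nat.add (Nat.mul (Nat.mod (Nat.mod r G.W) G.st1) (nat_lit 4)) (Nat.shiftRight (Nat.div r G.W) (nat_lit 2)))))) (Nat.succ (Nat.add (Nat.mul (Nat.div (Nat.mod r G.W) G.st1) (nat_lit 4)) (Nat.land (Nat.div r G.W) (nat_lit 3)))))

noncomputable def cnr (G : Grp) (v : Nat) : Nat :=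
  (@Nat.rec (fun _ => Nat) (nat_lit 0) (fun r _ => (cone G r)) (Nat.succ v))

noncomputable def cell (G : Grp) (r : Nat) : Nat :=
  (@Nat.rec (fun _ => Nat) (nat_lit 0) (fun rb _ => (Nat.land (cone G r) (cone G rb))) (Nat.sub (Nat.mul (nat_lit 16) G.W) r))

noncomputable def cn0 (G : Grp) (r : Nat) : Nat :=
  (Nat.land (cone G r) G.ONE)

noncomputable def nc0 (G : Grp) (r : Nat) : Nat :=
  (Nat.xor (cn0 G r) G.ONE)

noncomputable def room (G : Grp) (r : Nat) : Nat :=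
  (dn G (Nat.sub (Nat.sub G.W (nat_lit 1)) (Nat.mod r G.W)))

noncomputable def f0 (G : Grp) (r : Nat) : Nat :=
  (Nat.xor (room G r) (Nat.land (room G r) (nat_lit 1)))

noncomputable def x0 (G : Grp) (r : Nat) : Nat :=
  (hqv G (Nat.sub (Nat.mod (Nat.xor (cell G r) (Nat.sub (cell G r) (nat_lit 1))) (nat_lit 509)) (nat_lit 1)))

noncomputable def cor (G : Grp) (v : Nat) : Nat :=
  (Nat.xor (Nat.lor (ltk G (nat_lit 3) (nat_lit 1)) (Nat.xor (ltk G (nat_lit 3) (Nat.sub v (nat_lit 1))) G.ONE)) (Nat.land (Nat.lor (ltk G (nat_lit 3) (nat_lit 1)) (Nat.xor (ltk G (nat_lit 3) (Nat.sub v (nat_lit 1))) G.ONE)) G.ncorn))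

noncomputable def vw0 (G : Grp) (v : Nat) : Nat :=
  (Nat.land G.srt (ltk G (nat_lit 3) v))

noncomputable def bey (G : Grp) (v : Nat) : Nat :=
  (h16 G (nat_lit 3) (Nat.mul v (nat_lit 2)))

noncomputable def dq (G : Grp) (d : Nat) : Nat :=
  (Nat.add (Nat.add (Nat.mul (Nat.land d (nat_lit 63)) G.st0) (Nat.mul (Nat.land (Nat.shiftRight d (nat_lit 6)) (nat_lit 63)) G.st1)) (Nat.add (Nat.mul (Nat.land (Nat.shiftRight d (nat_lit 12)) (nat_lit 63)) G.M) (Nat.land (Nat.shiftRight d (nat_lit 18)) (nat_lit 63))))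

noncomputable def mq (G : Grp) (d : Nat) : Nat :=
  (Nat.sub (Nat.sub G.W (nat_lit 1)) (dq G d))

noncomputable def lo1 (G : Grp) (d : Nat) : Nat :=
  (nup G (mq G d))

noncomputable def lo2 (G : Grp) (d : Nat) : Nat :=
  (dn G (mq G d))

noncomputable def cl1 (G : Grp) (d : Nat) : Nat :=
  (Nat.xor (su G (mq G d)) G.ONE)

noncomputable def cl2 (G : Grp) (d : Nat) : Nat :=
  (sd G (mq G d))

noncomputable def ch1 (G : Grp) (d : Nat) : Nat :=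
  (Nat.xor (sd G (dq G d)) G.ONE)

noncomputable def ch2 (G : Grp) (d : Nat) : Nat :=
  (su G (dq G d))

noncomputable def cmp (G : Grp) (p : Nat) : Nat :=
  (Nat.lor (sd G p) (su G p))

noncomputable def sqh (G : Grp) (h : Nat) : Nat :=
  (Nat.land (Nat.shiftRight G.sq (Nat.mul (hqv G h) (nat_lit 9))) (nat_lit 511))

noncomputable def cb0 (G : Grp) (h : Nat) : Nat :=
  (Nat.land (su G (sqh G h)) (sd G (sqh G h)))

noncomputable def cb1 (G : Grp) (h : Nat) : Nat :=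
  (Nat.xor (cb0 G h) G.ONE)

noncomputable def cb2 (G : Grp) (h : Nat) : Nat :=
  (cmp G (sqh G h))

noncomputable def ctc (G : Grp) (k p : Nat) : Nat :=
  (Nat.add (Nat.add (Nat.mul (sel4 (Nat.mod (Nat.div p G.st1) G.X1) (Nat.div p G.st0) (Nat.div p G.st0) (Nat.div p G.st0) k) G.st1) (Nat.mul (sel4 (Nat.mod (Nat.div p G.M) G.X2) (Nat.mod (Nat.div p G.M) G.X2) (Nat.mod (Nat.div p G.st1) G.X1) (Nat.mod (Nat.div p G.st1) G.X1) k) G.M)) (sel4 (Nat.mod p G.M) (Nat.mod p G.M) (Nat.mod p G.M) (Nat.mod (Nat.div p G.M) G.X2) k))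

noncomputable def ct2 (G : Grp) (k h : Nat) : Nat :=
  (Nat.land (Nat.shiftRight G.tt (Nat.mul (ctc G k (sqh G h)) G.W)) G.ONE)

noncomputable def ct1 (G : Grp) (k h : Nat) : Nat :=
  (Nat.xor (ct2 G k h) G.ONE)

noncomputable def fx1 (G : Grp) (h : Nat) : Nat :=
  (Nat.land (Nat.shiftLeft (nat_lit 1) (hqv G h)) (cb0 G h))

noncomputable def fx3 (G : Grp) (h : Nat) : Nat :=
  (dn G (hqv G h))

noncomputable def fr (G : Grp) (m : Nat) : Nat :=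
  (hqv G (Nat.sub (Nat.mod (Nat.xor m (Nat.succ m)) (nat_lit 509)) (nat_lit 1)))

noncomputable def fw (G : Grp) (m : Nat) : Nat :=
  (Nat.mul (fr G m) G.W)

noncomputable def fs (G : Grp) (m : Nat) : Nat :=
  (Nat.mul (nat_lit 16) (fr G m))

noncomputable def fb (G : Grp) (m : Nat) : Nat :=
  (Nat.shiftLeft (nat_lit 1) (fw G m))

noncomputable def tl (G : Grp) (t : Nat) : Nat :=
  (@Nat.rec (fun _ => Nat) (nat_lit 0) (fun o _ => (Nat.land (Nat.shiftRight (nthN G.hf o) (Nat.mul (Nat.land t (nat_lit 15)) (nat_lit 4096))) (Nat.sub (Nat.shiftLeft (nat_lit 1) (nat_lit 4096)) (nat_lit 1)))) (Nat.succ (Nat.shiftRight t (nat_lit 4))))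

noncomputable def tn (G : Grp) (t m : Nat) : Nat :=
  (tl G (Nat.add t (fr G m)))

noncomputable def gtv (G : Grp) (r : Nat) : Nat :=
  (Nat.xor (Nat.land (Nat.shiftRight G.lev (Nat.mul r G.W)) G.ONE) G.ONE)

noncomputable def vlv (G : Grp) (r : Nat) : Nat :=
  (Nat.land (Nat.shiftRight G.vl (Nat.mul r (nat_lit 9))) (nat_lit 511))

noncomputable def sNOP (tb : Nat) : Fn :=
  Fn.mk fun (k : K) (A R Ll Lu P cx c U B F Z LB D : Nat) =>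
  (k A R Ll Lu P tb c U B F Z LB D)

noncomputable def sLO (G : Grp) (rep tt ad tp sm ONE C1 jW js tb : Nat) : Fn :=
  Fn.mk fun (k : K) (A R Ll Lu P cx c U B F Z LB D : Nat) =>
  (@Nat.rec (fun _ => Nat) (nat_lit 0) (fun d _ => (@Nat.rec (fun _ => Nat) (nat_lit 0) (fun rb _ => (k A R Ll Lu P tb c U B (Nat.xor F (Nat.land F (Nat.shiftLeft (lo2 G d) jW))) (Nat.lor Z (Nat.land (cnr G (Nat.sub C1 (Nat.land (Nat.shiftRight A js) (nat_lit 65535)))) (cone G rb))) (Nat.land (cnr G (Nat.sub C1 (Nat.land (Nat.shiftRight A js) (nat_lit 65535)))) (cone G rb)) D)) (Nat.sub (Nat.sub (Nat.land (Nat.shiftRight A js) (nat_lit 65535)) (mq G d)) (Nat.shiftLeft (Nat.land (Nat.land (Nat.shiftRight D jW) ONE) (lo1 G d)) (nat_lit 16))))) (Nat.mod (Nat.land (Nat.add (Nat.land (Nat.mul (Nat.land (Nat.shiftRight D jW) ONE) rep) tt) ad) tp) sm))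

noncomputable def sCa (c1 c2 : Nat → Nat) (rep tt ad tp sm ONE jW bj tb : Nat) : Fn :=
  Fn.mk fun (k : K) (A R Ll Lu P cx c U B F Z LB D : Nat) =>
  (@Nat.rec (fun _ => Nat) (nat_lit 0) (fun h _ => (@Bool.rec (fun _ => Nat) (nat_lit 0) (k A R Ll Lu P tb c (Nat.xor U (Nat.land U (c2 h))) (Nat.lor B (Nat.shiftLeft (c2 h) jW)) F Z LB (Nat.xor D (Nat.land D (Nat.mul (c2 h) (Nat.xor R bj))))) (Nat.ble (Nat.succ (Nat.land (Nat.land (Nat.shiftRight D jW) ONE) (c1 h))) (Nat.land (Nat.shiftRight R jW) (nat_lit 1))))) (Nat.mod (Nat.land (Nat.add (Nat.land (Nat.mul (Nat.land (Nat.shiftRight D jW) ONE) rep) tt) ad) tp) sm))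

noncomputable def sCb (c1 c2 : Nat → Nat) (ONE jW bj tb : Nat) : Fn :=
  Fn.mk fun (k : K) (A R Ll Lu P cx c U B F Z LB D : Nat) =>
  (@Nat.rec (fun _ => Nat) (nat_lit 0) (fun h _ => (@Bool.rec (fun _ => Nat) (nat_lit 0) (k A R Ll Lu P tb c (Nat.xor U (Nat.land U (c2 h))) (Nat.lor B (Nat.shiftLeft (c2 h) jW)) F Z LB (Nat.xor D (Nat.land D (Nat.mul (c2 h) (Nat.xor R bj))))) (Nat.beq (Nat.land (Nat.land (Nat.shiftRight D jW) ONE) (c1 h)) (nat_lit 0)))) (Nat.mod (Nat.xor (Nat.land (Nat.shiftRight D jW) ONE) (Nat.sub (Nat.land (Nat.shiftRight D jW) ONE) (nat_lit 1))) (nat_lit 509)))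

noncomputable def sFIX (G : Grp) (ONE C1 jW js bj tb : Nat) : Fn :=
  Fn.mk fun (k : K) (A R Ll Lu P cx c U B F Z LB D : Nat) =>
  (@Nat.rec (fun _ => Nat) (nat_lit 0) (fun h _ => (@Nat.rec (fun _ => Nat) (nat_lit 0) (fun rb _ => (k A R Ll Lu (Nat.xor P (Nat.land P (Nat.shiftLeft (nc0 G rb) jW))) tb c (Nat.xor U (Nat.land U (cb2 G h))) (Nat.lor B (Nat.shiftLeft (cb2 G h) jW)) (Nat.xor F (Nat.land F (Nat.shiftLeft (fx3 G h) jW))) (Nat.lor Z (Nat.land (cnr G (Nat.sub C1 (Nat.land (Nat.shiftRight A js) (nat_lit 65535)))) (cone G rb))) (Nat.land (cnr G (Nat.sub C1 (Nat.land (Nat.shiftRight A js) (nat_lit 65535)))) (cone G rb)) (Nat.xor D (Nat.land D (Nat.mul (cb2 G h) (Nat.xor R bj)))))) (Nat.sub (Nat.sub (Nat.land (Nat.shiftRight A js) (nat_lit 65535)) (hqv G h)) (Nat.shiftLeft (Nat.xor (Nat.land (Nat.shiftRight D jW) ONE) (fx1 G h)) (nat_lit 16)))))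 (Nat.mod (Nat.xor (Nat.land (Nat.shiftRight D jW) ONE) (Nat.sub (Nat.land (Nat.shiftRight D jW) ONE) (nat_lit 1))) (nat_lit 509)))

noncomputable def sGEl (G : Grp) (ONE C1 jW js tb : Nat) : Fn :=
  Fn.mk fun (k : K) (A R Ll Lu P cx c U B F Z LB D : Nat) =>
  (@Nat.rec (fun _ => Nat) (nat_lit 0) (fun h _ => (k A R Ll Lu P tb c U B F Z LB (Nat.xor D (Nat.land D (Nat.shiftLeft (uph G h) jW))))) (Nat.mod (Nat.xor (Nat.land (Nat.land (Nat.shiftRight LB (Nat.sub C1 (Nat.land (Nat.shiftRight A js) (nat_lit 65535)))) (Nat.shiftRight F jW)) ONE) (Nat.sub (Nat.land (Nat.land (Nat.shiftRight LB (Nat.sub C1 (Nat.land (Nat.shiftRight A js) (nat_lit 65535)))) (Nat.shiftRight F jW)) ONE) (nat_lit 1))) (nat_lit 509)))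

noncomputable def sGE (cl : Nat → Nat) (ONE C1 jW js tb : Nat) : Fn :=
  Fn.mk fun (k : K) (A R Ll Lu P cx c U B F Z LB D : Nat) =>
  (k A R Ll Lu P tb c U B F Z LB (Nat.xor D (Nat.land D (Nat.shiftLeft (cl (Nat.land (Nat.land (Nat.shiftRight Z (Nat.sub C1 (Nat.land (Nat.shiftRight A js) (nat_lit 65535)))) (Nat.shiftRight F jW)) ONE)) jW))))

noncomputable def sNEW (G : Grp) (cl : Nat → Nat) (W ONE C1 M st0 st1 w0 w1 w2 w3 wm hq ta cxb : Nat) : Fn :=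
  Fn.mk fun (k : K) (A R Ll Lu P cx c U B F Z LB D : Nat) =>
  (@Nat.rec (fun _ => Nat) (nat_lit 0) (fun mr _ => (@Nat.rec (fun _ => Nat) (nat_lit 0) (fun r _ => (@Bool.rec (fun _ => Nat) (nat_lit 0) (k (Nat.lor A (Nat.shiftLeft (Nat.sub C1 r) (fs G mr))) (Nat.lor R (fb G mr)) Ll Lu (Nat.lor P (Nat.shiftLeft (cn0 G r) (fw G mr))) (tn G cxb mr) (Nat.shiftRight c (Nat.land (Nat.shiftRight (Nat.shiftRight ta (Nat.land c (nat_lit 8176))) (nat_lit 12)) (nat_lit 15))) U B (Nat.lor F (Nat.shiftLeft (f0 G r) (fw G mr))) (Nat.lor Z (cell G r)) (cell G r) (Nat.lor D (Nat.shiftLeft (Nat.xor (Nat.land U (room G r)) (Nat.land (Nat.land U (room G r)) (cl (Nat.land (Nat.shiftRight Z r) (f0 G r))))) (fw G mr)))) (Nat.beq (q16 (fun (k : Nat → Nat → Nat → Nat) (m t acc : Nat) => (@Nat.rec (fun _ => Nat) (Nat.lor acc t) (fun m1 _ => (@Nat.rec (fun _ => Nat) (nat_lit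 1) (fun h _ => (k (Nat.land m m1) (Nat.xor t (fb G m1)) (Nat.lor acc (Nat.land (Nat.shiftRight D (fw G m1)) (uph G h))))) (Nat.mod (Nat.xor (Nat.shiftRight (cell G r) (Nat.sub C1 (Nat.land (Nat.shiftRight A (fs G m1)) (nat_lit 65535)))) (Nat.sub (Nat.shiftRight (cell G r) (Nat.sub C1 (Nat.land (Nat.shiftRight A (fs G m1)) (nat_lit 65535)))) (nat_lit 1))) (nat_lit 509)))) m)) (fun _ _ _ => 1) (Nat.mod (Nat.land (Nat.shiftRight P (x0 G r)) R) wm) (Nat.land (Nat.shiftRight P (x0 G r)) R) (Nat.lor (Nat.land R (fb G mr)) (Nat.sub (nat_lit 1) (skp (Nat.land (Nat.shiftRight (Nat.shiftRight ta (Nat.land c (nat_lit 8176))) (nat_lit 4)) (nat_lit 255)) (Nat.land (Nat.land (Nat.xor (Nat.land (Nat.shiftRight (Nat.lor Z (bey G Ll)) (Nat.mul (Nat.land (Nat.shiftRight ta (Nat.land c (nat_lit 8176))) (nat_lit 15)) W)) ONE) ONE) (Nat.land (Nat.lor (Nat.shiftLeft (Nat.land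 (Nat.shiftRight Z (Nat.mul (Nat.land (Nat.shiftRight ta (Nat.land c (nat_lit 8176))) (nat_lit 15)) W)) ONE) st0) w0) (Nat.lor (Nat.shiftLeft (Nat.land (Nat.shiftRight Z (Nat.mul (Nat.land (Nat.shiftRight ta (Nat.land c (nat_lit 8176))) (nat_lit 15)) W)) ONE) st1) w1))) (Nat.land (Nat.lor (Nat.shiftLeft (Nat.land (Nat.shiftRight Z (Nat.mul (Nat.land (Nat.shiftRight ta (Nat.land c (nat_lit 8176))) (nat_lit 15)) W)) ONE) M) w2) (Nat.lor (Nat.shiftLeft (Nat.land (Nat.shiftRight Z (Nat.mul (Nat.land (Nat.shiftRight ta (Nat.land c (nat_lit 8176))) (nat_lit 15)) W)) ONE) (nat_lit 1)) w3))))))) (nat_lit 0)))) (Nat.add (Nat.mul (Nat.land (Nat.shiftRight ta (Nat.land c (nat_lit 8176))) (nat_lit 15)) W) (Nat.land (Nat.shiftRight hq (Nat.mul (Nat.mod (Nat.xor (skp (Nat.land (Nat.shiftRight (Nat.shiftRight ta (Nat.land c (nat_lit 8176))) (nat_lit 4)) (nat_lit 255))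 (Nat.land (Nat.land (Nat.xor (Nat.land (Nat.shiftRight (Nat.lor Z (bey G Ll)) (Nat.mul (Nat.land (Nat.shiftRight ta (Nat.land c (nat_lit 8176))) (nat_lit 15)) W)) ONE) ONE) (Nat.land (Nat.lor (Nat.shiftLeft (Nat.land (Nat.shiftRight Z (Nat.mul (Nat.land (Nat.shiftRight ta (Nat.land c (nat_lit 8176))) (nat_lit 15)) W)) ONE) st0) w0) (Nat.lor (Nat.shiftLeft (Nat.land (Nat.shiftRight Z (Nat.mul (Nat.land (Nat.shiftRight ta (Nat.land c (nat_lit 8176))) (nat_lit 15)) W)) ONE) st1) w1))) (Nat.land (Nat.lor (Nat.shiftLeft (Nat.land (Nat.shiftRight Z (Nat.mul (Nat.land (Nat.shiftRight ta (Nat.land c (nat_lit 8176))) (nat_lit 15)) W)) ONE) M) w2) (Nat.lor (Nat.shiftLeft (Nat.land (Nat.shiftRight Z (Nat.mul (Nat.land (Nat.shiftRight ta (Nat.land c (nat_lit 8176))) (nat_lit 15)) W)) ONE) (nat_lit 1)) w3)))) (Nat.sub (skp (Nat.land (Nat.shiftRight (Nat.shiftRight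 ta (Nat.land c (nat_lit 8176))) (nat_lit 4)) (nat_lit 255)) (Nat.land (Nat.land (Nat.xor (Nat.land (Nat.shiftRight (Nat.lor Z (bey G Ll)) (Nat.mul (Nat.land (Nat.shiftRight ta (Nat.land c (nat_lit 8176))) (nat_lit 15)) W)) ONE) ONE) (Nat.land (Nat.lor (Nat.shiftLeft (Nat.land (Nat.shiftRight Z (Nat.mul (Nat.land (Nat.shiftRight ta (Nat.land c (nat_lit 8176))) (nat_lit 15)) W)) ONE) st0) w0) (Nat.lor (Nat.shiftLeft (Nat.land (Nat.shiftRight Z (Nat.mul (Nat.land (Nat.shiftRight ta (Nat.land c (nat_lit 8176))) (nat_lit 15)) W)) ONE) st1) w1))) (Nat.land (Nat.lor (Nat.shiftLeft (Nat.land (Nat.shiftRight Z (Nat.mul (Nat.land (Nat.shiftRight ta (Nat.land c (nat_lit 8176))) (nat_lit 15)) W)) ONE) M) w2) (Nat.lor (Nat.shiftLeft (Nat.land (Nat.shiftRight Z (Nat.mul (Nat.land (Nat.shiftRight ta (Nat.land c (nat_lit 8176))) (nat_lit 15)) W)) ONE) (nat_lit 1))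 w3)))) (nat_lit 1))) (nat_lit 509)) (nat_lit 9))) (nat_lit 511))))) (Nat.succ (Nat.mod R wm)))

noncomputable def sDROP (G : Grp) (ONE C1 hq jW js nm tb : Nat) : Fn :=
  Fn.mk fun (k : K) (A R Ll Lu P cx c U B F Z LB D : Nat) =>
  (@Nat.rec (fun _ => Nat) (nat_lit 0) (fun r _ => (@Nat.rec (fun _ => Nat) (nat_lit 0) (fun rb _ => (@Bool.rec (fun _ => Nat) (nat_lit 0) (k (Nat.xor A (Nat.shiftLeft (Nat.land (Nat.shiftRight A js) (nat_lit 65535)) js)) (Nat.xor R (Nat.land R nm)) Ll Lu (Nat.xor P (Nat.land P nm)) tb c (Nat.lor U (Nat.land (Nat.shiftRight D jW) ONE)) (Nat.xor B (Nat.land B nm)) (Nat.xor F (Nat.land F nm)) (Nat.xor Z (Nat.land Z (Nat.land (cone G r) (cone G rb)))) (nat_lit 0) (Nat.xor D (Nat.land D nm))) (Nat.beq (Nat.xor (room G r) (Nat.land (room G r) (Nat.lor (Nat.shiftRight F jW) (Nat.shiftRight (Nat.land (cone G r) (cone G rb)) r))))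 (nat_lit 0)))) (Nat.succ (Nat.sub (Nat.land (Nat.shiftRight A js) (nat_lit 65535)) (Nat.land (Nat.shiftRight hq (Nat.mul (Nat.mod (Nat.xor (Nat.land (Nat.shiftRight D jW) ONE) (Nat.sub (Nat.land (Nat.shiftRight D jW) ONE) (nat_lit 1))) (nat_lit 509)) (nat_lit 9))) (nat_lit 511)))))) (Nat.succ (Nat.sub C1 (Nat.land (Nat.shiftRight A js) (nat_lit 65535)))))

noncomputable def sS3 (G : Grp) (C1 jW js ta tb : Nat) : Fn :=
  Fn.mk fun (k : K) (A R Ll Lu P cx c U B F Z LB D : Nat) =>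
  (@Nat.rec (fun _ => Nat) (nat_lit 0) (fun q _ => (@Nat.rec (fun _ => Nat) (nat_lit 0) (fun rq _ => (@Bool.rec (fun _ => Nat) (nat_lit 0) (k A R Ll Lu P tb (Nat.shiftRight c (Nat.land (Nat.shiftRight (Nat.shiftRight ta (Nat.land c (nat_lit 8176))) (nat_lit 12)) (nat_lit 15))) U B F Z LB (Nat.xor D (Nat.land D (Nat.shiftLeft (Nat.land (up G q) (Nat.shiftRight (Nat.xor D (Nat.sub D (nat_lit 1))) (nat_lit 1))) jW)))) (Nat.ble (nat_lit 1) (Nat.land (cell G rq) (cor G Lu))))) (Nat.succ (Nat.add (Nat.sub C1 (Nat.land (Nat.shiftRight A js) (nat_lit 65535))) q)))) (Nat.land (Nat.shiftRight ta (Nat.land c (nat_lit 8176))) (nat_lit 4095)))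

noncomputable def sLL (G : Grp) (ta tb : Nat) : Fn :=
  Fn.mk fun (k : K) (A R Ll Lu P cx c U B F Z LB D : Nat) =>
  (@Nat.rec (fun _ => Nat) (nat_lit 0) (fun v _ => (@Bool.rec (fun _ => Nat) (nat_lit 0) (@Bool.rec (fun _ => Nat) (nat_lit 0) (k A R (Nat.succ v) Lu P tb (Nat.shiftRight c (Nat.land (Nat.shiftRight (Nat.shiftRight ta (Nat.land c (nat_lit 8176))) (nat_lit 12)) (nat_lit 15))) U B F Z LB D) (Nat.ble (nat_lit 1) (Nat.land Z (Nat.xor (ltk G (nat_lit 3) Lu) (Nat.land (ltk G (nat_lit 3) Lu) (ltk G (nat_lit 3) v)))))) (Nat.ble v Lu))) (Nat.land (Nat.shiftRight ta (Nat.land c (nat_lit 8176))) (nat_lit 4095)))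

noncomputable def sSPX (G : Grp) (jW ta tb tr : Nat) : Fn :=
  Fn.mk fun (k : K) (A R Ll Lu P cx c U B F Z LB D : Nat) =>
  (@Nat.rec (fun _ => Nat) (nat_lit 0) (fun q _ => (@Nat.rec (fun _ => Nat) (nat_lit 0) (fun e _ => (k A R Ll Lu P tr e U B F Z LB (Nat.xor D (Nat.land D (Nat.shiftLeft (nup G q) jW))))) (k A R Ll Lu P tb (Nat.shiftRight c (Nat.land (Nat.shiftRight (Nat.shiftRight ta (Nat.land c (nat_lit 8176))) (nat_lit 12)) (nat_lit 15))) U B F Z LB (Nat.xor D (Nat.land D (Nat.shiftLeft (up G q) jW)))))) (Nat.land (Nat.shiftRight ta (Nat.land c (nat_lit 8176))) (nat_lit 4095)))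

noncomputable def sSPXt (G : Grp) (jW ta tb tr : Nat) : Fn :=
  Fn.mk fun (k : K) (A R Ll Lu P cx c U B F Z LB D : Nat) =>
  (@Nat.rec (fun _ => Nat) (nat_lit 0) (fun q _ => (@Bool.rec (fun _ => Nat) (nat_lit 0) (k A R Ll Lu P tr (Nat.shiftRight (Nat.shiftRight (Nat.shiftRight c (Nat.land (Nat.shiftRight (Nat.shiftRight ta (Nat.land c (nat_lit 8176))) (nat_lit 12)) (nat_lit 15))) (nat_lit 21)) (Nat.land (Nat.shiftRight (Nat.shiftRight c (Nat.land (Nat.shiftRight (Nat.shiftRight ta (Nat.land c (nat_lit 8176))) (nat_lit 12)) (nat_lit 15))) (nat_lit 4)) (nat_lit 2097151))) U B F Z LB (Nat.xor D (Nat.land D (Nat.shiftLeft (nup G q) jW)))) (Nat.ble (nat_lit 1) (k A R Ll Lu P tb (Nat.land (Nat.shiftRight (Nat.shiftRight c (Nat.land (Nat.shiftRight (Nat.shiftRight ta (Nat.land c (nat_lit 8176))) (nat_lit 12)) (nat_lit 15))) (nat_lit 21)) (Nat.sub (Nat.shiftLeft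 (nat_lit 1) (Nat.add (Nat.land (Nat.shiftRight (Nat.shiftRight c (Nat.land (Nat.shiftRight (Nat.shiftRight ta (Nat.land c (nat_lit 8176))) (nat_lit 12)) (nat_lit 15))) (nat_lit 4)) (nat_lit 2097151)) (nat_lit 4))) (nat_lit 1))) U B F Z LB (Nat.xor D (Nat.land D (Nat.shiftLeft (up G q) jW))))))) (Nat.land (Nat.shiftRight ta (Nat.land c (nat_lit 8176))) (nat_lit 4095)))

noncomputable def sSPL (G : Grp) (ta tb tr : Nat) : Fn :=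
  Fn.mk fun (k : K) (A R Ll Lu P cx c U B F Z LB D : Nat) =>
  (@Nat.rec (fun _ => Nat) (nat_lit 0) (fun v _ => (@Bool.rec (fun _ => Nat) (nat_lit 0) (@Nat.rec (fun _ => Nat) (nat_lit 0) (fun e _ => (k A R (Nat.succ v) Lu P tr e U B F Z LB D)) (k A R Ll v P tb (Nat.shiftRight c (Nat.land (Nat.shiftRight (Nat.shiftRight ta (Nat.land c (nat_lit 8176))) (nat_lit 12)) (nat_lit 15))) U B F (Nat.lor Z (bey G v)) LB D)) (Nat.ble v Lu))) (Nat.land (Nat.shiftRight ta (Nat.land c (nat_lit 8176))) (nat_lit 4095)))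

noncomputable def sSPLt (G : Grp) (ta tb tr : Nat) : Fn :=
  Fn.mk fun (k : K) (A R Ll Lu P cx c U B F Z LB D : Nat) =>
  (@Nat.rec (fun _ => Nat) (nat_lit 0) (fun v _ => (@Bool.rec (fun _ => Nat) (nat_lit 0) (@Bool.rec (fun _ => Nat) (nat_lit 0) (k A R (Nat.succ v) Lu P tr (Nat.shiftRight (Nat.shiftRight (Nat.shiftRight c (Nat.land (Nat.shiftRight (Nat.shiftRight ta (Nat.land c (nat_lit 8176))) (nat_lit 12)) (nat_lit 15))) (nat_lit 21)) (Nat.land (Nat.shiftRight (Nat.shiftRight c (Nat.land (Nat.shiftRight (Nat.shiftRight ta (Nat.land c (nat_lit 8176))) (nat_lit 12)) (nat_lit 15))) (nat_lit 4)) (nat_lit 2097151))) U B F Z LB D) (Nat.ble (nat_lit 1) (k A R Ll v P tb (Nat.land (Nat.shiftRight (Nat.shiftRight c (Nat.land (Nat.shiftRight (Nat.shiftRight ta (Nat.land c (nat_lit 8176))) (nat_lit 12)) (nat_lit 15))) (nat_lit 21)) (Nat.sub (Nat.shiftLeft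 (nat_lit 1) (Nat.add (Nat.land (Nat.shiftRight (Nat.shiftRight c (Nat.land (Nat.shiftRight (Nat.shiftRight ta (Nat.land c (nat_lit 8176))) (nat_lit 12)) (nat_lit 15))) (nat_lit 4)) (nat_lit 2097151)) (nat_lit 4))) (nat_lit 1))) U B F (Nat.lor Z (bey G v)) LB D))) (Nat.ble v Lu))) (Nat.land (Nat.shiftRight ta (Nat.land c (nat_lit 8176))) (nat_lit 4095)))

noncomputable def sDEAD (bj nm : Nat) : Fn :=
  Fn.mk fun (k : K) (A R Ll Lu P cx c U B F Z LB D : Nat) =>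
  (@Bool.rec (fun _ => Nat) (nat_lit 0) (Nat.succ c) (Nat.ble (Nat.succ (Nat.land D nm)) (Nat.land R bj)))

noncomputable def sTRIV (G : Grp) (j : Nat) : Fn :=
  Fn.mk fun (k : K) (A R Ll Lu P cx c U B F Z LB D : Nat) =>
  (@Bool.rec (fun _ => Nat) (nat_lit 0) (Nat.succ c) (Nat.beq (Nat.lor (Nat.xor (ltk G (nat_lit 3) Lu) (Nat.land (ltk G (nat_lit 3) Lu) Z)) (Nat.land D (Nat.mul (ltk G j (Nat.sub (sel4 G.X0 G.X1 G.X2 Lu j) (nat_lit 1))) R))) (nat_lit 0)))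

noncomputable def sVOL (G : Grp) (vz : KV) (AA tb : Nat) : Fn :=
  Fn.mk fun (k : K) (A R Ll Lu P cx c U B F Z LB D : Nat) =>
  (vz D B (Nat.mul AA Ll) tb c (vw0 G Lu) (nat_lit 0))

noncomputable def sCUT (cut : K) (tb : Nat) : Fn :=
  Fn.mk fun (k : K) (A R Ll Lu P cx c U B F Z LB D : Nat) =>
  (cut A R Ll Lu P tb (Nat.land (Nat.shiftRight c (nat_lit 4)) (nat_lit 4095)) U B F Z LB D)

noncomputable def up5 (h nh m1 d1 m2 d2 m3 d3 m4 d4 m5 d5 : Nat) : Cf :=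
  Cf.mk fun (S : Nat) =>
  (Nat.lor (Nat.lor (Nat.lor (Nat.lor (Nat.lor (Nat.lor (Nat.xor (Nat.sub h (Nat.land S nh)) h) S) (Nat.shiftLeft (Nat.land (Nat.lor (Nat.xor (Nat.sub h (Nat.land S nh)) h) S) m1) d1)) (Nat.shiftLeft (Nat.land (Nat.lor (Nat.lor (Nat.xor (Nat.sub h (Nat.land S nh)) h) S) (Nat.shiftLeft (Nat.land (Nat.lor (Nat.xor (Nat.sub h (Nat.land S nh)) h) S) m1) d1)) m2) d2)) (Nat.shiftLeft (Nat.land (Nat.lor (Nat.lor (Nat.lor (Nat.xor (Nat.sub h (Nat.land S nh)) h) S) (Nat.shiftLeft (Nat.land (Nat.lor (Nat.xor (Nat.sub h (Nat.land S nh)) h) S) m1) d1)) (Nat.shiftLeft (Nat.land (Nat.lor (Nat.lor (Nat.xor (Nat.sub h (Nat.land S nh)) h) S) (Nat.shiftLeft (Nat.land (Nat.lor (Nat.xor (Nat.sub h (Nat.land S nh)) h) S) m1) d1)) m2) d2)) m3) d3)) (Nat.shiftLeft (Nat.land (Nat.lor (Nat.lor (Nat.lor (Nat.lor (Nat.xor (Nat.sub h (Nat.land S nh))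 h) S) (Nat.shiftLeft (Nat.land (Nat.lor (Nat.xor (Nat.sub h (Nat.land S nh)) h) S) m1) d1)) (Nat.shiftLeft (Nat.land (Nat.lor (Nat.lor (Nat.xor (Nat.sub h (Nat.land S nh)) h) S) (Nat.shiftLeft (Nat.land (Nat.lor (Nat.xor (Nat.sub h (Nat.land S nh)) h) S) m1) d1)) m2) d2)) (Nat.shiftLeft (Nat.land (Nat.lor (Nat.lor (Nat.lor (Nat.xor (Nat.sub h (Nat.land S nh)) h) S) (Nat.shiftLeft (Nat.land (Nat.lor (Nat.xor (Nat.sub h (Nat.land S nh)) h) S) m1) d1)) (Nat.shiftLeft (Nat.land (Nat.lor (Nat.lor (Nat.xor (Nat.sub h (Nat.land S nh)) h) S) (Nat.shiftLeft (Nat.land (Nat.lor (Nat.xor (Nat.sub h (Nat.land S nh)) h) S) m1) d1)) m2) d2)) m3) d3)) m4) d4)) (Nat.shiftLeft (Nat.land (Nat.lor (Nat.lor (Nat.lor (Nat.lor (Nat.lor (Nat.xor (Nat.sub h (Nat.land S nh)) h) S) (Nat.shiftLeft (Nat.land (Nat.lor (Nat.xor (Nat.sub h (Nat.land S nh)) h) S) m1) d1)) (Nat.shiftLeft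 (Nat.land (Nat.lor (Nat.lor (Nat.xor (Nat.sub h (Nat.land S nh)) h) S) (Nat.shiftLeft (Nat.land (Nat.lor (Nat.xor (Nat.sub h (Nat.land S nh)) h) S) m1) d1)) m2) d2)) (Nat.shiftLeft (Nat.land (Nat.lor (Nat.lor (Nat.lor (Nat.xor (Nat.sub h (Nat.land S nh)) h) S) (Nat.shiftLeft (Nat.land (Nat.lor (Nat.xor (Nat.sub h (Nat.land S nh)) h) S) m1) d1)) (Nat.shiftLeft (Nat.land (Nat.lor (Nat.lor (Nat.xor (Nat.sub h (Nat.land S nh)) h) S) (Nat.shiftLeft (Nat.land (Nat.lor (Nat.xor (Nat.sub h (Nat.land S nh)) h) S) m1) d1)) m2) d2)) m3) d3)) (Nat.shiftLeft (Nat.land (Nat.lor (Nat.lor (Nat.lor (Nat.lor (Nat.xor (Nat.sub h (Nat.land S nh)) h) S) (Nat.shiftLeft (Nat.land (Nat.lor (Nat.xor (Nat.sub h (Nat.land S nh)) h) S) m1) d1)) (Nat.shiftLeft (Nat.land (Nat.lor (Nat.lor (Nat.xor (Nat.sub h (Nat.land S nh)) h) S) (Nat.shiftLeft (Nat.land (Nat.lor (Nat.xor (Nat.sub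 h (Nat.land S nh)) h) S) m1) d1)) m2) d2)) (Nat.shiftLeft (Nat.land (Nat.lor (Nat.lor (Nat.lor (Nat.xor (Nat.sub h (Nat.land S nh)) h) S) (Nat.shiftLeft (Nat.land (Nat.lor (Nat.xor (Nat.sub h (Nat.land S nh)) h) S) m1) d1)) (Nat.shiftLeft (Nat.land (Nat.lor (Nat.lor (Nat.xor (Nat.sub h (Nat.land S nh)) h) S) (Nat.shiftLeft (Nat.land (Nat.lor (Nat.xor (Nat.sub h (Nat.land S nh)) h) S) m1) d1)) m2) d2)) m3) d3)) m4) d4)) m5) d5))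

noncomputable def up6 (h nh m1 d1 m2 d2 m3 d3 m4 d4 m5 d5 m6 d6 : Nat) : Cf :=
  Cf.mk fun (S : Nat) =>
  (Nat.lor (Nat.lor (Nat.lor (Nat.lor (Nat.lor (Nat.lor (Nat.lor (Nat.xor (Nat.sub h (Nat.land S nh)) h) S) (Nat.shiftLeft (Nat.land (Nat.lor (Nat.xor (Nat.sub h (Nat.land S nh)) h) S) m1) d1)) (Nat.shiftLeft (Nat.land (Nat.lor (Nat.lor (Nat.xor (Nat.sub h (Nat.land S nh)) h) S) (Nat.shiftLeft (Nat.land (Nat.lor (Nat.xor (Nat.sub h (Nat.land S nh)) h) S) m1) d1)) m2) d2)) (Nat.shiftLeft (Nat.land (Nat.lor (Nat.lor (Nat.lor (Nat.xor (Nat.sub h (Nat.land S nh)) h) S) (Nat.shiftLeft (Nat.land (Nat.lor (Nat.xor (Nat.sub h (Nat.land S nh)) h) S) m1) d1)) (Nat.shiftLeft (Nat.land (Nat.lor (Nat.lor (Nat.xor (Nat.sub h (Nat.land S nh)) h) S) (Nat.shiftLeft (Nat.land (Nat.lor (Nat.xor (Nat.sub h (Nat.land S nh)) h) S) m1) d1)) m2) d2)) m3) d3)) (Nat.shiftLeft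 (Nat.land (Nat.lor (Nat.lor (Nat.lor (Nat.lor (Nat.xor (Nat.sub h (Nat.land S nh)) h) S) (Nat.shiftLeft (Nat.land (Nat.lor (Nat.xor (Nat.sub h (Nat.land S nh)) h) S) m1) d1)) (Nat.shiftLeft (Nat.land (Nat.lor (Nat.lor (Nat.xor (Nat.sub h (Nat.land S nh)) h) S) (Nat.shiftLeft (Nat.land (Nat.lor (Nat.xor (Nat.sub h (Nat.land S nh)) h) S) m1) d1)) m2) d2)) (Nat.shiftLeft (Nat.land (Nat.lor (Nat.lor (Nat.lor (Nat.xor (Nat.sub h (Nat.land S nh)) h) S) (Nat.shiftLeft (Nat.land (Nat.lor (Nat.xor (Nat.sub h (Nat.land S nh)) h) S) m1) d1)) (Nat.shiftLeft (Nat.land (Nat.lor (Nat.lor (Nat.xor (Nat.sub h (Nat.land S nh)) h) S) (Nat.shiftLeft (Nat.land (Nat.lor (Nat.xor (Nat.sub h (Nat.land S nh)) h) S) m1) d1)) m2) d2)) m3) d3)) m4) d4)) (Nat.shiftLeft (Nat.land (Nat.lor (Nat.lor (Nat.lor (Nat.lor (Nat.lor (Nat.xor (Nat.sub h (Nat.land S nh)) h) S) (Nat.shiftLeft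 (Nat.land (Nat.lor (Nat.xor (Nat.sub h (Nat.land S nh)) h) S) m1) d1)) (Nat.shiftLeft (Nat.land (Nat.lor (Nat.lor (Nat.xor (Nat.sub h (Nat.land S nh)) h) S) (Nat.shiftLeft (Nat.land (Nat.lor (Nat.xor (Nat.sub h (Nat.land S nh)) h) S) m1) d1)) m2) d2)) (Nat.shiftLeft (Nat.land (Nat.lor (Nat.lor (Nat.lor (Nat.xor (Nat.sub h (Nat.land S nh)) h) S) (Nat.shiftLeft (Nat.land (Nat.lor (Nat.xor (Nat.sub h (Nat.land S nh)) h) S) m1) d1)) (Nat.shiftLeft (Nat.land (Nat.lor (Nat.lor (Nat.xor (Nat.sub h (Nat.land S nh)) h) S) (Nat.shiftLeft (Nat.land (Nat.lor (Nat.xor (Nat.sub h (Nat.land S nh)) h) S) m1) d1)) m2) d2)) m3) d3)) (Nat.shiftLeft (Nat.land (Nat.lor (Nat.lor (Nat.lor (Nat.lor (Nat.xor (Nat.sub h (Nat.land S nh)) h) S) (Nat.shiftLeft (Nat.land (Nat.lor (Nat.xor (Nat.sub h (Nat.land S nh)) h) S) m1) d1)) (Nat.shiftLeft (Nat.land (Nat.lor (Nat.lor (Nat.xor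 (Nat.sub h (Nat.land S nh)) h) S) (Nat.shiftLeft (Nat.land (Nat.lor (Nat.xor (Nat.sub h (Nat.land S nh)) h) S) m1) d1)) m2) d2)) (Nat.shiftLeft (Nat.land (Nat.lor (Nat.lor (Nat.lor (Nat.xor (Nat.sub h (Nat.land S nh)) h) S) (Nat.shiftLeft (Nat.land (Nat.lor (Nat.xor (Nat.sub h (Nat.land S nh)) h) S) m1) d1)) (Nat.shiftLeft (Nat.land (Nat.lor (Nat.lor (Nat.xor (Nat.sub h (Nat.land S nh)) h) S) (Nat.shiftLeft (Nat.land (Nat.lor (Nat.xor (Nat.sub h (Nat.land S nh)) h) S) m1) d1)) m2) d2)) m3) d3)) m4) d4)) m5) d5)) (Nat.shiftLeft (Nat.land (Nat.lor (Nat.lor (Nat.lor (Nat.lor (Nat.lor (Nat.lor (Nat.xor (Nat.sub h (Nat.land S nh)) h) S) (Nat.shiftLeft (Nat.land (Nat.lor (Nat.xor (Nat.sub h (Nat.land S nh)) h) S) m1) d1)) (Nat.shiftLeft (Nat.land (Nat.lor (Nat.lor (Nat.xor (Nat.sub h (Nat.land S nh)) h) S) (Nat.shiftLeft (Nat.land (Nat.lor (Nat.xor (Nat.sub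 h (Nat.land S nh)) h) S) m1) d1)) m2) d2)) (Nat.shiftLeft (Nat.land (Nat.lor (Nat.lor (Nat.lor (Nat.xor (Nat.sub h (Nat.land S nh)) h) S) (Nat.shiftLeft (Nat.land (Nat.lor (Nat.xor (Nat.sub h (Nat.land S nh)) h) S) m1) d1)) (Nat.shiftLeft (Nat.land (Nat.lor (Nat.lor (Nat.xor (Nat.sub h (Nat.land S nh)) h) S) (Nat.shiftLeft (Nat.land (Nat.lor (Nat.xor (Nat.sub h (Nat.land S nh)) h) S) m1) d1)) m2) d2)) m3) d3)) (Nat.shiftLeft (Nat.land (Nat.lor (Nat.lor (Nat.lor (Nat.lor (Nat.xor (Nat.sub h (Nat.land S nh)) h) S) (Nat.shiftLeft (Nat.land (Nat.lor (Nat.xor (Nat.sub h (Nat.land S nh)) h) S) m1) d1)) (Nat.shiftLeft (Nat.land (Nat.lor (Nat.lor (Nat.xor (Nat.sub h (Nat.land S nh)) h) S) (Nat.shiftLeft (Nat.land (Nat.lor (Nat.xor (Nat.sub h (Nat.land S nh)) h) S) m1) d1)) m2) d2)) (Nat.shiftLeft (Nat.land (Nat.lor (Nat.lor (Nat.lor (Nat.xor (Nat.sub h (Nat.land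 S nh)) h) S) (Nat.shiftLeft (Nat.land (Nat.lor (Nat.xor (Nat.sub h (Nat.land S nh)) h) S) m1) d1)) (Nat.shiftLeft (Nat.land (Nat.lor (Nat.lor (Nat.xor (Nat.sub h (Nat.land S nh)) h) S) (Nat.shiftLeft (Nat.land (Nat.lor (Nat.xor (Nat.sub h (Nat.land S nh)) h) S) m1) d1)) m2) d2)) m3) d3)) m4) d4)) (Nat.shiftLeft (Nat.land (Nat.lor (Nat.lor (Nat.lor (Nat.lor (Nat.lor (Nat.xor (Nat.sub h (Nat.land S nh)) h) S) (Nat.shiftLeft (Nat.land (Nat.lor (Nat.xor (Nat.sub h (Nat.land S nh)) h) S) m1) d1)) (Nat.shiftLeft (Nat.land (Nat.lor (Nat.lor (Nat.xor (Nat.sub h (Nat.land S nh)) h) S) (Nat.shiftLeft (Nat.land (Nat.lor (Nat.xor (Nat.sub h (Nat.land S nh)) h) S) m1) d1)) m2) d2)) (Nat.shiftLeft (Nat.land (Nat.lor (Nat.lor (Nat.lor (Nat.xor (Nat.sub h (Nat.land S nh)) h) S) (Nat.shiftLeft (Nat.land (Nat.lor (Nat.xor (Nat.sub h (Nat.land S nh)) h) S) m1) d1)) (Nat.shiftLeft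 (Nat.land (Nat.lor (Nat.lor (Nat.xor (Nat.sub h (Nat.land S nh)) h) S) (Nat.shiftLeft (Nat.land (Nat.lor (Nat.xor (Nat.sub h (Nat.land S nh)) h) S) m1) d1)) m2) d2)) m3) d3)) (Nat.shiftLeft (Nat.land (Nat.lor (Nat.lor (Nat.lor (Nat.lor (Nat.xor (Nat.sub h (Nat.land S nh)) h) S) (Nat.shiftLeft (Nat.land (Nat.lor (Nat.xor (Nat.sub h (Nat.land S nh)) h) S) m1) d1)) (Nat.shiftLeft (Nat.land (Nat.lor (Nat.lor (Nat.xor (Nat.sub h (Nat.land S nh)) h) S) (Nat.shiftLeft (Nat.land (Nat.lor (Nat.xor (Nat.sub h (Nat.land S nh)) h) S) m1) d1)) m2) d2)) (Nat.shiftLeft (Nat.land (Nat.lor (Nat.lor (Nat.lor (Nat.xor (Nat.sub h (Nat.land S nh)) h) S) (Nat.shiftLeft (Nat.land (Nat.lor (Nat.xor (Nat.sub h (Nat.land S nh)) h) S) m1) d1)) (Nat.shiftLeft (Nat.land (Nat.lor (Nat.lor (Nat.xor (Nat.sub h (Nat.land S nh)) h) S) (Nat.shiftLeft (Nat.land (Nat.lor (Nat.xor (Nat.sub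 h (Nat.land S nh)) h) S) m1) d1)) m2) d2)) m3) d3)) m4) d4)) m5) d5)) m6) d6))

noncomputable def up7 (h nh m1 d1 m2 d2 m3 d3 m4 d4 m5 d5 m6 d6 m7 d7 : Nat) : Cf :=
  Cf.mk fun (S : Nat) =>
  (Nat.lor (Nat.lor (Nat.lor (Nat.lor (Nat.lor (Nat.lor (Nat.lor (Nat.lor (Nat.xor (Nat.sub h (Nat.land S nh)) h) S) (Nat.shiftLeft (Nat.land (Nat.lor (Nat.xor (Nat.sub h (Nat.land S nh)) h) S) m1) d1)) (Nat.shiftLeft (Nat.land (Nat.lor (Nat.lor (Nat.xor (Nat.sub h (Nat.land S nh)) h) S) (Nat.shiftLeft (Nat.land (Nat.lor (Nat.xor (Nat.sub h (Nat.land S nh)) h) S) m1) d1)) m2) d2)) (Nat.shiftLeft (Nat.land (Nat.lor (Nat.lor (Nat.lor (Nat.xor (Nat.sub h (Nat.land S nh)) h) S) (Nat.shiftLeft (Nat.land (Nat.lor (Nat.xor (Nat.sub h (Nat.land S nh)) h) S) m1) d1)) (Nat.shiftLeft (Nat.land (Nat.lor (Nat.lor (Nat.xor (Nat.sub h (Nat.land S nh)) h) S) (Nat.shiftLeft (Nat.land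 (Nat.lor (Nat.xor (Nat.sub h (Nat.land S nh)) h) S) m1) d1)) m2) d2)) m3) d3)) (Nat.shiftLeft (Nat.land (Nat.lor (Nat.lor (Nat.lor (Nat.lor (Nat.xor (Nat.sub h (Nat.land S nh)) h) S) (Nat.shiftLeft (Nat.land (Nat.lor (Nat.xor (Nat.sub h (Nat.land S nh)) h) S) m1) d1)) (Nat.shiftLeft (Nat.land (Nat.lor (Nat.lor (Nat.xor (Nat.sub h (Nat.land S nh)) h) S) (Nat.shiftLeft (Nat.land (Nat.lor (Nat.xor (Nat.sub h (Nat.land S nh)) h) S) m1) d1)) m2) d2)) (Nat.shiftLeft (Nat.land (Nat.lor (Nat.lor (Nat.lor (Nat.xor (Nat.sub h (Nat.land S nh)) h) S) (Nat.shiftLeft (Nat.land (Nat.lor (Nat.xor (Nat.sub h (Nat.land S nh)) h) S) m1) d1)) (Nat.shiftLeft (Nat.land (Nat.lor (Nat.lor (Nat.xor (Nat.sub h (Nat.land S nh)) h) S) (Nat.shiftLeft (Nat.land (Nat.lor (Nat.xor (Nat.sub h (Nat.land S nh)) h) S) m1) d1)) m2) d2)) m3) d3)) m4) d4)) (Nat.shiftLeft (Nat.land (Nat.lor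 (Nat.lor (Nat.lor (Nat.lor (Nat.lor (Nat.xor (Nat.sub h (Nat.land S nh)) h) S) (Nat.shiftLeft (Nat.land (Nat.lor (Nat.xor (Nat.sub h (Nat.land S nh)) h) S) m1) d1)) (Nat.shiftLeft (Nat.land (Nat.lor (Nat.lor (Nat.xor (Nat.sub h (Nat.land S nh)) h) S) (Nat.shiftLeft (Nat.land (Nat.lor (Nat.xor (Nat.sub h (Nat.land S nh)) h) S) m1) d1)) m2) d2)) (Nat.shiftLeft (Nat.land (Nat.lor (Nat.lor (Nat.lor (Nat.xor (Nat.sub h (Nat.land S nh)) h) S) (Nat.shiftLeft (Nat.land (Nat.lor (Nat.xor (Nat.sub h (Nat.land S nh)) h) S) m1) d1)) (Nat.shiftLeft (Nat.land (Nat.lor (Nat.lor (Nat.xor (Nat.sub h (Nat.land S nh)) h) S) (Nat.shiftLeft (Nat.land (Nat.lor (Nat.xor (Nat.sub h (Nat.land S nh)) h) S) m1) d1)) m2) d2)) m3) d3)) (Nat.shiftLeft (Nat.land (Nat.lor (Nat.lor (Nat.lor (Nat.lor (Nat.xor (Nat.sub h (Nat.land S nh)) h) S) (Nat.shiftLeft (Nat.land (Nat.lor (Nat.xor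 (Nat.sub h (Nat.land S nh)) h) S) m1) d1)) (Nat.shiftLeft (Nat.land (Nat.lor (Nat.lor (Nat.xor (Nat.sub h (Nat.land S nh)) h) S) (Nat.shiftLeft (Nat.land (Nat.lor (Nat.xor (Nat.sub h (Nat.land S nh)) h) S) m1) d1)) m2) d2)) (Nat.shiftLeft (Nat.land (Nat.lor (Nat.lor (Nat.lor (Nat.xor (Nat.sub h (Nat.land S nh)) h) S) (Nat.shiftLeft (Nat.land (Nat.lor (Nat.xor (Nat.sub h (Nat.land S nh)) h) S) m1) d1)) (Nat.shiftLeft (Nat.land (Nat.lor (Nat.lor (Nat.xor (Nat.sub h (Nat.land S nh)) h) S) (Nat.shiftLeft (Nat.land (Nat.lor (Nat.xor (Nat.sub h (Nat.land S nh)) h) S) m1) d1)) m2) d2)) m3) d3)) m4) d4)) m5) d5)) (Nat.shiftLeft (Nat.land (Nat.lor (Nat.lor (Nat.lor (Nat.lor (Nat.lor (Nat.lor (Nat.xor (Nat.sub h (Nat.land S nh)) h) S) (Nat.shiftLeft (Nat.land (Nat.lor (Nat.xor (Nat.sub h (Nat.land S nh)) h) S) m1) d1)) (Nat.shiftLeft (Nat.land (Nat.lor (Nat.lor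 (Nat.xor (Nat.sub h (Nat.land S nh)) h) S) (Nat.shiftLeft (Nat.land (Nat.lor (Nat.xor (Nat.sub h (Nat.land S nh)) h) S) m1) d1)) m2) d2)) (Nat.shiftLeft (Nat.land (Nat.lor (Nat.lor (Nat.lor (Nat.xor (Nat.sub h (Nat.land S nh)) h) S) (Nat.shiftLeft (Nat.land (Nat.lor (Nat.xor (Nat.sub h (Nat.land S nh)) h) S) m1) d1)) (Nat.shiftLeft (Nat.land (Nat.lor (Nat.lor (Nat.xor (Nat.sub h (Nat.land S nh)) h) S) (Nat.shiftLeft (Nat.land (Nat.lor (Nat.xor (Nat.sub h (Nat.land S nh)) h) S) m1) d1)) m2) d2)) m3) d3)) (Nat.shiftLeft (Nat.land (Nat.lor (Nat.lor (Nat.lor (Nat.lor (Nat.xor (Nat.sub h (Nat.land S nh)) h) S) (Nat.shiftLeft (Nat.land (Nat.lor (Nat.xor (Nat.sub h (Nat.land S nh)) h) S) m1) d1)) (Nat.shiftLeft (Nat.land (Nat.lor (Nat.lor (Nat.xor (Nat.sub h (Nat.land S nh)) h) S) (Nat.shiftLeft (Nat.land (Nat.lor (Nat.xor (Nat.sub h (Nat.land S nh)) h) S)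 m1) d1)) m2) d2)) (Nat.shiftLeft (Nat.land (Nat.lor (Nat.lor (Nat.lor (Nat.xor (Nat.sub h (Nat.land S nh)) h) S) (Nat.shiftLeft (Nat.land (Nat.lor (Nat.xor (Nat.sub h (Nat.land S nh)) h) S) m1) d1)) (Nat.shiftLeft (Nat.land (Nat.lor (Nat.lor (Nat.xor (Nat.sub h (Nat.land S nh)) h) S) (Nat.shiftLeft (Nat.land (Nat.lor (Nat.xor (Nat.sub h (Nat.land S nh)) h) S) m1) d1)) m2) d2)) m3) d3)) m4) d4)) (Nat.shiftLeft (Nat.land (Nat.lor (Nat.lor (Nat.lor (Nat.lor (Nat.lor (Nat.xor (Nat.sub h (Nat.land S nh)) h) S) (Nat.shiftLeft (Nat.land (Nat.lor (Nat.xor (Nat.sub h (Nat.land S nh)) h) S) m1) d1)) (Nat.shiftLeft (Nat.land (Nat.lor (Nat.lor (Nat.xor (Nat.sub h (Nat.land S nh)) h) S) (Nat.shiftLeft (Nat.land (Nat.lor (Nat.xor (Nat.sub h (Nat.land S nh)) h) S) m1) d1)) m2) d2)) (Nat.shiftLeft (Nat.land (Nat.lor (Nat.lor (Nat.lor (Nat.xor (Nat.sub h (Nat.land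 S nh)) h) S) (Nat.shiftLeft (Nat.land (Nat.lor (Nat.xor (Nat.sub h (Nat.land S nh)) h) S) m1) d1)) (Nat.shiftLeft (Nat.land (Nat.lor (Nat.lor (Nat.xor (Nat.sub h (Nat.land S nh)) h) S) (Nat.shiftLeft (Nat.land (Nat.lor (Nat.xor (Nat.sub h (Nat.land S nh)) h) S) m1) d1)) m2) d2)) m3) d3)) (Nat.shiftLeft (Nat.land (Nat.lor (Nat.lor (Nat.lor (Nat.lor (Nat.xor (Nat.sub h (Nat.land S nh)) h) S) (Nat.shiftLeft (Nat.land (Nat.lor (Nat.xor (Nat.sub h (Nat.land S nh)) h) S) m1) d1)) (Nat.shiftLeft (Nat.land (Nat.lor (Nat.lor (Nat.xor (Nat.sub h (Nat.land S nh)) h) S) (Nat.shiftLeft (Nat.land (Nat.lor (Nat.xor (Nat.sub h (Nat.land S nh)) h) S) m1) d1)) m2) d2)) (Nat.shiftLeft (Nat.land (Nat.lor (Nat.lor (Nat.lor (Nat.xor (Nat.sub h (Nat.land S nh)) h) S) (Nat.shiftLeft (Nat.land (Nat.lor (Nat.xor (Nat.sub h (Nat.land S nh)) h) S) m1) d1)) (Nat.shiftLeft (Nat.land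 (Nat.lor (Nat.lor (Nat.xor (Nat.sub h (Nat.land S nh)) h) S) (Nat.shiftLeft (Nat.land (Nat.lor (Nat.xor (Nat.sub h (Nat.land S nh)) h) S) m1) d1)) m2) d2)) m3) d3)) m4) d4)) m5) d5)) m6) d6)) (Nat.shiftLeft (Nat.land (Nat.lor (Nat.lor (Nat.lor (Nat.lor (Nat.lor (Nat.lor (Nat.lor (Nat.xor (Nat.sub h (Nat.land S nh)) h) S) (Nat.shiftLeft (Nat.land (Nat.lor (Nat.xor (Nat.sub h (Nat.land S nh)) h) S) m1) d1)) (Nat.shiftLeft (Nat.land (Nat.lor (Nat.lor (Nat.xor (Nat.sub h (Nat.land S nh)) h) S) (Nat.shiftLeft (Nat.land (Nat.lor (Nat.xor (Nat.sub h (Nat.land S nh)) h) S) m1) d1)) m2) d2)) (Nat.shiftLeft (Nat.land (Nat.lor (Nat.lor (Nat.lor (Nat.xor (Nat.sub h (Nat.land S nh)) h) S) (Nat.shiftLeft (Nat.land (Nat.lor (Nat.xor (Nat.sub h (Nat.land S nh)) h) S) m1) d1)) (Nat.shiftLeft (Nat.land (Nat.lor (Nat.lor (Nat.xor (Nat.sub h (Nat.land S nh)) h) S) (Nat.shiftLeft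 (Nat.land (Nat.lor (Nat.xor (Nat.sub h (Nat.land S nh)) h) S) m1) d1)) m2) d2)) m3) d3)) (Nat.shiftLeft (Nat.land (Nat.lor (Nat.lor (Nat.lor (Nat.lor (Nat.xor (Nat.sub h (Nat.land S nh)) h) S) (Nat.shiftLeft (Nat.land (Nat.lor (Nat.xor (Nat.sub h (Nat.land S nh)) h) S) m1) d1)) (Nat.shiftLeft (Nat.land (Nat.lor (Nat.lor (Nat.xor (Nat.sub h (Nat.land S nh)) h) S) (Nat.shiftLeft (Nat.land (Nat.lor (Nat.xor (Nat.sub h (Nat.land S nh)) h) S) m1) d1)) m2) d2)) (Nat.shiftLeft (Nat.land (Nat.lor (Nat.lor (Nat.lor (Nat.xor (Nat.sub h (Nat.land S nh)) h) S) (Nat.shiftLeft (Nat.land (Nat.lor (Nat.xor (Nat.sub h (Nat.land S nh)) h) S) m1) d1)) (Nat.shiftLeft (Nat.land (Nat.lor (Nat.lor (Nat.xor (Nat.sub h (Nat.land S nh)) h) S) (Nat.shiftLeft (Nat.land (Nat.lor (Nat.xor (Nat.sub h (Nat.land S nh)) h) S) m1) d1)) m2) d2)) m3) d3)) m4) d4)) (Nat.shiftLeft (Nat.land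 (Nat.lor (Nat.lor (Nat.lor (Nat.lor (Nat.lor (Nat.xor (Nat.sub h (Nat.land S nh)) h) S) (Nat.shiftLeft (Nat.land (Nat.lor (Nat.xor (Nat.sub h (Nat.land S nh)) h) S) m1) d1)) (Nat.shiftLeft (Nat.land (Nat.lor (Nat.lor (Nat.xor (Nat.sub h (Nat.land S nh)) h) S) (Nat.shiftLeft (Nat.land (Nat.lor (Nat.xor (Nat.sub h (Nat.land S nh)) h) S) m1) d1)) m2) d2)) (Nat.shiftLeft (Nat.land (Nat.lor (Nat.lor (Nat.lor (Nat.xor (Nat.sub h (Nat.land S nh)) h) S) (Nat.shiftLeft (Nat.land (Nat.lor (Nat.xor (Nat.sub h (Nat.land S nh)) h) S) m1) d1)) (Nat.shiftLeft (Nat.land (Nat.lor (Nat.lor (Nat.xor (Nat.sub h (Nat.land S nh)) h) S) (Nat.shiftLeft (Nat.land (Nat.lor (Nat.xor (Nat.sub h (Nat.land S nh)) h) S) m1) d1)) m2) d2)) m3) d3)) (Nat.shiftLeft (Nat.land (Nat.lor (Nat.lor (Nat.lor (Nat.lor (Nat.xor (Nat.sub h (Nat.land S nh)) h) S) (Nat.shiftLeft (Nat.land (Nat.lor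 (Nat.xor (Nat.sub h (Nat.land S nh)) h) S) m1) d1)) (Nat.shiftLeft (Nat.land (Nat.lor (Nat.lor (Nat.xor (Nat.sub h (Nat.land S nh)) h) S) (Nat.shiftLeft (Nat.land (Nat.lor (Nat.xor (Nat.sub h (Nat.land S nh)) h) S) m1) d1)) m2) d2)) (Nat.shiftLeft (Nat.land (Nat.lor (Nat.lor (Nat.lor (Nat.xor (Nat.sub h (Nat.land S nh)) h) S) (Nat.shiftLeft (Nat.land (Nat.lor (Nat.xor (Nat.sub h (Nat.land S nh)) h) S) m1) d1)) (Nat.shiftLeft (Nat.land (Nat.lor (Nat.lor (Nat.xor (Nat.sub h (Nat.land S nh)) h) S) (Nat.shiftLeft (Nat.land (Nat.lor (Nat.xor (Nat.sub h (Nat.land S nh)) h) S) m1) d1)) m2) d2)) m3) d3)) m4) d4)) m5) d5)) (Nat.shiftLeft (Nat.land (Nat.lor (Nat.lor (Nat.lor (Nat.lor (Nat.lor (Nat.lor (Nat.xor (Nat.sub h (Nat.land S nh)) h) S) (Nat.shiftLeft (Nat.land (Nat.lor (Nat.xor (Nat.sub h (Nat.land S nh)) h) S) m1) d1)) (Nat.shiftLeft (Nat.land (Nat.lor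 (Nat.lor (Nat.xor (Nat.sub h (Nat.land S nh)) h) S) (Nat.shiftLeft (Nat.land (Nat.lor (Nat.xor (Nat.sub h (Nat.land S nh)) h) S) m1) d1)) m2) d2)) (Nat.shiftLeft (Nat.land (Nat.lor (Nat.lor (Nat.lor (Nat.xor (Nat.sub h (Nat.land S nh)) h) S) (Nat.shiftLeft (Nat.land (Nat.lor (Nat.xor (Nat.sub h (Nat.land S nh)) h) S) m1) d1)) (Nat.shiftLeft (Nat.land (Nat.lor (Nat.lor (Nat.xor (Nat.sub h (Nat.land S nh)) h) S) (Nat.shiftLeft (Nat.land (Nat.lor (Nat.xor (Nat.sub h (Nat.land S nh)) h) S) m1) d1)) m2) d2)) m3) d3)) (Nat.shiftLeft (Nat.land (Nat.lor (Nat.lor (Nat.lor (Nat.lor (Nat.xor (Nat.sub h (Nat.land S nh)) h) S) (Nat.shiftLeft (Nat.land (Nat.lor (Nat.xor (Nat.sub h (Nat.land S nh)) h) S) m1) d1)) (Nat.shiftLeft (Nat.land (Nat.lor (Nat.lor (Nat.xor (Nat.sub h (Nat.land S nh)) h) S) (Nat.shiftLeft (Nat.land (Nat.lor (Nat.xor (Nat.sub h (Nat.land S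 nh)) h) S) m1) d1)) m2) d2)) (Nat.shiftLeft (Nat.land (Nat.lor (Nat.lor (Nat.lor (Nat.xor (Nat.sub h (Nat.land S nh)) h) S) (Nat.shiftLeft (Nat.land (Nat.lor (Nat.xor (Nat.sub h (Nat.land S nh)) h) S) m1) d1)) (Nat.shiftLeft (Nat.land (Nat.lor (Nat.lor (Nat.xor (Nat.sub h (Nat.land S nh)) h) S) (Nat.shiftLeft (Nat.land (Nat.lor (Nat.xor (Nat.sub h (Nat.land S nh)) h) S) m1) d1)) m2) d2)) m3) d3)) m4) d4)) (Nat.shiftLeft (Nat.land (Nat.lor (Nat.lor (Nat.lor (Nat.lor (Nat.lor (Nat.xor (Nat.sub h (Nat.land S nh)) h) S) (Nat.shiftLeft (Nat.land (Nat.lor (Nat.xor (Nat.sub h (Nat.land S nh)) h) S) m1) d1)) (Nat.shiftLeft (Nat.land (Nat.lor (Nat.lor (Nat.xor (Nat.sub h (Nat.land S nh)) h) S) (Nat.shiftLeft (Nat.land (Nat.lor (Nat.xor (Nat.sub h (Nat.land S nh)) h) S) m1) d1)) m2) d2)) (Nat.shiftLeft (Nat.land (Nat.lor (Nat.lor (Nat.lor (Nat.xor (Nat.sub h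 (Nat.land S nh)) h) S) (Nat.shiftLeft (Nat.land (Nat.lor (Nat.xor (Nat.sub h (Nat.land S nh)) h) S) m1) d1)) (Nat.shiftLeft (Nat.land (Nat.lor (Nat.lor (Nat.xor (Nat.sub h (Nat.land S nh)) h) S) (Nat.shiftLeft (Nat.land (Nat.lor (Nat.xor (Nat.sub h (Nat.land S nh)) h) S) m1) d1)) m2) d2)) m3) d3)) (Nat.shiftLeft (Nat.land (Nat.lor (Nat.lor (Nat.lor (Nat.lor (Nat.xor (Nat.sub h (Nat.land S nh)) h) S) (Nat.shiftLeft (Nat.land (Nat.lor (Nat.xor (Nat.sub h (Nat.land S nh)) h) S) m1) d1)) (Nat.shiftLeft (Nat.land (Nat.lor (Nat.lor (Nat.xor (Nat.sub h (Nat.land S nh)) h) S) (Nat.shiftLeft (Nat.land (Nat.lor (Nat.xor (Nat.sub h (Nat.land S nh)) h) S) m1) d1)) m2) d2)) (Nat.shiftLeft (Nat.land (Nat.lor (Nat.lor (Nat.lor (Nat.xor (Nat.sub h (Nat.land S nh)) h) S) (Nat.shiftLeft (Nat.land (Nat.lor (Nat.xor (Nat.sub h (Nat.land S nh)) h) S) m1) d1)) (Nat.shiftLeft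 (Nat.land (Nat.lor (Nat.lor (Nat.xor (Nat.sub h (Nat.land S nh)) h) S) (Nat.shiftLeft (Nat.land (Nat.lor (Nat.xor (Nat.sub h (Nat.land S nh)) h) S) m1) d1)) m2) d2)) m3) d3)) m4) d4)) m5) d5)) m6) d6)) m7) d7))

noncomputable def up8 (h nh m1 d1 m2 d2 m3 d3 m4 d4 m5 d5 m6 d6 m7 d7 m8 d8 : Nat) : Cf :=
  Cf.mk fun (S : Nat) =>
  (Nat.lor (Nat.lor (Nat.lor (Nat.lor (Nat.lor (Nat.lor (Nat.lor (Nat.lor (Nat.lor (Nat.xor (Nat.sub h (Nat.land S nh)) h) S) (Nat.shiftLeft (Nat.land (Nat.lor (Nat.xor (Nat.sub h (Nat.land S nh)) h) S) m1) d1)) (Nat.shiftLeft (Nat.land (Nat.lor (Nat.lor (Nat.xor (Nat.sub h (Nat.land S nh)) h) S) (Nat.shiftLeft (Nat.land (Nat.lor (Nat.xor (Nat.sub h (Nat.land S nh)) h) S) m1) d1)) m2) d2)) (Nat.shiftLeft (Nat.land (Nat.lor (Nat.lor (Nat.lor (Nat.xor (Nat.sub h (Nat.land S nh)) h) S) (Nat.shiftLeft (Nat.land (Nat.lor (Nat.xor (Nat.sub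 h (Nat.land S nh)) h) S) m1) d1)) (Nat.shiftLeft (Nat.land (Nat.lor (Nat.lor (Nat.xor (Nat.sub h (Nat.land S nh)) h) S) (Nat.shiftLeft (Nat.land (Nat.lor (Nat.xor (Nat.sub h (Nat.land S nh)) h) S) m1) d1)) m2) d2)) m3) d3)) (Nat.shiftLeft (Nat.land (Nat.lor (Nat.lor (Nat.lor (Nat.lor (Nat.xor (Nat.sub h (Nat.land S nh)) h) S) (Nat.shiftLeft (Nat.land (Nat.lor (Nat.xor (Nat.sub h (Nat.land S nh)) h) S) m1) d1)) (Nat.shiftLeft (Nat.land (Nat.lor (Nat.lor (Nat.xor (Nat.sub h (Nat.land S nh)) h) S) (Nat.shiftLeft (Nat.land (Nat.lor (Nat.xor (Nat.sub h (Nat.land S nh)) h) S) m1) d1)) m2) d2)) (Nat.shiftLeft (Nat.land (Nat.lor (Nat.lor (Nat.lor (Nat.xor (Nat.sub h (Nat.land S nh)) h) S) (Nat.shiftLeft (Nat.land (Nat.lor (Nat.xor (Nat.sub h (Nat.land S nh)) h) S) m1) d1)) (Nat.shiftLeft (Nat.land (Nat.lor (Nat.lor (Nat.xor (Nat.sub h (Nat.land S nh)) h) S)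 (Nat.shiftLeft (Nat.land (Nat.lor (Nat.xor (Nat.sub h (Nat.land S nh)) h) S) m1) d1)) m2) d2)) m3) d3)) m4) d4)) (Nat.shiftLeft (Nat.land (Nat.lor (Nat.lor (Nat.lor (Nat.lor (Nat.lor (Nat.xor (Nat.sub h (Nat.land S nh)) h) S) (Nat.shiftLeft (Nat.land (Nat.lor (Nat.xor (Nat.sub h (Nat.land S nh)) h) S) m1) d1)) (Nat.shiftLeft (Nat.land (Nat.lor (Nat.lor (Nat.xor (Nat.sub h (Nat.land S nh)) h) S) (Nat.shiftLeft (Nat.land (Nat.lor (Nat.xor (Nat.sub h (Nat.land S nh)) h) S) m1) d1)) m2) d2)) (Nat.shiftLeft (Nat.land (Nat.lor (Nat.lor (Nat.lor (Nat.xor (Nat.sub h (Nat.land S nh)) h) S) (Nat.shiftLeft (Nat.land (Nat.lor (Nat.xor (Nat.sub h (Nat.land S nh)) h) S) m1) d1)) (Nat.shiftLeft (Nat.land (Nat.lor (Nat.lor (Nat.xor (Nat.sub h (Nat.land S nh)) h) S) (Nat.shiftLeft (Nat.land (Nat.lor (Nat.xor (Nat.sub h (Nat.land S nh)) h) S) m1) d1)) m2) d2)) m3) d3))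 (Nat.shiftLeft (Nat.land (Nat.lor (Nat.lor (Nat.lor (Nat.lor (Nat.xor (Nat.sub h (Nat.land S nh)) h) S) (Nat.shiftLeft (Nat.land (Nat.lor (Nat.xor (Nat.sub h (Nat.land S nh)) h) S) m1) d1)) (Nat.shiftLeft (Nat.land (Nat.lor (Nat.lor (Nat.xor (Nat.sub h (Nat.land S nh)) h) S) (Nat.shiftLeft (Nat.land (Nat.lor (Nat.xor (Nat.sub h (Nat.land S nh)) h) S) m1) d1)) m2) d2)) (Nat.shiftLeft (Nat.land (Nat.lor (Nat.lor (Nat.lor (Nat.xor (Nat.sub h (Nat.land S nh)) h) S) (Nat.shiftLeft (Nat.land (Nat.lor (Nat.xor (Nat.sub h (Nat.land S nh)) h) S) m1) d1)) (Nat.shiftLeft (Nat.land (Nat.lor (Nat.lor (Nat.xor (Nat.sub h (Nat.land S nh)) h) S) (Nat.shiftLeft (Nat.land (Nat.lor (Nat.xor (Nat.sub h (Nat.land S nh)) h) S) m1) d1)) m2) d2)) m3) d3)) m4) d4)) m5) d5)) (Nat.shiftLeft (Nat.land (Nat.lor (Nat.lor (Nat.lor (Nat.lor (Nat.lor (Nat.lor (Nat.xor (Nat.sub h (Nat.land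 S nh)) h) S) (Nat.shiftLeft (Nat.land (Nat.lor (Nat.xor (Nat.sub h (Nat.land S nh)) h) S) m1) d1)) (Nat.shiftLeft (Nat.land (Nat.lor (Nat.lor (Nat.xor (Nat.sub h (Nat.land S nh)) h) S) (Nat.shiftLeft (Nat.land (Nat.lor (Nat.xor (Nat.sub h (Nat.land S nh)) h) S) m1) d1)) m2) d2)) (Nat.shiftLeft (Nat.land (Nat.lor (Nat.lor (Nat.lor (Nat.xor (Nat.sub h (Nat.land S nh)) h) S) (Nat.shiftLeft (Nat.land (Nat.lor (Nat.xor (Nat.sub h (Nat.land S nh)) h) S) m1) d1)) (Nat.shiftLeft (Nat.land (Nat.lor (Nat.lor (Nat.xor (Nat.sub h (Nat.land S nh)) h) S) (Nat.shiftLeft (Nat.land (Nat.lor (Nat.xor (Nat.sub h (Nat.land S nh)) h) S) m1) d1)) m2) d2)) m3) d3)) (Nat.shiftLeft (Nat.land (Nat.lor (Nat.lor (Nat.lor (Nat.lor (Nat.xor (Nat.sub h (Nat.land S nh)) h) S) (Nat.shiftLeft (Nat.land (Nat.lor (Nat.xor (Nat.sub h (Nat.land S nh)) h) S) m1) d1)) (Nat.shiftLeft (Nat.land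 (Nat.lor (Nat.lor (Nat.xor (Nat.sub h (Nat.land S nh)) h) S) (Nat.shiftLeft (Nat.land (Nat.lor (Nat.xor (Nat.sub h (Nat.land S nh)) h) S) m1) d1)) m2) d2)) (Nat.shiftLeft (Nat.land (Nat.lor (Nat.lor (Nat.lor (Nat.xor (Nat.sub h (Nat.land S nh)) h) S) (Nat.shiftLeft (Nat.land (Nat.lor (Nat.xor (Nat.sub h (Nat.land S nh)) h) S) m1) d1)) (Nat.shiftLeft (Nat.land (Nat.lor (Nat.lor (Nat.xor (Nat.sub h (Nat.land S nh)) h) S) (Nat.shiftLeft (Nat.land (Nat.lor (Nat.xor (Nat.sub h (Nat.land S nh)) h) S) m1) d1)) m2) d2)) m3) d3)) m4) d4)) (Nat.shiftLeft (Nat.land (Nat.lor (Nat.lor (Nat.lor (Nat.lor (Nat.lor (Nat.xor (Nat.sub h (Nat.land S nh)) h) S) (Nat.shiftLeft (Nat.land (Nat.lor (Nat.xor (Nat.sub h (Nat.land S nh)) h) S) m1) d1)) (Nat.shiftLeft (Nat.land (Nat.lor (Nat.lor (Nat.xor (Nat.sub h (Nat.land S nh)) h) S) (Nat.shiftLeft (Nat.land (Nat.lor (Nat.xor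 (Nat.sub h (Nat.land S nh)) h) S) m1) d1)) m2) d2)) (Nat.shiftLeft (Nat.land (Nat.lor (Nat.lor (Nat.lor (Nat.xor (Nat.sub h (Nat.land S nh)) h) S) (Nat.shiftLeft (Nat.land (Nat.lor (Nat.xor (Nat.sub h (Nat.land S nh)) h) S) m1) d1)) (Nat.shiftLeft (Nat.land (Nat.lor (Nat.lor (Nat.xor (Nat.sub h (Nat.land S nh)) h) S) (Nat.shiftLeft (Nat.land (Nat.lor (Nat.xor (Nat.sub h (Nat.land S nh)) h) S) m1) d1)) m2) d2)) m3) d3)) (Nat.shiftLeft (Nat.land (Nat.lor (Nat.lor (Nat.lor (Nat.lor (Nat.xor (Nat.sub h (Nat.land S nh)) h) S) (Nat.shiftLeft (Nat.land (Nat.lor (Nat.xor (Nat.sub h (Nat.land S nh)) h) S) m1) d1)) (Nat.shiftLeft (Nat.land (Nat.lor (Nat.lor (Nat.xor (Nat.sub h (Nat.land S nh)) h) S) (Nat.shiftLeft (Nat.land (Nat.lor (Nat.xor (Nat.sub h (Nat.land S nh)) h) S) m1) d1)) m2) d2)) (Nat.shiftLeft (Nat.land (Nat.lor (Nat.lor (Nat.lor (Nat.xor (Nat.sub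 h (Nat.land S nh)) h) S) (Nat.shiftLeft (Nat.land (Nat.lor (Nat.xor (Nat.sub h (Nat.land S nh)) h) S) m1) d1)) (Nat.shiftLeft (Nat.land (Nat.lor (Nat.lor (Nat.xor (Nat.sub h (Nat.land S nh)) h) S) (Nat.shiftLeft (Nat.land (Nat.lor (Nat.xor (Nat.sub h (Nat.land S nh)) h) S) m1) d1)) m2) d2)) m3) d3)) m4) d4)) m5) d5)) m6) d6)) (Nat.shiftLeft (Nat.land (Nat.lor (Nat.lor (Nat.lor (Nat.lor (Nat.lor (Nat.lor (Nat.lor (Nat.xor (Nat.sub h (Nat.land S nh)) h) S) (Nat.shiftLeft (Nat.land (Nat.lor (Nat.xor (Nat.sub h (Nat.land S nh)) h) S) m1) d1)) (Nat.shiftLeft (Nat.land (Nat.lor (Nat.lor (Nat.xor (Nat.sub h (Nat.land S nh)) h) S) (Nat.shiftLeft (Nat.land (Nat.lor (Nat.xor (Nat.sub h (Nat.land S nh)) h) S) m1) d1)) m2) d2)) (Nat.shiftLeft (Nat.land (Nat.lor (Nat.lor (Nat.lor (Nat.xor (Nat.sub h (Nat.land S nh)) h) S) (Nat.shiftLeft (Nat.land (Nat.lor (Nat.xor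 (Nat.sub h (Nat.land S nh)) h) S) m1) d1)) (Nat.shiftLeft (Nat.land (Nat.lor (Nat.lor (Nat.xor (Nat.sub h (Nat.land S nh)) h) S) (Nat.shiftLeft (Nat.land (Nat.lor (Nat.xor (Nat.sub h (Nat.land S nh)) h) S) m1) d1)) m2) d2)) m3) d3)) (Nat.shiftLeft (Nat.land (Nat.lor (Nat.lor (Nat.lor (Nat.lor (Nat.xor (Nat.sub h (Nat.land S nh)) h) S) (Nat.shiftLeft (Nat.land (Nat.lor (Nat.xor (Nat.sub h (Nat.land S nh)) h) S) m1) d1)) (Nat.shiftLeft (Nat.land (Nat.lor (Nat.lor (Nat.xor (Nat.sub h (Nat.land S nh)) h) S) (Nat.shiftLeft (Nat.land (Nat.lor (Nat.xor (Nat.sub h (Nat.land S nh)) h) S) m1) d1)) m2) d2)) (Nat.shiftLeft (Nat.land (Nat.lor (Nat.lor (Nat.lor (Nat.xor (Nat.sub h (Nat.land S nh)) h) S) (Nat.shiftLeft (Nat.land (Nat.lor (Nat.xor (Nat.sub h (Nat.land S nh)) h) S) m1) d1)) (Nat.shiftLeft (Nat.land (Nat.lor (Nat.lor (Nat.xor (Nat.sub h (Nat.land S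 nh)) h) S) (Nat.shiftLeft (Nat.land (Nat.lor (Nat.xor (Nat.sub h (Nat.land S nh)) h) S) m1) d1)) m2) d2)) m3) d3)) m4) d4)) (Nat.shiftLeft (Nat.land (Nat.lor (Nat.lor (Nat.lor (Nat.lor (Nat.lor (Nat.xor (Nat.sub h (Nat.land S nh)) h) S) (Nat.shiftLeft (Nat.land (Nat.lor (Nat.xor (Nat.sub h (Nat.land S nh)) h) S) m1) d1)) (Nat.shiftLeft (Nat.land (Nat.lor (Nat.lor (Nat.xor (Nat.sub h (Nat.land S nh)) h) S) (Nat.shiftLeft (Nat.land (Nat.lor (Nat.xor (Nat.sub h (Nat.land S nh)) h) S) m1) d1)) m2) d2)) (Nat.shiftLeft (Nat.land (Nat.lor (Nat.lor (Nat.lor (Nat.xor (Nat.sub h (Nat.land S nh)) h) S) (Nat.shiftLeft (Nat.land (Nat.lor (Nat.xor (Nat.sub h (Nat.land S nh)) h) S) m1) d1)) (Nat.shiftLeft (Nat.land (Nat.lor (Nat.lor (Nat.xor (Nat.sub h (Nat.land S nh)) h) S) (Nat.shiftLeft (Nat.land (Nat.lor (Nat.xor (Nat.sub h (Nat.land S nh)) h) S) m1) d1)) m2)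 d2)) m3) d3)) (Nat.shiftLeft (Nat.land (Nat.lor (Nat.lor (Nat.lor (Nat.lor (Nat.xor (Nat.sub h (Nat.land S nh)) h) S) (Nat.shiftLeft (Nat.land (Nat.lor (Nat.xor (Nat.sub h (Nat.land S nh)) h) S) m1) d1)) (Nat.shiftLeft (Nat.land (Nat.lor (Nat.lor (Nat.xor (Nat.sub h (Nat.land S nh)) h) S) (Nat.shiftLeft (Nat.land (Nat.lor (Nat.xor (Nat.sub h (Nat.land S nh)) h) S) m1) d1)) m2) d2)) (Nat.shiftLeft (Nat.land (Nat.lor (Nat.lor (Nat.lor (Nat.xor (Nat.sub h (Nat.land S nh)) h) S) (Nat.shiftLeft (Nat.land (Nat.lor (Nat.xor (Nat.sub h (Nat.land S nh)) h) S) m1) d1)) (Nat.shiftLeft (Nat.land (Nat.lor (Nat.lor (Nat.xor (Nat.sub h (Nat.land S nh)) h) S) (Nat.shiftLeft (Nat.land (Nat.lor (Nat.xor (Nat.sub h (Nat.land S nh)) h) S) m1) d1)) m2) d2)) m3) d3)) m4) d4)) m5) d5)) (Nat.shiftLeft (Nat.land (Nat.lor (Nat.lor (Nat.lor (Nat.lor (Nat.lor (Nat.lor (Nat.xor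 (Nat.sub h (Nat.land S nh)) h) S) (Nat.shiftLeft (Nat.land (Nat.lor (Nat.xor (Nat.sub h (Nat.land S nh)) h) S) m1) d1)) (Nat.shiftLeft (Nat.land (Nat.lor (Nat.lor (Nat.xor (Nat.sub h (Nat.land S nh)) h) S) (Nat.shiftLeft (Nat.land (Nat.lor (Nat.xor (Nat.sub h (Nat.land S nh)) h) S) m1) d1)) m2) d2)) (Nat.shiftLeft (Nat.land (Nat.lor (Nat.lor (Nat.lor (Nat.xor (Nat.sub h (Nat.land S nh)) h) S) (Nat.shiftLeft (Nat.land (Nat.lor (Nat.xor (Nat.sub h (Nat.land S nh)) h) S) m1) d1)) (Nat.shiftLeft (Nat.land (Nat.lor (Nat.lor (Nat.xor (Nat.sub h (Nat.land S nh)) h) S) (Nat.shiftLeft (Nat.land (Nat.lor (Nat.xor (Nat.sub h (Nat.land S nh)) h) S) m1) d1)) m2) d2)) m3) d3)) (Nat.shiftLeft (Nat.land (Nat.lor (Nat.lor (Nat.lor (Nat.lor (Nat.xor (Nat.sub h (Nat.land S nh)) h) S) (Nat.shiftLeft (Nat.land (Nat.lor (Nat.xor (Nat.sub h (Nat.land S nh)) h) S) m1) d1))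 (Nat.shiftLeft (Nat.land (Nat.lor (Nat.lor (Nat.xor (Nat.sub h (Nat.land S nh)) h) S) (Nat.shiftLeft (Nat.land (Nat.lor (Nat.xor (Nat.sub h (Nat.land S nh)) h) S) m1) d1)) m2) d2)) (Nat.shiftLeft (Nat.land (Nat.lor (Nat.lor (Nat.lor (Nat.xor (Nat.sub h (Nat.land S nh)) h) S) (Nat.shiftLeft (Nat.land (Nat.lor (Nat.xor (Nat.sub h (Nat.land S nh)) h) S) m1) d1)) (Nat.shiftLeft (Nat.land (Nat.lor (Nat.lor (Nat.xor (Nat.sub h (Nat.land S nh)) h) S) (Nat.shiftLeft (Nat.land (Nat.lor (Nat.xor (Nat.sub h (Nat.land S nh)) h) S) m1) d1)) m2) d2)) m3) d3)) m4) d4)) (Nat.shiftLeft (Nat.land (Nat.lor (Nat.lor (Nat.lor (Nat.lor (Nat.lor (Nat.xor (Nat.sub h (Nat.land S nh)) h) S) (Nat.shiftLeft (Nat.land (Nat.lor (Nat.xor (Nat.sub h (Nat.land S nh)) h) S) m1) d1)) (Nat.shiftLeft (Nat.land (Nat.lor (Nat.lor (Nat.xor (Nat.sub h (Nat.land S nh)) h) S) (Nat.shiftLeft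 (Nat.land (Nat.lor (Nat.xor (Nat.sub h (Nat.land S nh)) h) S) m1) d1)) m2) d2)) (Nat.shiftLeft (Nat.land (Nat.lor (Nat.lor (Nat.lor (Nat.xor (Nat.sub h (Nat.land S nh)) h) S) (Nat.shiftLeft (Nat.land (Nat.lor (Nat.xor (Nat.sub h (Nat.land S nh)) h) S) m1) d1)) (Nat.shiftLeft (Nat.land (Nat.lor (Nat.lor (Nat.xor (Nat.sub h (Nat.land S nh)) h) S) (Nat.shiftLeft (Nat.land (Nat.lor (Nat.xor (Nat.sub h (Nat.land S nh)) h) S) m1) d1)) m2) d2)) m3) d3)) (Nat.shiftLeft (Nat.land (Nat.lor (Nat.lor (Nat.lor (Nat.lor (Nat.xor (Nat.sub h (Nat.land S nh)) h) S) (Nat.shiftLeft (Nat.land (Nat.lor (Nat.xor (Nat.sub h (Nat.land S nh)) h) S) m1) d1)) (Nat.shiftLeft (Nat.land (Nat.lor (Nat.lor (Nat.xor (Nat.sub h (Nat.land S nh)) h) S) (Nat.shiftLeft (Nat.land (Nat.lor (Nat.xor (Nat.sub h (Nat.land S nh)) h) S) m1) d1)) m2) d2)) (Nat.shiftLeft (Nat.land (Nat.lor (Nat.lor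 (Nat.lor (Nat.xor (Nat.sub h (Nat.land S nh)) h) S) (Nat.shiftLeft (Nat.land (Nat.lor (Nat.xor (Nat.sub h (Nat.land S nh)) h) S) m1) d1)) (Nat.shiftLeft (Nat.land (Nat.lor (Nat.lor (Nat.xor (Nat.sub h (Nat.land S nh)) h) S) (Nat.shiftLeft (Nat.land (Nat.lor (Nat.xor (Nat.sub h (Nat.land S nh)) h) S) m1) d1)) m2) d2)) m3) d3)) m4) d4)) m5) d5)) m6) d6)) m7) d7)) (Nat.shiftLeft (Nat.land (Nat.lor (Nat.lor (Nat.lor (Nat.lor (Nat.lor (Nat.lor (Nat.lor (Nat.lor (Nat.xor (Nat.sub h (Nat.land S nh)) h) S) (Nat.shiftLeft (Nat.land (Nat.lor (Nat.xor (Nat.sub h (Nat.land S nh)) h) S) m1) d1)) (Nat.shiftLeft (Nat.land (Nat.lor (Nat.lor (Nat.xor (Nat.sub h (Nat.land S nh)) h) S) (Nat.shiftLeft (Nat.land (Nat.lor (Nat.xor (Nat.sub h (Nat.land S nh)) h) S) m1) d1)) m2) d2)) (Nat.shiftLeft (Nat.land (Nat.lor (Nat.lor (Nat.lor (Nat.xor (Nat.sub h (Nat.land S nh))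 h) S) (Nat.shiftLeft (Nat.land (Nat.lor (Nat.xor (Nat.sub h (Nat.land S nh)) h) S) m1) d1)) (Nat.shiftLeft (Nat.land (Nat.lor (Nat.lor (Nat.xor (Nat.sub h (Nat.land S nh)) h) S) (Nat.shiftLeft (Nat.land (Nat.lor (Nat.xor (Nat.sub h (Nat.land S nh)) h) S) m1) d1)) m2) d2)) m3) d3)) (Nat.shiftLeft (Nat.land (Nat.lor (Nat.lor (Nat.lor (Nat.lor (Nat.xor (Nat.sub h (Nat.land S nh)) h) S) (Nat.shiftLeft (Nat.land (Nat.lor (Nat.xor (Nat.sub h (Nat.land S nh)) h) S) m1) d1)) (Nat.shiftLeft (Nat.land (Nat.lor (Nat.lor (Nat.xor (Nat.sub h (Nat.land S nh)) h) S) (Nat.shiftLeft (Nat.land (Nat.lor (Nat.xor (Nat.sub h (Nat.land S nh)) h) S) m1) d1)) m2) d2)) (Nat.shiftLeft (Nat.land (Nat.lor (Nat.lor (Nat.lor (Nat.xor (Nat.sub h (Nat.land S nh)) h) S) (Nat.shiftLeft (Nat.land (Nat.lor (Nat.xor (Nat.sub h (Nat.land S nh)) h) S) m1) d1)) (Nat.shiftLeft (Nat.land (Nat.lor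 (Nat.lor (Nat.xor (Nat.sub h (Nat.land S nh)) h) S) (Nat.shiftLeft (Nat.land (Nat.lor (Nat.xor (Nat.sub h (Nat.land S nh)) h) S) m1) d1)) m2) d2)) m3) d3)) m4) d4)) (Nat.shiftLeft (Nat.land (Nat.lor (Nat.lor (Nat.lor (Nat.lor (Nat.lor (Nat.xor (Nat.sub h (Nat.land S nh)) h) S) (Nat.shiftLeft (Nat.land (Nat.lor (Nat.xor (Nat.sub h (Nat.land S nh)) h) S) m1) d1)) (Nat.shiftLeft (Nat.land (Nat.lor (Nat.lor (Nat.xor (Nat.sub h (Nat.land S nh)) h) S) (Nat.shiftLeft (Nat.land (Nat.lor (Nat.xor (Nat.sub h (Nat.land S nh)) h) S) m1) d1)) m2) d2)) (Nat.shiftLeft (Nat.land (Nat.lor (Nat.lor (Nat.lor (Nat.xor (Nat.sub h (Nat.land S nh)) h) S) (Nat.shiftLeft (Nat.land (Nat.lor (Nat.xor (Nat.sub h (Nat.land S nh)) h) S) m1) d1)) (Nat.shiftLeft (Nat.land (Nat.lor (Nat.lor (Nat.xor (Nat.sub h (Nat.land S nh)) h) S) (Nat.shiftLeft (Nat.land (Nat.lor (Nat.xor (Nat.sub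 h (Nat.land S nh)) h) S) m1) d1)) m2) d2)) m3) d3)) (Nat.shiftLeft (Nat.land (Nat.lor (Nat.lor (Nat.lor (Nat.lor (Nat.xor (Nat.sub h (Nat.land S nh)) h) S) (Nat.shiftLeft (Nat.land (Nat.lor (Nat.xor (Nat.sub h (Nat.land S nh)) h) S) m1) d1)) (Nat.shiftLeft (Nat.land (Nat.lor (Nat.lor (Nat.xor (Nat.sub h (Nat.land S nh)) h) S) (Nat.shiftLeft (Nat.land (Nat.lor (Nat.xor (Nat.sub h (Nat.land S nh)) h) S) m1) d1)) m2) d2)) (Nat.shiftLeft (Nat.land (Nat.lor (Nat.lor (Nat.lor (Nat.xor (Nat.sub h (Nat.land S nh)) h) S) (Nat.shiftLeft (Nat.land (Nat.lor (Nat.xor (Nat.sub h (Nat.land S nh)) h) S) m1) d1)) (Nat.shiftLeft (Nat.land (Nat.lor (Nat.lor (Nat.xor (Nat.sub h (Nat.land S nh)) h) S) (Nat.shiftLeft (Nat.land (Nat.lor (Nat.xor (Nat.sub h (Nat.land S nh)) h) S) m1) d1)) m2) d2)) m3) d3)) m4) d4)) m5) d5)) (Nat.shiftLeft (Nat.land (Nat.lor (Nat.lor (Nat.lor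 (Nat.lor (Nat.lor (Nat.lor (Nat.xor (Nat.sub h (Nat.land S nh)) h) S) (Nat.shiftLeft (Nat.land (Nat.lor (Nat.xor (Nat.sub h (Nat.land S nh)) h) S) m1) d1)) (Nat.shiftLeft (Nat.land (Nat.lor (Nat.lor (Nat.xor (Nat.sub h (Nat.land S nh)) h) S) (Nat.shiftLeft (Nat.land (Nat.lor (Nat.xor (Nat.sub h (Nat.land S nh)) h) S) m1) d1)) m2) d2)) (Nat.shiftLeft (Nat.land (Nat.lor (Nat.lor (Nat.lor (Nat.xor (Nat.sub h (Nat.land S nh)) h) S) (Nat.shiftLeft (Nat.land (Nat.lor (Nat.xor (Nat.sub h (Nat.land S nh)) h) S) m1) d1)) (Nat.shiftLeft (Nat.land (Nat.lor (Nat.lor (Nat.xor (Nat.sub h (Nat.land S nh)) h) S) (Nat.shiftLeft (Nat.land (Nat.lor (Nat.xor (Nat.sub h (Nat.land S nh)) h) S) m1) d1)) m2) d2)) m3) d3)) (Nat.shiftLeft (Nat.land (Nat.lor (Nat.lor (Nat.lor (Nat.lor (Nat.xor (Nat.sub h (Nat.land S nh)) h) S) (Nat.shiftLeft (Nat.land (Nat.lor (Nat.xor (Nat.sub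 h (Nat.land S nh)) h) S) m1) d1)) (Nat.shiftLeft (Nat.land (Nat.lor (Nat.lor (Nat.xor (Nat.sub h (Nat.land S nh)) h) S) (Nat.shiftLeft (Nat.land (Nat.lor (Nat.xor (Nat.sub h (Nat.land S nh)) h) S) m1) d1)) m2) d2)) (Nat.shiftLeft (Nat.land (Nat.lor (Nat.lor (Nat.lor (Nat.xor (Nat.sub h (Nat.land S nh)) h) S) (Nat.shiftLeft (Nat.land (Nat.lor (Nat.xor (Nat.sub h (Nat.land S nh)) h) S) m1) d1)) (Nat.shiftLeft (Nat.land (Nat.lor (Nat.lor (Nat.xor (Nat.sub h (Nat.land S nh)) h) S) (Nat.shiftLeft (Nat.land (Nat.lor (Nat.xor (Nat.sub h (Nat.land S nh)) h) S) m1) d1)) m2) d2)) m3) d3)) m4) d4)) (Nat.shiftLeft (Nat.land (Nat.lor (Nat.lor (Nat.lor (Nat.lor (Nat.lor (Nat.xor (Nat.sub h (Nat.land S nh)) h) S) (Nat.shiftLeft (Nat.land (Nat.lor (Nat.xor (Nat.sub h (Nat.land S nh)) h) S) m1) d1)) (Nat.shiftLeft (Nat.land (Nat.lor (Nat.lor (Nat.xor (Nat.sub h (Nat.land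 S nh)) h) S) (Nat.shiftLeft (Nat.land (Nat.lor (Nat.xor (Nat.sub h (Nat.land S nh)) h) S) m1) d1)) m2) d2)) (Nat.shiftLeft (Nat.land (Nat.lor (Nat.lor (Nat.lor (Nat.xor (Nat.sub h (Nat.land S nh)) h) S) (Nat.shiftLeft (Nat.land (Nat.lor (Nat.xor (Nat.sub h (Nat.land S nh)) h) S) m1) d1)) (Nat.shiftLeft (Nat.land (Nat.lor (Nat.lor (Nat.xor (Nat.sub h (Nat.land S nh)) h) S) (Nat.shiftLeft (Nat.land (Nat.lor (Nat.xor (Nat.sub h (Nat.land S nh)) h) S) m1) d1)) m2) d2)) m3) d3)) (Nat.shiftLeft (Nat.land (Nat.lor (Nat.lor (Nat.lor (Nat.lor (Nat.xor (Nat.sub h (Nat.land S nh)) h) S) (Nat.shiftLeft (Nat.land (Nat.lor (Nat.xor (Nat.sub h (Nat.land S nh)) h) S) m1) d1)) (Nat.shiftLeft (Nat.land (Nat.lor (Nat.lor (Nat.xor (Nat.sub h (Nat.land S nh)) h) S) (Nat.shiftLeft (Nat.land (Nat.lor (Nat.xor (Nat.sub h (Nat.land S nh)) h) S) m1) d1)) m2) d2)) (Nat.shiftLeft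 (Nat.land (Nat.lor (Nat.lor (Nat.lor (Nat.xor (Nat.sub h (Nat.land S nh)) h) S) (Nat.shiftLeft (Nat.land (Nat.lor (Nat.xor (Nat.sub h (Nat.land S nh)) h) S) m1) d1)) (Nat.shiftLeft (Nat.land (Nat.lor (Nat.lor (Nat.xor (Nat.sub h (Nat.land S nh)) h) S) (Nat.shiftLeft (Nat.land (Nat.lor (Nat.xor (Nat.sub h (Nat.land S nh)) h) S) m1) d1)) m2) d2)) m3) d3)) m4) d4)) m5) d5)) m6) d6)) (Nat.shiftLeft (Nat.land (Nat.lor (Nat.lor (Nat.lor (Nat.lor (Nat.lor (Nat.lor (Nat.lor (Nat.xor (Nat.sub h (Nat.land S nh)) h) S) (Nat.shiftLeft (Nat.land (Nat.lor (Nat.xor (Nat.sub h (Nat.land S nh)) h) S) m1) d1)) (Nat.shiftLeft (Nat.land (Nat.lor (Nat.lor (Nat.xor (Nat.sub h (Nat.land S nh)) h) S) (Nat.shiftLeft (Nat.land (Nat.lor (Nat.xor (Nat.sub h (Nat.land S nh)) h) S) m1) d1)) m2) d2)) (Nat.shiftLeft (Nat.land (Nat.lor (Nat.lor (Nat.lor (Nat.xor (Nat.sub h (Nat.land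 S nh)) h) S) (Nat.shiftLeft (Nat.land (Nat.lor (Nat.xor (Nat.sub h (Nat.land S nh)) h) S) m1) d1)) (Nat.shiftLeft (Nat.land (Nat.lor (Nat.lor (Nat.xor (Nat.sub h (Nat.land S nh)) h) S) (Nat.shiftLeft (Nat.land (Nat.lor (Nat.xor (Nat.sub h (Nat.land S nh)) h) S) m1) d1)) m2) d2)) m3) d3)) (Nat.shiftLeft (Nat.land (Nat.lor (Nat.lor (Nat.lor (Nat.lor (Nat.xor (Nat.sub h (Nat.land S nh)) h) S) (Nat.shiftLeft (Nat.land (Nat.lor (Nat.xor (Nat.sub h (Nat.land S nh)) h) S) m1) d1)) (Nat.shiftLeft (Nat.land (Nat.lor (Nat.lor (Nat.xor (Nat.sub h (Nat.land S nh)) h) S) (Nat.shiftLeft (Nat.land (Nat.lor (Nat.xor (Nat.sub h (Nat.land S nh)) h) S) m1) d1)) m2) d2)) (Nat.shiftLeft (Nat.land (Nat.lor (Nat.lor (Nat.lor (Nat.xor (Nat.sub h (Nat.land S nh)) h) S) (Nat.shiftLeft (Nat.land (Nat.lor (Nat.xor (Nat.sub h (Nat.land S nh)) h) S) m1) d1)) (Nat.shiftLeft (Nat.land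 (Nat.lor (Nat.lor (Nat.xor (Nat.sub h (Nat.land S nh)) h) S) (Nat.shiftLeft (Nat.land (Nat.lor (Nat.xor (Nat.sub h (Nat.land S nh)) h) S) m1) d1)) m2) d2)) m3) d3)) m4) d4)) (Nat.shiftLeft (Nat.land (Nat.lor (Nat.lor (Nat.lor (Nat.lor (Nat.lor (Nat.xor (Nat.sub h (Nat.land S nh)) h) S) (Nat.shiftLeft (Nat.land (Nat.lor (Nat.xor (Nat.sub h (Nat.land S nh)) h) S) m1) d1)) (Nat.shiftLeft (Nat.land (Nat.lor (Nat.lor (Nat.xor (Nat.sub h (Nat.land S nh)) h) S) (Nat.shiftLeft (Nat.land (Nat.lor (Nat.xor (Nat.sub h (Nat.land S nh)) h) S) m1) d1)) m2) d2)) (Nat.shiftLeft (Nat.land (Nat.lor (Nat.lor (Nat.lor (Nat.xor (Nat.sub h (Nat.land S nh)) h) S) (Nat.shiftLeft (Nat.land (Nat.lor (Nat.xor (Nat.sub h (Nat.land S nh)) h) S) m1) d1)) (Nat.shiftLeft (Nat.land (Nat.lor (Nat.lor (Nat.xor (Nat.sub h (Nat.land S nh)) h) S) (Nat.shiftLeft (Nat.land (Nat.lor (Nat.xor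 (Nat.sub h (Nat.land S nh)) h) S) m1) d1)) m2) d2)) m3) d3)) (Nat.shiftLeft (Nat.land (Nat.lor (Nat.lor (Nat.lor (Nat.lor (Nat.xor (Nat.sub h (Nat.land S nh)) h) S) (Nat.shiftLeft (Nat.land (Nat.lor (Nat.xor (Nat.sub h (Nat.land S nh)) h) S) m1) d1)) (Nat.shiftLeft (Nat.land (Nat.lor (Nat.lor (Nat.xor (Nat.sub h (Nat.land S nh)) h) S) (Nat.shiftLeft (Nat.land (Nat.lor (Nat.xor (Nat.sub h (Nat.land S nh)) h) S) m1) d1)) m2) d2)) (Nat.shiftLeft (Nat.land (Nat.lor (Nat.lor (Nat.lor (Nat.xor (Nat.sub h (Nat.land S nh)) h) S) (Nat.shiftLeft (Nat.land (Nat.lor (Nat.xor (Nat.sub h (Nat.land S nh)) h) S) m1) d1)) (Nat.shiftLeft (Nat.land (Nat.lor (Nat.lor (Nat.xor (Nat.sub h (Nat.land S nh)) h) S) (Nat.shiftLeft (Nat.land (Nat.lor (Nat.xor (Nat.sub h (Nat.land S nh)) h) S) m1) d1)) m2) d2)) m3) d3)) m4) d4)) m5) d5)) (Nat.shiftLeft (Nat.land (Nat.lor (Nat.lor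 (Nat.lor (Nat.lor (Nat.lor (Nat.lor (Nat.xor (Nat.sub h (Nat.land S nh)) h) S) (Nat.shiftLeft (Nat.land (Nat.lor (Nat.xor (Nat.sub h (Nat.land S nh)) h) S) m1) d1)) (Nat.shiftLeft (Nat.land (Nat.lor (Nat.lor (Nat.xor (Nat.sub h (Nat.land S nh)) h) S) (Nat.shiftLeft (Nat.land (Nat.lor (Nat.xor (Nat.sub h (Nat.land S nh)) h) S) m1) d1)) m2) d2)) (Nat.shiftLeft (Nat.land (Nat.lor (Nat.lor (Nat.lor (Nat.xor (Nat.sub h (Nat.land S nh)) h) S) (Nat.shiftLeft (Nat.land (Nat.lor (Nat.xor (Nat.sub h (Nat.land S nh)) h) S) m1) d1)) (Nat.shiftLeft (Nat.land (Nat.lor (Nat.lor (Nat.xor (Nat.sub h (Nat.land S nh)) h) S) (Nat.shiftLeft (Nat.land (Nat.lor (Nat.xor (Nat.sub h (Nat.land S nh)) h) S) m1) d1)) m2) d2)) m3) d3)) (Nat.shiftLeft (Nat.land (Nat.lor (Nat.lor (Nat.lor (Nat.lor (Nat.xor (Nat.sub h (Nat.land S nh)) h) S) (Nat.shiftLeft (Nat.land (Nat.lor (Nat.xor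 (Nat.sub h (Nat.land S nh)) h) S) m1) d1)) (Nat.shiftLeft (Nat.land (Nat.lor (Nat.lor (Nat.xor (Nat.sub h (Nat.land S nh)) h) S) (Nat.shiftLeft (Nat.land (Nat.lor (Nat.xor (Nat.sub h (Nat.land S nh)) h) S) m1) d1)) m2) d2)) (Nat.shiftLeft (Nat.land (Nat.lor (Nat.lor (Nat.lor (Nat.xor (Nat.sub h (Nat.land S nh)) h) S) (Nat.shiftLeft (Nat.land (Nat.lor (Nat.xor (Nat.sub h (Nat.land S nh)) h) S) m1) d1)) (Nat.shiftLeft (Nat.land (Nat.lor (Nat.lor (Nat.xor (Nat.sub h (Nat.land S nh)) h) S) (Nat.shiftLeft (Nat.land (Nat.lor (Nat.xor (Nat.sub h (Nat.land S nh)) h) S) m1) d1)) m2) d2)) m3) d3)) m4) d4)) (Nat.shiftLeft (Nat.land (Nat.lor (Nat.lor (Nat.lor (Nat.lor (Nat.lor (Nat.xor (Nat.sub h (Nat.land S nh)) h) S) (Nat.shiftLeft (Nat.land (Nat.lor (Nat.xor (Nat.sub h (Nat.land S nh)) h) S) m1) d1)) (Nat.shiftLeft (Nat.land (Nat.lor (Nat.lor (Nat.xor (Nat.sub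 h (Nat.land S nh)) h) S) (Nat.shiftLeft (Nat.land (Nat.lor (Nat.xor (Nat.sub h (Nat.land S nh)) h) S) m1) d1)) m2) d2)) (Nat.shiftLeft (Nat.land (Nat.lor (Nat.lor (Nat.lor (Nat.xor (Nat.sub h (Nat.land S nh)) h) S) (Nat.shiftLeft (Nat.land (Nat.lor (Nat.xor (Nat.sub h (Nat.land S nh)) h) S) m1) d1)) (Nat.shiftLeft (Nat.land (Nat.lor (Nat.lor (Nat.xor (Nat.sub h (Nat.land S nh)) h) S) (Nat.shiftLeft (Nat.land (Nat.lor (Nat.xor (Nat.sub h (Nat.land S nh)) h) S) m1) d1)) m2) d2)) m3) d3)) (Nat.shiftLeft (Nat.land (Nat.lor (Nat.lor (Nat.lor (Nat.lor (Nat.xor (Nat.sub h (Nat.land S nh)) h) S) (Nat.shiftLeft (Nat.land (Nat.lor (Nat.xor (Nat.sub h (Nat.land S nh)) h) S) m1) d1)) (Nat.shiftLeft (Nat.land (Nat.lor (Nat.lor (Nat.xor (Nat.sub h (Nat.land S nh)) h) S) (Nat.shiftLeft (Nat.land (Nat.lor (Nat.xor (Nat.sub h (Nat.land S nh)) h) S) m1) d1)) m2) d2))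 (Nat.shiftLeft (Nat.land (Nat.lor (Nat.lor (Nat.lor (Nat.xor (Nat.sub h (Nat.land S nh)) h) S) (Nat.shiftLeft (Nat.land (Nat.lor (Nat.xor (Nat.sub h (Nat.land S nh)) h) S) m1) d1)) (Nat.shiftLeft (Nat.land (Nat.lor (Nat.lor (Nat.xor (Nat.sub h (Nat.land S nh)) h) S) (Nat.shiftLeft (Nat.land (Nat.lor (Nat.xor (Nat.sub h (Nat.land S nh)) h) S) m1) d1)) m2) d2)) m3) d3)) m4) d4)) m5) d5)) m6) d6)) m7) d7)) m8) d8))

noncomputable def sm3 (k1 k2 k4 : Nat) : Cf :=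
  Cf.mk fun (S : Nat) =>
  (Nat.lor (Nat.lor (Nat.lor S (Nat.land (Nat.shiftRight S (nat_lit 1)) k1)) (Nat.land (Nat.shiftRight (Nat.lor S (Nat.land (Nat.shiftRight S (nat_lit 1)) k1)) (nat_lit 2)) k2)) (Nat.land (Nat.shiftRight (Nat.lor (Nat.lor S (Nat.land (Nat.shiftRight S (nat_lit 1)) k1)) (Nat.land (Nat.shiftRight (Nat.lor S (Nat.land (Nat.shiftRight S (nat_lit 1)) k1)) (nat_lit 2)) k2)) (nat_lit 4)) k4))

noncomputable def sm4 (k1 k2 k4 k8 : Nat) : Cf :=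
  Cf.mk fun (S : Nat) =>
  (Nat.lor (Nat.lor (Nat.lor (Nat.lor S (Nat.land (Nat.shiftRight S (nat_lit 1)) k1)) (Nat.land (Nat.shiftRight (Nat.lor S (Nat.land (Nat.shiftRight S (nat_lit 1)) k1)) (nat_lit 2)) k2)) (Nat.land (Nat.shiftRight (Nat.lor (Nat.lor S (Nat.land (Nat.shiftRight S (nat_lit 1)) k1)) (Nat.land (Nat.shiftRight (Nat.lor S (Nat.land (Nat.shiftRight S (nat_lit 1)) k1)) (nat_lit 2)) k2)) (nat_lit 4)) k4)) (Nat.land (Nat.shiftRight (Nat.lor (Nat.lor (Nat.lor S (Nat.land (Nat.shiftRight S (nat_lit 1)) k1)) (Nat.land (Nat.shiftRight (Nat.lor S (Nat.land (Nat.shiftRight S (nat_lit 1)) k1)) (nat_lit 2)) k2)) (Nat.land (Nat.shiftRight (Nat.lor (Nat.lor S (Nat.land (Nat.shiftRight S (nat_lit 1)) k1)) (Nat.land (Nat.shiftRight (Nat.lor S (Nat.land (Nat.shiftRight S (nat_lit 1)) k1)) (nat_lit 2)) k2)) (nat_lit 4)) k4)) (nat_lit 8)) k8))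

noncomputable def sm6 (k1 k2 k4 k8 k16 k32 : Nat) : Cf :=
  Cf.mk fun (S : Nat) =>
  (Nat.lor (Nat.lor (Nat.lor (Nat.lor (Nat.lor (Nat.lor S (Nat.land (Nat.shiftRight S (nat_lit 1)) k1)) (Nat.land (Nat.shiftRight (Nat.lor S (Nat.land (Nat.shiftRight S (nat_lit 1)) k1)) (nat_lit 2)) k2)) (Nat.land (Nat.shiftRight (Nat.lor (Nat.lor S (Nat.land (Nat.shiftRight S (nat_lit 1)) k1)) (Nat.land (Nat.shiftRight (Nat.lor S (Nat.land (Nat.shiftRight S (nat_lit 1)) k1)) (nat_lit 2)) k2)) (nat_lit 4)) k4)) (Nat.land (Nat.shiftRight (Nat.lor (Nat.lor (Nat.lor S (Nat.land (Nat.shiftRight S (nat_lit 1)) k1)) (Nat.land (Nat.shiftRight (Nat.lor S (Nat.land (Nat.shiftRight S (nat_lit 1)) k1)) (nat_lit 2)) k2)) (Nat.land (Nat.shiftRight (Nat.lor (Nat.lor S (Nat.land (Nat.shiftRight S (nat_lit 1)) k1)) (Nat.land (Nat.shiftRight (Nat.lor S (Nat.land (Nat.shiftRight S (nat_lit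 1)) k1)) (nat_lit 2)) k2)) (nat_lit 4)) k4)) (nat_lit 8)) k8)) (Nat.land (Nat.shiftRight (Nat.lor (Nat.lor (Nat.lor (Nat.lor S (Nat.land (Nat.shiftRight S (nat_lit 1)) k1)) (Nat.land (Nat.shiftRight (Nat.lor S (Nat.land (Nat.shiftRight S (nat_lit 1)) k1)) (nat_lit 2)) k2)) (Nat.land (Nat.shiftRight (Nat.lor (Nat.lor S (Nat.land (Nat.shiftRight S (nat_lit 1)) k1)) (Nat.land (Nat.shiftRight (Nat.lor S (Nat.land (Nat.shiftRight S (nat_lit 1)) k1)) (nat_lit 2)) k2)) (nat_lit 4)) k4)) (Nat.land (Nat.shiftRight (Nat.lor (Nat.lor (Nat.lor S (Nat.land (Nat.shiftRight S (nat_lit 1)) k1)) (Nat.land (Nat.shiftRight (Nat.lor S (Nat.land (Nat.shiftRight S (nat_lit 1)) k1)) (nat_lit 2)) k2)) (Nat.land (Nat.shiftRight (Nat.lor (Nat.lor S (Nat.land (Nat.shiftRight S (nat_lit 1)) k1)) (Nat.land (Nat.shiftRight (Nat.lor S (Nat.land (Nat.shiftRight S (nat_lit 1)) k1))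 (nat_lit 2)) k2)) (nat_lit 4)) k4)) (nat_lit 8)) k8)) (nat_lit 16)) k16)) (Nat.land (Nat.shiftRight (Nat.lor (Nat.lor (Nat.lor (Nat.lor (Nat.lor S (Nat.land (Nat.shiftRight S (nat_lit 1)) k1)) (Nat.land (Nat.shiftRight (Nat.lor S (Nat.land (Nat.shiftRight S (nat_lit 1)) k1)) (nat_lit 2)) k2)) (Nat.land (Nat.shiftRight (Nat.lor (Nat.lor S (Nat.land (Nat.shiftRight S (nat_lit 1)) k1)) (Nat.land (Nat.shiftRight (Nat.lor S (Nat.land (Nat.shiftRight S (nat_lit 1)) k1)) (nat_lit 2)) k2)) (nat_lit 4)) k4)) (Nat.land (Nat.shiftRight (Nat.lor (Nat.lor (Nat.lor S (Nat.land (Nat.shiftRight S (nat_lit 1)) k1)) (Nat.land (Nat.shiftRight (Nat.lor S (Nat.land (Nat.shiftRight S (nat_lit 1)) k1)) (nat_lit 2)) k2)) (Nat.land (Nat.shiftRight (Nat.lor (Nat.lor S (Nat.land (Nat.shiftRight S (nat_lit 1)) k1)) (Nat.land (Nat.shiftRight (Nat.lor S (Nat.land (Nat.shiftRight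 S (nat_lit 1)) k1)) (nat_lit 2)) k2)) (nat_lit 4)) k4)) (nat_lit 8)) k8)) (Nat.land (Nat.shiftRight (Nat.lor (Nat.lor (Nat.lor (Nat.lor S (Nat.land (Nat.shiftRight S (nat_lit 1)) k1)) (Nat.land (Nat.shiftRight (Nat.lor S (Nat.land (Nat.shiftRight S (nat_lit 1)) k1)) (nat_lit 2)) k2)) (Nat.land (Nat.shiftRight (Nat.lor (Nat.lor S (Nat.land (Nat.shiftRight S (nat_lit 1)) k1)) (Nat.land (Nat.shiftRight (Nat.lor S (Nat.land (Nat.shiftRight S (nat_lit 1)) k1)) (nat_lit 2)) k2)) (nat_lit 4)) k4)) (Nat.land (Nat.shiftRight (Nat.lor (Nat.lor (Nat.lor S (Nat.land (Nat.shiftRight S (nat_lit 1)) k1)) (Nat.land (Nat.shiftRight (Nat.lor S (Nat.land (Nat.shiftRight S (nat_lit 1)) k1)) (nat_lit 2)) k2)) (Nat.land (Nat.shiftRight (Nat.lor (Nat.lor S (Nat.land (Nat.shiftRight S (nat_lit 1)) k1)) (Nat.land (Nat.shiftRight (Nat.lor S (Nat.land (Nat.shiftRight S (nat_lit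 1)) k1)) (nat_lit 2)) k2)) (nat_lit 4)) k4)) (nat_lit 8)) k8)) (nat_lit 16)) k16)) (nat_lit 32)) k32))

noncomputable def sS2 (G : Grp) (rep tt ad tp sm ONE jW tb : Nat) : FnV :=
  FnV.mk fun (k : KV) (D B T cx c Wm base : Nat) =>
  (@Nat.rec (fun _ => Nat) (nat_lit 0) (fun r _ => (@Bool.rec (fun _ => Nat) (nat_lit 0) (k D B T tb c (Nat.xor Wm (Nat.land Wm (Nat.shiftRight B jW))) (Nat.add base (vlv G r))) (Nat.beq (Nat.land (Nat.land (Nat.shiftRight D jW) ONE) (gtv G r)) (nat_lit 0)))) (Nat.mod (Nat.land (Nat.add (Nat.land (Nat.mul (Nat.land (Nat.shiftRight D jW) ONE) rep) tt) ad) tp) sm))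

noncomputable def sVS (G : Grp) (vt ta tb tr : Nat) : FnV :=
  FnV.mk fun (k : KV) (D B T cx c Wm base : Nat) =>
  (@Nat.rec (fun _ => Nat) (nat_lit 0) (fun p _ => (@Nat.rec (fun _ => Nat) (nat_lit 0) (fun e _ => (k D B T tr e (Nat.xor Wm (Nat.land Wm (cmp G p))) (Nat.add base (Nat.land (Nat.shiftRight vt (Nat.mul p (nat_lit 9))) (nat_lit 511))))) (k D B T tb (Nat.shiftRight c (Nat.land (Nat.shiftRight (Nat.shiftRight ta (Nat.land c (nat_lit 8176))) (nat_lit 12)) (nat_lit 15))) (Nat.xor Wm (Nat.land Wm (Nat.shiftLeft (nat_lit 1) p))) base))) (Nat.land (Nat.shiftRight ta (Nat.land c (nat_lit 8176))) (nat_lit 4095)))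

noncomputable def sVL (sm : Nat → Nat) (ht k1 : Nat) : FnV :=
  FnV.mk fun (k : KV) (D B T cx c Wm base : Nat) =>
  (@Bool.rec (fun _ => Nat) (nat_lit 0) (Nat.succ c) (q8 (q8 (fun (k : Nat → Nat → Nat → Bool) (T tp base : Nat) => (@Nat.rec (fun _ => Bool) (Nat.ble (Nat.succ base) T) (fun t1 _ => (k T (Nat.land (Nat.land (Nat.land tp t1) (Nat.sub (Nat.land tp t1) (nat_lit 1))) (Nat.sub (Nat.land (Nat.land tp t1) (Nat.sub (Nat.land tp t1) (nat_lit 1))) (nat_lit 1))) (Nat.add (Nat.add base (Nat.land (Nat.shiftRight ht (Nat.mul (Nat.mod (Nat.xor tp (Nat.land tp t1)) (nat_lit 509)) (nat_lit 9))) (nat_lit 511))) (Nat.add (Nat.land (Nat.shiftRight ht (Nat.mul (Nat.mod (Nat.xor (Nat.land tp t1) (Nat.land (Nat.land tp t1) (Nat.sub (Nat.land tp t1) (nat_lit 1)))) (nat_lit 509)) (nat_lit 9))) (nat_lit 511)) (Nat.land (Nat.shiftRight ht (Nat.mul (Nat.mod (Nat.xor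 (Nat.land (Nat.land tp t1) (Nat.sub (Nat.land tp t1) (nat_lit 1))) (Nat.land (Nat.land (Nat.land tp t1) (Nat.sub (Nat.land tp t1) (nat_lit 1))) (Nat.sub (Nat.land (Nat.land tp t1) (Nat.sub (Nat.land tp t1) (nat_lit 1))) (nat_lit 1)))) (nat_lit 509)) (nat_lit 9))) (nat_lit 511)))))) tp))) (fun _ _ _ => false) T (Nat.xor Wm (Nat.land Wm (Nat.land (Nat.shiftRight (sm Wm) (nat_lit 1)) k1))) base))

noncomputable def tcx (W ONE S rep tt : Nat) : Tc :=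
  @Nat.rec (fun _ => Tc) (Tc.mk 0 0 0 0 0) (fun a _ =>
    @Nat.rec (fun _ => Tc) (Tc.mk 0 0 0 0 0) (fun b _ =>
    @Nat.rec (fun _ => Tc) (Tc.mk 0 0 0 0 0) (fun c _ =>
    @Nat.rec (fun _ => Tc) (Tc.mk 0 0 0 0 0) (fun d _ =>
    @Nat.rec (fun _ => Tc) (Tc.mk 0 0 0 0 0) (fun e _ =>
    Tc.mk a b c d e) (Nat.succ (Nat.sub (Nat.shiftLeft 1 S) 1))) (Nat.succ (Nat.shiftLeft a W))) (Nat.succ (Nat.mul a ONE))) (Nat.succ tt)) (Nat.succ rep)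

noncomputable def tcb (G : Grp) (e : Nat) (f : Nat → Nat → Nat) : Nat :=
  Nat.shiftLeft (Nat.lor (Nat.lor e (Nat.lor
    (Nat.shiftLeft (bld (G.W + 26) (G.X0 - 1) (fun v => f 0 (v + 1))) (G.W + 26))
    (Nat.shiftLeft (bld (G.W + 26) (G.X1 - 1) (fun v => f 1 (v + 1))) (G.X0 * (G.W + 26) + 6))))
   (Nat.lor (Nat.shiftLeft (bld (G.W + 26) (G.X2 - 1) (fun v => f 2 (v + 1)))
      ((G.X0 + G.X1 - 1) * (G.W + 26) + 12))
    (Nat.shiftLeft (bld (G.W + 26) (G.M - 1) (fun v => f 3 (v + 1)))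
      ((G.X0 + G.X1 + G.X2 - 2) * (G.W + 26) + 18)))) 26

noncomputable def slt (G : Grp) (k v : Nat) : Nat := sd G (G.W - 1 - (xk G k - v) * stq G k)

noncomputable def tcR (G : Grp) : Nat := tcb G 1 fun _ _ => 1
noncomputable def tcM (G : Grp) : Tc := tcx G.W G.ONE (G.W + 26) (tcR G) (tcb G G.ONE (ltk G))
noncomputable def tcS (G : Grp) : Tc := tcx G.W G.ONE (G.W + 26) (tcR G) (tcb G G.ONE (slt G))
noncomputable def tcJ (G : Grp) : Tc :=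
  tcx G.W G.ONE (G.W + 26) (tcR G) (tcb G G.ONE fun k v => Nat.xor (slt G k v) G.ONE)
noncomputable def tcV (G : Grp) : Tc :=
  tcx G.W G.ONE (G.W + 8) (Nat.shiftLeft (bld (G.W + 8) (G.nl + 1) fun _ => 1) 8)
    (Nat.shiftLeft (Nat.lor G.ONE (Nat.shiftLeft (bld (G.W + 8) G.nl (gtv G)) (G.W + 8))) 8)

def ck (G : Grp) (i : Nat) : Nat := Nat.land (Nat.shiftRight G.cd (8 * i)) 3
def cdl (G : Grp) (i : Nat) : Nat := Nat.land (Nat.shiftRight G.cd (8 * i + 2)) 63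
noncomputable def cm (G : Grp) (i : Nat) : Nat := ltk G (ck G i) (xk G (ck G i) - cdl G i)
noncomputable def cs (G : Grp) (i : Nat) : Nat := cdl G i * stq G (ck G i)

noncomputable def clo (G : Grp) : Cf :=
  @Nat.rec (fun _ => Cf) (Cf.mk fun _ => 0) (fun nh _ =>
    @Nat.rec (fun _ => Cf) (Cf.mk fun _ => 0) (fun h _ =>
    @Nat.rec (fun _ => Cf) (Cf.mk fun _ => 0) (fun m1 _ =>
    @Nat.rec (fun _ => Cf) (Cf.mk fun _ => 0) (fun d1 _ =>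
    @Nat.rec (fun _ => Cf) (Cf.mk fun _ => 0) (fun m2 _ =>
    @Nat.rec (fun _ => Cf) (Cf.mk fun _ => 0) (fun d2 _ =>
    @Nat.rec (fun _ => Cf) (Cf.mk fun _ => 0) (fun m3 _ =>
    @Nat.rec (fun _ => Cf) (Cf.mk fun _ => 0) (fun d3 _ =>
    @Nat.rec (fun _ => Cf) (Cf.mk fun _ => 0) (fun m4 _ =>
    @Nat.rec (fun _ => Cf) (Cf.mk fun _ => 0) (fun d4 _ =>
    @Nat.rec (fun _ => Cf) (Cf.mk fun _ => 0) (fun m5 _ =>
    @Nat.rec (fun _ => Cf) (Cf.mk fun _ => 0) (fun d5 _ =>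
    @Nat.rec (fun _ => Cf) (Cf.mk fun _ => 0) (fun m6 _ =>
    @Nat.rec (fun _ => Cf) (Cf.mk fun _ => 0) (fun d6 _ =>
    @Nat.rec (fun _ => Cf) (Cf.mk fun _ => 0) (fun m7 _ =>
    @Nat.rec (fun _ => Cf) (Cf.mk fun _ => 0) (fun d7 _ =>
    @Nat.rec (fun _ => Cf) (Cf.mk fun _ => 0) (fun m8 _ =>
    @Nat.rec (fun _ => Cf) (Cf.mk fun _ => 0) (fun d8 _ =>
    @Nat.rec (fun _ => Cf) (up5 h nh m1 d1 m2 d2 m3 d3 m4 d4 m5 d5) (fun o _ => @Nat.rec (fun _ => Cf) (up6 h nh m1 d1 m2 d2 m3 d3 m4 d4 m5 d5 m6 d6)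
    (fun o _ => @Nat.rec (fun _ => Cf) (up7 h nh m1 d1 m2 d2 m3 d3 m4 d4 m5 d5 m6 d6 m7 d7) (fun _ _ => up8 h nh m1 d1 m2 d2 m3 d3 m4 d4 m5 d5 m6 d6 m7 d7 m8 d8) o) o) (ck G 0)) (Nat.succ (cs G 8))) (Nat.succ (cm G 8))) (Nat.succ (cs G 7))) (Nat.succ (cm G 7))) (Nat.succ (cs G 6))) (Nat.succ (cm G 6))) (Nat.succ (cs G 5))) (Nat.succ (cm G 5))) (Nat.succ (cs G 4))) (Nat.succ (cm G 4))) (Nat.succ (cs G 3))) (Nat.succ (cm G 3))) (Nat.succ (cs G 2))) (Nat.succ (cm G 2))) (Nat.succ (cs G 1))) (Nat.succ (cm G 1))) (Nat.succ (Nat.xor nh G.ONE))) (Nat.succ (ltk G 3 (Nat.sub G.M 1)))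

noncomputable def smo (G : Grp) : Cf :=
  @Grp.rec (fun _ => Cf) (fun X0 X1 X2 M W ONE st0 st1 AA up3 ge3 dn3 le3 lt0 lt1 lt2 lt3 sd3 sle3 su3 sge3 tt vt srt ncorn D0 lev vl ht hq k1 k2 k4 k8 k16 k32 nl sq cd aX aN aV aS aL hf =>
    @Bool.rec (fun _ => Cf) (@Bool.rec (fun _ => Cf) (sm6 k1 k2 k4 k8 k16 k32)
      (sm4 k1 k2 k4 k8) (Nat.ble M 17)) (sm3 k1 k2 k4) (Nat.ble M 9)) G

noncomputable def prm {α : Type} (G : Grp) (z : α) (t : Nat)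
    (f : Nat → Nat → Nat → Nat → Nat → Nat → Nat → α) : α :=
  @Nat.rec (fun _ => α) z (fun j _ =>
    @Nat.rec (fun _ => α) z (fun jW _ =>
    @Nat.rec (fun _ => α) z (fun js _ =>
    @Nat.rec (fun _ => α) z (fun bj _ =>
    @Nat.rec (fun _ => α) z (fun nm _ =>
    @Nat.rec (fun _ => α) z (fun C1 _ =>
    @Nat.rec (fun _ => α) z (fun tb _ =>
    f j jW js bj nm C1 tb) (Nat.succ (tl G t))) (Nat.succ (Nat.mul 16 G.W))) (Nat.succ (Nat.shiftLeft G.ONE jW))) (Nat.succ (Nat.shiftLeft 1 jW))) (Nat.succ (Nat.mul 16 j))) (Nat.succ (Nat.mul j G.W))) (Nat.succ (Nat.land t 15))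

noncomputable def oS2 (G : Grp) (j jW js bj nm C1 tb : Nat) : FnV :=
  @Grp.rec (fun _ => FnV) (fun X0 X1 X2 M W ONE st0 st1 AA up3 ge3 dn3 le3 lt0 lt1 lt2 lt3 sd3 sle3 su3 sge3 tt vt srt ncorn D0 lev vl ht hq k1 k2 k4 k8 k16 k32 nl sq cd aX aN aV aS aL hf =>
    @Tc.rec (fun _ => FnV) (fun rep tt ad tp sm => sS2 G rep tt ad tp sm ONE jW tb) (tcV G)) G

noncomputable def oVS (G : Grp) (j jW js bj nm C1 tb : Nat) : FnV :=
  @Grp.rec (fun _ => FnV) (fun X0 X1 X2 M W ONE st0 st1 AA up3 ge3 dn3 le3 lt0 lt1 lt2 lt3 sd3 sle3 su3 sge3 tt vt srt ncorn D0 lev vl ht hq k1 k2 k4 k8 k16 k32 nl sq cd aX aN aV aS aL hf =>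
    @Nat.rec (fun _ => FnV) sNOV (fun tr _ =>
    sVS G vt aV tb tr) (Nat.succ (tl G 448))) G

noncomputable def oVL (G : Grp) (j jW js bj nm C1 tb : Nat) : FnV :=
  @Grp.rec (fun _ => FnV) (fun X0 X1 X2 M W ONE st0 st1 AA up3 ge3 dn3 le3 lt0 lt1 lt2 lt3 sd3 sle3 su3 sge3 tt vt srt ncorn D0 lev vl ht hq k1 k2 k4 k8 k16 k32 nl sq cd aX aN aV aS aL hf =>
    @Cf.rec (fun _ => FnV) (fun sm => sVL sm ht k1) (smo G)) G

noncomputable def selV (G : Grp) (t : Nat) : FnV :=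
  @Nat.rec (fun _ => FnV) sNOV (fun o _ =>
    (@Nat.rec (fun _ => FnV) (prm G sNOV t (oS2 G))
    (fun o _ => (@Nat.rec (fun _ => FnV) (prm G sNOV t (oVS G))
    (fun o _ => (@Nat.rec (fun _ => FnV) (prm G sNOV t (oVL G))
    (fun o _ => sNOV) o)) o)) o)) (Nat.succ (Nat.sub (Nat.shiftRight t 4) 23))

noncomputable def runV (G : Grp) : KV :=
  q8 (q8 fun (k : KV) (D B T cx c Wm base : Nat) =>
    @Nat.rec (fun _ => Nat) (nat_lit 0) (fun t _ => (selV G t).1 k D B T cx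
      (Nat.shiftRight c (Nat.land (Nat.shiftRight (Nat.shiftRight cx
        (Nat.land c (nat_lit 4080))) (nat_lit 9)) (nat_lit 15))) Wm base)
    (Nat.land (Nat.shiftRight cx (Nat.land c (nat_lit 4080))) (nat_lit 511)))
    (fun _ _ _ _ _ _ _ => 0)

noncomputable def oNOP (G : Grp) (j jW js bj nm C1 tb : Nat) : Fn :=
  @Grp.rec (fun _ => Fn) (fun X0 X1 X2 M W ONE st0 st1 AA up3 ge3 dn3 le3 lt0 lt1 lt2 lt3 sd3 sle3 su3 sge3 tt vt srt ncorn D0 lev vl ht hq k1 k2 k4 k8 k16 k32 nl sq cd aX aN aV aS aL hf =>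
    sNOP tb) G

noncomputable def oLO (G : Grp) (j jW js bj nm C1 tb : Nat) : Fn :=
  @Grp.rec (fun _ => Fn) (fun X0 X1 X2 M W ONE st0 st1 AA up3 ge3 dn3 le3 lt0 lt1 lt2 lt3 sd3 sle3 su3 sge3 tt vt srt ncorn D0 lev vl ht hq k1 k2 k4 k8 k16 k32 nl sq cd aX aN aV aS aL hf =>
    @Tc.rec (fun _ => Fn) (fun rep tt ad tp sm => sLO G rep tt ad tp sm ONE C1 jW js tb) (tcM G)) G

noncomputable def oCL (G : Grp) (j jW js bj nm C1 tb : Nat) : Fn :=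
  @Grp.rec (fun _ => Fn) (fun X0 X1 X2 M W ONE st0 st1 AA up3 ge3 dn3 le3 lt0 lt1 lt2 lt3 sd3 sle3 su3 sge3 tt vt srt ncorn D0 lev vl ht hq k1 k2 k4 k8 k16 k32 nl sq cd aX aN aV aS aL hf =>
    @Tc.rec (fun _ => Fn) (fun rep tt ad tp sm => sCa (cl1 G) (cl2 G) rep tt ad tp sm ONE jW bj tb) (tcS G)) G

noncomputable def oCH (G : Grp) (j jW js bj nm C1 tb : Nat) : Fn :=
  @Grp.rec (fun _ => Fn) (fun X0 X1 X2 M W ONE st0 st1 AA up3 ge3 dn3 le3 lt0 lt1 lt2 lt3 sd3 sle3 su3 sge3 tt vt srt ncorn D0 lev vl ht hq k1 k2 k4 k8 k16 k32 nl sq cd aX aN aV aS aL hf =>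
    @Tc.rec (fun _ => Fn) (fun rep tt ad tp sm => sCa (ch1 G) (ch2 G) rep tt ad tp sm ONE jW bj tb) (tcJ G)) G

noncomputable def oCB (G : Grp) (j jW js bj nm C1 tb : Nat) : Fn :=
  @Grp.rec (fun _ => Fn) (fun X0 X1 X2 M W ONE st0 st1 AA up3 ge3 dn3 le3 lt0 lt1 lt2 lt3 sd3 sle3 su3 sge3 tt vt srt ncorn D0 lev vl ht hq k1 k2 k4 k8 k16 k32 nl sq cd aX aN aV aS aL hf =>
    sCb (cb1 G) (cb2 G) ONE jW bj tb) G

noncomputable def oFIX (G : Grp) (j jW js bj nm C1 tb : Nat) : Fn :=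
  @Grp.rec (fun _ => Fn) (fun X0 X1 X2 M W ONE st0 st1 AA up3 ge3 dn3 le3 lt0 lt1 lt2 lt3 sd3 sle3 su3 sge3 tt vt srt ncorn D0 lev vl ht hq k1 k2 k4 k8 k16 k32 nl sq cd aX aN aV aS aL hf =>
    sFIX G ONE C1 jW js bj tb) G

noncomputable def oCT0 (G : Grp) (j jW js bj nm C1 tb : Nat) : Fn :=
  @Grp.rec (fun _ => Fn) (fun X0 X1 X2 M W ONE st0 st1 AA up3 ge3 dn3 le3 lt0 lt1 lt2 lt3 sd3 sle3 su3 sge3 tt vt srt ncorn D0 lev vl ht hq k1 k2 k4 k8 k16 k32 nl sq cd aX aN aV aS aL hf =>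
    sCb (ct1 G 0) (ct2 G 0) ONE jW bj tb) G

noncomputable def oCT1 (G : Grp) (j jW js bj nm C1 tb : Nat) : Fn :=
  @Grp.rec (fun _ => Fn) (fun X0 X1 X2 M W ONE st0 st1 AA up3 ge3 dn3 le3 lt0 lt1 lt2 lt3 sd3 sle3 su3 sge3 tt vt srt ncorn D0 lev vl ht hq k1 k2 k4 k8 k16 k32 nl sq cd aX aN aV aS aL hf =>
    sCb (ct1 G 1) (ct2 G 1) ONE jW bj tb) G

noncomputable def oCT2 (G : Grp) (j jW js bj nm C1 tb : Nat) : Fn :=
  @Grp.rec (fun _ => Fn) (fun X0 X1 X2 M W ONE st0 st1 AA up3 ge3 dn3 le3 lt0 lt1 lt2 lt3 sd3 sle3 su3 sge3 tt vt srt ncorn D0 lev vl ht hq k1 k2 k4 k8 k16 k32 nl sq cd aX aN aV aS aL hf =>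
    sCb (ct1 G 2) (ct2 G 2) ONE jW bj tb) G

noncomputable def oCT3 (G : Grp) (j jW js bj nm C1 tb : Nat) : Fn :=
  @Grp.rec (fun _ => Fn) (fun X0 X1 X2 M W ONE st0 st1 AA up3 ge3 dn3 le3 lt0 lt1 lt2 lt3 sd3 sle3 su3 sge3 tt vt srt ncorn D0 lev vl ht hq k1 k2 k4 k8 k16 k32 nl sq cd aX aN aV aS aL hf =>
    sCb (ct1 G 3) (ct2 G 3) ONE jW bj tb) G

noncomputable def oGEl (G : Grp) (j jW js bj nm C1 tb : Nat) : Fn :=
  @Grp.rec (fun _ => Fn) (fun X0 X1 X2 M W ONE st0 st1 AA up3 ge3 dn3 le3 lt0 lt1 lt2 lt3 sd3 sle3 su3 sge3 tt vt srt ncorn D0 lev vl ht hq k1 k2 k4 k8 k16 k32 nl sq cd aX aN aV aS aL hf =>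
    sGEl G ONE C1 jW js tb) G

noncomputable def oGE (G : Grp) (j jW js bj nm C1 tb : Nat) : Fn :=
  @Grp.rec (fun _ => Fn) (fun X0 X1 X2 M W ONE st0 st1 AA up3 ge3 dn3 le3 lt0 lt1 lt2 lt3 sd3 sle3 su3 sge3 tt vt srt ncorn D0 lev vl ht hq k1 k2 k4 k8 k16 k32 nl sq cd aX aN aV aS aL hf =>
    @Cf.rec (fun _ => Fn) (fun cl => sGE cl ONE C1 jW js tb) (clo G)) G

noncomputable def oNEW (G : Grp) (j jW js bj nm C1 tb : Nat) : Fn :=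
  @Grp.rec (fun _ => Fn) (fun X0 X1 X2 M W ONE st0 st1 AA up3 ge3 dn3 le3 lt0 lt1 lt2 lt3 sd3 sle3 su3 sge3 tt vt srt ncorn D0 lev vl ht hq k1 k2 k4 k8 k16 k32 nl sq cd aX aN aV aS aL hf =>
    @Nat.rec (fun _ => Fn) sNO (fun w0 _ =>
    @Nat.rec (fun _ => Fn) sNO (fun w1 _ =>
    @Nat.rec (fun _ => Fn) sNO (fun w2 _ =>
    @Nat.rec (fun _ => Fn) sNO (fun w3 _ =>
    @Nat.rec (fun _ => Fn) sNO (fun wm _ =>
    @Cf.rec (fun _ => Fn) (fun cl => sNEW G cl W ONE C1 M st0 st1 w0 w1 w2 w3 wm hq aN 192) (clo G)) (Nat.succ (Nat.sub ONE 1))) (Nat.succ (ltk G 3 1))) (Nat.succ (ltk G 2 1))) (Nat.succ (ltk G 1 1))) (Nat.succ (ltk G 0 1))) G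

noncomputable def oNEW0 (G : Grp) (j jW js bj nm C1 tb : Nat) : Fn :=
  @Grp.rec (fun _ => Fn) (fun X0 X1 X2 M W ONE st0 st1 AA up3 ge3 dn3 le3 lt0 lt1 lt2 lt3 sd3 sle3 su3 sge3 tt vt srt ncorn D0 lev vl ht hq k1 k2 k4 k8 k16 k32 nl sq cd aX aN aV aS aL hf =>
    @Nat.rec (fun _ => Fn) sNO (fun w0 _ =>
    @Nat.rec (fun _ => Fn) sNO (fun w1 _ =>
    @Nat.rec (fun _ => Fn) sNO (fun w2 _ =>
    @Nat.rec (fun _ => Fn) sNO (fun w3 _ =>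
    @Nat.rec (fun _ => Fn) sNO (fun wm _ =>
    sNEW G (fun _ => 0) W ONE C1 M st0 st1 w0 w1 w2 w3 wm hq aN 208) (Nat.succ (Nat.sub ONE 1))) (Nat.succ (ltk G 3 1))) (Nat.succ (ltk G 2 1))) (Nat.succ (ltk G 1 1))) (Nat.succ (ltk G 0 1))) G

noncomputable def oDROP (G : Grp) (j jW js bj nm C1 tb : Nat) : Fn :=
  @Grp.rec (fun _ => Fn) (fun X0 X1 X2 M W ONE st0 st1 AA up3 ge3 dn3 le3 lt0 lt1 lt2 lt3 sd3 sle3 su3 sge3 tt vt srt ncorn D0 lev vl ht hq k1 k2 k4 k8 k16 k32 nl sq cd aX aN aV aS aL hf =>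
    @Nat.rec (fun _ => Fn) sNO (fun _ _ => sDROP G ONE C1 hq jW js nm tb) j) G

noncomputable def oS3 (G : Grp) (j jW js bj nm C1 tb : Nat) : Fn :=
  @Grp.rec (fun _ => Fn) (fun X0 X1 X2 M W ONE st0 st1 AA up3 ge3 dn3 le3 lt0 lt1 lt2 lt3 sd3 sle3 su3 sge3 tt vt srt ncorn D0 lev vl ht hq k1 k2 k4 k8 k16 k32 nl sq cd aX aN aV aS aL hf =>
    sS3 G C1 jW js aS tb) G

noncomputable def oLL (G : Grp) (j jW js bj nm C1 tb : Nat) : Fn :=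
  @Grp.rec (fun _ => Fn) (fun X0 X1 X2 M W ONE st0 st1 AA up3 ge3 dn3 le3 lt0 lt1 lt2 lt3 sd3 sle3 su3 sge3 tt vt srt ncorn D0 lev vl ht hq k1 k2 k4 k8 k16 k32 nl sq cd aX aN aV aS aL hf =>
    sLL G aL tb) G

noncomputable def oSPX (G : Grp) (md : Bool) (j jW js bj nm C1 tb : Nat) : Fn :=
  @Grp.rec (fun _ => Fn) (fun X0 X1 X2 M W ONE st0 st1 AA up3 ge3 dn3 le3 lt0 lt1 lt2 lt3 sd3 sle3 su3 sge3 tt vt srt ncorn D0 lev vl ht hq k1 k2 k4 k8 k16 k32 nl sq cd aX aN aV aS aL hf =>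
    @Nat.rec (fun _ => Fn) sNO (fun tr _ =>
    @Bool.rec (fun _ => Fn) (sSPX G jW aX tb tr) (sSPXt G jW aX tb tr) md) (Nat.succ (tl G (Nat.add 416 j)))) G

noncomputable def oSPL (G : Grp) (md : Bool) (j jW js bj nm C1 tb : Nat) : Fn :=
  @Grp.rec (fun _ => Fn) (fun X0 X1 X2 M W ONE st0 st1 AA up3 ge3 dn3 le3 lt0 lt1 lt2 lt3 sd3 sle3 su3 sge3 tt vt srt ncorn D0 lev vl ht hq k1 k2 k4 k8 k16 k32 nl sq cd aX aN aV aS aL hf =>
    @Nat.rec (fun _ => Fn) sNO (fun tr _ =>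
    @Bool.rec (fun _ => Fn) (sSPL G aL tb tr) (sSPLt G aL tb tr) md) (Nat.succ (tl G 432))) G

noncomputable def oDEAD (G : Grp) (j jW js bj nm C1 tb : Nat) : Fn :=
  @Grp.rec (fun _ => Fn) (fun X0 X1 X2 M W ONE st0 st1 AA up3 ge3 dn3 le3 lt0 lt1 lt2 lt3 sd3 sle3 su3 sge3 tt vt srt ncorn D0 lev vl ht hq k1 k2 k4 k8 k16 k32 nl sq cd aX aN aV aS aL hf =>
    sDEAD bj nm) G

noncomputable def oTRIV (G : Grp) (j jW js bj nm C1 tb : Nat) : Fn :=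
  @Grp.rec (fun _ => Fn) (fun X0 X1 X2 M W ONE st0 st1 AA up3 ge3 dn3 le3 lt0 lt1 lt2 lt3 sd3 sle3 su3 sge3 tt vt srt ncorn D0 lev vl ht hq k1 k2 k4 k8 k16 k32 nl sq cd aX aN aV aS aL hf =>
    sTRIV G (Nat.land j 3)) G

noncomputable def oVOL (G : Grp) (j jW js bj nm C1 tb : Nat) : Fn :=
  @Grp.rec (fun _ => Fn) (fun X0 X1 X2 M W ONE st0 st1 AA up3 ge3 dn3 le3 lt0 lt1 lt2 lt3 sd3 sle3 su3 sge3 tt vt srt ncorn D0 lev vl ht hq k1 k2 k4 k8 k16 k32 nl sq cd aX aN aV aS aL hf =>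
    sVOL G (runV G) AA tb) G

noncomputable def oCUT (G : Grp) (cut : K) (j jW js bj nm C1 tb : Nat) : Fn :=
  @Grp.rec (fun _ => Fn) (fun X0 X1 X2 M W ONE st0 st1 AA up3 ge3 dn3 le3 lt0 lt1 lt2 lt3 sd3 sle3 su3 sge3 tt vt srt ncorn D0 lev vl ht hq k1 k2 k4 k8 k16 k32 nl sq cd aX aN aV aS aL hf =>
    sCUT cut tb) G

noncomputable def sel (G : Grp) (md : Bool) (cut : K) (t : Nat) : Fn :=
  @Nat.rec (fun _ => Fn) sNO (fun o _ =>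
    (@Nat.rec (fun _ => Fn) (prm G sNO t (oNOP G))
    (fun o _ => (@Nat.rec (fun _ => Fn) (prm G sNO t (oLO G))
    (fun o _ => (@Nat.rec (fun _ => Fn) (prm G sNO t (oCL G))
    (fun o _ => (@Nat.rec (fun _ => Fn) (prm G sNO t (oCH G))
    (fun o _ => (@Nat.rec (fun _ => Fn) (prm G sNO t (oCB G))
    (fun o _ => (@Nat.rec (fun _ => Fn) (prm G sNO t (oFIX G))
    (fun o _ => (@Nat.rec (fun _ => Fn) (prm G sNO t (oCT0 G))
    (fun o _ => (@Nat.rec (fun _ => Fn) (prm G sNO t (oCT1 G))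
    (fun o _ => (@Nat.rec (fun _ => Fn) (prm G sNO t (oCT2 G))
    (fun o _ => (@Nat.rec (fun _ => Fn) (prm G sNO t (oCT3 G))
    (fun o _ => (@Nat.rec (fun _ => Fn) (prm G sNO t (oGEl G))
    (fun o _ => (@Nat.rec (fun _ => Fn) (prm G sNO t (oGE G))
    (fun o _ => (@Nat.rec (fun _ => Fn) (prm G sNO t (oNEW G))
    (fun o _ => (@Nat.rec (fun _ => Fn) (prm G sNO t (oNEW0 G))
    (fun o _ => (@Nat.rec (fun _ => Fn) (prm G sNO t (oDROP G))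
    (fun o _ => (@Nat.rec (fun _ => Fn) (prm G sNO t (oS3 G))
    (fun o _ => (@Nat.rec (fun _ => Fn) (prm G sNO t (oLL G))
    (fun o _ => (@Nat.rec (fun _ => Fn) (prm G sNO t (oSPX G md))
    (fun o _ => (@Nat.rec (fun _ => Fn) (prm G sNO t (oSPL G md))
    (fun o _ => (@Nat.rec (fun _ => Fn) (prm G sNO t (oDEAD G))
    (fun o _ => (@Nat.rec (fun _ => Fn) (prm G sNO t (oTRIV G))
    (fun o _ => (@Nat.rec (fun _ => Fn) (prm G sNO t (oVOL G))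
    (fun o _ => (@Nat.rec (fun _ => Fn) (prm G sNO t (oCUT G cut))
    (fun o _ => sNO) o)) o)) o)) o)) o)) o)) o)) o)) o)) o)) o)) o)) o)) o)) o)) o)) o)) o)) o)) o)) o)) o)) o)) (Nat.succ (Nat.shiftRight t 4))

def kNO : K := fun _ _ _ _ _ _ _ _ _ _ _ _ _ => 0

noncomputable def runK (G : Grp) (md : Bool) (cut : K) : K :=
  q8 (q8 (q8 fun (k : K) (A R Ll Lu P cx c U B F Z LB D : Nat) =>
    @Nat.rec (fun _ => Nat) (nat_lit 0) (fun t _ => (sel G md cut t).1 k A R Ll Lu P cx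
      (Nat.shiftRight c (Nat.land (Nat.shiftRight (Nat.shiftRight cx
        (Nat.land c (nat_lit 4080))) (nat_lit 9)) (nat_lit 15))) U B F Z LB D)
    (Nat.land (Nat.shiftRight cx (Nat.land c (nat_lit 4080))) (nat_lit 511)))) kNO

noncomputable def cat (l : List Nat) : Nat :=
  @List.rec Nat (fun _ => Nat) 0 (fun a _ r => Nat.lor a (Nat.shiftLeft r (nat_lit 8000))) l

noncomputable def nth (l : List (List Nat)) : Nat → Nat :=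
  @List.rec (List Nat) (fun _ => Nat → Nat) (fun _ => 0)
    (fun a _ r i => @Nat.rec (fun _ => Nat) (cat a) (fun j _ => r j) i) l

noncomputable def cutk (G : Grp) (md : Bool) (cut : K) (lo hi : Nat) (l : List (List Nat)) : K :=
  fun A R Ll Lu P cx c U B F Z LB D =>
    @Bool.rec (fun _ => Nat) 1
      (@Bool.rec (fun _ => Nat)
        (runK G md cut A R Ll Lu P cx (nth l (Nat.sub c lo)) U B F Z LB D) 1 (Nat.ble hi c))
      (Nat.ble lo c)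

noncomputable def run (G : Grp) (top : List Nat) (lo1 hi1 : Nat) (l1 : List (List Nat))
    (lo hi : Nat) (l : List (List Nat)) : Bool :=
  Nat.ble 1 (runK G true (cutk G true (cutk G false kNO lo hi l) lo1 hi1 l1)
    (Nat.mul 16 G.W) 1 G.X2 G.M G.ONE (tl G 352) (cat top) G.ONE 0 (f0 G 0) (cell G 0) 0 G.D0)

end Pool.Agent.Lib.MP_4d22c1_co.Chk
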