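import Pool.Agent.Lib.MP_4d22c1_co.Chk

/-!
Bookkeeping for certificates that are cut into pieces.
-/

namespace Pool.Agent.Lib.MP_4d22c1_co.Chk

def Cov1 (G : Grp) (top : List Nat) (n : Nat) : Prop :=
  ∀ k1, k1 < n → ∃ c2, ∀ k2, k2 < 4096 → ∃ lo1 hi1 l1 lo hi l, lo1 ≤ k1 ∧ k1 < hi1 ∧
    nth l1 (k1 - lo1) = c2 ∧ lo ≤ k2 ∧ k2 < hi ∧ run G top lo1 hi1 l1 lo hi l = true

def Cov2 (G : Grp) (top : List Nat) (n n' : Nat) (l1 : List (List Nat)) (m : Nat) : Prop :=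
  ∀ k2, k2 < m → ∃ lo hi l, lo ≤ k2 ∧ k2 < hi ∧ run G top n n' l1 lo hi l = true

variable {G : Grp} {top : List Nat}

theorem Cov1.zero : Cov1 G top 0 := fun _ h => absurd h (Nat.not_lt_zero _)

theorem Cov2.zero {n n' : Nat} {l1 : List (List Nat)} : Cov2 G top n n' l1 0 :=
  fun _ h => absurd h (Nat.not_lt_zero _)

theorem Cov2.add {n n' m hi : Nat} {l1 l : List (List Nat)} (h : Cov2 G top n n' l1 m)
    (h' : run G top n n' l1 m hi l = true) : Cov2 G top n n' l1 hi := fun k2 hk =>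
  if e : k2 < m then h k2 e else ⟨m, hi, l, Nat.le_of_not_lt e, hk, h'⟩

theorem Cov1.add {n n' : Nat} {l1 : List (List Nat)} (h : Cov1 G top n)
    (h' : Cov2 G top n n' l1 4096) : Cov1 G top n' := fun k1 hk =>
  if e : k1 < n then h k1 e else ⟨nth l1 (k1 - n), fun k2 hk2 =>
    let ⟨lo, hi, l, a, b, c⟩ := h' k2 hk2
    ⟨n, n', l1, lo, hi, l, Nat.le_of_not_lt e, hk, rfl, a, b, c⟩⟩

end Pool.Agent.Lib.MP_4d22c1_co.Chk
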