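import Mathlib

/-!
Definitions for incomparable tilings of 4-dimensional boxes.
-/

namespace Pool.Agent.Lib.MP_4d22c1_co

/-- An axis-parallel box in `ℝ^4` with lowest corner `pos` and positive integer side lengths
`side`. -/
structure Tile where
  pos : Fin 4 → ℝ
  side : Fin 4 → ℕ
  side_pos : ∀ k, 0 < side k

/-- The closed box occupied by a tile. -/
def Tile.set (T : Tile) : Set (Fin 4 → ℝ) :=
  {y | ∀ k, T.pos k ≤ y k ∧ y k ≤ T.pos k + T.side k}

/-- The side lengths sorted increasingly. -/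
def sorted (a : Fin 4 → ℕ) : Fin 4 → ℕ := a ∘ Tuple.sort a

/-- Two boxes with side lengths `a`, `b` are incomparable. -/
def Incomparable (a b : Fin 4 → ℕ) : Prop :=
  (∃ i, sorted a i < sorted b i) ∧ ∃ j, sorted b j < sorted a j

/-- The box `[0, x 0] × ⋯ × [0, x 3]` has a non-trivial incomparable tiling. -/
def HasNontrivialIncomparableTiling (x : Fin 4 → ℕ) : Prop :=
  ∃ (n : ℕ) (T : Fin n → Tile), 2 ≤ n ∧
    (∀ i j, i ≠ j → Disjoint (interior (T i).set) (interior (T j).set)) ∧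
    (⋃ i, (T i).set) = {y : Fin 4 → ℝ | ∀ k, 0 ≤ y k ∧ y k ≤ (x k : ℝ)} ∧
    (∀ i j, i ≠ j → Incomparable (T i).side (T j).side) ∧
    ¬ ∃ k, ∀ i, (T i).side k = x k

end Pool.Agent.Lib.MP_4d22c1_co
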