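import Pool.Agent.Lib.MP_4d22c1_co.Defs

/-!
A non-trivial incomparable tiling of the `3 × 3 × 7 × 8` box by nine tiles.
-/

open Set

namespace Pool.Agent.Lib.MP_4d22c1_co

lemma interior_set (T : Tile) :
    interior T.set = {y | ∀ k, T.pos k < y k ∧ y k < T.pos k + T.side k} := by
  have : T.set = Set.pi univ fun k => Icc (T.pos k) (T.pos k + T.side k) := by
    ext y
    simp only [Tile.set, mem_ofPred_eq, mem_pi, mem_univ, mem_Icc, forall_true_left]
  rw [this, interior_pi_set finite_univ]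
  ext y
  simp

lemma sorted_eq {a s : Fin 4 → ℕ} (σ : Equiv.Perm (Fin 4)) (h : a ∘ σ = s) (hs : Monotone s) :
    sorted a = s := by
  unfold sorted
  rw [← h]
  exact (Tuple.comp_sort_eq_comp_iff_monotone.2 (h ▸ hs)).symm

/-- Integer data of the example: positions. -/
def exPos : Fin 9 → Fin 4 → ℕ :=
  ![![0, 0, 0, 0], ![1, 0, 0, 0], ![0, 0, 1, 0], ![1, 0, 0, 5], ![0, 0, 1, 5], ![0, 0, 5, 0],
    ![1, 1, 1, 5], ![1, 1, 0, 0], ![1, 1, 1, 0]]

/-- Integer data of the example: side lengths. -/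
def exSide : Fin 9 → Fin 4 → ℕ :=
  ![![1, 3, 1, 8], ![2, 1, 5, 5], ![1, 3, 4, 5], ![2, 1, 7, 3], ![1, 3, 6, 3], ![3, 3, 2, 5],
    ![2, 2, 6, 3], ![2, 2, 1, 8], ![2, 2, 4, 5]]

/-- Integer data of the example: sorted side lengths. -/
def exSorted : Fin 9 → Fin 4 → ℕ :=
  ![![1, 1, 3, 8], ![1, 2, 5, 5], ![1, 3, 4, 5], ![1, 2, 3, 7], ![1, 3, 3, 6], ![2, 3, 3, 5],
    ![2, 2, 3, 6], ![1, 2, 2, 8], ![2, 2, 4, 5]]

lemma ex_sorted (i : Fin 9) : sorted (exSide i) = exSorted i := by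
  have h : ∀ i, ∃ σ : Equiv.Perm (Fin 4), exSide i ∘ σ = exSorted i := by decide +kernel
  have h2 : ∀ i, Monotone (exSorted i) := by decide +kernel
  obtain ⟨σ, hσ⟩ := h i
  exact sorted_eq σ hσ (h2 i)

lemma exists_cell {n : ℕ} (hn : 0 < n) {t : ℝ} (h0 : 0 ≤ t) (h1 : t ≤ n) :
    ∃ c : Fin n, ((c : ℕ) : ℝ) ≤ t ∧ t ≤ (c : ℕ) + 1 := by
  by_cases h : t = n
  · refine ⟨⟨n - 1, by omega⟩, ?_, ?_⟩
    · simp only [h]
      exact_mod_cast Nat.sub_le n 1
    · simp only [h]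
      exact_mod_cast (by omega : n ≤ n - 1 + 1)
  · have h2 : t < n := lt_of_le_of_ne h1 h
    exact ⟨⟨⌊t⌋₊, (Nat.floor_lt h0).2 h2⟩, Nat.floor_le h0, (Nat.lt_floor_add_one t).le⟩

theorem example_504 : HasNontrivialIncomparableTiling ![3, 3, 7, 8] := by
  have hpos : ∀ i k, 0 < exSide i k := by decide +kernel
  refine ⟨9, fun i => ⟨fun k => exPos i k, exSide i, hpos i⟩, by norm_num, ?_, ?_, ?_, ?_⟩
  · have h : ∀ i j, i ≠ j → ∃ k, exPos i k + exSide i k ≤ exPos j k ∨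
        exPos j k + exSide j k ≤ exPos i k := by decide +kernel
    intro i j hij
    obtain ⟨k, hk⟩ := h i j hij
    rw [interior_set, interior_set, Set.disjoint_left]
    intro y hi hj
    have h1 := hi k
    have h2 := hj k
    simp only at h1 h2
    rcases hk with hk | hk
    · have : (exPos i k : ℝ) + exSide i k ≤ exPos j k := by exact_mod_cast hk
      linarith [h1.2, h2.1]
    · have : (exPos j k : ℝ) + exSide j k ≤ exPos i k := by exact_mod_cast hk
      linarith [h1.1, h2.2]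
  · apply Subset.antisymm
    · have h : ∀ i k, exPos i k + exSide i k ≤ ![3, 3, 7, 8] k := by decide +kernel
      intro y hy k
      obtain ⟨i, hi⟩ := mem_iUnion.1 hy
      have h1 := hi k
      simp only at h1
      have h2 : (exPos i k : ℝ) + exSide i k ≤ (![3, 3, 7, 8] k : ℕ) := by exact_mod_cast h i k
      exact ⟨(Nat.cast_nonneg _).trans h1.1, h1.2.trans h2⟩
    · have h : ∀ (a b : Fin 3) (c : Fin 7) (d : Fin 8), ∃ i, ∀ k,
          exPos i k ≤ ![a.1, b.1, c.1, d.1] k ∧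
            ![a.1, b.1, c.1, d.1] k + 1 ≤ exPos i k + exSide i k := by decide +kernel
      intro y hy
      obtain ⟨a, ha⟩ := exists_cell (n := 3) (by norm_num) (hy 0).1 (hy 0).2
      obtain ⟨b, hb⟩ := exists_cell (n := 3) (by norm_num) (hy 1).1 (hy 1).2
      obtain ⟨c, hc⟩ := exists_cell (n := 7) (by norm_num) (hy 2).1 (hy 2).2
      obtain ⟨d, hd⟩ := exists_cell (n := 8) (by norm_num) (hy 3).1 (hy 3).2
      obtain ⟨i, hi⟩ := h a b c d
      refine mem_iUnion.2 ⟨i, fun k => ?_⟩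
      have h1 : (exPos i k : ℝ) ≤ (![a.1, b.1, c.1, d.1] k : ℕ) := by exact_mod_cast (hi k).1
      have h2 : ((![a.1, b.1, c.1, d.1] k : ℕ) : ℝ) + 1 ≤ exPos i k + exSide i k := by
        exact_mod_cast (hi k).2
      have h3 : ((![a.1, b.1, c.1, d.1] k : ℕ) : ℝ) ≤ y k ∧
          y k ≤ ((![a.1, b.1, c.1, d.1] k : ℕ) : ℝ) + 1 := by
        fin_cases k
        exacts [ha, hb, hc, hd]
      exact ⟨h1.trans h3.1, h3.2.trans h2⟩
  · intro i j hij
    have h : ∀ i j, i ≠ j → (∃ k, exSorted i k < exSorted j k) ∧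
        ∃ k, exSorted j k < exSorted i k := by decide +kernel
    unfold Incomparable
    simp only [ex_sorted]
    exact h i j hij
  · have h : ¬ ∃ k, ∀ i, exSide i k = ![3, 3, 7, 8] k := by decide +kernel
    exact h

end Pool.Agent.Lib.MP_4d22c1_co
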