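import Pool.Agent.Lib.MP_4d22c1_co.Chk

/-!
The check that the tables of a group are what the checker expects.
-/

set_option linter.unusedVariables false

namespace Pool.Agent.Lib.MP_4d22c1_co.Chk

noncomputable def mk (n : Nat) (p : Nat → Bool) : Nat :=
  @Nat.rec (fun _ => Nat) 0
    (fun j r => Nat.lor r (@Bool.rec (fun _ => Nat) 0 (Nat.shiftLeft 1 j) (p j))) n

noncomputable def band (a b : Bool) : Bool := @Bool.rec (fun _ => Bool) false b a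

def lt1 (a v : Nat) : Nat := Nat.sub (Nat.sub v a) (Nat.sub (Nat.sub v a) 1)

def slk (W ONE SL k v : Nat) : Nat :=
  Nat.land (Nat.shiftRight SL (Nat.mul (Nat.add (Nat.mul 4 v) k) W)) ONE

def dfr (a b : Nat) : Nat := Nat.xor a (Nat.land a b)

def eqk (W ONE SL k v : Nat) : Nat := dfr (slk W ONE SL k (Nat.succ v)) (slk W ONE SL k v)

def ttr (W ONE SL a b c : Nat) : Nat :=
  Nat.lor
    (Nat.land (Nat.lor (eqk W ONE SL 1 a) (eqk W ONE SL 0 a))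
      (Nat.land (eqk W ONE SL 2 b) (eqk W ONE SL 3 c)))
    (Nat.land (Nat.land (eqk W ONE SL 0 a) (eqk W ONE SL 1 b))
      (Nat.lor (eqk W ONE SL 3 c) (eqk W ONE SL 2 c)))

def volr (X1 X2 M st1 st0 y : Nat) : Nat :=
  Nat.mul (Nat.mul (Nat.succ (Nat.div y st0)) (Nat.succ (Nat.mod (Nat.div y st1) X1)))
    (Nat.mul (Nat.succ (Nat.mod (Nat.div y M) X2)) (Nat.succ (Nat.mod y M)))

def vq (t b : Nat) : Nat := Nat.land (Nat.shiftRight t (Nat.mul b 9)) 511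

def mid (a X : Nat) : Nat := Nat.mul a (Nat.sub X (Nat.succ a))

noncomputable def kd (W M d : Nat) : Nat :=
  mk W (fun y => Nat.ble (Nat.succ (Nat.add (Nat.mod y M) d)) M)

noncomputable def dimB (G : Grp) : Bool :=
  band (Nat.beq G.st1 (G.X2 * G.M)) <| band (Nat.beq G.st0 (G.X1 * G.st1)) <|
  band (Nat.beq G.W (G.X0 * G.st0)) <| band (Nat.beq G.AA (G.X0 * G.X1 * G.X2)) <|
  band (Nat.ble 1 G.X0) <| band (Nat.ble G.X0 G.X1) <| band (Nat.ble G.X1 G.X2) <|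
  band (Nat.ble G.X2 G.M) <| band (Nat.ble G.W 511) <|
  Nat.beq G.ONE (2 ^ G.W - 1)

def row (W ONE T v : Nat) : Nat := Nat.land (Nat.shiftRight T (Nat.mul v W)) ONE

noncomputable def ltT (W X : Nat) (f : Nat → Nat) : Nat :=
  bld W (Nat.succ X) fun v => mk W fun y => Nat.ble (Nat.succ (f y)) v

noncomputable def geoB (G : Grp) : Bool :=
  @Grp.rec (fun _ => Bool) (fun X0 X1 X2 M W ONE st0 st1 AA up3 ge3 dn3 le3 lt0 lt1 lt2 lt3 sd3 sle3 su3 sge3 tt vt srt ncorn D0 lev vl ht hq k1 k2 k4 k8 k16 k32 nl sq cd aX aN aV aS aL hf =>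
  band (Nat.beq lt0 (ltT W X0 fun y => Nat.div y st0)) <|
  band (Nat.beq lt1 (ltT W X1 fun y => Nat.mod (Nat.div y st1) X1)) <|
  band (Nat.beq lt2 (ltT W X2 fun y => Nat.mod (Nat.div y M) X2)) <|
  band (Nat.beq lt3 (ltT W M fun y => Nat.mod y M)) <|
  band (Nat.beq up3 (bld W AA fun j => dfr (dfr (dfr ONE
    (row W ONE lt0 (Nat.div (Nat.mul j M) st0)))
    (row W ONE lt1 (Nat.mod (Nat.div (Nat.mul j M) st1) X1)))
    (row W ONE lt2 (Nat.mod (Nat.div (Nat.mul j M) M) X2)))) <|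
  band (Nat.beq ge3 (bld W M fun v => dfr ONE (row W ONE lt3 v))) <|
  band (Nat.beq dn3 (bld W AA fun j => Nat.land (Nat.land
    (row W ONE lt0 (Nat.succ (Nat.div (Nat.mul j M) st0)))
    (row W ONE lt1 (Nat.succ (Nat.mod (Nat.div (Nat.mul j M) st1) X1))))
    (row W ONE lt2 (Nat.succ (Nat.mod (Nat.div (Nat.mul j M) M) X2))))) <|
  band (Nat.beq le3 (bld W M fun v => row W ONE lt3 (Nat.succ v))) <|
  band (Nat.beq ncorn (mk W fun y => Nat.ble 1 (Nat.add (Nat.add (mid (Nat.div y st0) X0)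
    (mid (Nat.mod (Nat.div y st1) X1) X1)) (mid (Nat.mod (Nat.div y M) X2) X2)))) <|
  band (Nat.beq ONE (mk W fun b =>
    Nat.beq (vq hq (Nat.mod (Nat.sub (Nat.shiftLeft 2 b) 1) 509)) (Nat.succ b))) <|
  band (Nat.beq (vq hq 0) 0) <|
  Nat.beq D0 (mk W fun y => Nat.beq (Nat.add (Nat.add
    (Nat.mul (Nat.sub 1 (Nat.sub X1 X0)) (Nat.sub (Nat.div y st0) (Nat.mod (Nat.div y st1) X1)))
    (Nat.mul (Nat.sub 1 (Nat.sub X2 X1))
      (Nat.sub (Nat.mod (Nat.div y st1) X1) (Nat.mod (Nat.div y M) X2))))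
    (Nat.mul (Nat.sub 1 (Nat.sub M X2))
      (Nat.sub (Nat.mod (Nat.div y M) X2) (Nat.mod y M)))) 0)) G

noncomputable def volB (G : Grp) : Bool :=
  @Grp.rec (fun _ => Bool) (fun X0 X1 X2 M W ONE st0 st1 AA up3 ge3 dn3 le3 lt0 lt1 lt2 lt3 sd3 sle3 su3 sge3 tt vt srt ncorn D0 lev vl ht hq k1 k2 k4 k8 k16 k32 nl sq cd aX aN aV aS aL hf =>
  band (Nat.beq vt (bld 9 W fun y => volr X1 X2 M st1 st0 y)) <|
  band (Nat.beq srt (mk W fun y => Nat.beq (Nat.add (Nat.add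
    (Nat.sub (Nat.div y st0) (Nat.mod (Nat.div y st1) X1))
    (Nat.sub (Nat.mod (Nat.div y st1) X1) (Nat.mod (Nat.div y M) X2)))
    (Nat.sub (Nat.mod (Nat.div y M) X2) (Nat.mod y M))) 0)) <|
  band (Nat.beq lev (bld W nl fun r => mk W fun y => Nat.ble (vq vt y) (vq vl r))) <|
  band (Nat.beq ONE (mk W fun b => Nat.beq (vq ht (Nat.mod (Nat.shiftLeft 1 b) 509)) (vq vt b))) <|
  band (Nat.beq k1 (kd W M 1)) <| band (Nat.beq k2 (kd W M 2)) <| band (Nat.beq k4 (kd W M 4)) <|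
  band (Nat.beq k8 (kd W M 8)) <| band (Nat.beq k16 (kd W M 16)) <| Nat.beq k32 (kd W M 32)) G

noncomputable def shpB2 (G : Grp) (SL : Nat) : Bool :=
  @Grp.rec (fun _ => Bool) (fun X0 X1 X2 M W ONE st0 st1 AA up3 ge3 dn3 le3 lt0 lt1 lt2 lt3 sd3 sle3 su3 sge3 tt vt srt ncorn D0 lev vl ht hq k1 k2 k4 k8 k16 k32 nl sq cd aX aN aV aS aL hf =>
  band (Nat.beq sd3 (bld W AA fun j => Nat.land (Nat.land
    (slk W ONE SL 0 (Nat.succ (Nat.div (Nat.mul j M) st0)))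
    (slk W ONE SL 1 (Nat.succ (Nat.mod (Nat.div (Nat.mul j M) st1) X1))))
    (slk W ONE SL 2 (Nat.succ (Nat.mod (Nat.div (Nat.mul j M) M) X2))))) <|
  band (Nat.beq sle3 (bld W M fun v => slk W ONE SL 3 (Nat.succ v))) <|
  band (Nat.beq su3 (bld W AA fun j => dfr (dfr (dfr ONE
    (slk W ONE SL 0 (Nat.div (Nat.mul j M) st0)))
    (slk W ONE SL 1 (Nat.mod (Nat.div (Nat.mul j M) st1) X1)))
    (slk W ONE SL 2 (Nat.mod (Nat.div (Nat.mul j M) M) X2)))) <|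
  band (Nat.beq sge3 (bld W M fun v => dfr ONE (slk W ONE SL 3 v))) <|
  Nat.beq tt (bld W st0 fun c => ttr W ONE SL (Nat.mod (Nat.div c st1) X1)
    (Nat.mod (Nat.div c M) X2) (Nat.mod c M))) G

noncomputable def cnt4 (a b c d k : Nat) : Nat :=
  sel4 (Nat.lor (Nat.lor a b) (Nat.lor c d))
    (Nat.lor (Nat.lor (Nat.land a b) (Nat.land c d)) (Nat.land (Nat.lor a b) (Nat.lor c d)))
    (Nat.lor (Nat.land (Nat.land a b) (Nat.lor c d)) (Nat.land (Nat.land c d) (Nat.lor a b)))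
    (Nat.land (Nat.land a b) (Nat.land c d)) k

noncomputable def ltm (G : Grp) (k v : Nat) : Nat := ltk G k (Nat.sub v (Nat.sub v (xk G k)))

noncomputable def slT (G : Grp) : Nat :=
  bld G.W (Nat.mul 4 (Nat.succ G.M)) fun t => cnt4 (ltm G 0 (Nat.div t 4)) (ltm G 1 (Nat.div t 4))
    (ltm G 2 (Nat.div t 4)) (ltm G 3 (Nat.div t 4)) (Nat.mod t 4)

noncomputable def shpB (G : Grp) : Bool := shpB2 G (slT G)

end Pool.Agent.Lib.MP_4d22c1_co.Chk
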