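import Pool.Agent.Lib.MP_4d22c1_co.Bits
import Pool.Agent.Lib.MP_4d22c1_co.Tab

/-!
Mixed-radix coding of cells and extents, and the meaning of the tables.
-/

namespace Pool.Agent.Lib.MP_4d22c1_co.Chk

theorem band_true {a b : Bool} : band a b = true ↔ a = true ∧ b = true := by
  cases a <;> simp [band]

structure DimOK (G : Grp) : Prop where
  hst1 : G.st1 = G.X2 * G.M
  hst0 : G.st0 = G.X1 * G.st1
  hW : G.W = G.X0 * G.st0
  hA : G.AA = G.X0 * G.X1 * G.X2
  p0 : 1 ≤ G.X0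
  l01 : G.X0 ≤ G.X1
  l12 : G.X1 ≤ G.X2
  l2M : G.X2 ≤ G.M
  w511 : G.W ≤ 511
  hONE : G.ONE = 2 ^ G.W - 1

theorem dimOK_of {G : Grp} (h : dimB G = true) : DimOK G := by
  simp only [dimB, band_true, Nat.beq_eq, Nat.ble_eq] at h
  obtain ⟨a, b, c, d, e, f, g, i, k, l⟩ := h
  exact ⟨a, b, c, d, e, f, g, i, k, l⟩

def enc (G : Grp) (v : Fin 4 → ℕ) : ℕ := v 0 * G.st0 + v 1 * G.st1 + v 2 * G.M + v 3

def dec (G : Grp) (y : ℕ) : Fin 4 → ℕ :=
  ![y / G.st0, y / G.st1 % G.X1, y / G.M % G.X2, y % G.M]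

def XM (G : Grp) : Fin 4 → ℕ := ![G.X0, G.X1, G.X2, G.M]

def InR (G : Grp) (v : Fin 4 → ℕ) : Prop := ∀ k, v k < XM G k

theorem enc_add (G : Grp) (u v w z : Fin 4 → ℕ) (h : ∀ k, u k + v k = w k + z k) :
    enc G u + enc G v = enc G w + enc G z := by
  have h0 := congrArg (· * G.st0) (h 0)
  have h1 := congrArg (· * G.st1) (h 1)
  have h2 := congrArg (· * G.M) (h 2)
  have h3 := h 3
  simp only [Nat.add_mul] at h0 h1 h2
  unfold enc
  omega

theorem enc_add' (G : Grp) (u v w : Fin 4 → ℕ) (h : ∀ k, u k + v k = w k) :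
    enc G u + enc G v = enc G w := by
  have h0 := congrArg (· * G.st0) (h 0)
  have h1 := congrArg (· * G.st1) (h 1)
  have h2 := congrArg (· * G.M) (h 2)
  have h3 := h 3
  simp only [Nat.add_mul] at h0 h1 h2
  unfold enc
  omega

namespace DimOK

variable {G : Grp} (hG : DimOK G)
include hG

theorem pM : 0 < G.M := by have := hG.p0; have := hG.l01; have := hG.l12; have := hG.l2M; omega
theorem p1 : 0 < G.X1 := by have := hG.p0; have := hG.l01; omega
theorem p2 : 0 < G.X2 := by have := hG.p0; have := hG.l01; have := hG.l12; omega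
theorem pst1 : 0 < G.st1 := by rw [hG.hst1]; exact Nat.mul_pos hG.p2 hG.pM
theorem pst0 : 0 < G.st0 := by rw [hG.hst0]; exact Nat.mul_pos hG.p1 hG.pst1
theorem pW : 0 < G.W := by rw [hG.hW]; exact Nat.mul_pos hG.p0 hG.pst0
theorem WA : G.W = G.AA * G.M := by rw [hG.hW, hG.hst0, hG.hst1, hG.hA]; ring
theorem M_le_st1 : G.M ≤ G.st1 := by rw [hG.hst1]; exact Nat.le_mul_of_pos_left _ hG.p2
theorem st1_le_st0 : G.st1 ≤ G.st0 := by rw [hG.hst0]; exact Nat.le_mul_of_pos_left _ hG.p1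
theorem st0_le_W : G.st0 ≤ G.W := by rw [hG.hW]; exact Nat.le_mul_of_pos_left _ hG.p0

theorem tb_ONE (y : ℕ) : G.ONE.testBit y = decide (y < G.W) := by
  rw [hG.hONE, Nat.testBit_two_pow_sub_one]

theorem XM_le (k : Fin 4) : XM G k ≤ G.M := by
  have := hG.l01; have := hG.l12; have := hG.l2M
  fin_cases k <;> simp [XM] <;> omega

theorem enc_dec (y : ℕ) : enc G (dec G y) = y := by
  simp only [enc, dec, Matrix.cons_val]
  have e1 : y / G.st1 = y / G.M / G.X2 := by
    rw [Nat.div_div_eq_div_mul, hG.hst1, Nat.mul_comm]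
  have e0 : y / G.st0 = y / G.st1 / G.X1 := by
    rw [Nat.div_div_eq_div_mul, hG.hst0, Nat.mul_comm]
  have a := Nat.div_add_mod y G.M
  have b := Nat.div_add_mod (y / G.M) G.X2
  have c := Nat.div_add_mod (y / G.st1) G.X1
  rw [e0, hG.hst0]
  rw [← e1] at b
  generalize y / G.st1 / G.X1 = q0 at *
  generalize y / G.st1 % G.X1 = q1 at *
  generalize y / G.M % G.X2 = q2 at *
  generalize y % G.M = q3 at *
  generalize y / G.st1 = r1 at *
  generalize y / G.M = r2 at *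
  rw [hG.hst1, ← a, ← b, ← c]
  ring

theorem dec_inr {y : ℕ} (hy : y < G.W) : InR G (dec G y) := by
  intro k
  fin_cases k
  · simp only [dec, XM, Fin.zero_eta, Matrix.cons_val]
    rw [Nat.div_lt_iff_lt_mul hG.pst0, ← hG.hW]; exact hy
  · exact Nat.mod_lt _ hG.p1
  · exact Nat.mod_lt _ hG.p2
  · exact Nat.mod_lt _ hG.pM

theorem enc_lt {v : Fin 4 → ℕ} (hv : InR G v) : enc G v < G.W := by
  have h0 : v 0 + 1 ≤ G.X0 := hv 0
  have h1 : v 1 + 1 ≤ G.X1 := hv 1
  have h2 : v 2 + 1 ≤ G.X2 := hv 2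
  have h3 : v 3 < G.M := hv 3
  have a0 := Nat.mul_le_mul_right G.st0 h0
  have a1 := Nat.mul_le_mul_right G.st1 h1
  have a2 := Nat.mul_le_mul_right G.M h2
  rw [← hG.hW] at a0
  rw [← hG.hst0] at a1
  rw [← hG.hst1] at a2
  simp only [Nat.add_mul] at a0 a1 a2
  unfold enc
  omega

theorem dec_enc {v : Fin 4 → ℕ} (hv : InR G v) : dec G (enc G v) = v := by
  have h1 : v 1 < G.X1 := hv 1
  have h2 : v 2 < G.X2 := hv 2
  have h3 : v 3 < G.M := hv 3
  have e : enc G v = ((v 0 * G.X1 + v 1) * G.X2 + v 2) * G.M + v 3 := by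
    simp only [enc, hG.hst0, hG.hst1]; ring
  have a3 : enc G v % G.M = v 3 := by rw [e, mod_slot h3]
  have b3 : enc G v / G.M = (v 0 * G.X1 + v 1) * G.X2 + v 2 := by rw [e, div_slot h3]
  have b2 : enc G v / G.st1 = v 0 * G.X1 + v 1 := by
    rw [hG.hst1, Nat.mul_comm G.X2, ← Nat.div_div_eq_div_mul, b3, div_slot h2]
  have b1 : enc G v / G.st0 = v 0 := by
    rw [hG.hst0, Nat.mul_comm G.X1, ← Nat.div_div_eq_div_mul, b2, div_slot h1]
  funext k
  fin_cases k
  · exact b1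
  · show enc G v / G.st1 % G.X1 = v 1
    rw [b2, mod_slot h1]
  · show enc G v / G.M % G.X2 = v 2
    rw [b3, mod_slot h2]
  · exact a3

theorem dec_field (q : ℕ) (k : Fin 4) (hk : k ≠ 3) : dec G (q / G.M * G.M) k = dec G q k := by
  have e : q / G.M * G.M / G.M = q / G.M := Nat.mul_div_cancel _ hG.pM
  have e1 : q / G.M * G.M / G.st1 = q / G.st1 := by
    rw [hG.hst1, Nat.mul_comm G.X2, ← Nat.div_div_eq_div_mul, ← Nat.div_div_eq_div_mul, e]
  have e0 : q / G.M * G.M / G.st0 = q / G.st0 := by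
    rw [hG.hst0, Nat.mul_comm G.X1, ← Nat.div_div_eq_div_mul, ← Nat.div_div_eq_div_mul, e1]
  fin_cases k
  · exact e0
  · show q / G.M * G.M / G.st1 % G.X1 = q / G.st1 % G.X1
    rw [e1]
  · show q / G.M * G.M / G.M % G.X2 = q / G.M % G.X2
    rw [e]
  · exact absurd rfl hk

theorem dec_same {a b : ℕ} (h : a / G.M = b / G.M) (k : Fin 4) (hk : k ≠ 3) :
    dec G a k = dec G b k := by
  rw [← hG.dec_field a k hk, ← hG.dec_field b k hk, h]

theorem div_lt_A {q : ℕ} : q / G.M < G.AA ↔ q < G.W := by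
  rw [Nat.div_lt_iff_lt_mul hG.pM, hG.WA]

theorem mod_W_mod (z : ℕ) : z % G.W % G.M = z % G.M := by
  rw [hG.WA]; exact Nat.mod_mul_left_mod _ _ _

end DimOK

theorem bld_succ (w n : ℕ) (f : ℕ → ℕ) : bld w (n + 1) f = bld w n f ||| f n <<< (n * w) := rfl

theorem tb_bld {w : ℕ} {f : ℕ → ℕ} (n : ℕ) (hf : ∀ j < n, Small w (f j)) (j y : ℕ) (hy : y < w) :
    (bld w n f).testBit (j * w + y) = true ↔ j < n ∧ (f j).testBit y = true := by
  induction n with
  | zero => simp [bld]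
  | succ n ih =>
    rw [bld_succ, Nat.testBit_or, Bool.or_eq_true, ih (fun j hj => hf j (by omega)),
      tb_shl_slot' (hf n (by omega)) hy]
    constructor
    · rintro (⟨a, b⟩ | ⟨rfl, b⟩)
      · exact ⟨by omega, b⟩
      · exact ⟨by omega, b⟩
    · rintro ⟨a, b⟩
      by_cases h : j = n
      · subst h; exact Or.inr ⟨rfl, b⟩
      · exact Or.inl ⟨by omega, b⟩

theorem small_bld {w : ℕ} {f : ℕ → ℕ} (n : ℕ) (hf : ∀ j < n, Small w (f j)) :
    Small (n * w) (bld w n f) := by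
  induction n with
  | zero => intro y hy; simp [bld] at hy
  | succ n ih =>
    intro y hy
    rw [bld_succ, Nat.testBit_or, Bool.or_eq_true, tb_shl_slot (hf n (by omega))] at hy
    rw [Nat.add_mul]
    rcases hy with hy | ⟨z, hz, rfl, -⟩
    · have := ih (fun j hj => hf j (by omega)) y hy
      omega
    · omega

theorem mk_succ (n : ℕ) (p : ℕ → Bool) :
    mk (n + 1) p = mk n p ||| cond (p n) (1 <<< n) 0 := by
  show mk n p ||| @Bool.rec (fun _ => ℕ) 0 (1 <<< n) (p n) = _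
  cases p n <;> rfl

theorem tb_mk (n : ℕ) (p : ℕ → Bool) (y : ℕ) :
    (mk n p).testBit y = true ↔ y < n ∧ p y = true := by
  induction n with
  | zero => simp [mk]
  | succ n ih =>
    rw [mk_succ, Nat.testBit_or, Bool.or_eq_true, ih]
    have e : (cond (p n) (1 <<< n) 0).testBit y = true ↔ n = y ∧ p n = true := by
      cases p n
      · simp
      · rw [cond_true, tb_one]; simp
    rw [e]
    constructor
    · rintro (⟨a, b⟩ | ⟨rfl, b⟩)
      · exact ⟨by omega, b⟩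
      · exact ⟨by omega, b⟩
    · rintro ⟨a, b⟩
      by_cases h : n = y
      · subst h; exact Or.inr ⟨rfl, b⟩
      · exact Or.inl ⟨by omega, b⟩

theorem small_mk (n : ℕ) (p : ℕ → Bool) : Small n (mk n p) := fun y hy => ((tb_mk n p y).1 hy).1

theorem small_of_lt {w m : ℕ} (h : m < 2 ^ w) : Small w m := fun y hy => by
  by_contra hc
  have := Nat.testBit_lt_two_pow (lt_of_lt_of_le h (Nat.pow_le_pow_right (by norm_num) (not_lt.1 hc)))
  simp [this] at hy

theorem fld9_bld {f : ℕ → ℕ} {n : ℕ} (hf : ∀ j < n, f j < 512) {j : ℕ} (hj : j < n) :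
    fld (bld 9 n f) (j * 9) 511 = f j := by
  apply Nat.eq_of_testBit_eq
  intro i
  rw [tb_fld, show (511 : ℕ) = 2 ^ 9 - 1 from rfl, Nat.testBit_two_pow_sub_one]
  have hs : ∀ j < n, Small 9 (f j) := fun j hj => small_of_lt (hf j hj)
  by_cases hi : i < 9
  · rw [Bool.eq_iff_iff, Bool.and_eq_true, tb_bld n hs j i hi]
    simp [hi, hj]
  · have : (f j).testBit i = false := by
      by_contra hc
      exact hi (hs j hj i (by simpa using hc))
    simp [hi, this]

end Pool.Agent.Lib.MP_4d22c1_co.Chk
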