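import Pool.Agent.Lib.MP_4d22c1_co.Model

/-!
The invariant of the checker and the elementary ways to update it.
-/

set_option linter.unusedSectionVars false

namespace Pool.Agent.Lib.MP_4d22c1_co.Chk

structure St where
  A : ℕ
  R : ℕ
  Ll : ℕ
  Lu : ℕ
  P : ℕ
  cx : ℕ
  c : ℕ
  U : ℕ
  B : ℕ
  F : ℕ
  Z : ℕ
  LB : ℕ
  D : ℕ

def ap (k : K) (S : St) : ℕ := k S.A S.R S.Ll S.Lu S.P S.cx S.c S.U S.B S.F S.Z S.LB S.D

variable {G : Grp}

def ZP (μ : Mdl G) (τ : ℕ → μ.ι) (A R Lu F X : ℕ) : Prop :=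
  ∀ z, X.testBit z = true → Lu ≤ pt G z 3 ∨ ∃ j, R.testBit (j * G.W) = true ∧ μ.has (τ j) z ∧
    ∀ q, Fit G (16 * G.W - fld A (16 * j) 65535) q →
      pt G (16 * G.W - fld A (16 * j) 65535 + q) = pt G z → F.testBit (j * G.W + q) = false

structure InvT (μ : Mdl G) (τ : ℕ → μ.ι) (A R Ll Lu P U B F Z LB D : ℕ) : Prop where
  hR : Sparse G.W R
  h0 : R.testBit (0 * G.W) = true
  r0 : τ 0 = μ.root
  inj : ∀ i j, R.testBit (i * G.W) = true → R.testBit (j * G.W) = true → τ i = τ j → i = j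
  hD : ∀ j, R.testBit (j * G.W) = true → D.testBit (j * G.W + μ.E (τ j)) = true
  hDs : ∀ j y, y < G.W → D.testBit (j * G.W + y) = true → R.testBit (j * G.W) = true
  hU : ∀ t, (∀ j, R.testBit (j * G.W) = true → τ j ≠ t) → U.testBit (μ.E t) = true
  hB : ∀ j y, y < G.W → B.testBit (j * G.W + y) = true →
    R.testBit (j * G.W) = true ∧ ∀ t, t ≠ τ j → μ.S t ≠ y
  hP : ∀ j y, R.testBit (j * G.W) = true → y < G.W → μ.has (τ j) y →
    P.testBit (j * G.W + y) = true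
  hA : ∀ j, R.testBit (j * G.W) = true → fld A (16 * j) 65535 ≤ 16 * G.W ∧
    μ.anch (τ j) (16 * G.W - fld A (16 * j) 65535)
  hAs : ∀ j, fld A (16 * j) 65535 ≠ 0 → R.testBit (j * G.W) = true
  hF : ∀ j q, q < G.W → F.testBit (j * G.W + q) = true →
    R.testBit (j * G.W) = true ∧ Fit G (16 * G.W - fld A (16 * j) 65535) q
  hZ : ZP μ τ A R Lu F Z
  hLB : ZP μ τ A R Lu F LB
  hLl : Ll ≤ μ.L
  hLu : μ.L ≤ Lu
  hLM : Lu ≤ G.M

def Inv (μ : Mdl G) (S : St) : Prop :=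
  ∃ τ, InvT μ τ S.A S.R S.Ll S.Lu S.P S.U S.B S.F S.Z S.LB S.D

def Nx (μ : Mdl G) (g : K → ℕ) : Prop := ∃ S', Inv μ S' ∧ ∀ k, g k ≠ 0 → ap k S' ≠ 0

def StepOK (μ : Mdl G) (f : Fn) : Prop := ∀ S, Inv μ S → Nx μ fun k => ap (f.1 k) S

def Bad (μ : Mdl G) (k : K) : Prop := ∀ S, Inv μ S → ap k S = 0

def WeakOK (μ : Mdl G) (f : Fn) : Prop := ∀ k, Bad μ k → Bad μ (f.1 k)

variable {μ : Mdl G}

theorem StepOK.weak {f : Fn} (h : StepOK μ f) : WeakOK μ f := fun k hk S hS => by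
  obtain ⟨S', a, b⟩ := h S hS
  by_contra hc
  exact b k hc (hk S' a)

theorem nx_no {S : St} (hS : Inv μ S) {g : K → ℕ} (h : ∀ k, g k ≠ 0 → False) : Nx μ g :=
  ⟨S, hS, fun k hk => (h k hk).elim⟩

theorem nx_prd {S : St} (hS : Inv μ S) {n : ℕ} {g : K → ℕ → ℕ}
    (h : ∀ v, n = v + 1 → Nx μ fun k => g k v) : Nx μ fun k => prd n (g k) := by
  rcases n with _ | v
  · exact nx_no hS fun k hk => hk rfl
  · exact h v rfl

theorem nx_req {S : St} (hS : Inv μ S) {b : Bool} {g : K → ℕ} (h : b = true → Nx μ g) :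
    Nx μ fun k => req b (g k) := by
  cases b
  · exact nx_no hS fun k hk => hk rfl
  · exact h rfl

theorem nx_k {τ : ℕ → μ.ι} {A R Ll Lu P cx c U B F Z LB D : ℕ}
    (h : InvT μ τ A R Ll Lu P U B F Z LB D) : Nx μ fun k => k A R Ll Lu P cx c U B F Z LB D :=
  ⟨⟨A, R, Ll, Lu, P, cx, c, U, B, F, Z, LB, D⟩, ⟨τ, h⟩, fun _ hk => hk⟩

theorem nx_two {g g' : K → ℕ} (h : Nx μ g ∨ Nx μ g') :
    Nx μ fun k => req (Nat.ble 1 (g k)) (g' k) := by
  rcases h with ⟨S, a, b⟩ | ⟨S, a, b⟩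
  · exact ⟨S, a, fun k hk => b k (ble_one.1 (req_ne.1 hk).1)⟩
  · exact ⟨S, a, fun k hk => b k (req_ne.1 hk).2⟩

theorem ZP.mono {τ : ℕ → μ.ι} {A R Lu F F' X : ℕ} (h : ZP μ τ A R Lu F X)
    (hF : ∀ z, F'.testBit z = true → F.testBit z = true) : ZP μ τ A R Lu F' X := fun z hz =>
  (h z hz).imp id fun ⟨j, a, b, c⟩ => ⟨j, a, b, fun q d e => by
    rw [← Bool.not_eq_true]
    exact fun hc => Bool.false_ne_true ((c q d e).symm.trans (hF _ hc))⟩

theorem ZP.or {τ : ℕ → μ.ι} {A R Lu F X Y : ℕ} (h : ZP μ τ A R Lu F X)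
    (h' : ZP μ τ A R Lu F Y) : ZP μ τ A R Lu F (X ||| Y) := fun z hz => by
  rw [Nat.testBit_or, Bool.or_eq_true] at hz
  exact hz.elim (h z) (h' z)

theorem tb_dif_left {a b z : ℕ} (h : (dif a b).testBit z = true) : a.testBit z = true := by
  rw [tb_dif, Bool.and_eq_true] at h
  exact h.1

namespace InvT

variable {τ : ℕ → μ.ι} {A R Ll Lu P U B F Z LB D : ℕ} (h : InvT μ τ A R Ll Lu P U B F Z LB D)
  (hG : DimOK G)
include h hG

theorem act_of_ne {j : ℕ} (hj : fld D (j * G.W) G.ONE ≠ 0) : R.testBit (j * G.W) = true := by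
  obtain ⟨y, hy⟩ := exists_tb hj
  rw [hG.tb_slot] at hy
  exact h.hDs j y hy.1 hy.2

theorem tb_Dj {j : ℕ} (hj : R.testBit (j * G.W) = true) :
    (fld D (j * G.W) G.ONE).testBit (μ.E (τ j)) = true :=
  (hG.tb_slot _ _ _).2 ⟨μ.E_lt hG _, h.hD j hj⟩

theorem filt {i m : ℕ} (hm : Small G.W m)
    (hi : R.testBit (i * G.W) = true → m.testBit (μ.E (τ i)) = true → False) :
    InvT μ τ A R Ll Lu P U B F Z LB (dif D (m <<< (i * G.W))) :=
  { h with
    hD := fun j hj => by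
      rw [tb_dif, h.hD j hj, Bool.true_and, Bool.not_eq_true', ← Bool.not_eq_true,
        tb_shl_slot' hm (μ.E_lt hG _)]
      rintro ⟨rfl, hb⟩
      exact hi hj hb
    hDs := fun j y hy hb => by
      rw [tb_dif, Bool.and_eq_true] at hb
      exact h.hDs j y hy hb.1 }

theorem cf {j m : ℕ} (hj : R.testBit (j * G.W) = true) (hm : Small G.W m)
    (hE : ∀ t, m.testBit (μ.E t) = true → t = τ j)
    (hS : ∀ t, m.testBit (μ.S t) = true → t = τ j) :
    InvT μ τ A R Ll Lu P (dif U m) (B ||| m <<< (j * G.W)) F Z LB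
      (dif D (m * (R ^^^ 1 <<< (j * G.W)))) :=
  { h with
    hD := fun i hi => by
      have hs : Sparse G.W (R ^^^ 1 <<< (j * G.W)) := fun z hz => by
        rw [Nat.testBit_xor, tb_one] at hz
        by_cases e : j * G.W = z
        · rw [← e, Nat.mul_mod_left]
        · exact h.hR z (by simpa [e] using hz)
      rw [tb_dif, h.hD i hi, Bool.true_and, tb_mul_sparse hG.pW hm i _ hs _ (μ.E_lt hG _),
        Nat.testBit_xor, tb_one, hi]
      by_cases e : i = j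
      · simp [e]
      · have : m.testBit (μ.E (τ i)) = false := by
          by_contra hc
          exact e (h.inj i j hi hj (hE _ (by simpa using hc)))
        simp [this]
    hDs := fun j y hy hb => by
      rw [tb_dif, Bool.and_eq_true] at hb
      exact h.hDs j y hy hb.1
    hU := fun t ht => by
      rw [tb_dif, h.hU t ht, Bool.true_and, Bool.not_eq_true', ← Bool.not_eq_true]
      exact fun hc => ht j hj (hE t hc).symm
    hB := fun i y hy hb => by
      rw [Nat.testBit_or, Bool.or_eq_true, tb_shl_slot' hm hy] at hb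
      rcases hb with hb | ⟨rfl, hb⟩
      · exact h.hB i y hy hb
      · exact ⟨hj, fun t ht e => ht (hS t (e ▸ hb))⟩ }

theorem act_of_lwh {j v : ℕ} (hj : lwh (fld D (j * G.W) G.ONE) = v + 1) :
    R.testBit (j * G.W) = true := h.act_of_ne hG fun e => by
  rw [e, lwh_zero] at hj
  omega

theorem owned {X z : ℕ} (hX : ZP μ τ A R Lu F X) (hz : X.testBit z = true) {t : μ.ι}
    (ht : μ.has t z) : ∃ j, R.testBit (j * G.W) = true ∧ τ j = t ∧
      ∀ q, Fit G (16 * G.W - fld A (16 * j) 65535) q →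
        pt G (16 * G.W - fld A (16 * j) 65535 + q) = pt G z → F.testBit (j * G.W + q) = false := by
  rcases hX z hz with a | ⟨j, a, b, c⟩
  · have := μ.has_L ht
    have := h.hLu
    omega
  · exact ⟨j, a, μ.disj b ht, c⟩

theorem blocked {X j q : ℕ} (hX : ZP μ τ A R Lu F X)
    (hq : ((X >>> (16 * G.W - fld A (16 * j) 65535) &&& F >>> (j * G.W)) &&& G.ONE).testBit q =
      true) (he : ∀ k, dec G q k ≤ dec G (μ.E (τ j)) k) : False := by
  simp only [Nat.testBit_and, Nat.testBit_shiftRight, Bool.and_eq_true, hG.tb_ONE,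
    decide_eq_true_eq] at hq
  obtain ⟨⟨a, b⟩, c⟩ := hq
  obtain ⟨hj, f⟩ := h.hF j q c b
  rw [μ.dec_E hG] at he
  obtain ⟨i, hi, e, d⟩ := h.owned hG hX a (μ.anch_fit hG (h.hA j hj).2 c he).2
  obtain rfl := h.inj i j hi hj e
  exact Bool.false_ne_true ((d q f rfl).symm.trans b)

theorem addBox (hg : GeoOK G) {j q rb : ℕ} (hj : R.testBit (j * G.W) = true)
    (hq : (up G q).testBit (μ.E (τ j)) = true) (hb : fld A (16 * j) 65535 - q = rb + 1) :
    InvT μ τ A R Ll Lu P U B (dif F (dn G q <<< (j * G.W)))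
      (Z ||| (cnr G (16 * G.W - fld A (16 * j) 65535) &&& cone G rb))
      (cnr G (16 * G.W - fld A (16 * j) 65535) &&& cone G rb) D := by
  rw [hg.up, μ.dec_E hG] at hq
  obtain ⟨a1, a2⟩ := h.hA j hj
  have hs : Small G.W (dn G q) := fun y hy => ((hg.dn q y).1 hy).2.1
  have key : ZP μ τ A R Lu (dif F (dn G q <<< (j * G.W)))
      (cnr G (16 * G.W - fld A (16 * j) 65535) &&& cone G rb) := fun z hz => by
    rw [show rb = 16 * G.W - (16 * G.W - fld A (16 * j) 65535) - q - 1 by omega] at hz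
    obtain ⟨b1, b2⟩ := μ.box_spec hG hg a2 hq.1 hq.2.2 hz
    refine Or.inr ⟨j, hj, b1, fun q' f e => ?_⟩
    rw [tb_dif, (tb_shl_slot' hs f.1).2 ⟨rfl, b2 q' f e⟩]
    simp
  exact { h with
    hF := fun i y hy hb => h.hF i y hy (tb_dif_left hb)
    hZ := (h.hZ.mono fun _ => tb_dif_left).or key
    hLB := key }

theorem keepP {j m : ℕ} (hs : Small G.W m)
    (hm : ∀ y, μ.has (τ j) y → m.testBit y = true → False) :
    InvT μ τ A R Ll Lu (dif P (m <<< (j * G.W))) U B F Z LB D :=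
  { h with
    hP := fun i y hi hy hh => by
      rw [tb_dif, h.hP i y hi hy hh, Bool.true_and, Bool.not_eq_true', ← Bool.not_eq_true,
        tb_shl_slot' hs hy]
      rintro ⟨rfl, hb⟩
      exact hm y hh hb }

end InvT

theorem GeoOK.small_up (hg : GeoOK G) (q : ℕ) : Small G.W (Chk.up G q) :=
  fun y hy => ((hg.up q y).1 hy).2.1

theorem GeoOK.small_dn (hg : GeoOK G) (q : ℕ) : Small G.W (Chk.dn G q) :=
  fun y hy => ((hg.dn q y).1 hy).2.1

theorem tb_of_compl (hG : DimOK G) {a m y : ℕ} (hm : Small G.W m) (h : a &&& (m ^^^ G.ONE) = 0)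
    (hy : y < G.W) (ha : a.testBit y = true) : m.testBit y = true := by
  by_contra hc
  have := tb_of_eq_zero h y
  rw [Nat.testBit_and, ha, (hG.tb_compl hm y).2 ⟨hy, hc⟩] at this
  exact absurd this (by decide)

end Pool.Agent.Lib.MP_4d22c1_co.Chk
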