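import Pool.Agent.Lib.MP_4d22c1_co.View

/-!
Discrete tilings and their description by indices.
-/

namespace Pool.Agent.Lib.MP_4d22c1_co.Chk

/-- A non-trivial incomparable tiling of the grid box `x` by grid boxes. -/
structure Til (x : Fin 4 → ℕ) where
  n : ℕ
  lo : Fin n → Fin 4 → ℕ
  sd : Fin n → Fin 4 → ℕ
  pos : ∀ t k, 0 < sd t k
  fit : ∀ t k, lo t k + sd t k ≤ x k
  cover : ∀ c : Fin 4 → ℕ, (∀ k, c k < x k) → ∃ t, ∀ k, lo t k ≤ c k ∧ c k < lo t k + sd t k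
  disj : ∀ t t' (c : Fin 4 → ℕ), (∀ k, lo t k ≤ c k ∧ c k < lo t k + sd t k) →
    (∀ k, lo t' k ≤ c k ∧ c k < lo t' k + sd t' k) → t = t'
  inc : ∀ t t', t ≠ t' → ∃ k, sorted (sd t) k < sorted (sd t') k
  nontriv : ∀ k, ∃ t, sd t k ≠ x k

theorem Til.sum_vol {x : Fin 4 → ℕ} (T : Til x) : ∑ t, ∏ k, T.sd t k = ∏ k, x k := by
  have e : (Finset.univ.biUnion fun t : Fin T.n =>
      Fintype.piFinset fun k => Finset.Ico (T.lo t k) (T.lo t k + T.sd t k)) =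
      Fintype.piFinset fun k => Finset.range (x k) := by
    ext c
    simp only [Finset.mem_biUnion, Finset.mem_univ, true_and, Fintype.mem_piFinset, Finset.mem_Ico,
      Finset.mem_range]
    exact ⟨fun ⟨t, h⟩ k => (h k).2.trans_le (T.fit t k), T.cover c⟩
  have := congrArg Finset.card e
  rw [Finset.card_biUnion] at this
  · simpa using this
  · intro t _ t' _ h
    rw [Function.onFun, Finset.disjoint_left]
    intro c h1 h2
    simp only [Fintype.mem_piFinset, Finset.mem_Ico] at h1 h2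
    exact h (T.disj t t' c h1 h2)

theorem sorted_of_mono {a : Fin 4 → ℕ} (h : Monotone a) : sorted a = a := by
  unfold sorted
  rw [Tuple.sort_eq_refl_iff_monotone.2 h]
  rfl

theorem sorted_pred {a : Fin 4 → ℕ} (h : ∀ k, 0 < a k) (k : Fin 4) :
    sorted (fun i => a i - 1) k + 1 = sorted a k := by
  have e : ∀ v, sorted (fun i => a i - 1) k < v ↔ sorted a k < v + 1 := fun v => by
    rw [← lt_cv_iff, ← lt_cv_iff]
    have e1 : ∀ i, lt1 (a i - 1) v = lt1 (a i) (v + 1) := fun i => by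
      have := h i
      simp only [lt1, Nat.sub_eq]
      omega
    simp only [e1]
  have a1 := (e (sorted (fun i => a i - 1) k + 1)).1 (by omega)
  have a2 := (e (sorted a k - 1)).2
  have : 0 < sorted a k := h _
  have a3 := (e (sorted a k)).2 (by omega)
  have a4 := (e (sorted (fun i => a i - 1) k)).2
  omega

theorem sorted_lt {a x : Fin 4 → ℕ} (hx : Monotone x) (h : ∀ k, a k < x k) (k : Fin 4) :
    sorted a k < x k := by
  rw [← lt_cv_iff]
  have := h 0; have := h 1; have := h 2; have := h 3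
  have h1 : x 0 ≤ x 1 := hx (by decide)
  have h2 : x 1 ≤ x 2 := hx (by decide)
  have h3 : x 2 ≤ x 3 := hx (by decide)
  simp only [lt1, Nat.sub_eq]
  fin_cases k <;> simp only [Fin.zero_eta, Fin.mk_one, Fin.reduceFinMk, Fin.isValue] <;> omega

/-- A tiling of a box of the group `G`, normalised by the symmetries of the box. -/
structure Mdl (G : Grp) where
  L : ℕ
  T : Til ![G.X0, G.X1, G.X2, L]
  l2L : G.X2 ≤ L
  lLM : L ≤ G.M
  root : Fin T.n
  root_lo : ∀ k, T.lo root k = 0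
  root_min : ∀ t, (∀ k, T.lo t k = 0 ∨ T.lo t k + T.sd t k = ![G.X0, G.X1, G.X2, L] k) →
    enc G (fun k => T.sd root k - 1) ≤ enc G (fun k => T.sd t k - 1)
  s01 : G.X0 = G.X1 → T.sd root 0 ≤ T.sd root 1
  s12 : G.X1 = G.X2 → T.sd root 1 ≤ T.sd root 2
  s23 : G.X2 = G.M → T.sd root 2 ≤ T.sd root 3

namespace Mdl

variable {G : Grp} (μ : Mdl G)

abbrev ι := Fin μ.T.n
def x : Fin 4 → ℕ := ![G.X0, G.X1, G.X2, μ.L]
def ev (t : μ.ι) : Fin 4 → ℕ := fun k => μ.T.sd t k - 1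
def E (t : μ.ι) : ℕ := enc G (μ.ev t)
def sv (t : μ.ι) : Fin 4 → ℕ := sorted (μ.ev t)
def S (t : μ.ι) : ℕ := enc G (μ.sv t)
def memv (t : μ.ι) (c : Fin 4 → ℕ) : Prop :=
  ∀ k, μ.T.lo t k ≤ c k ∧ c k < μ.T.lo t k + μ.T.sd t k
def has (t : μ.ι) (z : ℕ) : Prop := z < 16 * G.W ∧ μ.memv t (pt G z)
def vlo (t : μ.ι) (m : ℕ) : Fin 4 → ℕ :=
  fun k => if sb m k = 1 then XM G k - (μ.T.lo t k + μ.T.sd t k) else μ.T.lo t k
def anch (t : μ.ι) (r : ℕ) : Prop :=
  r < 16 * G.W ∧ ∀ k, μ.vlo t (r / G.W) k = dec G (r % G.W) k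

theorem fit (t : μ.ι) (k : Fin 4) : μ.T.lo t k + μ.T.sd t k ≤ μ.x k := μ.T.fit t k

theorem x_le (k : Fin 4) : μ.x k ≤ XM G k := by
  have := μ.lLM
  fin_cases k <;> simp [x, XM, this]

theorem x_eq {k : Fin 4} (hk : k ≠ 3) : μ.x k = XM G k := by
  fin_cases k
  · rfl
  · rfl
  · rfl
  · exact absurd rfl hk

theorem ev_lt (t : μ.ι) (k : Fin 4) : μ.ev t k < μ.x k := by
  have := μ.fit t k
  have := μ.T.pos t k
  unfold ev
  omega

theorem ev_succ (t : μ.ι) (k : Fin 4) : μ.ev t k + 1 = μ.T.sd t k := by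
  have := μ.T.pos t k
  unfold ev
  omega

theorem ev_inr (t : μ.ι) : InR G (μ.ev t) := fun k => (μ.ev_lt t k).trans_le (μ.x_le k)

theorem memv_inr {t : μ.ι} {c : Fin 4 → ℕ} (h : μ.memv t c) : InR G c := fun k =>
  ((h k).2.trans_le (μ.fit t k)).trans_le (μ.x_le k)

theorem disj {t t' : μ.ι} {y : ℕ} (h : μ.has t y) (h' : μ.has t' y) : t = t' :=
  μ.T.disj t t' _ h.2 h'.2

theorem has_L {t : μ.ι} {y : ℕ} (h : μ.has t y) : pt G y 3 < μ.L :=
  (h.2 3).2.trans_le (μ.fit t 3)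

theorem has_congr {t : μ.ι} {z z' : ℕ} (h : μ.has t z) (e : pt G z' = pt G z)
    (hz : z' < 16 * G.W) : μ.has t z' := ⟨hz, e ▸ h.2⟩

theorem inc {t t' : μ.ι} (h : ∀ k, μ.sv t k ≤ μ.sv t' k) : t = t' := by
  by_contra hc
  obtain ⟨k, hk⟩ := μ.T.inc t' t (Ne.symm hc)
  have a := sorted_pred (μ.T.pos t) k
  have b := sorted_pred (μ.T.pos t') k
  have c : sorted (fun i => μ.T.sd t i - 1) k ≤ sorted (fun i => μ.T.sd t' i - 1) k := h k
  omega

variable (hG : DimOK G)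
include hG

theorem x_mono : Monotone μ.x := by
  have := hG.l01; have := hG.l12; have := μ.l2L
  refine Fin.monotone_iff_le_succ.2 fun i => ?_
  fin_cases i <;> simpa [x]

theorem sv_lt (t : μ.ι) (k : Fin 4) : μ.sv t k < μ.x k := sorted_lt (μ.x_mono hG) (μ.ev_lt t) k

theorem sv_inr (t : μ.ι) : InR G (μ.sv t) := fun k => (μ.sv_lt hG t k).trans_le (μ.x_le k)

theorem E_lt (t : μ.ι) : μ.E t < G.W := hG.enc_lt (μ.ev_inr t)
theorem S_lt (t : μ.ι) : μ.S t < G.W := hG.enc_lt (μ.sv_inr hG t)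
theorem dec_E (t : μ.ι) : dec G (μ.E t) = μ.ev t := hG.dec_enc (μ.ev_inr t)
theorem dec_S (t : μ.ι) : dec G (μ.S t) = μ.sv t := hG.dec_enc (μ.sv_inr hG t)
theorem sh_E (t : μ.ι) : sh G (μ.E t) = μ.sv t := by rw [sh, μ.dec_E hG]; rfl
theorem sh_S (t : μ.ι) : sh G (μ.S t) = μ.sv t := by
  rw [sh, μ.dec_S hG]; exact sorted_of_mono (sorted_mono _)

theorem vol_E (t : μ.ι) : vol G (μ.E t) = ∏ k, μ.T.sd t k := by
  rw [vol, μ.dec_E hG, Fin.prod_univ_four]
  simp only [μ.ev_succ]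
  ring

theorem vol_S (t : μ.ι) : vol G (μ.S t) = vol G (μ.E t) := by
  have := Equiv.prod_comp (Tuple.sort (μ.ev t)) (fun i => μ.ev t i + 1)
  rw [Fin.prod_univ_four, Fin.prod_univ_four] at this
  rw [vol, vol, μ.dec_E hG, μ.dec_S hG, ← Nat.mul_assoc, ← Nat.mul_assoc, ← this]
  rfl

theorem sum_vol : ∑ t, vol G (μ.S t) = G.AA * μ.L := by
  simp only [μ.vol_S hG, μ.vol_E hG]
  rw [μ.T.sum_vol, Fin.prod_univ_four, hG.hA]
  rfl

theorem exists_has (t : μ.ι) : ∃ y, y < G.W ∧ μ.has t y := by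
  have h : μ.memv t (μ.T.lo t) := fun k => ⟨le_rfl, by have := μ.T.pos t k; omega⟩
  have hy := hG.enc_lt (μ.memv_inr h)
  exact ⟨_, hy, by omega, by rw [hG.pt_lt hy, hG.dec_enc (μ.memv_inr h)]; exact h⟩

theorem cover {z : ℕ} (hz : z < 16 * G.W) (h : pt G z 3 < μ.L) : ∃ t, μ.has t z := by
  obtain ⟨t, ht⟩ := μ.T.cover (pt G z) fun k => by
    by_cases hk : k = 3
    · subst hk; exact h
    · exact (hG.pt_inr z k).trans_le (μ.x_eq hk).ge
  exact ⟨t, hz, ht⟩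

theorem has_iff (t : μ.ι) (m z : ℕ) : μ.has t z ↔ z < 16 * G.W ∧
    ∀ k, μ.vlo t m k ≤ vw G m z k ∧ vw G m z k ≤ μ.vlo t m k + μ.ev t k := by
  refine and_congr_right fun _ => forall_congr' fun k => ?_
  have a := (μ.fit t k).trans (μ.x_le k)
  have b := μ.ev_succ t k
  have c := hG.pt_inr z k
  unfold vlo vw rf
  split_ifs <;> omega

theorem anch_has {t : μ.ι} {r : ℕ} (ha : μ.anch t r) (z : ℕ) : μ.has t z ↔ z < 16 * G.W ∧
    ∀ k, dec G (r % G.W) k ≤ vw G (r / G.W) z k ∧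
      vw G (r / G.W) z k ≤ dec G (r % G.W) k + μ.ev t k := by
  rw [μ.has_iff hG t (r / G.W)]
  simp only [ha.2]

theorem anch_fit {t : μ.ι} {r q : ℕ} (ha : μ.anch t r) (hq : q < G.W)
    (h : ∀ k, dec G q k ≤ μ.ev t k) : Fit G r q ∧ μ.has t (r + q) := by
  have f : Fit G r q := ⟨hq, fun k => by
    have a := (μ.fit t k).trans (μ.x_le k)
    have b := μ.ev_succ t k
    have c := h k
    rw [← ha.2 k]
    unfold vlo
    split_ifs <;> omega⟩
  refine ⟨f, (μ.anch_has hG ha _).2 ⟨hG.fit_lt f ha.1, fun k => ?_⟩⟩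
  have c := h k
  rw [hG.fit_vw f]
  omega

theorem anch_off {t : μ.ι} {r z : ℕ} (ha : μ.anch t r) (hz : μ.has t z) :
    ∃ q, Fit G r q ∧ (∀ k, dec G q k ≤ μ.ev t k) ∧ pt G (r + q) = pt G z := by
  have h := ((μ.anch_has hG ha z).1 hz).2
  have hr : InR G fun k => vw G (r / G.W) z k - dec G (r % G.W) k := fun k =>
    (Nat.sub_le _ _).trans_lt (hG.vw_inr _ z k)
  have h1 : ∀ k, dec G (enc G fun k => vw G (r / G.W) z k - dec G (r % G.W) k) k ≤ μ.ev t k :=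
    fun k => by
      have := h k
      rw [hG.dec_enc hr]
      dsimp only
      omega
  have f := (μ.anch_fit hG ha (hG.enc_lt hr) h1).1
  refine ⟨_, f, h1, hG.pt_of_vw (m := r / G.W) (funext fun k => ?_)⟩
  have := h k
  rw [hG.fit_vw f, hG.dec_enc hr]
  dsimp only
  omega

theorem box_spec (hg : GeoOK G) {t : μ.ι} {r q z : ℕ} (ha : μ.anch t r) (hq : q < G.W)
    (h : ∀ k, dec G q k ≤ μ.ev t k)
    (hz : (cone G r &&& cone G (16 * G.W - r - q - 1)).testBit z = true) :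
    μ.has t z ∧ ∀ q', Fit G r q' → pt G (r + q') = pt G z → (dn G q).testBit q' = true := by
  rw [Nat.testBit_and, Bool.and_eq_true, hG.tb_cone hg ha.1,
    hG.tb_cone' hg ha.1 (μ.anch_fit hG ha hq h).1] at hz
  refine ⟨(μ.anch_has hG ha z).2 ⟨hz.1.1, fun k => ⟨hz.1.2 k, ?_⟩⟩, fun q' f e => ?_⟩
  · have := hz.2.2 k
    have := h k
    omega
  · refine (hg.dn _ _).2 ⟨hq, f.1, fun k => ?_⟩
    have := hz.2.2 k
    rw [← vw_congr e, hG.fit_vw f] at this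
    omega

end Mdl

end Pool.Agent.Lib.MP_4d22c1_co.Chk
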