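import Pool.Agent.Lib.MP_4d22c1_co.Sound
import Pool.Agent.Lib.MP_4d22c1_co.Example

/-!
From tilings of real boxes to normalised grid tilings.
-/

namespace Pool.Agent.Lib.MP_4d22c1_co.Chk

open Set Filter Topology

theorem exists_eps {ι : Type} [Finite ι] (δ : ι → ℝ) (h : ∀ i, 0 < δ i) :
    ∃ ε : ℝ, 0 < ε ∧ ε < 1 ∧ ∀ i, ε < δ i := by
  have h1 : ∀ᶠ ε in 𝓝[>] (0 : ℝ), ∀ i, ε < δ i :=
    eventually_all.2 fun i => nhdsWithin_le_nhds (gt_mem_nhds (h i))
  have h2 : ∀ᶠ ε in 𝓝[>] (0 : ℝ), ε < 1 := nhdsWithin_le_nhds (gt_mem_nhds one_pos)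
  have h3 : ∀ᶠ ε in 𝓝[>] (0 : ℝ), 0 < ε := self_mem_nhdsWithin
  exact (h3.and (h2.and h1)).exists

theorem til_of_has {x : Fin 4 → ℕ} (h : HasNontrivialIncomparableTiling x) : Nonempty (Til x) := by
  obtain ⟨n, T, -, hd, hu, hi, hn⟩ := h
  have sub : ∀ i y, y ∈ (T i).set → ∀ k, 0 ≤ y k ∧ y k ≤ (x k : ℝ) := fun i y hy => by
    have : y ∈ ⋃ i, (T i).set := mem_iUnion.2 ⟨i, hy⟩
    rw [hu] at this
    exact this
  have h0 : ∀ i k, 0 ≤ (T i).pos k := fun i k =>
    (sub i (T i).pos (fun k => ⟨le_rfl, le_add_of_nonneg_right (Nat.cast_nonneg _)⟩) k).1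
  have h1 : ∀ i k, (T i).pos k + (T i).side k ≤ x k := fun i k =>
    (sub i (fun k => (T i).pos k + (T i).side k)
      (fun k => ⟨le_add_of_nonneg_right (Nat.cast_nonneg _), le_rfl⟩) k).2
  have key : ∀ i k (c : ℕ), (⌈(T i).pos k⌉₊ ≤ c ∧ c < ⌈(T i).pos k⌉₊ + (T i).side k) ↔
      ((T i).pos k ≤ c ∧ (c : ℝ) < (T i).pos k + (T i).side k) := fun i k c => by
    rw [← Nat.ceil_add_natCast (h0 i k), Nat.ceil_le, Nat.lt_ceil]
  refine ⟨⟨n, fun i k => ⌈(T i).pos k⌉₊, fun i => (T i).side, fun i => (T i).side_pos,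
    fun i k => ?_, fun c hc => ?_, fun i j c a b => ?_, fun i j hij => (hi i j hij).1,
    fun k => ?_⟩⟩
  · rw [← Nat.ceil_add_natCast (h0 i k), Nat.ceil_le]
    exact h1 i k
  · obtain ⟨ε, e0, e1, e2⟩ := exists_eps (fun p : Fin n × Fin 4 =>
      if (c p.2 : ℝ) < (T p.1).pos p.2 then (T p.1).pos p.2 - c p.2 else 1) fun p => by
        split_ifs with h
        · linarith
        · exact one_pos
    have : (fun k => (c k : ℝ) + ε) ∈ ⋃ i, (T i).set := by
      rw [hu]
      intro k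
      have : (c k : ℝ) + 1 ≤ x k := by exact_mod_cast hc k
      have : (0 : ℝ) ≤ c k := Nat.cast_nonneg _
      constructor <;> linarith
    obtain ⟨i, hi⟩ := mem_iUnion.1 this
    refine ⟨i, fun k => (key i k _).2 ⟨?_, ?_⟩⟩
    · by_contra hc
      have a := e2 (i, k)
      rw [if_pos (not_le.1 hc)] at a
      have b := (hi k).1
      simp only at a b
      linarith
    · have b := (hi k).2
      simp only at b
      linarith
  · by_contra hij
    simp only [key] at a b
    obtain ⟨ε, e0, -, e2⟩ := exists_eps (fun p : Fin 4 ⊕ Fin 4 => Sum.elim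
      (fun k => (T i).pos k + (T i).side k - c k) (fun k => (T j).pos k + (T j).side k - c k) p)
      fun p => by
        rcases p with k | k
        · exact sub_pos.2 (a k).2
        · exact sub_pos.2 (b k).2
    have := hd i j hij
    rw [interior_set, interior_set, Set.disjoint_left] at this
    refine @this (fun k => (c k : ℝ) + ε) (fun k => ?_) fun k => ?_
    · have p := e2 (Sum.inl k)
      have q := (a k).1
      simp only [Sum.elim_inl] at p
      constructor <;> linarith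
    · have p := e2 (Sum.inr k)
      have q := (b k).1
      simp only [Sum.elim_inr] at p
      constructor <;> linarith
  · by_contra hc
    push Not at hc
    exact hn ⟨k, hc⟩

theorem sorted_perm (a : Fin 4 → ℕ) (σ : Equiv.Perm (Fin 4)) : sorted (a ∘ σ) = sorted a :=
  Tuple.comp_perm_comp_sort_eq_comp_sort

def Til.perm {x : Fin 4 → ℕ} (T : Til x) (σ : Equiv.Perm (Fin 4)) (y : Fin 4 → ℕ)
    (h : ∀ k, y k = x (σ k)) : Til y where
  n := T.n
  lo t := T.lo t ∘ σ
  sd t := T.sd t ∘ σ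
  pos t k := T.pos t _
  fit t k := h k ▸ T.fit t _
  cover c hc := by
    obtain ⟨t, ht⟩ := T.cover (c ∘ σ.symm) fun k => by
      have := hc (σ.symm k)
      rwa [h, Equiv.apply_symm_apply] at this
    exact ⟨t, fun k => by simpa using ht (σ k)⟩
  disj t t' c a b := T.disj t t' (c ∘ σ.symm) (fun k => by simpa using a (σ.symm k))
    (fun k => by simpa using b (σ.symm k))
  inc t t' e := by
    rw [sorted_perm, sorted_perm]
    exact T.inc t t' e
  nontriv k := by
    obtain ⟨t, ht⟩ := T.nontriv (σ k)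
    exact ⟨t, h k ▸ ht⟩

def Til.flip {x : Fin 4 → ℕ} (T : Til x) (r : Fin 4 → Prop) [DecidablePred r] : Til x where
  n := T.n
  lo t k := if r k then x k - T.lo t k - T.sd t k else T.lo t k
  sd := T.sd
  pos := T.pos
  fit t k := by
    have := T.fit t k
    split_ifs <;> omega
  cover c hc := by
    obtain ⟨t, ht⟩ := T.cover (fun k => if r k then x k - 1 - c k else c k) fun k => by
      have := hc k
      split_ifs <;> omega
    refine ⟨t, fun k => ?_⟩
    have a := ht k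
    have := hc k
    have := T.fit t k
    split_ifs at a ⊢ <;> omega
  disj t t' c a b := T.disj t t' (fun k => if r k then x k - 1 - c k else c k)
    (fun k => by
      have a := a k
      have := T.fit t k
      split_ifs at a ⊢ <;> omega)
    (fun k => by
      have b := b k
      have := T.fit t' k
      split_ifs at b ⊢ <;> omega)
  inc := T.inc
  nontriv := T.nontriv

theorem Til.two_le {x : Fin 4 → ℕ} (T : Til x) (k : Fin 4) : 2 ≤ x k := by
  obtain ⟨t, ht⟩ := T.nontriv k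
  have := T.pos t k
  have := T.fit t k
  omega

theorem mdl_of_til {G : Grp} (hG : DimOK G) {L : ℕ} (h1 : G.X2 ≤ L) (h2 : L ≤ G.M)
    (T0 : Til ![G.X0, G.X1, G.X2, L]) : Nonempty (Mdl G) := by
  classical
  have ex : ∃ m, ∃ (T : Til ![G.X0, G.X1, G.X2, L]) (r : Fin T.n), (∀ k, T.lo r k = 0) ∧
      enc G (fun k => T.sd r k - 1) = m := by
    obtain ⟨r, hr⟩ := T0.cover (fun _ => 0) fun k => by have := T0.two_le k; omega
    exact ⟨_, T0, r, fun k => Nat.eq_zero_of_le_zero (hr k).1, rfl⟩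
  obtain ⟨T, r, hr, e⟩ := Nat.find_spec ex
  have hm : ∀ (T' : Til ![G.X0, G.X1, G.X2, L]) (r' : Fin T'.n), (∀ k, T'.lo r' k = 0) →
      enc G (fun k => T.sd r k - 1) ≤ enc G (fun k => T'.sd r' k - 1) := fun T' r' h =>
    e ▸ Nat.find_min' ex ⟨T', r', h, rfl⟩
  have g1 : 2 ≤ G.X1 := T.two_le 1
  have g2 : 2 ≤ G.X2 := T.two_le 2
  have lin : ∀ a b u v : ℕ, v < u → a * u + b * v ≤ b * u + a * v → a ≤ b := fun a b u v h1 h2 => by
    by_contra hc
    obtain ⟨d, rfl⟩ := Nat.exists_eq_add_of_lt (not_le.1 hc)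
    obtain ⟨w, rfl⟩ := Nat.exists_eq_add_of_lt h1
    nlinarith
  refine ⟨⟨L, T, h1, h2, r, hr, fun t ht => ?_, fun e => ?_, fun e => ?_, fun e => ?_⟩⟩
  · refine hm (T.flip fun k => T.lo t k ≠ 0) t fun k => ?_
    have := ht k
    show (if T.lo t k ≠ 0 then _ - T.lo t k - T.sd t k else T.lo t k) = 0
    split_ifs <;> omega
  · have := hm (T.perm (Equiv.swap 0 1) _ fun k => by
      fin_cases k
      exacts [e, e.symm, rfl, rfl]) r fun k => hr _
    have a : (T.sd r 0 - 1) * G.st0 + (T.sd r 1 - 1) * G.st1 + (T.sd r 2 - 1) * G.M +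
        (T.sd r 3 - 1) ≤ (T.sd r 1 - 1) * G.st0 + (T.sd r 0 - 1) * G.st1 + (T.sd r 2 - 1) * G.M +
        (T.sd r 3 - 1) := this
    have b : G.st1 < G.st0 := by
      have := hG.pst1
      have := Nat.mul_le_mul_right G.st1 g1
      rw [hG.hst0]; omega
    have c := lin (T.sd r 0 - 1) (T.sd r 1 - 1) _ _ b (by omega)
    have := T.pos r 0
    have := T.pos r 1
    omega
  · have := hm (T.perm (Equiv.swap 1 2) _ fun k => by
      fin_cases k
      exacts [rfl, e, e.symm, rfl]) r fun k => hr _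
    have a : (T.sd r 0 - 1) * G.st0 + (T.sd r 1 - 1) * G.st1 + (T.sd r 2 - 1) * G.M +
        (T.sd r 3 - 1) ≤ (T.sd r 0 - 1) * G.st0 + (T.sd r 2 - 1) * G.st1 + (T.sd r 1 - 1) * G.M +
        (T.sd r 3 - 1) := this
    have b : G.M < G.st1 := by
      have := hG.pM
      have := Nat.mul_le_mul_right G.M g2
      rw [hG.hst1]; omega
    have c := lin (T.sd r 1 - 1) (T.sd r 2 - 1) _ _ b (by omega)
    have := T.pos r 1
    have := T.pos r 2
    omega
  · have e' : G.X2 = L := by omega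
    have := hm (T.perm (Equiv.swap 2 3) _ fun k => by
      fin_cases k
      exacts [rfl, rfl, e', e'.symm]) r fun k => hr _
    have a : (T.sd r 0 - 1) * G.st0 + (T.sd r 1 - 1) * G.st1 + (T.sd r 2 - 1) * G.M +
        (T.sd r 3 - 1) ≤ (T.sd r 0 - 1) * G.st0 + (T.sd r 1 - 1) * G.st1 + (T.sd r 3 - 1) * G.M +
        (T.sd r 2 - 1) := this
    have c := lin (T.sd r 2 - 1) (T.sd r 3 - 1) G.M 1 (by omega) (by omega)
    have := T.pos r 2
    have := T.pos r 3
    omega

def NoT (a b c m : ℕ) : Prop := ∀ d, c ≤ d → d ≤ m → Til ![a, b, c, d] → False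

theorem noT_of {G : Grp} {top : List ℕ} (h1 : dimB G = true) (h2 : geoB G = true)
    (h3 : volB G = true) (h4 : shpB G = true) (h : Cov1 G top 4096) :
    NoT G.X0 G.X1 G.X2 G.M := fun _ a b T =>
  have hV := valid_of h1 h2 h3 h4
  (mdl_of_til hV.dim a b T).elim (no_mdl hV h)

theorem lower_of (H : ∀ a b c d : ℕ, 2 ≤ a → a ≤ b → b ≤ c → c ≤ d → a * b * c * d ≤ 503 →
    Til ![a, b, c, d] → False) {x : Fin 4 → ℕ} (h : HasNontrivialIncomparableTiling x) :
    504 ≤ ∏ k, x k := by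
  obtain ⟨T⟩ := til_of_has h
  by_contra hc
  have e := Equiv.prod_comp (Tuple.sort x) x
  rw [Fin.prod_univ_four] at e
  have hm := sorted_mono x
  refine H (sorted x 0) (sorted x 1) (sorted x 2) (sorted x 3) (T.two_le _) (hm (by decide))
    (hm (by decide)) (hm (by decide)) ?_ (T.perm (Tuple.sort x) _ fun k => by fin_cases k <;> rfl)
  have : sorted x 0 * sorted x 1 * sorted x 2 * sorted x 3 = ∏ k, x k := e
  omega

end Pool.Agent.Lib.MP_4d22c1_co.Chk
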