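import Pool.Agent.Lib.MP_4d22c1_co.Inv

/-!
Soundness of the steps that remove and introduce a tile.
-/

namespace Pool.Agent.Lib.MP_4d22c1_co.Chk

variable {G : Grp} {μ : Mdl G} (hG : DimOK G)

theorem fld16 {x : ℕ} (hx : x ≤ 65535) (i j : ℕ) :
    fld (x <<< (16 * i)) (16 * j) 65535 = if j = i then x else 0 := by
  have hs : Small 16 x := small_of_lt (by omega)
  apply Nat.eq_of_testBit_eq
  intro y
  rw [tb_fld, show (65535 : ℕ) = 2 ^ 16 - 1 from rfl, Nat.testBit_two_pow_sub_one,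
    Nat.mul_comm 16, Nat.mul_comm 16, Bool.eq_iff_iff, Bool.and_eq_true, decide_eq_true_eq]
  constructor
  · rintro ⟨a, b⟩
    rw [tb_shl_slot' hs b] at a
    rw [if_pos a.1]
    exact a.2
  · intro a
    split_ifs at a with e
    · exact ⟨(tb_shl_slot' hs (hs y a)).2 ⟨e, a⟩, hs y a⟩
    · simp at a

theorem fld_or (a b s m : ℕ) : fld (a ||| b) s m = fld a s m ||| fld b s m := by
  rw [fld, fld, fld, Nat.shiftRight_or_distrib, Nat.and_or_distrib_right]

theorem fld_xor (a b s m : ℕ) : fld (a ^^^ b) s m = fld a s m ^^^ fld b s m := by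
  rw [fld, fld, fld, Nat.shiftRight_xor_distrib, Nat.and_xor_distrib_right]

include hG

theorem ok_DROP (hg : GeoOK G) {i : ℕ} (hi : i ≠ 0) (tb : ℕ) :
    StepOK μ (sDROP G G.ONE (16 * G.W) G.hq (i * G.W) (16 * i) (G.ONE <<< (i * G.W)) tb) := by
  rintro ⟨A, R, Ll, Lu, P, cx, c, U, B, F, Z, LB, D⟩ hS
  obtain ⟨τ, h⟩ := id hS
  dsimp only at h
  simp only [ap, sDROP_eq]
  refine nx_req hS fun hc => nx_k (τ := τ) ?_
  rw [Nat.beq_eq] at hc
  have key : ∀ X j y, y < G.W → ((dif X (G.ONE <<< (i * G.W))).testBit (j * G.W + y) = true ↔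
      X.testBit (j * G.W + y) = true ∧ j ≠ i) := fun X j y hy => by
    rw [tb_dif, Bool.and_eq_true, Bool.not_eq_true', ← Bool.not_eq_true,
      tb_shl_slot' hG.small_ONE hy, hG.tb_ONE]
    simp [hy]
  have keyR : ∀ j, (dif R (G.ONE <<< (i * G.W))).testBit (j * G.W) = true ↔
      R.testBit (j * G.W) = true ∧ j ≠ i := fun j => key R j 0 hG.pW
  have keyA : ∀ j, fld (A ^^^ fld A (16 * i) 65535 <<< (16 * i)) (16 * j) 65535 =
      if j = i then 0 else fld A (16 * j) 65535 := fun j => by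
    rw [fld_xor, fld16 (fld_le _ _ _)]
    split_ifs with e
    · rw [e, Nat.xor_self]
    · rw [Nat.xor_zero]
  refine ⟨fun z hz => h.hR z (tb_dif_left hz), (keyR 0).2 ⟨h.h0, hi.symm⟩, h.r0,
    fun a b ha hb => h.inj a b ((keyR a).1 ha).1 ((keyR b).1 hb).1, fun j hj => ?_,
    fun j y hy hb => ?_, fun t ht => ?_, fun j y hy hb => ?_, fun j y hj hy hh => ?_,
    fun j hj => ?_, fun j hj => ?_, fun j y hy hb => ?_, fun z hz => ?_,
    fun z hz => by simp at hz, h.hLl, h.hLu, h.hLM⟩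
  · rw [keyR] at hj
    exact (key _ _ _ (μ.E_lt hG _)).2 ⟨h.hD j hj.1, hj.2⟩
  · rw [key _ _ _ hy] at hb
    exact (keyR j).2 ⟨h.hDs j y hy hb.1, hb.2⟩
  · rw [Nat.testBit_or, Bool.or_eq_true]
    by_cases e : R.testBit (i * G.W) = true ∧ τ i = t
    · exact Or.inr (e.2 ▸ h.tb_Dj hG e.1)
    · refine Or.inl (h.hU t fun j hj e' => ?_)
      by_cases hji : j = i
      · exact e (hji ▸ ⟨hj, e'⟩)
      · exact ht j ((keyR j).2 ⟨hj, hji⟩) e'
  · rw [key _ _ _ hy] at hb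
    exact ⟨(keyR j).2 ⟨(h.hB j y hy hb.1).1, hb.2⟩, (h.hB j y hy hb.1).2⟩
  · rw [keyR] at hj
    exact (key _ _ _ hy).2 ⟨h.hP j y hj.1 hy hh, hj.2⟩
  · rw [keyR] at hj
    rw [keyA, if_neg hj.2]
    exact h.hA j hj.1
  · rw [keyA] at hj
    split_ifs at hj with e
    · exact absurd rfl hj
    · exact (keyR j).2 ⟨h.hAs j hj, e⟩
  · rw [key _ _ _ hy] at hb
    rw [keyA, if_neg hb.2]
    exact ⟨(keyR j).2 ⟨(h.hF j y hy hb.1).1, hb.2⟩, (h.hF j y hy hb.1).2⟩
  · rw [tb_dif, Bool.and_eq_true, Bool.not_eq_true', ← Bool.not_eq_true] at hz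
    refine (h.hZ z hz.1).imp id fun ⟨j, a, b, d⟩ => ?_
    have e : j ≠ i := by
      rintro rfl
      obtain ⟨a1, a2⟩ := h.hA j a
      obtain ⟨q, f, -, e⟩ := μ.anch_off hG a2 b
      have c1 := tb_of_eq_zero hc q
      rw [tb_dif, (hG.tb_room hg _ _).2 f, Bool.true_and, Bool.not_eq_false', Nat.testBit_or,
        Nat.testBit_shiftRight, d q f e, Bool.false_or, Nat.testBit_shiftRight] at c1
      obtain ⟨b', b1, -, b3⟩ := hG.lw_spec hg (Y := fld D (j * G.W) G.ONE) fun e => by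
        simpa [e] using h.tb_Dj hG a
      have b4 := (b3 (hG.small_slot _ _ _ b1)).1
      have := hG.pW
      apply hz.2
      rw [Nat.testBit_and, Bool.and_eq_true, hG.tb_cone hg a2.1, hG.tb_cone hg (by omega)] at c1 ⊢
      rw [← vw_congr e, ← vw_congr e]
      exact ⟨⟨b.1, c1.1.2⟩, b.1, c1.2.2⟩
    refine ⟨j, (keyR j).2 ⟨a, e⟩, b, ?_⟩
    rw [keyA, if_neg e]
    intro q f e'
    rw [tb_dif, d q f e', Bool.false_and]

def ExV (G : Grp) (D A CE i : ℕ) : Prop :=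
  ∃ v, lwh (CE >>> (16 * G.W - fld A (16 * i) 65535)) = v + 1 ∧ D >>> (i * G.W) &&& uph G v = 0

def ExOK (G : Grp) (D A CE : ℕ) (k : ℕ → ℕ → ℕ → ℕ) : Prop :=
  ∀ m t acc, k m t acc = 0 → acc = 0 ∧ ∀ z, t.testBit z = true → ∃ i, z = i * G.W ∧ ExV G D A CE i

omit hG in
theorem exs_ok {D A CE : ℕ} {k : ℕ → ℕ → ℕ → ℕ} (hk : ExOK G D A CE k) :
    ExOK G D A CE (exs G D A CE (16 * G.W) k) := by
  intro m t acc h
  rcases m with _ | m
  · have h' : acc ||| t = 0 := h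
    rw [Nat.or_eq_zero_iff] at h'
    exact ⟨h'.1, fun z hz => by simp [h'.2] at hz⟩
  have h' : prz 1 (lwh (CE >>> (16 * G.W - fld A (16 * fr G m) 65535))) (fun v =>
    k ((m + 1) &&& m) (t ^^^ 1 <<< (fr G m * G.W))
      (acc ||| (D >>> (fr G m * G.W) &&& uph G v))) = 0 := h
  rcases e : lwh (CE >>> (16 * G.W - fld A (16 * fr G m) 65535)) with _ | v
  · rw [e] at h'
    exact absurd h' Nat.one_ne_zero
  rw [e] at h'
  obtain ⟨a, b⟩ := hk _ _ _ h'
  rw [Nat.or_eq_zero_iff] at a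
  refine ⟨a.1, fun z hz => ?_⟩
  by_cases e' : fr G m * G.W = z
  · exact ⟨_, e'.symm, v, e, a.2⟩
  · refine b z ?_
    rw [Nat.testBit_xor, hz, tb_one]
    simpa using e'

theorem exv_not (hg : GeoOK G) {τ : ℕ → μ.ι} {A R Ll Lu P U B F Z LB D i r : ℕ}
    (h : InvT μ τ A R Ll Lu P U B F Z LB D) (hi : R.testBit (i * G.W) = true)
    (hr : μ.has (τ i) r) (hv : ExV G D A (cell G r) i) : False := by
  obtain ⟨v, e1, e2⟩ := hv
  obtain ⟨-, a2⟩ := h.hA i hi
  generalize 16 * G.W - fld A (16 * i) 65535 = a at e1 a2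
  obtain ⟨q, f, f1, f2⟩ := μ.anch_off hG a2 hr
  have c0 : (cell G r >>> a).testBit q = true := by
    rw [Nat.testBit_shiftRight, hG.tb_cell hg hr.1]
    exact ⟨hG.fit_lt f a2.1, f2⟩
  obtain ⟨b, b1, b2, b3⟩ := hG.lw_spec hg (Y := cell G r >>> a) fun e => by simp [e] at c0
  have b4 := b2 q c0
  have b5 := (b3 (b4.trans_lt f.1)).2
  rw [Nat.testBit_shiftRight, hG.tb_cell hg hr.1] at b1
  have b6 : a + b = a + q := hG.pt_inj (b1.2.trans f2.symm) (le_antisymm
    (Nat.div_le_div_right (by omega))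
    ((hG.fit_add f).1.trans_le (Nat.div_le_div_right (by omega))))
  have c1 := tb_of_eq_zero e2 (μ.E (τ i))
  rw [e1, Nat.add_sub_cancel] at b5
  rw [Nat.testBit_and, Nat.testBit_shiftRight, h.hD i hi, Bool.true_and, uph_eq, b5,
    show b = q by omega, ← Bool.not_eq_true, hg.up, μ.dec_E hG] at c1
  exact c1 ⟨f.1, μ.E_lt hG _, f1⟩

theorem anch_dim (hg : GeoOK G) {t : μ.ι} {Z s b : ℕ} (hb : b < G.W) (hx : μ.has t (s * G.W + b))
    (hZ : ∀ z, Z.testBit z = true → ¬ μ.has t z) (k : Fin 4)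
    (h : (fld Z (s * G.W) G.ONE <<< stq G k ||| ltk G k 1).testBit b = true) :
    μ.vlo t s k = dec G b k := by
  have r := hG.dec_inr hb
  have e0 : vw G s (s * G.W + b) = dec G b := by
    have := hG.vw_self (s * G.W + b)
    rwa [div_slot hb, mod_slot hb] at this
  have a := ((μ.has_iff hG t s _).1 hx).2
  rw [e0] at a
  have ak := a k
  by_contra hc
  rw [Nat.testBit_or, Bool.or_eq_true, hg.lt k 1 b (by have := r k; omega),
    Nat.testBit_shiftLeft, Bool.and_eq_true, decide_eq_true_eq, hG.tb_slot] at h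
  rcases h with h | h
  swap
  · omega
  have hr : InR G fun j => dec G b j - (Pi.single k 1 : Fin 4 → ℕ) j := fun j =>
    (Nat.sub_le _ _).trans_lt (r j)
  have e1 := enc_add' G (fun j => dec G b j - (Pi.single k 1 : Fin 4 → ℕ) j) (Pi.single k 1)
    (dec G b) fun j => by
      by_cases hj : j = k
      · subst hj; simp only [Pi.single_eq_same]; omega
      · simp [hj]
  rw [enc_single, hG.enc_dec, Nat.one_mul] at e1
  refine hZ _ h.2.2 ((μ.has_iff hG t s _).2 ⟨by have := hx.1; omega, fun j => ?_⟩)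
  have e2 := hG.vw_self (s * G.W + (b - stq G k))
  rw [div_slot h.2.1, mod_slot h.2.1] at e2
  rw [e2, ← e1, Nat.add_sub_cancel, hG.dec_enc hr]
  have := a j
  by_cases hj : j = k
  · subst hj; simp only [Pi.single_eq_same]; omega
  · simpa [hj] using this

theorem ok_NEW (hg : GeoOK G) {cl : ℕ → ℕ} (hcl : ∀ Y, Small G.W Y → DimOK.UpCl G Y (cl Y))
    (wm ta cxb : ℕ) : StepOK μ (sNEW G cl G.W G.ONE (16 * G.W) G.M G.st0 G.st1 (ltk G 0 1)
      (ltk G 1 1) (ltk G 2 1) (ltk G 3 1) wm G.hq ta cxb) := by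
  rintro ⟨A, R, Ll, Lu, P, cx, c, U, B, F, Z, LB, D⟩ hS
  obtain ⟨τ, h⟩ := id hS
  dsimp only at h
  simp only [ap, sNEW_eq]
  refine nx_prd hS fun r hr => nx_req hS fun hc => ?_
  have hs : aent ta c &&& 15 < 16 := Nat.lt_succ_of_le Nat.and_le_right
  simp only [fw_eq, fs_eq, fb_eq] at hc ⊢
  generalize aent ta c &&& 15 = s at hr hc hs
  generalize fr G (R % wm) = i at hc ⊢
  obtain ⟨c1, c2⟩ := (exs_ok (exs_ok (exs_ok (exs_ok (exs_ok (exs_ok (exs_ok (exs_ok
    (exs_ok (exs_ok (exs_ok (exs_ok (exs_ok (exs_ok (exs_ok (exs_ok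
    (k := fun _ _ _ => 1) fun _ _ _ e => absurd e Nat.one_ne_zero)))))))))))))))) _ _ _
    (Nat.beq_eq ▸ hc)
  rw [Nat.or_eq_zero_iff] at c1
  obtain ⟨c3, c1⟩ := c1
  replace c3 := tb_of_eq_zero c3 (i * G.W)
  rw [Nat.testBit_and, tb_one, decide_eq_true rfl, Bool.and_true] at c3
  obtain ⟨b, b1, -, b3⟩ := hG.lw_spec hg (Nat.one_le_iff_ne_zero.1 (Nat.sub_eq_zero_iff_le.1 c1))
  replace b1 := tb_skp _ _ _ b1
  simp only [cnds, Nat.testBit_and, Bool.and_eq_true] at b1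
  obtain ⟨⟨b0, d0, d1⟩, d2, d3⟩ := b1
  rw [hG.tb_compl (hG.small_slot _ _), hG.tb_slot, Nat.testBit_or, Bool.or_eq_true,
    hG.tb_bey hg (h.hLl.trans μ.lLM)] at b0
  have hb := b0.1
  obtain rfl : r = s * G.W + b := by have := (b3 hb).1; omega
  have hr : s * G.W + b < 16 * G.W := by rw [← hG.div_lt, div_slot hb]; exact hs
  clear b3 hc c1
  obtain ⟨t, ht⟩ := μ.cover hG hr (lt_of_lt_of_le
    (not_le.1 fun e => b0.2 ⟨hb, Or.inr ⟨hr, e⟩⟩) h.hLl)
  have hnew : ∀ j, R.testBit (j * G.W) = true → τ j ≠ t := fun j hj e => by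
    obtain ⟨x1, x2⟩ := hG.x0_spec hg hr
    obtain ⟨j', e1, e2⟩ := c2 (j * G.W) (by
      rw [Nat.testBit_and, Nat.testBit_shiftRight, Nat.add_comm, hj, Bool.and_true]
      exact h.hP j _ hj x1 (μ.has_congr (e ▸ ht) ((hG.pt_lt x1).trans x2) (by omega)))
    obtain rfl := Nat.eq_of_mul_eq_mul_right hG.pW e1
    exact exv_not hG hg h hj (e ▸ ht) e2
  have hZ : ∀ z, Z.testBit z = true → ¬ μ.has t z := fun z hz hm => by
    obtain ⟨j, a, b, -⟩ := h.owned hG h.hZ hz hm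
    exact hnew j a b
  have ha : μ.anch t (s * G.W + b) := ⟨hr, by
    rw [div_slot hb, mod_slot hb]
    exact forall4.2 ⟨anch_dim hG hg hb ht hZ 0 d0, anch_dim hG hg hb ht hZ 1 d1,
      anch_dim hG hg hb ht hZ 2 d2, anch_dim hG hg hb ht hZ 3 d3⟩⟩
  clear d0 d1 d2 d3 b0 c2
  generalize s * G.W + b = r at hr ht ha ⊢
  have keyR : ∀ j, (R ||| 1 <<< (i * G.W)).testBit (j * G.W) = true ↔
      R.testBit (j * G.W) = true ∨ j = i := fun j => by
    rw [Nat.testBit_or, Bool.or_eq_true, tb_one, decide_eq_true_eq]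
    exact or_congr Iff.rfl ⟨fun e => (Nat.eq_of_mul_eq_mul_right hG.pW e).symm, fun e => by rw [e]⟩
  have ne : ∀ j, R.testBit (j * G.W) = true → j ≠ i := fun j hj e => by
    rw [e, c3] at hj
    exact Bool.false_ne_true hj
  have up : ∀ j, R.testBit (j * G.W) = true → Function.update τ i t j = τ j := fun j hj =>
    Function.update_of_ne (ne j hj) _ _
  have ui : Function.update τ i t i = t := Function.update_self ..
  have sR : Small G.W (room G r) := hg.small_dn _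
  have sF : Small G.W (f0 G r) := small_dif sR _
  have sD := small_dif (small_and' U sR) (cl (Z >>> r &&& f0 G r))
  have w5 := hG.w511
  have kA : ∀ j, j ≠ i → fld (A ||| (16 * G.W - r) <<< (16 * i)) (16 * j) 65535 =
      fld A (16 * j) 65535 := fun j hj => by
    rw [fld_or, fld16 (by omega), if_neg hj, Nat.or_zero]
  have kAi : fld (A ||| (16 * G.W - r) <<< (16 * i)) (16 * i) 65535 = 16 * G.W - r := by
    have : fld A (16 * i) 65535 = 0 := by
      by_contra hc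
      exact ne i (h.hAs i hc) rfl
    rw [fld_or, fld16 (by omega), if_pos rfl, this, Nat.zero_or]
  have er : 16 * G.W - (16 * G.W - r) = r := by omega
  have kC : ZP μ (Function.update τ i t) (A ||| (16 * G.W - r) <<< (16 * i))
      (R ||| 1 <<< (i * G.W)) Lu (F ||| f0 G r <<< (i * G.W)) (cell G r) := fun z hz => by
    rw [hG.tb_cell hg hr] at hz
    refine Or.inr ⟨i, (keyR i).2 (Or.inr rfl), ui.symm ▸ μ.has_congr ht hz.2 hz.1, ?_⟩
    rw [kAi, er]
    intro q f e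
    obtain rfl : q = 0 := by
      have := hG.pt_inj (e.trans hz.2) (hG.fit_add f).1
      omega
    rw [← Bool.not_eq_true, Nat.testBit_or, Bool.or_eq_true, tb_shl_slot' sF f.1]
    rintro (a | a)
    · exact ne i (h.hF i 0 f.1 a).1 rfl
    · have := a.2
      rw [f0_eq, tb_dif, Bool.and_eq_true] at this
      exact absurd this.2 (by decide)
  refine nx_k (τ := Function.update τ i t) ⟨fun z hz => ?_, (keyR 0).2 (Or.inl h.h0),
    (up 0 h.h0).trans h.r0, fun a b ha hb => ?_,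
    fun j hj => ?_, fun j y hy hb => ?_, fun t' ht' => ?_, fun j y hy hb => ?_,
    fun j y hj hy hh => ?_, fun j hj => ?_, fun j hj => ?_, fun j y hy hb => ?_,
    ZP.or (fun z hz => ?_) kC, kC, h.hLl, h.hLu, h.hLM⟩
  · rw [Nat.testBit_or, Bool.or_eq_true, tb_one, decide_eq_true_eq] at hz
    rcases hz with hz | hz
    · exact h.hR z hz
    · rw [← hz, Nat.mul_mod_left]
  · rw [keyR] at ha hb
    rcases ha with ha | rfl <;> rcases hb with hb | rfl
    · rw [up a ha, up b hb]; exact h.inj a b ha hb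
    · rw [up a ha, ui]; exact fun e => (hnew a ha e).elim
    · rw [up b hb, ui]; exact fun e => (hnew b hb e.symm).elim
    · exact fun _ => rfl
  · rw [Nat.testBit_or, Bool.or_eq_true, tb_shl_slot' sD (μ.E_lt hG _)]
    rcases (keyR j).1 hj with hj | rfl
    · rw [up j hj]; exact Or.inl (h.hD j hj)
    · rw [ui, tb_dif, Nat.testBit_and, h.hU t hnew, Bool.true_and, (hG.tb_room hg _ _).2
        (μ.anch_fit hG ha (μ.E_lt hG t) fun k => (congrFun (μ.dec_E hG _) k).le).1,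
        Bool.true_and, Bool.not_eq_true', ← Bool.not_eq_true]
      refine Or.inr ⟨rfl, fun hc => ?_⟩
      obtain ⟨-, q, q1, q2⟩ := hcl _ (small_and' _ sF) _ hc
      rw [Nat.testBit_and, Bool.and_eq_true, Nat.testBit_shiftRight] at q1
      exact hZ _ q1.1 (μ.anch_fit hG ha (sF q q1.2) (μ.dec_E hG t ▸ q2)).2
  · rw [Nat.testBit_or, Bool.or_eq_true, tb_shl_slot' sD hy] at hb
    exact (keyR j).2 (hb.imp (h.hDs j y hy) fun a => a.1)
  · exact h.hU t' fun j hj => up j hj ▸ ht' j ((keyR j).2 (Or.inl hj))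
  · obtain ⟨a, b⟩ := h.hB j y hy hb
    exact ⟨(keyR j).2 (Or.inl a), (up j a).symm ▸ b⟩
  · rw [Nat.testBit_or, Bool.or_eq_true]
    rcases (keyR j).1 hj with hj | rfl
    · rw [up j hj] at hh
      exact Or.inl (h.hP j y hj hy hh)
    · rw [ui] at hh
      refine Or.inr ((tb_shl_slot' (small_and' _ hG.small_ONE) hy).2 ⟨rfl, ?_⟩)
      rw [Nat.testBit_and, Bool.and_eq_true, hG.tb_cone hg hr, hG.tb_ONE]
      exact ⟨⟨hh.1, fun k => (((μ.anch_has hG ha y).1 hh).2 k).1⟩, decide_eq_true hy⟩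
  · rcases (keyR j).1 hj with hj | rfl
    · rw [kA j (ne j hj), up j hj]
      exact h.hA j hj
    · rw [kAi, er, ui]
      exact ⟨Nat.sub_le _ _, ha⟩
  · by_cases e : j = i
    · exact (keyR j).2 (Or.inr e)
    · rw [kA j e] at hj
      exact (keyR j).2 (Or.inl (h.hAs j hj))
  · rw [Nat.testBit_or, Bool.or_eq_true, tb_shl_slot' sF hy] at hb
    rcases hb with hb | ⟨rfl, hb⟩
    · obtain ⟨a, b⟩ := h.hF j y hy hb
      rw [kA j (ne j a)]
      exact ⟨(keyR j).2 (Or.inl a), b⟩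
    · rw [kAi, er]
      exact ⟨(keyR j).2 (Or.inr rfl), (hG.tb_room hg _ _).1 (tb_dif_left hb)⟩
  · refine (h.hZ z hz).imp id fun ⟨j, a, b, d⟩ =>
      ⟨j, (keyR j).2 (Or.inl a), (up j a).symm ▸ b, ?_⟩
    rw [kA j (ne j a)]
    intro q f e
    rw [Nat.testBit_or, d q f e, Bool.false_or, ← Bool.not_eq_true, tb_shl_slot' sF f.1]
    exact fun hc => ne j a hc.1

end Pool.Agent.Lib.MP_4d22c1_co.Chk
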