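import Pool.Agent.Lib.MP_4d22c1_co.Inv

/-!
Soundness of the volume bound.
-/

namespace Pool.Agent.Lib.MP_4d22c1_co.Chk

theorem q8_ind {α : Type} {P : α → Prop} {f : α → α} (hf : ∀ k, P k → P (f k)) :
    ∀ k, P k → P (q8 f k) := fun k hk => hf _ (hf _ (hf _ (hf _ (hf _ (hf _ (hf _ (hf k hk)))))))

variable {G : Grp} {μ : Mdl G} (hG : DimOK G)

def ChOK (G : Grp) (k : ℕ → ℕ → ℕ → Bool) : Prop :=
  ∀ T tp base (Q : Finset ℕ), Small G.W tp → (∀ b ∈ Q, tp.testBit b = true) →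
    k T tp base = true → base + ∑ b ∈ Q, vol G b < T

theorem clr_step (hv : VolOK G) {tp : ℕ} (hs : Small G.W tp) (Q : Finset ℕ)
    (hQ : ∀ b ∈ Q, tp.testBit b = true) : Small G.W (clr tp) ∧ ∃ Q' : Finset ℕ,
      (∀ b ∈ Q', (clr tp).testBit b = true) ∧
        ∑ b ∈ Q, vol G b ≤ volq G.ht (hsh tp (clr tp)) + ∑ b ∈ Q', vol G b := by
  refine ⟨small_and hs _, ?_⟩
  by_cases e : tp = 0
  · have : Q = ∅ := Finset.eq_empty_of_forall_notMem fun b hb => by simpa [e] using hQ b hb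
    exact ⟨∅, by simp, by simp [this]⟩
  obtain ⟨b, h1, h2, h3⟩ := lowbit e
  refine ⟨Q.erase b, fun y hy => ?_, ?_⟩
  · rw [Finset.mem_erase] at hy
    simp [clr, h3, hQ y hy.2, hy.1]
  rw [hsh, clr, h2, hv.ht b (hs b h1)]
  by_cases hb : b ∈ Q
  · rw [← Finset.add_sum_erase _ _ hb]
  · rw [Finset.erase_eq_of_notMem hb]; omega

theorem chs_ok (hv : VolOK G) (k : ℕ → ℕ → ℕ → Bool) (hk : ChOK G k) : ChOK G (chs G.ht k) := by
  intro T tp base Q hs hQ h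
  rcases tp with _ | t
  · have : Q = ∅ := Finset.eq_empty_of_forall_notMem fun b hb => by simpa using hQ b hb
    have h' : Nat.ble (base + 1) T = true := h
    rw [Nat.ble_eq] at h'
    simpa [this] using h'
  have h' : k T (clr (clr (clr (t + 1)))) (base + volq G.ht (hsh (t + 1) (clr (t + 1))) +
    (volq G.ht (hsh (clr (t + 1)) (clr (clr (t + 1)))) +
      volq G.ht (hsh (clr (clr (t + 1))) (clr (clr (clr (t + 1))))))) = true := h
  obtain ⟨s1, Q1, a1, b1⟩ := clr_step hv hs Q hQ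
  obtain ⟨s2, Q2, a2, b2⟩ := clr_step hv s1 Q1 a1
  obtain ⟨s3, Q3, a3, b3⟩ := clr_step hv s2 Q2 a2
  have := hk _ _ _ Q3 s3 a3 h'
  omega

def Cl (G : Grp) (Wm S : ℕ) : Prop :=
  ∀ z, S.testBit z = true → ∃ y, Wm.testBit y = true ∧ z ≤ y ∧ z / G.M = y / G.M

theorem kd_div {d y : ℕ} (h : (kd G.W G.M d).testBit y = true) : (d + y) / G.M = y / G.M := by
  have h1 : y % G.M + d + 1 ≤ G.M := Nat.ble_eq ▸ ((tb_mk _ _ _).1 h).2
  have : d + y = y / G.M * G.M + (y % G.M + d) := by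
    have := Nat.div_add_mod' y G.M
    omega
  rw [this, div_slot (by omega)]

theorem Cl.refl (Wm : ℕ) : Cl G Wm Wm := fun z hz => ⟨z, hz, le_rfl, rfl⟩

theorem Cl.smr {Wm S m : ℕ} (h : Cl G Wm S) (d : ℕ) (hm : m = kd G.W G.M d) :
    Cl G Wm (smr m d S) := fun z hz => by
  rw [Chk.smr, Nat.testBit_or, Nat.testBit_and, Nat.testBit_shiftRight, Bool.or_eq_true,
    Bool.and_eq_true, hm] at hz
  rcases hz with hz | hz
  · exact h z hz
  · obtain ⟨y, a, b, c⟩ := h _ hz.1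
    exact ⟨y, a, by omega, (kd_div hz.2).symm.trans c⟩

theorem exists_top (hv : VolOK G) {Wm S : ℕ} (hs : Small G.W Wm) (h : Cl G Wm S) (n : ℕ) :
    ∀ y, G.W - y ≤ n → Wm.testBit y = true →
      ∃ z, (dif Wm (S >>> 1 &&& G.k1)).testBit z = true ∧ y ≤ z ∧ y / G.M = z / G.M := by
  induction n with
  | zero =>
    intro y h1 h2
    have := hs y h2
    omega
  | succ n ih =>
    intro y h1 h2
    by_cases e : (S >>> 1 &&& G.k1).testBit y = true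
    · rw [Nat.testBit_and, Nat.testBit_shiftRight, Bool.and_eq_true, hv.k1] at e
      obtain ⟨y', a, b, c⟩ := h _ e.1
      obtain ⟨z, d, f, g⟩ := ih y' (by omega) a
      exact ⟨z, d, by omega, ((kd_div e.2).symm.trans c).trans g⟩
    · refine ⟨y, ?_, le_rfl, rfl⟩
      rw [tb_dif, h2, Bool.true_and, Bool.not_eq_true', ← Bool.not_eq_true]
      exact e

def VInv (μ : Mdl G) (Wm base : ℕ) : Prop :=
  Small G.W Wm ∧ ∃ Rs : Finset μ.ι, (∀ t ∈ Rs, Wm.testBit (μ.S t) = true) ∧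
    G.AA * μ.L ≤ base + ∑ t ∈ Rs, vol G (μ.S t)

/-- The facts about the state that the volume phase uses. -/
def VSt (μ : Mdl G) (D B T : ℕ) : Prop :=
  T ≤ G.AA * μ.L ∧ ∃ τ A R Ll Lu P U F Z LB, InvT μ τ A R Ll Lu P U B F Z LB D

def BadV (μ : Mdl G) (k : KV) : Prop :=
  ∀ D B T cx c Wm base, VSt μ D B T → VInv μ Wm base → k D B T cx c Wm base = 0

def VOK (μ : Mdl G) (f : FnV) : Prop := ∀ k, BadV μ k → BadV μ (f.1 k)

theorem vok_NO : VOK μ sNOV := fun _ _ _ _ _ _ _ _ _ _ _ => rfl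

include hG

omit hG in
theorem mod_le_of_div {y z : ℕ} (h1 : y ≤ z) (h2 : y / G.M = z / G.M) : y % G.M ≤ z % G.M := by
  have a := Nat.div_add_mod y G.M
  have b := Nat.div_add_mod z G.M
  rw [h2] at a
  omega

theorem vok_VS (hv : VolOK G) (hs : ShpOK G) (ta tb tr : ℕ) : VOK μ (sVS G G.vt ta tb tr) := by
  rintro k hk D B T cx c Wm base hT ⟨hW, Rs, h1, h2⟩
  by_contra hc
  rw [sVS_eq] at hc
  obtain ⟨p, -, hc⟩ := prd_ne.1 hc
  obtain ⟨e, a1, a2⟩ := prd_ne.1 hc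
  by_cases e2 : ∃ t ∈ Rs, μ.S t = p
  · obtain ⟨t, ht, e2⟩ := e2
    refine a2 (hk _ _ _ _ _ _ _ hT ⟨small_dif hW _, Rs.erase t, fun t' ht' => ?_, ?_⟩)
    · rw [Finset.mem_erase] at ht'
      rw [tb_dif, h1 t' ht'.2, Bool.true_and, Bool.not_eq_true', ← Bool.not_eq_true, cmp_eq,
        Nat.testBit_or, Bool.or_eq_true, ← e2]
      rintro (a | a)
      · have := (hs.sd _ _ a).2
        rw [μ.sh_S hG, μ.dec_S hG] at this
        exact ht'.1 (μ.inc this)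
      · have := (hs.su _ _ a).2
        rw [μ.sh_S hG, μ.dec_S hG] at this
        exact ht'.1 (μ.inc this).symm
    · rw [← e2, hv.vt _ (μ.S_lt hG t), Nat.add_assoc,
        Finset.add_sum_erase _ (fun t => vol G (μ.S t)) ht]
      exact h2
  · refine Nat.succ_ne_zero e (a1.symm.trans
      (hk _ _ _ _ _ _ _ hT ⟨small_dif hW _, Rs, fun t ht => ?_, h2⟩))
    rw [tb_dif, h1 t ht, Bool.true_and, tb_one, Bool.not_eq_true', decide_eq_false_iff_not]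
    exact fun a => e2 ⟨t, ht, a.symm⟩

theorem vok_VL (hv : VolOK G) {sm : ℕ → ℕ} (hsm : ∀ Wm, Cl G Wm (sm Wm)) :
    VOK μ (sVL sm G.ht G.k1) := by
  rintro k - D B T cx c Wm base ⟨hT, -⟩ ⟨hW, Rs, h1, h2⟩
  by_contra hc
  rw [sVL_eq] at hc
  have h := (req_ne.1 hc).1
  have hch : ChOK G (q8 (q8 (chs G.ht)) fun _ _ _ => false) :=
    q8_ind (q8_ind (chs_ok hv)) _ fun _ _ _ _ _ _ a => absurd a Bool.false_ne_true
  have ex : ∀ t : μ.ι, ∃ z, t ∈ Rs → (dif Wm (sm Wm >>> 1 &&& G.k1)).testBit z = true ∧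
      μ.S t ≤ z ∧ μ.S t / G.M = z / G.M := fun t => by
    by_cases ht : t ∈ Rs
    · obtain ⟨z, hz⟩ := exists_top hv hW (hsm Wm) _ _ le_rfl (h1 t ht)
      exact ⟨z, fun _ => hz⟩
    · exact ⟨0, fun a => (ht a).elim⟩
  choose f hf using ex
  have a := hch _ _ _ (Rs.image f) (small_dif hW _) (fun b hb => by
    obtain ⟨t, ht, rfl⟩ := Finset.mem_image.1 hb
    exact (hf t ht).1) h
  rw [Finset.sum_image (fun t ht t' ht' e => by
    have e1 : μ.S t / G.M = μ.S t' / G.M := by rw [(hf t ht).2.2, (hf t' ht').2.2, e]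
    have e2 : ∀ k, k ≠ 3 → μ.sv t k = μ.sv t' k := fun k hk => by
      rw [← μ.dec_S hG, ← μ.dec_S hG]; exact hG.dec_same e1 k hk
    rcases le_total (μ.sv t 3) (μ.sv t' 3) with a | a
    · exact μ.inc (forall4.2 ⟨(e2 0 (by decide)).le, (e2 1 (by decide)).le,
        (e2 2 (by decide)).le, a⟩)
    · exact (μ.inc (forall4.2 ⟨(e2 0 (by decide)).ge, (e2 1 (by decide)).ge,
        (e2 2 (by decide)).ge, a⟩)).symm)] at a
  have b : ∑ t ∈ Rs, vol G (μ.S t) ≤ ∑ t ∈ Rs, vol G (f t) := Finset.sum_le_sum fun t ht => by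
    obtain ⟨-, p, q⟩ := hf t ht
    have r : dec G (μ.S t) 3 ≤ dec G (f t) 3 := mod_le_of_div p q
    unfold vol
    rw [hG.dec_same q 0 (by decide), hG.dec_same q 1 (by decide), hG.dec_same q 2 (by decide)]
    exact Nat.mul_le_mul_left _ (Nat.mul_le_mul_left _ (by omega))
  omega

theorem vok_S2 (hv : VolOK G) (rep tt ad tp sm j tb : ℕ) :
    VOK μ (sS2 G rep tt ad tp sm G.ONE (j * G.W) tb) := by
  rintro k hk D B T cx c Wm base hT ⟨hW, Rs, h1, h2⟩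
  obtain ⟨-, τ, A, R, Ll, Lu, P, U, F, Z, LB, h⟩ := id hT
  by_contra hc
  rw [sS2_eq] at hc
  obtain ⟨r, -, hc⟩ := prd_ne.1 hc
  obtain ⟨a1, a2⟩ := req_ne.1 hc
  rw [Nat.beq_eq] at a1
  refine a2 (hk _ _ _ _ _ _ _ hT ⟨small_dif hW _, ?_⟩)
  by_cases hj : R.testBit (j * G.W) = true
  · refine ⟨Rs.erase (τ j), fun t ht => ?_, ?_⟩
    · rw [Finset.mem_erase] at ht
      rw [tb_dif, h1 t ht.2, Bool.true_and, Bool.not_eq_true', ← Bool.not_eq_true,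
        Nat.testBit_shiftRight]
      exact fun a => (h.hB j _ (μ.S_lt hG t) a).2 t ht.1 rfl
    · have a := tb_of_compl hG (hG.small_slot _ _) a1 (μ.E_lt hG _) (h.tb_Dj hG hj)
      have b := hv.lev _ _ (μ.E_lt hG _) ((hG.tb_slot _ _ _).1 a).2
      rw [← μ.vol_S hG, ← vlv_eq] at b
      by_cases hb : τ j ∈ Rs
      · rw [← Finset.add_sum_erase _ (fun t => vol G (μ.S t)) hb] at h2
        omega
      · rw [Finset.erase_eq_of_notMem hb]; omega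
  · refine ⟨Rs, fun t ht => ?_, by omega⟩
    rw [tb_dif, h1 t ht, Bool.true_and, Bool.not_eq_true', ← Bool.not_eq_true,
      Nat.testBit_shiftRight]
    exact fun a => hj (h.hB j _ (μ.S_lt hG t) a).1

omit hG in
theorem smo_ok (hv : VolOK G) (W : ℕ) : Cl G W ((smo G).1 W) := by
  have c3 := (((Cl.refl (G := G) W).smr 1 hv.k1).smr 2 hv.k2).smr 4 hv.k4
  show Cl G W ((@Bool.rec (fun _ => Cf) (@Bool.rec (fun _ => Cf)
    (sm6 G.k1 G.k2 G.k4 G.k8 G.k16 G.k32) (sm4 G.k1 G.k2 G.k4 G.k8) (Nat.ble G.M 17))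
      (sm3 G.k1 G.k2 G.k4) (Nat.ble G.M 9)).1 W)
  cases Nat.ble G.M 9
  · cases Nat.ble G.M 17
    · exact ((c3.smr 8 hv.k8).smr 16 hv.k16).smr 32 hv.k32
    · exact c3.smr 8 hv.k8
  · exact c3

theorem ok_VOL (hg : GeoOK G) (hv : VolOK G) {vz : KV} (hz : BadV μ vz) (tb : ℕ) :
    StepOK μ (sVOL G vz G.AA tb) := by
  rintro ⟨A, R, Ll, Lu, P, cx, c, U, B, F, Z, LB, D⟩ hS
  obtain ⟨τ, h⟩ := id hS
  dsimp only at h
  simp only [ap, sVOL_eq]
  refine nx_no hS fun _ hc => hc (hz _ _ _ _ _ _ _ ⟨Nat.mul_le_mul_left _ h.hLl, _, _, _, _, _, _,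
    _, _, _, _, h⟩ ⟨small_and hv.srts _, Finset.univ, fun t _ => ?_, ?_⟩)
  · rw [vw0_eq, Nat.testBit_and, Bool.and_eq_true]
    refine ⟨hv.srt _ (μ.S_lt hG t) (by rw [μ.dec_S hG]; exact sorted_mono _),
      (hg.lt 3 _ _ h.hLM).2 ⟨μ.S_lt hG t, ?_⟩⟩
    rw [μ.dec_S hG]
    exact (μ.sv_lt hG t 3).trans_le h.hLu
  · rw [μ.sum_vol hG, Nat.zero_add]

end Pool.Agent.Lib.MP_4d22c1_co.Chk
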