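import Pool.Agent.Lib.MP_4d22c1_co.Steps1
import Pool.Agent.Lib.MP_4d22c1_co.Steps2
import Pool.Agent.Lib.MP_4d22c1_co.Steps3
import Pool.Agent.Lib.MP_4d22c1_co.Cov

/-!
Soundness of the checker.
-/

namespace Pool.Agent.Lib.MP_4d22c1_co.Chk

variable {G : Grp} {μ : Mdl G}

structure Valid (G : Grp) : Prop where
  dim : DimOK G
  geo : GeoOK G
  vol : VolOK G
  shp : ShpOK G

theorem valid_of (h1 : dimB G = true) (h2 : geoB G = true) (h3 : volB G = true)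
    (h4 : shpB G = true) : Valid G :=
  have hG := dimOK_of h1
  have hg := geoOK_of hG h2
  ⟨hG, hg, volOK_of hG h3, shpOK_of hG hg h4⟩

theorem prm_eq {α : Type} (z : α) (t : ℕ) (f : ℕ → ℕ → ℕ → ℕ → ℕ → ℕ → ℕ → α) :
    prm G z t f = f (t &&& 15) ((t &&& 15) * G.W) (16 * (t &&& 15)) (1 <<< ((t &&& 15) * G.W))
      (G.ONE <<< ((t &&& 15) * G.W)) (16 * G.W) (tl G t) := rfl

theorem tc_ind {α : Type} {P : α → Prop} {f : ℕ → ℕ → ℕ → ℕ → ℕ → α}
    (h : ∀ a b c d e, P (f a b c d e)) (x : Tc) : P (@Tc.rec (fun _ => α) f x) := by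
  cases x
  exact h _ _ _ _ _

theorem selV_ok (hV : Valid G) (t : ℕ) : VOK μ (selV G t) := by
  obtain ⟨hG, hg, hv, hs⟩ := hV
  unfold selV
  simp only [prm_eq]
  generalize Nat.sub (Nat.shiftRight t 4) 23 = o
  rcases o with _ | _ | _ | o
  · exact tc_ind (P := VOK μ) (fun _ _ _ _ _ => vok_S2 hG hv _ _ _ _ _ _ _) (tcV G)
  · exact vok_VS hG hv hs _ _ _
  · exact vok_VL hG hv (smo_ok hv)
  · exact vok_NO

theorem runV_bad (hV : Valid G) : BadV μ (runV G) := by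
  unfold runV
  refine q8_ind (q8_ind fun k hk D B T cx c Wm base h1 h2 => ?_) _ fun _ _ _ _ _ _ _ _ _ => rfl
  beta_reduce
  generalize Nat.land (Nat.shiftRight cx (Nat.land c (nat_lit 4080))) (nat_lit 511) = s
  cases s
  · rfl
  · exact selV_ok hV _ k hk _ _ _ _ _ _ _ h1 h2

theorem sel_ok (hV : Valid G) (t : ℕ) :
    (∃ f, StepOK μ f ∧ ∀ md cut, sel G md cut t = f) ∨
    (∃ f g, StepOK μ f ∧ WeakOK μ g ∧ (∀ cut, sel G true cut t = f) ∧
      ∀ cut, sel G false cut t = g) ∨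
    ∃ tb, ∀ md cut, sel G md cut t = sCUT cut tb := by
  have hz := runV_bad (μ := μ) hV
  obtain ⟨hG, hg, hv, hs⟩ := hV
  have hc : ∀ Y, Small G.W Y → DimOK.UpCl G Y ((clo G).1 Y) := fun Y => hG.clo_ok hg
  unfold sel
  simp only [prm_eq]
  generalize Nat.shiftRight t 4 = o
  generalize tl G t = tb
  generalize t &&& 15 = j
  rcases o with _ | _ | _ | _ | _ | _ | _ | _ | _ | _ | _ | _ | _ | _ | _ | _ | _ | _ | _ | _ | _ |
    _ | _ | o
  · exact Or.inl ⟨_, ok_NOP tb, fun _ _ => rfl⟩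
  · exact Or.inl ⟨_, tc_ind (P := StepOK μ)
      (fun a b c d e => ok_LO hG hg a b c d e j tb) (tcM G), fun _ _ => rfl⟩
  · exact Or.inl ⟨_, tc_ind (P := StepOK μ)
      (fun a b c d e => ok_Ca hG (cmp_CL hG hs) a b c d e j tb) (tcS G), fun _ _ => rfl⟩
  · exact Or.inl ⟨_, tc_ind (P := StepOK μ)
      (fun a b c d e => ok_Ca hG (cmp_CH hG hs) a b c d e j tb) (tcJ G), fun _ _ => rfl⟩
  · exact Or.inl ⟨_, ok_Cb hG (cmp_CB hG hs) j tb, fun _ _ => rfl⟩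
  · exact Or.inl ⟨_, ok_FIX hG hg hs j tb, fun _ _ => rfl⟩
  · exact Or.inl ⟨_, ok_Cb hG (cmp_CT hG hs 0) j tb, fun _ _ => rfl⟩
  · exact Or.inl ⟨_, ok_Cb hG (cmp_CT hG hs 1) j tb, fun _ _ => rfl⟩
  · exact Or.inl ⟨_, ok_Cb hG (cmp_CT hG hs 2) j tb, fun _ _ => rfl⟩
  · exact Or.inl ⟨_, ok_Cb hG (cmp_CT hG hs 3) j tb, fun _ _ => rfl⟩
  · exact Or.inl ⟨_, ok_GEl hG hg j tb, fun _ _ => rfl⟩
  · exact Or.inl ⟨_, ok_GE hG hc j tb, fun _ _ => rfl⟩
  · exact Or.inl ⟨_, ok_NEW hG hg hc (G.ONE - 1) G.aN 192, fun _ _ => rfl⟩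
  · exact Or.inl ⟨_, ok_NEW hG hg (cl := fun _ => 0) (fun _ _ _ h => by simp at h)
      (G.ONE - 1) G.aN 208, fun _ _ => rfl⟩
  · rcases j with _ | j
    · exact Or.inl ⟨_, ok_NO, fun _ _ => rfl⟩
    · exact Or.inl ⟨_, ok_DROP hG hg (Nat.succ_ne_zero j) tb, fun _ _ => rfl⟩
  · exact Or.inl ⟨_, ok_S3 hG hg j G.aS tb, fun _ _ => rfl⟩
  · exact Or.inl ⟨_, ok_LL hG hg G.aL tb, fun _ _ => rfl⟩
  · exact Or.inr (Or.inl ⟨_, _, ok_SPXt hG hg j G.aX tb (tl G (416 + j)),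
      ok_SPX hG hg j G.aX tb (tl G (416 + j)), fun _ => rfl, fun _ => rfl⟩)
  · exact Or.inr (Or.inl ⟨_, _, ok_SPLt hG hg G.aL tb (tl G 432),
      ok_SPL hG hg G.aL tb (tl G 432), fun _ => rfl, fun _ => rfl⟩)
  · exact Or.inl ⟨_, ok_DEAD hG j, fun _ _ => rfl⟩
  · exact Or.inl ⟨_, ok_TRIV hG hg j, fun _ _ => rfl⟩
  · exact Or.inl ⟨_, ok_VOL hG hg hv hz tb, fun _ _ => rfl⟩
  · exact Or.inr (Or.inr ⟨tb, fun _ _ => rfl⟩)
  · exact Or.inl ⟨_, ok_NO, fun _ _ => rfl⟩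

noncomputable def step (G : Grp) (md : Bool) (cut k : K) : K :=
  fun A R Ll Lu P cx c U B F Z LB D => prd (fld cx (c &&& 4080) 511) fun t =>
    (sel G md cut t).1 k A R Ll Lu P cx (c >>> fld (cx >>> (c &&& 4080)) 9 15) U B F Z LB D

theorem runK_eq (md : Bool) (cut : K) : runK G md cut = q8 (q8 (q8 (step G md cut))) kNO := by
  unfold runK
  exact congrArg (fun f => q8 (q8 (q8 f)) kNO) rfl

def St.adv (S : St) : St := { S with c := S.c >>> fld (S.cx >>> (S.c &&& 4080)) 9 15 }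

theorem ap_step (md : Bool) (cut k : K) (S : St) : ap (step G md cut k) S =
    prd (fld S.cx (S.c &&& 4080) 511) fun t => ap ((sel G md cut t).1 k) S.adv := rfl

theorem bad_runK (hV : Valid G) : Bad μ (runK G false kNO) := by
  rw [runK_eq]
  refine q8_ind (q8_ind (q8_ind fun k hk S hS => ?_)) _ fun _ _ => rfl
  by_contra hc
  rw [ap_step] at hc
  obtain ⟨t, -, hc⟩ := prd_ne.1 hc
  rcases sel_ok (μ := μ) hV t with ⟨f, h1, h2⟩ | ⟨f, g, -, h1, -, h2⟩ | ⟨tb, h2⟩ <;>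
    rw [h2] at hc
  · exact hc (h1.weak k hk S.adv hS)
  · exact hc (h1 k hk S.adv hS)
  · exact hc rfl

def Good (μ : Mdl G) (F : K → K) : Prop :=
  ∀ S, Inv μ S → ∃ S', S'.c < 4096 ∧ Inv μ S' ∧ ∀ cut, ap (F cut) S ≠ 0 → ap cut S' ≠ 0

def Keeps (μ : Mdl G) (g : K → K → K) : Prop :=
  ∀ F, Good μ F → Good μ fun cut => g cut (F cut)

theorem Keeps.q8 {g : K → K → K} (h : Keeps μ g) : Keeps μ fun cut => q8 (g cut) :=
  fun F hF => h _ (h _ (h _ (h _ (h _ (h _ (h _ (h F hF)))))))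

theorem keeps_step (hV : Valid G) : Keeps μ (step G true) := by
  intro F hF S hS
  simp only [ap_step]
  rcases fld S.cx (S.c &&& 4080) 511 with _ | t
  · exact ⟨{ S with c := 0 }, by norm_num, hS, fun cut a => absurd rfl a⟩
  have key : ∀ f, StepOK μ f → (∀ cut, sel G true cut t = f) → ∃ S', S'.c < 4096 ∧ Inv μ S' ∧
      ∀ cut, ap ((sel G true cut t).1 (F cut)) S.adv ≠ 0 → ap cut S' ≠ 0 := fun f h1 h2 => by
    obtain ⟨S1, a, b⟩ := h1 S.adv hS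
    obtain ⟨S', p, q, r⟩ := hF S1 a
    exact ⟨S', p, q, fun cut hc => r cut (b _ (h2 cut ▸ hc))⟩
  rcases sel_ok (μ := μ) hV t with ⟨f, h1, h2⟩ | ⟨f, g, h1, -, h2, -⟩ | ⟨tb, h2⟩
  · exact key f h1 (h2 true)
  · exact key f h1 h2
  · refine ⟨{ S with cx := tb, c := fld S.adv.c 4 4095 }, Nat.lt_succ_of_le (fld_le _ _ _), hS,
      fun cut hc => ?_⟩
    have hc' : ap ((sel G true cut t).1 (F cut)) S.adv ≠ 0 := hc
    rw [h2] at hc'
    exact hc'

theorem good_runK (hV : Valid G) : Good μ (runK G true) := by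
  have := (keeps_step (μ := μ) hV).q8.q8.q8 (fun _ => kNO)
    fun S hS => ⟨{ S with c := 0 }, by norm_num, hS, fun _ a => absurd rfl a⟩
  rw [show runK G true = fun cut => q8 (q8 (q8 (step G true cut))) kNO from funext (runK_eq true)]
  exact this

theorem ap_eq (k : K) (S : St) :
    ap k S = k S.A S.R S.Ll S.Lu S.P S.cx S.c S.U S.B S.F S.Z S.LB S.D := rfl

theorem cutk_eq (md : Bool) (cut : K) (lo hi : ℕ) (l : List (List ℕ))
    (A R Ll Lu P cx c U B F Z LB D : ℕ) :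
    cutk G md cut lo hi l A R Ll Lu P cx c U B F Z LB D = @Bool.rec (fun _ => ℕ) 1
      (@Bool.rec (fun _ => ℕ) (runK G md cut A R Ll Lu P cx (nth l (Nat.sub c lo)) U B F Z LB D) 1
        (Nat.ble hi c)) (Nat.ble lo c) := rfl

theorem cutk_ne {md : Bool} {cut : K} {lo hi : ℕ} {l : List (List ℕ)} {S : St} (h1 : lo ≤ S.c)
    (h2 : S.c < hi) (h : ap (cutk G md cut lo hi l) S ≠ 0) :
    ap (runK G md cut) { S with c := nth l (S.c - lo) } ≠ 0 := by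
  have e1 : Nat.ble lo S.c = true := Nat.ble_eq.mpr h1
  have e2 : Nat.ble hi S.c = false := by
    rw [← Bool.not_eq_true, Nat.ble_eq]; omega
  rw [ap_eq, cutk_eq, e1, e2] at h
  rw [ap_eq]
  generalize runK G md cut = F at h ⊢
  exact h

noncomputable def rootS (G : Grp) (c : ℕ) : St :=
  ⟨16 * G.W, 1, G.X2, G.M, G.ONE, tl G 352, c, G.ONE, 0, f0 G 0, cell G 0, 0, G.D0⟩

theorem run_eq (top : List ℕ) (lo1 hi1 lo hi : ℕ) (l1 l : List (List ℕ)) :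
    run G top lo1 hi1 l1 lo hi l = Nat.ble 1 (runK G true
      (cutk G true (cutk G false kNO lo hi l) lo1 hi1 l1) (Nat.mul 16 G.W) 1 G.X2 G.M G.ONE
        (tl G 352) (cat top) G.ONE 0 (f0 G 0) (cell G 0) 0 G.D0) := rfl

theorem root_eq (F : K) (c : ℕ) : ap F (rootS G c) = F
    (Nat.mul 16 G.W) 1 G.X2 G.M G.ONE (tl G 352) c G.ONE 0 (f0 G 0) (cell G 0) 0 G.D0 := rfl

theorem run_ne {top : List ℕ} {lo1 hi1 lo hi : ℕ} {l1 l : List (List ℕ)}
    (h : run G top lo1 hi1 l1 lo hi l = true) :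
    ap (runK G true (cutk G true (cutk G false kNO lo hi l) lo1 hi1 l1)) (rootS G (cat top)) ≠
      0 := by
  rw [root_eq]
  exact ble_one.1 ((run_eq ..).symm.trans h)

theorem inv_root (hV : Valid G) (c : ℕ) : Inv μ (rootS G c) := by
  obtain ⟨hG, hg, -, -⟩ := hV
  have pW := hG.pW
  have w5 := hG.w511
  have t1 : ∀ z, Nat.testBit 1 z = true ↔ z = 0 := fun z => Nat.testBit_one_eq_true_iff_self_eq_zero
  have a0 : ∀ j, Nat.testBit 1 (j * G.W) = true → j = 0 := fun j hj => by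
    rcases Nat.mul_eq_zero.1 ((t1 _).1 hj) with a | a <;> omega
  have kA : ∀ j, fld (16 * G.W) (16 * j) 65535 = if j = 0 then 16 * G.W else 0 :=
    fld16 (x := 16 * G.W) (by omega) 0
  have ha : μ.anch μ.root 0 := ⟨by omega, fun k => by
    rw [Nat.zero_div, Nat.zero_mod, hG.dec_zero]
    simp [Mdl.vlo, sb_eq, μ.root_lo]⟩
  have m0 : μ.has μ.root 0 :=
    (μ.anch_fit hG ha pW fun k => (hG.dec_zero k).trans_le (Nat.zero_le _)).2
  have s0 : ∀ X j y, Small G.W X → y < G.W → X.testBit (j * G.W + y) = true → j = 0 :=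
    fun X j y hX hy hb => (slot_inj (j' := 0) hy (hX _ hb) (by simp)).1
  have sF : Small G.W (f0 G 0) := small_dif (hg.small_dn _) _
  refine ⟨fun _ => μ.root, fun z hz => ?_, by simp [rootS], rfl, fun i j hi hj _ => ?_,
    fun j hj => ?_, fun j y hy hb => ?_, fun t _ => ?_, fun j y hy hb => by simp [rootS] at hb,
    fun j y hj hy _ => ?_, fun j hj => ?_, fun j hj => ?_, fun j y hy hb => ?_, fun z hz => ?_,
    fun z hz => by simp [rootS] at hz, μ.l2L, μ.lLM, le_rfl⟩ <;> dsimp only [rootS] at *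
  · rw [(t1 z).1 hz, Nat.zero_mod]
  · rw [a0 i hi, a0 j hj]
  · rw [a0 j hj, Nat.zero_mul, Nat.zero_add]
    refine hg.D0 _ (μ.E_lt hG _) (fun e => ?_) (fun e => ?_) fun e => ?_
    · rw [μ.dec_E hG]; exact Nat.sub_le_sub_right (μ.s01 e) 1
    · rw [μ.dec_E hG]; exact Nat.sub_le_sub_right (μ.s12 e) 1
    · rw [μ.dec_E hG]; exact Nat.sub_le_sub_right (μ.s23 e) 1
  · simp [s0 _ j y hg.D0s hy hb]
  · simpa [hG.tb_ONE] using μ.E_lt hG t
  · rw [a0 j hj]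
    simpa [hG.tb_ONE] using hy
  · rw [a0 j hj, kA, if_pos rfl, Nat.sub_self]
    exact ⟨le_rfl, ha⟩
  · rw [kA] at hj
    split_ifs at hj with e
    · simp [e]
    · exact absurd rfl hj
  · obtain rfl := s0 _ j y sF hy hb
    rw [kA, if_pos rfl, Nat.sub_self]
    rw [Nat.zero_mul, Nat.zero_add] at hb
    exact ⟨by simp, (hG.tb_room hg _ _).1 (tb_dif_left hb)⟩
  · rw [hG.tb_cell hg ha.1] at hz
    refine Or.inr ⟨0, by simp, μ.has_congr m0 hz.2 hz.1, ?_⟩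
    rw [kA, if_pos rfl, Nat.sub_self]
    intro q f e
    obtain rfl : q = 0 := by
      have := hG.pt_inj (e.trans hz.2) (hG.fit_add f).1
      omega
    rw [f0_eq, tb_dif]
    simp

theorem no_mdl (hV : Valid G) {top : List ℕ} (h : Cov1 G top 4096) (μ : Mdl G) : False := by
  obtain ⟨S1, p1, q1, r1⟩ := good_runK hV _ (inv_root (μ := μ) hV (cat top))
  obtain ⟨c2, h2⟩ := h S1.c p1
  obtain ⟨S2, p2, q2, r2⟩ := good_runK hV { S1 with c := c2 } q1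
  obtain ⟨lo1, hi1, l1, lo, hi, l, a1, a2, a3, a4, a5, a6⟩ := h2 S2.c p2
  have b1 := cutk_ne a1 a2 (r1 _ (run_ne a6))
  rw [a3] at b1
  exact cutk_ne a4 a5 (r2 _ b1) (bad_runK hV _ q2)

end Pool.Agent.Lib.MP_4d22c1_co.Chk
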