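import Pool.Agent.Lib.MP_4d22c1_co.Inv

/-!
Soundness of the steps of the checker, first part.
-/

namespace Pool.Agent.Lib.MP_4d22c1_co.Chk

variable {G : Grp} {μ : Mdl G} (hG : DimOK G)

theorem ok_NO : StepOK μ sNO := fun _ hS => nx_no hS fun _ hk => hk rfl

theorem ok_NOP (tb : ℕ) : StepOK μ (sNOP tb) := by
  rintro ⟨A, R, Ll, Lu, P, cx, c, U, B, F, Z, LB, D⟩ hS
  obtain ⟨τ, h⟩ := id hS
  dsimp only at h
  simp only [ap, sNOP_eq]
  exact nx_k h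

include hG

theorem ok_DEAD (j : ℕ) : StepOK μ (sDEAD (1 <<< (j * G.W)) (G.ONE <<< (j * G.W))) := by
  rintro ⟨A, R, Ll, Lu, P, cx, c, U, B, F, Z, LB, D⟩ hS
  obtain ⟨τ, h⟩ := id hS
  dsimp only at h
  simp only [ap, sDEAD_eq]
  refine nx_req hS fun hc => nx_no hS fun _ _ => ?_
  rw [Nat.ble_eq] at hc
  obtain ⟨z, hz⟩ := exists_tb (a := R &&& 1 <<< (j * G.W)) (by omega)
  rw [Nat.testBit_and, tb_one, Bool.and_eq_true, decide_eq_true_eq] at hz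
  have h1 : (D &&& G.ONE <<< (j * G.W)).testBit (j * G.W + μ.E (τ j)) = true := by
    rw [Nat.testBit_and, h.hD j (hz.2 ▸ hz.1), Bool.true_and,
      tb_shl_slot' hG.small_ONE (μ.E_lt hG _), hG.tb_ONE]
    simpa using μ.E_lt hG _
  have h2 := two_pow_le_of_tb h1
  have h3 : R &&& 1 <<< (j * G.W) ≤ 2 ^ (j * G.W) := Nat.one_shiftLeft _ ▸ Nat.and_le_right
  have h4 : 2 ^ (j * G.W) ≤ 2 ^ (j * G.W + μ.E (τ j)) := Nat.pow_le_pow_right (by norm_num) (by omega)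
  omega

theorem ok_GE {cl : ℕ → ℕ} (hcl : ∀ Y, Small G.W Y → DimOK.UpCl G Y (cl Y)) (j tb : ℕ) :
    StepOK μ (sGE cl G.ONE (16 * G.W) (j * G.W) (16 * j) tb) := by
  rintro ⟨A, R, Ll, Lu, P, cx, c, U, B, F, Z, LB, D⟩ hS
  obtain ⟨τ, h⟩ := id hS
  dsimp only at h
  simp only [ap, sGE_eq]
  have := hcl _ (small_and' (Z >>> (16 * G.W - fld A (16 * j) 65535) &&& F >>> (j * G.W))
    hG.small_ONE)
  refine nx_k (h.filt hG (fun y hy => (this y hy).1) fun _ hq => ?_)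
  obtain ⟨-, q, a, b⟩ := this _ hq
  exact h.blocked hG h.hZ a b

theorem ok_GEl (hg : GeoOK G) (j tb : ℕ) :
    StepOK μ (sGEl G G.ONE (16 * G.W) (j * G.W) (16 * j) tb) := by
  rintro ⟨A, R, Ll, Lu, P, cx, c, U, B, F, Z, LB, D⟩ hS
  obtain ⟨τ, h⟩ := id hS
  dsimp only at h
  simp only [ap, sGEl_eq]
  refine nx_prd hS fun v hv => nx_k (h.filt hG (hg.small_up _) fun _ hq => ?_)
  obtain ⟨b, h1, -, h3⟩ := hG.lw_spec hg (Y := (LB >>> (16 * G.W - fld A (16 * j) 65535) &&&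
    F >>> (j * G.W)) &&& G.ONE) fun e => by
      rw [e, lwh_zero] at hv
      omega
  have := (h3 (small_and' _ hG.small_ONE b h1)).2
  rw [hv, Nat.add_sub_cancel] at this
  rw [uph_eq, this, hg.up] at hq
  exact h.blocked hG h.hLB h1 hq.2.2

def CmpOK (μ : Mdl G) (c1 c2 : ℕ → ℕ) : Prop :=
  ∀ v, ∃ m, c1 v = m ^^^ G.ONE ∧ Small G.W m ∧ Small G.W (c2 v) ∧
    ∀ t t' y, sh G y = μ.sv t' → m.testBit (μ.E t) = true → (c2 v).testBit y = true → t' = t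

theorem cf_of {τ : ℕ → μ.ι} {A R Ll Lu P U B F Z LB D : ℕ}
    (h : InvT μ τ A R Ll Lu P U B F Z LB D) {c1 c2 : ℕ → ℕ} (hc : CmpOK μ c1 c2) {j v : ℕ}
    (hj : R.testBit (j * G.W) = true) (h0 : fld D (j * G.W) G.ONE &&& c1 v = 0) :
    InvT μ τ A R Ll Lu P (dif U (c2 v)) (B ||| c2 v <<< (j * G.W)) F Z LB
      (dif D (c2 v * (R ^^^ 1 <<< (j * G.W)))) := by
  obtain ⟨m, e, a, b, d⟩ := hc v
  have h1 := tb_of_compl hG a (e ▸ h0) (μ.E_lt hG _) (h.tb_Dj hG hj)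
  exact h.cf hG hj b (fun t ht => d _ _ _ (μ.sh_E hG t) h1 ht)
    (fun t ht => d _ _ _ (μ.sh_S hG t) h1 ht)

theorem ok_Ca {c1 c2 : ℕ → ℕ} (hc : CmpOK μ c1 c2) (rep tt ad tp sm j tb : ℕ) :
    StepOK μ (sCa c1 c2 rep tt ad tp sm G.ONE (j * G.W) (1 <<< (j * G.W)) tb) := by
  rintro ⟨A, R, Ll, Lu, P, cx, c, U, B, F, Z, LB, D⟩ hS
  obtain ⟨τ, h⟩ := id hS
  dsimp only at h
  simp only [ap, sCa_eq]
  refine nx_prd hS fun v _ => nx_req hS fun h0 => nx_k (τ := τ) ?_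
  rw [Nat.ble_eq] at h0
  have h1 := fld_one_le R (j * G.W)
  exact cf_of hG h hc (fld_one_eq_one.1 (by omega)) (by omega)

theorem ok_Cb {c1 c2 : ℕ → ℕ} (hc : CmpOK μ c1 c2) (j tb : ℕ) :
    StepOK μ (sCb c1 c2 G.ONE (j * G.W) (1 <<< (j * G.W)) tb) := by
  rintro ⟨A, R, Ll, Lu, P, cx, c, U, B, F, Z, LB, D⟩ hS
  obtain ⟨τ, h⟩ := id hS
  dsimp only at h
  simp only [ap, sCb_eq]
  exact nx_prd hS fun v hv => nx_req hS fun h0 =>
    nx_k (cf_of hG h hc (h.act_of_lwh hG hv) (Nat.beq_eq ▸ h0))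

theorem cmp_CL (hs : ShpOK G) : CmpOK μ (cl1 G) (cl2 G) := fun v =>
  ⟨su G (mq G v), rfl, fun y hy => (hs.su _ y hy).1, fun y hy => (hs.sd _ y hy).1,
    fun t t' y e h1 h2 => μ.inc fun k => by
      have a := (hs.su _ _ h1).2 k
      have b := (hs.sd _ _ h2).2 k
      rw [μ.sh_E hG] at a
      rw [e] at b
      omega⟩

theorem cmp_CH (hs : ShpOK G) : CmpOK μ (ch1 G) (ch2 G) := fun v =>
  ⟨sd G (dq G v), rfl, fun y hy => (hs.sd _ y hy).1, fun y hy => (hs.su _ y hy).1,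
    fun t t' y e h1 h2 => (μ.inc fun k => by
      have a := (hs.sd _ _ h1).2 k
      have b := (hs.su _ _ h2).2 k
      rw [μ.sh_E hG] at a
      rw [e] at b
      omega).symm⟩

theorem cmp_CB (hs : ShpOK G) : CmpOK μ (cb1 G) (cb2 G) := fun v =>
  ⟨cb0 G v, rfl, small_and (fun y hy => (hs.su _ y hy).1) _,
    small_or (fun y hy => (hs.sd _ y hy).1) (fun y hy => (hs.su _ y hy).1),
    fun t t' y e h1 h2 => by
      rw [cb0_eq, Nat.testBit_and, Bool.and_eq_true] at h1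
      rw [cb2_eq, cmp_eq, Nat.testBit_or, Bool.or_eq_true] at h2
      have a := (hs.su _ _ h1.1).2
      have a' := (hs.sd _ _ h1.2).2
      rw [μ.sh_E hG] at a a'
      rcases h2 with h2 | h2
      · exact μ.inc fun k => (e ▸ (hs.sd _ _ h2).2 k).trans (a k)
      · exact (μ.inc fun k => (a' k).trans (e ▸ (hs.su _ _ h2).2 k)).symm⟩

omit hG in
theorem TTP_comp {s s' : Fin 4 → ℕ} (hs : Monotone s) (hs' : Monotone s') {a b c : ℕ}
    (h : TTP s a b c) (h' : TTP s' a b c) : (∀ k, s k ≤ s' k) ∨ ∀ k, s' k ≤ s k := by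
  have h1 : s 0 ≤ s 1 := hs (by decide)
  have h2 : s 1 ≤ s 2 := hs (by decide)
  have h3 : s 2 ≤ s 3 := hs (by decide)
  have h4 : s' 0 ≤ s' 1 := hs' (by decide)
  have h5 : s' 1 ≤ s' 2 := hs' (by decide)
  have h6 : s' 2 ≤ s' 3 := hs' (by decide)
  rw [forall4, forall4]
  unfold TTP at h h'
  omega

theorem cmp_CT (hs : ShpOK G) (i : ℕ) : CmpOK μ (ct1 G i) (ct2 G i) := fun v =>
  ⟨ct2 G i v, rfl, hG.small_slot _ _, hG.small_slot _ _, fun t t' y e h1 h2 => by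
    have a := (hs.tt _ _ h1).2
    have b := (hs.tt _ _ h2).2
    rw [μ.sh_E hG] at a
    rw [e] at b
    rcases TTP_comp (sorted_mono _) (sorted_mono _) a b with a | a
    · exact (μ.inc a).symm
    · exact μ.inc a⟩

omit hG in
theorem guard16 {A j q x rb : ℕ} (h : fld A (16 * j) 65535 - q - x <<< 16 = rb + 1) :
    fld A (16 * j) 65535 ≠ 0 ∧ x = 0 ∧ fld A (16 * j) 65535 - q = rb + 1 := by
  have := fld_le A (16 * j) 65535
  rw [Nat.shiftLeft_eq] at h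
  omega

theorem ok_LO (hg : GeoOK G) (rep tt ad tp sm j tb : ℕ) :
    StepOK μ (sLO G rep tt ad tp sm G.ONE (16 * G.W) (j * G.W) (16 * j) tb) := by
  rintro ⟨A, R, Ll, Lu, P, cx, c, U, B, F, Z, LB, D⟩ hS
  obtain ⟨τ, h⟩ := id hS
  dsimp only at h
  simp only [ap, sLO_eq]
  refine nx_prd hS fun d _ => nx_prd hS fun rb hb => nx_k (τ := τ) ?_
  obtain ⟨a, b, e⟩ := guard16 hb
  have hj := h.hAs j a
  exact h.addBox hG hg hj (tb_of_compl hG (hg.small_up _) b (μ.E_lt hG _) (h.tb_Dj hG hj)) e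

theorem ok_FIX (hg : GeoOK G) (hs : ShpOK G) (j tb : ℕ) :
    StepOK μ (sFIX G G.ONE (16 * G.W) (j * G.W) (16 * j) (1 <<< (j * G.W)) tb) := by
  rintro ⟨A, R, Ll, Lu, P, cx, c, U, B, F, Z, LB, D⟩ hS
  obtain ⟨τ, h⟩ := id hS
  dsimp only at h
  simp only [ap, sFIX_eq]
  refine nx_prd hS fun v _ => nx_prd hS fun rb hb => nx_k (τ := τ) ?_
  obtain ⟨a, b, e⟩ := guard16 hb
  have hj := h.hAs j a
  rw [Nat.xor_eq_zero_iff] at b
  have h1 := h.tb_Dj hG hj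
  rw [b, fx1_eq, Nat.testBit_and, tb_one, Bool.and_eq_true, decide_eq_true_eq] at h1
  have h2 : fld D (j * G.W) G.ONE &&& cb1 G v = 0 := by
    apply Nat.eq_of_testBit_eq
    intro y
    rw [b, fx1_eq, cb1_eq, Nat.zero_testBit, ← Bool.not_eq_true, Nat.testBit_and, Nat.testBit_and,
      Bool.and_eq_true, Bool.and_eq_true,
      hG.tb_compl (m := cb0 G v) (small_and (fun y hy => (hs.su _ y hy).1) _)]
    exact fun hc => hc.2.2 hc.1.2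
  have hE := μ.E_lt hG (τ j)
  obtain ⟨a1, a2⟩ := h.hA j hj
  refine ((cf_of hG h (cmp_CB hG hs) hj h2).addBox hG hg hj
    ((hg.up _ _).2 ⟨h1.1 ▸ hE, hE, fun k => h1.1 ▸ le_rfl⟩) e).keepP hG
      (hG.small_compl (small_and' _ hG.small_ONE)) fun y hy hb => ?_
  rw [nc0_eq, cn0_eq, hG.tb_compl (small_and' _ hG.small_ONE), Nat.testBit_and, hG.tb_ONE,
    show rb = 16 * G.W - (16 * G.W - fld A (16 * j) 65535) - hqv G v - 1 by omega, h1.1] at hb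
  have f := (μ.anch_fit hG a2 hE fun k => (congrFun (μ.dec_E hG _) k).le).1
  apply hb.2
  rw [Bool.and_eq_true, hG.tb_cone' hg a2.1 f, μ.dec_E hG]
  exact ⟨⟨hy.1, fun k => (((μ.anch_has hG a2 y).1 hy).2 k).2⟩, decide_eq_true hb.1⟩

theorem ok_S3 (hg : GeoOK G) (j ta tb : ℕ) :
    StepOK μ (sS3 G (16 * G.W) (j * G.W) (16 * j) ta tb) := by
  rintro ⟨A, R, Ll, Lu, P, cx, c, U, B, F, Z, LB, D⟩ hS
  obtain ⟨τ, h⟩ := id hS
  dsimp only at h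
  simp only [ap, sS3_eq]
  refine nx_prd hS fun q _ => nx_req hS fun hc => nx_k
    (h.filt hG (small_and (hg.small_up _) _) fun hj hq => ?_)
  rw [Nat.testBit_and, Bool.and_eq_true, hg.up, μ.dec_E hG] at hq
  obtain ⟨f, hm⟩ := μ.anch_fit hG (h.hA j hj).2 hq.1.1 hq.1.2.2
  obtain ⟨y, hy⟩ := exists_tb (ble_one.1 hc)
  rw [Nat.testBit_and, Bool.and_eq_true, hG.tb_cell hg hm.1, cor_eq, tb_dif, Bool.and_eq_true,
    Bool.not_eq_true'] at hy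
  obtain ⟨⟨-, y1⟩, y2, y3⟩ := hy
  have hy : y < G.W := small_or (hG.small_ltk _ _) (hG.small_compl (hG.small_ltk _ _)) y y2
  have pM := hG.pM
  have hLM := h.hLM
  have e1 := hg.lt 3 1 y pM
  have e2 := hg.lt 3 (Lu - 1) y (show _ ≤ G.M by omega)
  rw [Nat.testBit_or, Bool.or_eq_true, hG.tb_compl (hG.small_ltk _ _)] at y2
  rw [hG.pt_lt hy] at y1
  have h5 := h.hD 0 h.h0
  rw [Nat.zero_mul, Nat.zero_add, h.r0] at h5
  obtain ⟨b, -, b2, b3⟩ := lowest (n := D) fun e => by simp [e] at h5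
  have h4 := hq.2
  rw [b3, Nat.testBit_shiftRight, Nat.testBit_two_pow_sub_one, decide_eq_true_eq] at h4
  have h6 : μ.E μ.root ≤ μ.E (τ j) := μ.root_min _ fun k => by
    have a := hm.2 k
    have b := μ.fit (τ j) k
    rw [← y1] at a
    show _ ∨ _ = μ.x k
    by_cases hk : k = 3
    · subst hk
      have e' : μ.x 3 = μ.L := rfl
      have := h.hLu
      rcases y2 with y2 | y2
      · have := (e1.1 y2).2
        omega
      · have := mt e2.2 y2.2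
        omega
    · have := hg.ncorn y hy y3 k hk
      have := μ.x_eq hk
      omega
  have := b2 _ h5
  omega

theorem ok_LL (hg : GeoOK G) (ta tb : ℕ) : StepOK μ (sLL G ta tb) := by
  rintro ⟨A, R, Ll, Lu, P, cx, c, U, B, F, Z, LB, D⟩ hS
  obtain ⟨τ, h⟩ := id hS
  dsimp only at h
  simp only [ap, sLL_eq]
  refine nx_prd hS fun v _ => nx_req hS fun hv => nx_req hS fun hc => nx_k { h with hLl := ?_ }
  rw [Nat.ble_eq] at hv
  obtain ⟨y, hy⟩ := exists_tb (ble_one.1 hc)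
  rw [Nat.testBit_and, tb_dif, Bool.and_eq_true, Bool.and_eq_true, Bool.not_eq_true',
    ← Bool.not_eq_true] at hy
  have a := (hg.lt 3 Lu y h.hLM).1 hy.2.1
  have b := mt (hg.lt 3 v y (hv.trans h.hLM)).2 hy.2.2
  rw [← hG.pt_lt a.1] at a b
  rcases h.hZ y hy.1 with d | ⟨j, -, d, -⟩
  · omega
  · have := μ.has_L d
    omega

theorem ok_TRIV (hg : GeoOK G) (j : ℕ) : StepOK μ (sTRIV G (j &&& 3)) := by
  rintro ⟨A, R, Ll, Lu, P, cx, c, U, B, F, Z, LB, D⟩ hS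
  obtain ⟨τ, h⟩ := id hS
  dsimp only at h
  simp only [ap, sTRIV_eq]
  refine nx_req hS fun hc => nx_no hS fun _ _ => ?_
  rw [Nat.beq_eq, Nat.or_eq_zero_iff] at hc
  obtain ⟨h1, h2⟩ := hc
  obtain ⟨kk, hkk⟩ : ∃ kk : Fin 4, j &&& 3 = kk := ⟨⟨_, Nat.lt_succ_of_le Nat.and_le_right⟩, rfl⟩
  rw [hkk] at h2
  obtain ⟨t, ht⟩ := μ.T.nontriv kk
  obtain ⟨y, hy, hm⟩ := μ.exists_has hG t
  have hL := μ.has_L hm
  have a1 := tb_of_eq_zero h1 y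
  rw [hG.pt_lt hy] at hL
  rw [tb_dif, show (ltk G 3 Lu).testBit y = true from
    (hg.lt 3 Lu y h.hLM).2 ⟨hy, hL.trans_le h.hLu⟩, Bool.true_and, Bool.not_eq_false'] at a1
  obtain ⟨i, hi, rfl, -⟩ := h.owned hG h.hZ a1 hm
  have a2 := tb_of_eq_zero h2 (i * G.W + μ.E (τ i))
  have a3 := μ.ev_lt (τ i) kk
  have a4 := μ.ev_succ (τ i) kk
  have ht' : μ.T.sd (τ i) kk ≠ μ.x kk := ht
  have a5 : μ.x kk ≤ sel4 G.X0 G.X1 G.X2 Lu kk ∧ sel4 G.X0 G.X1 G.X2 Lu kk ≤ XM G kk := by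
    fin_cases kk
    exacts [⟨le_rfl, le_rfl⟩, ⟨le_rfl, le_rfl⟩, ⟨le_rfl, le_rfl⟩, ⟨h.hLu, h.hLM⟩]
  rw [Nat.testBit_and, h.hD i hi, Bool.true_and, tb_mul_sparse hG.pW (hG.small_ltk _ _) i R h.hR _
    (μ.E_lt hG _), hi, Bool.and_true, ← Bool.not_eq_true, hg.lt _ _ _ (by omega), μ.dec_E hG] at a2
  exact a2 ⟨μ.E_lt hG _, by omega⟩

theorem spx_cases (hg : GeoOK G) {τ : ℕ → μ.ι} {A R Ll Lu P U B F Z LB D : ℕ}
    (h : InvT μ τ A R Ll Lu P U B F Z LB D) (j q : ℕ) :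
    InvT μ τ A R Ll Lu P U B F Z LB (dif D (up G q <<< (j * G.W))) ∨
      InvT μ τ A R Ll Lu P U B F Z LB (dif D (nup G q <<< (j * G.W))) := by
  by_cases e : (up G q).testBit (μ.E (τ j)) = true
  · exact Or.inr (h.filt hG (hG.small_compl (hg.small_up _)) fun _ hq =>
      ((hG.tb_compl (hg.small_up _) _).1 hq).2 e)
  · exact Or.inl (h.filt hG (hg.small_up _) fun _ hq => e hq)

theorem spl_cases (hg : GeoOK G) {τ : ℕ → μ.ι} {A R Ll Lu P U B F Z LB D : ℕ}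
    (h : InvT μ τ A R Ll Lu P U B F Z LB D) {v : ℕ} (hv : Nat.ble v Lu = true) :
    InvT μ τ A R Ll v P U B F (Z ||| bey G v) LB D ∨ InvT μ τ A R (v + 1) Lu P U B F Z LB D := by
  rw [Nat.ble_eq] at hv
  by_cases e : μ.L ≤ v
  · have key : ∀ X, ZP μ τ A R Lu F X → ZP μ τ A R v F X := fun X hX z hz =>
      (hX z hz).imp (le_trans hv) id
    exact Or.inl { h with
      hLu := e
      hLM := hv.trans h.hLM
      hZ := (key _ h.hZ).or fun z hz => Or.inl ((hG.tb_bey hg (hv.trans h.hLM) z).1 hz).2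
      hLB := key _ h.hLB }
  · exact Or.inr { h with hLl := Nat.succ_le_of_lt (not_le.1 e) }

theorem ok_SPXt (hg : GeoOK G) (j ta tb tr : ℕ) : StepOK μ (sSPXt G (j * G.W) ta tb tr) := by
  rintro ⟨A, R, Ll, Lu, P, cx, c, U, B, F, Z, LB, D⟩ hS
  obtain ⟨τ, h⟩ := id hS
  dsimp only at h
  simp only [ap, sSPXt_eq]
  exact nx_prd hS fun q _ => nx_two ((spx_cases hG hg h j q).imp nx_k nx_k)

theorem ok_SPLt (hg : GeoOK G) (ta tb tr : ℕ) : StepOK μ (sSPLt G ta tb tr) := by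
  rintro ⟨A, R, Ll, Lu, P, cx, c, U, B, F, Z, LB, D⟩ hS
  obtain ⟨τ, h⟩ := id hS
  dsimp only at h
  simp only [ap, sSPLt_eq]
  exact nx_prd hS fun v _ => nx_req hS fun hv => nx_two ((spl_cases hG hg h hv).imp nx_k nx_k)

theorem ok_SPX (hg : GeoOK G) (j ta tb tr : ℕ) : WeakOK μ (sSPX G (j * G.W) ta tb tr) := by
  rintro k hk ⟨A, R, Ll, Lu, P, cx, c, U, B, F, Z, LB, D⟩ ⟨τ, h⟩
  by_contra hc
  simp only [ap, sSPX_eq] at hc
  obtain ⟨q, -, h1⟩ := prd_ne.1 hc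
  obtain ⟨e, h2, h3⟩ := prd_ne.1 h1
  rcases spx_cases hG hg h j q with a | a
  · exact Nat.succ_ne_zero e (h2.symm.trans (hk ⟨_, _, _, _, _, _, _, _, _, _, _, _, _⟩ ⟨τ, a⟩))
  · exact h3 (hk ⟨_, _, _, _, _, _, _, _, _, _, _, _, _⟩ ⟨τ, a⟩)

theorem ok_SPL (hg : GeoOK G) (ta tb tr : ℕ) : WeakOK μ (sSPL G ta tb tr) := by
  rintro k hk ⟨A, R, Ll, Lu, P, cx, c, U, B, F, Z, LB, D⟩ ⟨τ, h⟩
  by_contra hc
  simp only [ap, sSPL_eq] at hc
  obtain ⟨v, -, h1⟩ := prd_ne.1 hc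
  obtain ⟨hv, h1⟩ := req_ne.1 h1
  obtain ⟨e, h2, h3⟩ := prd_ne.1 h1
  rcases spl_cases hG hg h hv with a | a
  · exact Nat.succ_ne_zero e (h2.symm.trans (hk ⟨_, _, _, _, _, _, _, _, _, _, _, _, _⟩ ⟨τ, a⟩))
  · exact h3 (hk ⟨_, _, _, _, _, _, _, _, _, _, _, _, _⟩ ⟨τ, a⟩)

end Pool.Agent.Lib.MP_4d22c1_co.Chk
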