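import Pool.Agent.Lib.MP_4d22c1_co.Geo
import Pool.Agent.Lib.MP_4d22c1_co.Defs

/-!
The meaning of the tables of a group that passes the table checks.
-/

namespace Pool.Agent.Lib.MP_4d22c1_co.Chk

theorem sorted_mono (a : Fin 4 → ℕ) : Monotone (sorted a) := Tuple.monotone_sort a

theorem lt_cv_iff (a : Fin 4 → ℕ) (k : Fin 4) (v : ℕ) :
    k.val < lt1 (a 0) v + lt1 (a 1) v + (lt1 (a 2) v + lt1 (a 3) v) ↔ sorted a k < v := by
  have e : lt1 (a 0) v + lt1 (a 1) v + (lt1 (a 2) v + lt1 (a 3) v) =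
      lt1 (sorted a 0) v + lt1 (sorted a 1) v + lt1 (sorted a 2) v + lt1 (sorted a 3) v := by
    have := Equiv.sum_comp (Tuple.sort a) (fun i => lt1 (a i) v)
    rw [Fin.sum_univ_four, Fin.sum_univ_four] at this
    simp only [sorted, Function.comp]
    omega
  rw [e]
  have h1 : sorted a 0 ≤ sorted a 1 := sorted_mono a (by decide)
  have h2 : sorted a 1 ≤ sorted a 2 := sorted_mono a (by decide)
  have h3 : sorted a 2 ≤ sorted a 3 := sorted_mono a (by decide)
  simp only [lt1, Nat.sub_eq]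
  fin_cases k <;> simp only [Fin.zero_eta, Fin.mk_one, Fin.reduceFinMk, Fin.isValue] <;> omega

/-- The sorted coordinates of an index. -/
def sh (G : Grp) (y : ℕ) : Fin 4 → ℕ := sorted (dec G y)

def vol (G : Grp) (y : ℕ) : ℕ :=
  (dec G y 0 + 1) * (dec G y 1 + 1) * ((dec G y 2 + 1) * (dec G y 3 + 1))

def TTP (s : Fin 4 → ℕ) (a b c : ℕ) : Prop :=
  ((s 1 = a ∨ s 0 = a) ∧ s 2 = b ∧ s 3 = c) ∨ ((s 0 = a ∧ s 1 = b) ∧ (s 3 = c ∨ s 2 = c))

theorem sb_le (s k : ℕ) : sb s k ≤ 1 := Nat.and_le_right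

theorem tb_lk2 {G : Grp} (hG : DimOK G) {T3 T1 : ℕ} {f g : ℕ → ℕ}
    (h3 : T3 = bld G.W G.AA f) (h1 : T1 = bld G.W G.M g) (hf : ∀ j, Small G.W (f j))
    (hg : ∀ j, Small G.W (g j)) (q y : ℕ) :
    (lk2 G.W G.ONE G.M T3 T1 q).testBit y = true ↔
      q < G.W ∧ y < G.W ∧ (f (q / G.M)).testBit y = true ∧ (g (q % G.M)).testBit y = true := by
  simp only [lk2, Nat.testBit_and, tb_fld, hG.tb_ONE, Nat.testBit_shiftRight, Bool.and_eq_true,
    decide_eq_true_eq]
  constructor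
  · rintro ⟨⟨a, hy⟩, b⟩
    rw [h3, tb_bld _ (fun j _ => hf j) _ _ hy] at a
    rw [h1, tb_bld _ (fun j _ => hg j) _ _ hy] at b
    exact ⟨hG.div_lt_A.1 a.1, hy, a.2, b.2⟩
  · rintro ⟨hq, hy, a, b⟩
    rw [h3, tb_bld _ (fun j _ => hf j) _ _ hy, h1, tb_bld _ (fun j _ => hg j) _ _ hy]
    exact ⟨⟨⟨hG.div_lt_A.2 hq, a⟩, hy⟩, Nat.mod_lt _ hG.pM, b⟩

theorem forall4 {p : Fin 4 → Prop} : (∀ k, p k) ↔ p 0 ∧ p 1 ∧ p 2 ∧ p 3 :=
  ⟨fun h => ⟨h 0, h 1, h 2, h 3⟩, fun ⟨a, b, c, d⟩ k => by fin_cases k <;> assumption⟩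

theorem xk_XM (G : Grp) (k : Fin 4) : xk G k = XM G k := by
  fin_cases k <;> rfl

theorem small_dif {W a : ℕ} (h : Small W a) (b : ℕ) : Small W (dif a b) := fun y hy => by
  rw [tb_dif, Bool.and_eq_true] at hy
  exact h y hy.1

theorem small_and {W a : ℕ} (h : Small W a) (b : ℕ) : Small W (a &&& b) := fun y hy => by
  rw [Nat.testBit_and, Bool.and_eq_true] at hy
  exact h y hy.1

theorem small_and' {W b : ℕ} (a : ℕ) (h : Small W b) : Small W (a &&& b) :=
  Nat.and_comm b a ▸ small_and h a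

theorem small_or {W a b : ℕ} (h : Small W a) (h' : Small W b) : Small W (a ||| b) := fun y hy => by
  rw [Nat.testBit_or, Bool.or_eq_true] at hy
  exact hy.elim (h y) (h' y)

theorem DimOK.tb_slot {G : Grp} (hG : DimOK G) (X j y : ℕ) :
    (fld X (j * G.W) G.ONE).testBit y = true ↔ y < G.W ∧ X.testBit (j * G.W + y) = true := by
  rw [tb_fld, Bool.and_eq_true, hG.tb_ONE, decide_eq_true_eq, and_comm]

theorem DimOK.small_slot {G : Grp} (hG : DimOK G) (X j : ℕ) :
    Small G.W (fld X (j * G.W) G.ONE) := fun y hy => ((hG.tb_slot X j y).1 hy).1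

theorem DimOK.small_ONE {G : Grp} (hG : DimOK G) : Small G.W G.ONE := fun y hy => by
  simpa [hG.tb_ONE] using hy

theorem DimOK.tb_compl {G : Grp} (hG : DimOK G) {m : ℕ} (hm : Small G.W m) (y : ℕ) :
    (m ^^^ G.ONE).testBit y = true ↔ y < G.W ∧ ¬ m.testBit y = true := by
  rw [Nat.testBit_xor, hG.tb_ONE]
  have := hm y
  by_cases h : y < G.W <;> cases e : m.testBit y <;> simp_all

theorem DimOK.small_compl {G : Grp} (hG : DimOK G) {m : ℕ} (hm : Small G.W m) :
    Small G.W (m ^^^ G.ONE) := fun y hy => ((hG.tb_compl hm y).1 hy).1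

theorem DimOK.tb_difONE {G : Grp} (hG : DimOK G) (m y : ℕ) :
    (dif G.ONE m).testBit y = true ↔ y < G.W ∧ ¬ m.testBit y = true := by
  rw [tb_dif, hG.tb_ONE]
  simp

theorem DimOK.small_ltk {G : Grp} (hG : DimOK G) (k v : ℕ) : Small G.W (ltk G k v) :=
  hG.small_slot _ _

structure GeoOK (G : Grp) : Prop where
  lt : ∀ (k : Fin 4) v y, v ≤ XM G k →
    ((ltk G k v).testBit y = true ↔ y < G.W ∧ dec G y k < v)
  up : ∀ q y, (up G q).testBit y = true ↔ q < G.W ∧ y < G.W ∧ ∀ k, dec G q k ≤ dec G y k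
  dn : ∀ q y, (dn G q).testBit y = true ↔ q < G.W ∧ y < G.W ∧ ∀ k, dec G y k ≤ dec G q k
  ncorn : ∀ y, y < G.W → G.ncorn.testBit y = false →
    ∀ k : Fin 4, k ≠ 3 → dec G y k = 0 ∨ dec G y k + 1 = XM G k
  hq : ∀ b, b < G.W → volq G.hq ((2 ^ (b + 1) - 1) % 509) = b + 1
  hq0 : volq G.hq 0 = 0
  D0s : Small G.W G.D0
  D0 : ∀ y, y < G.W → (G.X0 = G.X1 → dec G y 0 ≤ dec G y 1) →
    (G.X1 = G.X2 → dec G y 1 ≤ dec G y 2) → (G.X2 = G.M → dec G y 2 ≤ dec G y 3) →
    G.D0.testBit y = true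

theorem geoOK_of {G : Grp} (hG : DimOK G) (h : geoB G = true) : GeoOK G := by
  have h' : band (Nat.beq G.lt0 (ltT G.W G.X0 fun y => dec G y 0)) (
    band (Nat.beq G.lt1 (ltT G.W G.X1 fun y => dec G y 1)) <|
    band (Nat.beq G.lt2 (ltT G.W G.X2 fun y => dec G y 2)) <|
    band (Nat.beq G.lt3 (ltT G.W G.M fun y => dec G y 3)) <|
    band (Nat.beq G.up3 (bld G.W G.AA fun j => dif (dif (dif G.ONE
      (ltk G (0 : Fin 4) (dec G (j * G.M) 0))) (ltk G (1 : Fin 4) (dec G (j * G.M) 1)))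
      (ltk G (2 : Fin 4) (dec G (j * G.M) 2)))) <|
    band (Nat.beq G.ge3 (bld G.W G.M fun v => dif G.ONE (ltk G (3 : Fin 4) v))) <|
    band (Nat.beq G.dn3 (bld G.W G.AA fun j => ltk G (0 : Fin 4) (dec G (j * G.M) 0 + 1) &&&
      ltk G (1 : Fin 4) (dec G (j * G.M) 1 + 1) &&& ltk G (2 : Fin 4) (dec G (j * G.M) 2 + 1))) <|
    band (Nat.beq G.le3 (bld G.W G.M fun v => ltk G (3 : Fin 4) (v + 1))) <|
    band (Nat.beq G.ncorn (mk G.W fun y => Nat.ble 1 (mid (dec G y 0) G.X0 +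
      mid (dec G y 1) G.X1 + mid (dec G y 2) G.X2))) <|
    band (Nat.beq G.ONE (mk G.W fun b => Nat.beq (volq G.hq ((2 <<< b - 1) % 509)) (b + 1))) <|
    band (Nat.beq (volq G.hq 0) 0) <|
    Nat.beq G.D0 (mk G.W fun y => Nat.beq (
      (1 - (G.X1 - G.X0)) * (dec G y 0 - dec G y 1) +
      (1 - (G.X2 - G.X1)) * (dec G y 1 - dec G y 2) +
      (1 - (G.M - G.X2)) * (dec G y 2 - dec G y 3)) 0)) = true := by
    cases G; exact h
  simp only [band_true, Nat.beq_eq] at h'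
  obtain ⟨l0, l1, l2, l3, h1, h2, h3, h4, h7, h8, h9, h10⟩ := h'
  have lt : ∀ (k : Fin 4) v y, v ≤ XM G k →
      ((ltk G k v).testBit y = true ↔ y < G.W ∧ dec G y k < v) := by
    intro k v y hv
    have e : ltk G k v = fld (ltT G.W (XM G k) fun y => dec G y k) (v * G.W) G.ONE := by
      fin_cases k
      · exact congrArg (fun T => fld T (v * G.W) G.ONE) l0
      · exact congrArg (fun T => fld T (v * G.W) G.ONE) l1
      · exact congrArg (fun T => fld T (v * G.W) G.ONE) l2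
      · exact congrArg (fun T => fld T (v * G.W) G.ONE) l3
    rw [e, hG.tb_slot]
    refine and_congr_right fun hy => ?_
    rw [ltT, tb_bld _ (fun _ _ => small_mk _ _) _ _ hy, tb_mk, Nat.ble_eq]
    exact ⟨fun h => h.2.2, fun h => ⟨Nat.lt_succ_of_le hv, hy, h⟩⟩
  refine ⟨lt, ?_, ?_, ?_, ?_, h9, ?_, ?_⟩
  · intro q y
    rw [up_eq, tb_lk2 hG h1 h2 (fun _ => small_dif (small_dif (small_dif hG.small_ONE _) _) _)
      (fun _ => small_dif hG.small_ONE _), hG.dec_field q 0 (by decide),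
      hG.dec_field q 1 (by decide), hG.dec_field q 2 (by decide), forall4]
    refine and_congr_right fun hq => and_congr_right fun hy => ?_
    have r := hG.dec_inr hq
    simp only [tb_dif, Bool.and_eq_true, Bool.not_eq_true', ← Bool.not_eq_true, hG.tb_ONE]
    rw [lt _ _ _ (r 0).le, lt _ _ _ (r 1).le, lt _ _ _ (r 2).le,
      show q % G.M = dec G q 3 from rfl, lt _ _ _ (r 3).le]
    simp [hy, and_assoc]
  · intro q y
    rw [dn_eq, tb_lk2 hG h3 h4 (fun _ => small_and' _ (hG.small_ltk _ _))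
      (fun _ => hG.small_ltk _ _), hG.dec_field q 0 (by decide),
      hG.dec_field q 1 (by decide), hG.dec_field q 2 (by decide), forall4]
    refine and_congr_right fun hq => and_congr_right fun hy => ?_
    have r := hG.dec_inr hq
    simp only [Nat.testBit_and, Bool.and_eq_true]
    rw [lt _ _ _ (r 0), lt _ _ _ (r 1), lt _ _ _ (r 2),
      show q % G.M = dec G q 3 from rfl, lt _ _ _ (r 3)]
    simp [hy, and_assoc]
  · intro y hy hb k hk
    have hc : ¬ (1 ≤ mid (dec G y 0) G.X0 + mid (dec G y 1) G.X1 + mid (dec G y 2) G.X2) := by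
      intro hc
      have := (tb_mk G.W (fun y => Nat.ble 1 (mid (dec G y 0) G.X0 +
        mid (dec G y 1) G.X1 + mid (dec G y 2) G.X2)) y).2 ⟨hy, Nat.ble_eq ▸ hc⟩
      rw [← h7, hb] at this
      exact Bool.false_ne_true this
    have hm : ∀ a X, a < X → mid a X = 0 → a = 0 ∨ a + 1 = X := fun a X h1 h2 => by
      rcases Nat.mul_eq_zero.1 h2 with h | h
      · exact Or.inl h
      · have : X - (a + 1) = 0 := h
        omega
    have hr := hG.dec_inr hy k
    fin_cases k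
    · exact hm _ _ hr (by show mid (dec G y 0) G.X0 = 0; omega)
    · exact hm _ _ hr (by show mid (dec G y 1) G.X1 = 0; omega)
    · exact hm _ _ hr (by show mid (dec G y 2) G.X2 = 0; omega)
    · exact absurd rfl hk
  · intro b hb
    have : G.ONE.testBit b = true := by rw [hG.tb_ONE]; simpa using hb
    rw [h8, tb_mk, Nat.beq_eq, Nat.shiftLeft_eq, ← Nat.pow_succ'] at this
    exact this.2
  · rw [h10]; exact small_mk _ _
  · intro y hy a b c
    rw [h10, tb_mk, Nat.beq_eq]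
    refine ⟨hy, ?_⟩
    have key : ∀ x x' u v : ℕ, x ≤ x' → (x = x' → u ≤ v) → (1 - (x' - x)) * (u - v) = 0 :=
      fun x x' u v h1 h2 => by
        rw [Nat.mul_eq_zero]
        omega
    rw [key _ _ _ _ hG.l01 a, key _ _ _ _ hG.l12 b, key _ _ _ _ hG.l2M c]

structure VolOK (G : Grp) : Prop where
  vt : ∀ y, y < G.W → volq G.vt y = vol G y
  srts : Small G.W G.srt
  srt : ∀ y, y < G.W → Monotone (dec G y) → G.srt.testBit y = true
  lev : ∀ r y, y < G.W → G.lev.testBit (r * G.W + y) = true → vol G y ≤ volq G.vl r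
  ht : ∀ b, b < G.W → volq G.ht (2 ^ b % 509) = vol G b
  k1 : G.k1 = kd G.W G.M 1
  k2 : G.k2 = kd G.W G.M 2
  k4 : G.k4 = kd G.W G.M 4
  k8 : G.k8 = kd G.W G.M 8
  k16 : G.k16 = kd G.W G.M 16
  k32 : G.k32 = kd G.W G.M 32

theorem vol_le {G : Grp} (hG : DimOK G) {y : ℕ} (hy : y < G.W) : vol G y ≤ G.W := by
  have h := hG.dec_inr hy
  have : G.W = G.X0 * G.X1 * (G.X2 * G.M) := by rw [hG.hW, hG.hst0, hG.hst1]; ring
  rw [this]
  exact Nat.mul_le_mul (Nat.mul_le_mul (h 0) (h 1)) (Nat.mul_le_mul (h 2) (h 3))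

theorem volOK_of {G : Grp} (hG : DimOK G) (h : volB G = true) : VolOK G := by
  have h' : band (Nat.beq G.vt (bld 9 G.W fun y => vol G y)) (
    band (Nat.beq G.srt (mk G.W fun y => Nat.beq ((dec G y 0 - dec G y 1) +
      (dec G y 1 - dec G y 2) + (dec G y 2 - dec G y 3)) 0)) <|
    band (Nat.beq G.lev (bld G.W G.nl fun r => mk G.W fun y =>
      Nat.ble (volq G.vt y) (volq G.vl r))) <|
    band (Nat.beq G.ONE (mk G.W fun b => Nat.beq (volq G.ht ((1 <<< b) % 509)) (volq G.vt b))) <|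
    band (Nat.beq G.k1 (kd G.W G.M 1)) <| band (Nat.beq G.k2 (kd G.W G.M 2)) <|
    band (Nat.beq G.k4 (kd G.W G.M 4)) <| band (Nat.beq G.k8 (kd G.W G.M 8)) <|
    band (Nat.beq G.k16 (kd G.W G.M 16)) <| Nat.beq G.k32 (kd G.W G.M 32)) = true := by
    cases G; exact h
  simp only [band_true, Nat.beq_eq] at h'
  obtain ⟨h1, h2, h3, h4, h5, h6, h7, h8, h9, h10⟩ := h'
  have hv : ∀ y, y < G.W → volq G.vt y = vol G y := fun y hy => by
    rw [volq, h1]
    refine fld9_bld (fun j hj => ?_) hy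
    have := vol_le hG hj
    have := hG.w511
    omega
  refine ⟨hv, h2 ▸ small_mk _ _, ?_, ?_, ?_, h5, h6, h7, h8, h9, h10⟩
  · intro y hy hm
    rw [h2, tb_mk, Nat.beq_eq]
    have a : dec G y 0 ≤ dec G y 1 := hm (by decide)
    have b : dec G y 1 ≤ dec G y 2 := hm (by decide)
    have c : dec G y 2 ≤ dec G y 3 := hm (by decide)
    exact ⟨hy, by omega⟩
  · intro r y hy hb
    rw [h3, tb_bld _ (fun _ _ => small_mk _ _) _ _ hy, tb_mk, Nat.ble_eq, hv y hy] at hb
    exact hb.2.2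
  · intro b hb
    have : G.ONE.testBit b = true := by rw [hG.tb_ONE]; simpa using hb
    rw [h4, tb_mk, Nat.beq_eq, hv b hb, Nat.one_shiftLeft] at this
    exact this.2

structure ShpOK (G : Grp) : Prop where
  sd : ∀ p y, (sd G p).testBit y = true →
    y < G.W ∧ ∀ k, sh G y k ≤ dec G p k
  su : ∀ p y, (su G p).testBit y = true →
    y < G.W ∧ ∀ k, dec G p k ≤ sh G y k
  tt : ∀ c y, (fld G.tt (c * G.W) G.ONE).testBit y = true →
    y < G.W ∧ TTP (sh G y) (dec G c 1) (dec G c 2) (dec G c 3)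

theorem tb_cnt4 (a b c d y : ℕ) (k : Fin 4) : (cnt4 a b c d k).testBit y = true ↔
    k.val < (a.testBit y).toNat + (b.testBit y).toNat +
      ((c.testBit y).toNat + (d.testBit y).toNat) := by
  have e : (cnt4 a b c d k).testBit y = ![(a.testBit y || b.testBit y) || (c.testBit y || d.testBit y),
      ((a.testBit y && b.testBit y) || (c.testBit y && d.testBit y)) ||
        ((a.testBit y || b.testBit y) && (c.testBit y || d.testBit y)),
      ((a.testBit y && b.testBit y) && (c.testBit y || d.testBit y)) ||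
        ((c.testBit y && d.testBit y) && (a.testBit y || b.testBit y)),
      (a.testBit y && b.testBit y) && (c.testBit y && d.testBit y)] k := by
    simp only [← Nat.testBit_and, ← Nat.testBit_or]
    fin_cases k <;> rfl
  rw [e]
  clear e
  revert k
  cases a.testBit y <;> cases b.testBit y <;> cases c.testBit y <;> cases d.testBit y <;> decide

theorem shpOK_of {G : Grp} (hG : DimOK G) (hg : GeoOK G) (h : shpB G = true) : ShpOK G := by
  have hs : slT G = bld G.W (4 * (G.M + 1)) fun t => cnt4 (ltm G (0 : Fin 4) (t / 4))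
      (ltm G (1 : Fin 4) (t / 4)) (ltm G (2 : Fin 4) (t / 4)) (ltm G (3 : Fin 4) (t / 4))
      (t % 4) := rfl
  have hm : ∀ (k : Fin 4) v y, y < G.W → ((ltm G k v).testBit y).toNat = lt1 (dec G y k) v := by
    intro k v y hy
    have a := hg.lt k (v - (v - XM G k)) y (by omega)
    have b := hG.dec_inr hy k
    rw [← xk_XM] at a b
    have c : lt1 (dec G y k) v = v - dec G y k - (v - dec G y k - 1) := rfl
    change (ltm G k v).testBit y = true ↔ _ at a
    cases e : (ltm G k v).testBit y <;> simp only [e, Bool.toNat_true, Bool.toNat_false] at a ⊢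
    · have := mt a.2 Bool.false_ne_true
      omega
    · have := a.1 trivial
      omega
  have hc : ∀ t, Small G.W (cnt4 (ltm G (0 : Fin 4) (t / 4))
      (ltm G (1 : Fin 4) (t / 4)) (ltm G (2 : Fin 4) (t / 4)) (ltm G (3 : Fin 4) (t / 4))
      (t % 4)) := fun t y hy => by
    have := (tb_cnt4 _ _ _ _ y ⟨t % 4, Nat.mod_lt _ (by norm_num)⟩).1 hy
    by_contra hn
    have z : ∀ k : Fin 4, (ltm G k (t / 4)).testBit y = false := fun k => by
      by_contra h
      exact hn (hG.small_ltk _ _ y (Bool.not_eq_false _ ▸ h))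
    rw [z, z, z, z] at this
    exact Nat.not_lt_zero _ this
  have h' : band (Nat.beq G.sd3 (bld G.W G.AA fun j =>
      slk G.W G.ONE (slT G) (0 : Fin 4) (dec G (j * G.M) 0 + 1) &&&
      slk G.W G.ONE (slT G) (1 : Fin 4) (dec G (j * G.M) 1 + 1) &&&
      slk G.W G.ONE (slT G) (2 : Fin 4) (dec G (j * G.M) 2 + 1))) (
    band (Nat.beq G.sle3 (bld G.W G.M fun v => slk G.W G.ONE (slT G) (3 : Fin 4) (v + 1))) <|
    band (Nat.beq G.su3 (bld G.W G.AA fun j => dif (dif (dif G.ONE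
      (slk G.W G.ONE (slT G) (0 : Fin 4) (dec G (j * G.M) 0)))
      (slk G.W G.ONE (slT G) (1 : Fin 4) (dec G (j * G.M) 1)))
      (slk G.W G.ONE (slT G) (2 : Fin 4) (dec G (j * G.M) 2)))) <|
    band (Nat.beq G.sge3 (bld G.W G.M fun v => dif G.ONE (slk G.W G.ONE (slT G) (3 : Fin 4) v))) <|
    Nat.beq G.tt (bld G.W G.st0 fun c => ttr G.W G.ONE (slT G) (dec G c 1)
      (dec G c 2) (dec G c 3))) = true := by
    unfold shpB at h
    generalize slT G = SL at h ⊢
    cases G; exact h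
  simp only [band_true, Nat.beq_eq] at h'
  obtain ⟨h1, h2, h3, h4, h5⟩ := h'
  have key : ∀ (k : Fin 4) v y, v ≤ G.M → ((slk G.W G.ONE (slT G) k v).testBit y = true ↔
      y < G.W ∧ sh G y k < v) := by
    intro k v y hv
    have := k.2
    show (fld (slT G) ((4 * v + k) * G.W) G.ONE).testBit y = true ↔ _
    rw [tb_fld, Bool.and_eq_true, hG.tb_ONE, decide_eq_true_eq]
    constructor
    · rintro ⟨a, hy⟩
      rw [hs, tb_bld _ (fun _ _ => hc _) _ _ hy, show (4 * v + k) % 4 = k by omega,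
        show (4 * v + k) / 4 = v by omega, tb_cnt4, hm _ _ _ hy, hm _ _ _ hy, hm _ _ _ hy,
        hm _ _ _ hy] at a
      exact ⟨hy, (lt_cv_iff _ k v).1 a.2⟩
    · rintro ⟨hy, a⟩
      rw [hs, tb_bld _ (fun _ _ => hc _) _ _ hy, show (4 * v + k) % 4 = k by omega,
        show (4 * v + k) / 4 = v by omega, tb_cnt4, hm _ _ _ hy, hm _ _ _ hy, hm _ _ _ hy,
        hm _ _ _ hy]
      exact ⟨⟨by omega, (lt_cv_iff _ k v).2 a⟩, hy⟩
  have sm : ∀ k v, Small G.W (slk G.W G.ONE (slT G) k v) := fun k v y hy => by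
    have hy' : (fld (slT G) ((4 * v + k) * G.W) G.ONE).testBit y = true := hy
    rw [tb_fld, Bool.and_eq_true, hG.tb_ONE, decide_eq_true_eq] at hy'
    exact hy'.2
  have smd : ∀ a b, Small G.W a → Small G.W (dif a b) := fun a b ha y hy => by
    rw [tb_dif, Bool.and_eq_true] at hy
    exact ha y hy.1
  have smo : Small G.W G.ONE := fun y hy => by simpa [hG.tb_ONE] using hy
  have rng : ∀ p, p < G.W → ∀ k, dec G p k + 1 ≤ G.M := fun p hp k =>
    (hG.dec_inr hp k).trans_le (hG.XM_le k)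
  refine ⟨?_, ?_, ?_⟩
  · intro p y hb
    rw [sd_eq, tb_lk2 hG h1 h2 (fun j y hy => by
        rw [Nat.testBit_and, Bool.and_eq_true] at hy
        exact sm _ _ y hy.2) (fun _ => sm _ _),
      hG.dec_field p 0 (by decide), hG.dec_field p 1 (by decide),
      hG.dec_field p 2 (by decide)] at hb
    obtain ⟨hp, hy, a, b⟩ := hb
    simp only [Nat.testBit_and, Bool.and_eq_true] at a
    rw [key _ _ _ (rng p hp 0), key _ _ _ (rng p hp 1), key _ _ _ (rng p hp 2)] at a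
    rw [show p % G.M = dec G p 3 from rfl, key _ _ _ (rng p hp 3)] at b
    refine ⟨hy, forall4.2 ⟨?_, ?_, ?_, ?_⟩⟩
    · exact Nat.lt_succ_iff.1 a.1.1.2
    · exact Nat.lt_succ_iff.1 a.1.2.2
    · exact Nat.lt_succ_iff.1 a.2.2
    · exact Nat.lt_succ_iff.1 b.2
  · intro p y hb
    rw [su_eq, tb_lk2 hG h3 h4 (fun j => smd _ _ (smd _ _ (smd _ _ smo))) (fun _ => smd _ _ smo),
      hG.dec_field p 0 (by decide), hG.dec_field p 1 (by decide),
      hG.dec_field p 2 (by decide)] at hb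
    obtain ⟨hp, hy, a, b⟩ := hb
    simp only [tb_dif, Bool.and_eq_true, Bool.not_eq_true', ← Bool.not_eq_true] at a b
    rw [key _ _ _ (Nat.le_of_succ_le (rng p hp 0)), key _ _ _ (Nat.le_of_succ_le (rng p hp 1)),
      key _ _ _ (Nat.le_of_succ_le (rng p hp 2))] at a
    rw [show p % G.M = dec G p 3 from rfl, key _ _ _ (Nat.le_of_succ_le (rng p hp 3))] at b
    refine ⟨hy, forall4.2 ⟨?_, ?_, ?_, ?_⟩⟩
    · exact not_lt.1 fun h => a.1.1.2 ⟨hy, h⟩
    · exact not_lt.1 fun h => a.1.2 ⟨hy, h⟩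
    · exact not_lt.1 fun h => a.2 ⟨hy, h⟩
    · exact not_lt.1 fun h => b.2 ⟨hy, h⟩
  · intro c y hb
    rw [tb_fld, Bool.and_eq_true, hG.tb_ONE, decide_eq_true_eq] at hb
    obtain ⟨hb, hy⟩ := hb
    have sme : ∀ k v, Small G.W (eqk G.W G.ONE (slT G) k v) := fun k v => smd _ _ (sm _ _)
    have ett : ∀ a b c, ttr G.W G.ONE (slT G) a b c =
        ((eqk G.W G.ONE (slT G) (1 : Fin 4) a ||| eqk G.W G.ONE (slT G) (0 : Fin 4) a) &&&
          (eqk G.W G.ONE (slT G) (2 : Fin 4) b &&& eqk G.W G.ONE (slT G) (3 : Fin 4) c)) |||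
        ((eqk G.W G.ONE (slT G) (0 : Fin 4) a &&& eqk G.W G.ONE (slT G) (1 : Fin 4) b) &&&
          (eqk G.W G.ONE (slT G) (3 : Fin 4) c ||| eqk G.W G.ONE (slT G) (2 : Fin 4) c)) :=
      fun _ _ _ => rfl
    rw [h5, tb_bld _ (fun j _ y hy => by
      simp only [ett, Nat.testBit_or, Nat.testBit_and, Bool.or_eq_true, Bool.and_eq_true] at hy
      rcases hy with hy | hy
      · exact sme _ _ y hy.2.1
      · exact sme _ _ y hy.1.1) _ _ hy] at hb
    obtain ⟨hc, hb⟩ := hb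
    have hc' : c < G.W := hc.trans_le hG.st0_le_W
    have ke : ∀ (k : Fin 4) v, v + 1 ≤ G.M → (eqk G.W G.ONE (slT G) k v).testBit y = true →
        sh G y k = v := by
      intro k v hv hb
      have hb' : (dif (slk G.W G.ONE (slT G) k (v + 1)) (slk G.W G.ONE (slT G) k v)).testBit y =
        true := hb
      simp only [tb_dif, Bool.and_eq_true, Bool.not_eq_true', ← Bool.not_eq_true] at hb'
      rw [key _ _ _ hv, key _ _ _ (Nat.le_of_succ_le hv)] at hb'
      have a := hb'.1.2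
      have b := not_lt.1 fun h => hb'.2 ⟨hy, h⟩
      omega
    simp only [ett, Nat.testBit_or, Nat.testBit_and, Bool.or_eq_true, Bool.and_eq_true] at hb
    refine ⟨hy, ?_⟩
    have r1 := rng c hc' 1
    have r2 := rng c hc' 2
    have r3 := rng c hc' 3
    rcases hb with ⟨a, b, d⟩ | ⟨⟨a, b⟩, d⟩
    · exact Or.inl ⟨a.imp (ke _ _ r1) (ke _ _ r1), ke _ _ r2 b, ke _ _ r3 d⟩
    · exact Or.inr ⟨⟨ke _ _ r1 a, ke _ _ r2 b⟩, d.imp (ke _ _ r3) (ke _ _ r3)⟩

end Pool.Agent.Lib.MP_4d22c1_co.Chk
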