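import Pool.Agent.Lib.MP_4d22c1_co.Valid

/-!
The sixteen reflected views of the box and the masks built from them.
-/

set_option linter.unusedSectionVars false

namespace Pool.Agent.Lib.MP_4d22c1_co.Chk

/-- Reflection of the coordinates selected by the bits of `m`. -/
def rf (G : Grp) (m : ℕ) (v : Fin 4 → ℕ) : Fin 4 → ℕ :=
  fun k => if sb m k = 1 then XM G k - 1 - v k else v k

/-- The cell with global index `z`. -/
def pt (G : Grp) (z : ℕ) : Fin 4 → ℕ := rf G (z / G.W) (dec G (z % G.W))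

/-- The coordinates of the cell `z` in view `m`. -/
def vw (G : Grp) (m z : ℕ) : Fin 4 → ℕ := rf G m (pt G z)

def Fit (G : Grp) (r q : ℕ) : Prop := q < G.W ∧ ∀ k, dec G (r % G.W) k + dec G q k < XM G k

variable {G : Grp}

theorem sb_eq (s k : ℕ) : sb s k = s / 2 ^ k % 2 := by
  show s >>> k &&& 1 = _
  rw [Nat.and_one_is_mod, Nat.shiftRight_eq_div_pow]

theorem rf_inr {v : Fin 4 → ℕ} (hv : InR G v) (m : ℕ) : InR G (rf G m v) := fun k => by
  have := hv k
  unfold rf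
  split_ifs <;> omega

theorem rf_rf {v : Fin 4 → ℕ} (hv : InR G v) (m : ℕ) : rf G m (rf G m v) = v := by
  funext k
  have := hv k
  unfold rf
  split_ifs <;> omega

theorem rf_zero (v : Fin 4 → ℕ) : rf G 0 v = v := by
  funext k
  simp [rf, sb_eq]

theorem sb_compl {m : ℕ} (hm : m < 16) (k : Fin 4) : sb (15 - m) k + sb m k = 1 := by
  rw [sb_eq, sb_eq]
  fin_cases k <;> simp only [Nat.reducePow, Nat.pow_zero, Nat.pow_one] <;> omega

theorem vw_congr {z z' : ℕ} (h : pt G z = pt G z') (m : ℕ) : vw G m z = vw G m z' := by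
  rw [vw, vw, h]

theorem enc_single (G : Grp) (k : Fin 4) (n : ℕ) : enc G (Pi.single k n) = n * stq G k := by
  have e : stq G k = ![G.st0, G.st1, G.M, 1] k := by fin_cases k <;> rfl
  rw [e]
  fin_cases k <;> simp [enc]

namespace DimOK

variable (hG : DimOK G)
include hG

theorem mod_lt (z : ℕ) : z % G.W < G.W := Nat.mod_lt _ hG.pW

theorem div_lt {z : ℕ} : z / G.W < 16 ↔ z < 16 * G.W := Nat.div_lt_iff_lt_mul hG.pW

theorem pt_inr (z : ℕ) : InR G (pt G z) := rf_inr (hG.dec_inr (hG.mod_lt z)) _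

theorem vw_inr (m z : ℕ) : InR G (vw G m z) := rf_inr (hG.pt_inr z) _

theorem vw_self (z : ℕ) : vw G (z / G.W) z = dec G (z % G.W) := rf_rf (hG.dec_inr (hG.mod_lt z)) _

theorem pt_lt {y : ℕ} (hy : y < G.W) : pt G y = dec G y := by
  rw [pt, Nat.div_eq_of_lt hy, Nat.mod_eq_of_lt hy, rf_zero]

theorem pt_of_vw {m z z' : ℕ} (h : vw G m z = vw G m z') : pt G z = pt G z' := by
  rw [← rf_rf (hG.pt_inr z) m, ← rf_rf (hG.pt_inr z') m]
  exact congrArg (rf G m) h

theorem dec_inj {y y' : ℕ} (h : dec G y = dec G y') : y = y' := by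
  rw [← hG.enc_dec y, h, hG.enc_dec]

theorem pt_inj {z z' : ℕ} (h : pt G z = pt G z') (h' : z / G.W = z' / G.W) : z = z' := by
  have a := vw_congr h (z / G.W)
  rw [hG.vw_self, h', hG.vw_self] at a
  rw [← Nat.div_add_mod z G.W, ← Nat.div_add_mod z' G.W, h', hG.dec_inj a]

theorem dec_zero (k : Fin 4) : dec G 0 k = 0 := by fin_cases k <;> simp [dec]

theorem dec_compl {y : ℕ} (hy : y < G.W) (k : Fin 4) :
    dec G (G.W - 1 - y) k = XM G k - 1 - dec G y k := by
  have r := hG.dec_inr hy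
  have hr : InR G (fun k => XM G k - 1 - dec G y k) := fun k => by
    have := r k
    show XM G k - 1 - dec G y k < _
    omega
  have e := enc_add' G (fun k => XM G k - 1 - dec G y k) (dec G y) (fun k => XM G k - 1)
    fun k => by have := r k; omega
  have e2 : enc G (fun k => XM G k - 1) + 1 = G.W := by
    have a0 := hG.p0; have a1 := hG.p1; have a2 := hG.p2; have a3 := hG.pM
    show (G.X0 - 1) * G.st0 + (G.X1 - 1) * G.st1 + (G.X2 - 1) * G.M + (G.M - 1) + 1 = G.W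
    have b0 := hG.st0_le_W; have b1 := hG.st1_le_st0; have b2 := hG.M_le_st1
    rw [Nat.sub_mul, Nat.sub_mul, Nat.sub_mul, ← hG.hW, ← hG.hst0, ← hG.hst1]
    omega
  rw [hG.enc_dec] at e
  rw [show G.W - 1 - y = enc G (fun k => XM G k - 1 - dec G y k) by omega, hG.dec_enc hr]

theorem fit_add {r q : ℕ} (h : Fit G r q) : (r + q) / G.W = r / G.W ∧
    (r + q) % G.W = r % G.W + q ∧
      ∀ k, dec G (r % G.W + q) k = dec G (r % G.W) k + dec G q k := by
  have e := enc_add' G (dec G (r % G.W)) (dec G q) _ fun k => rfl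
  rw [hG.enc_dec, hG.enc_dec] at e
  have hl : r % G.W + q < G.W := e ▸ hG.enc_lt h.2
  have e2 : r + q = r / G.W * G.W + (r % G.W + q) := by
    have := Nat.div_add_mod' r G.W
    omega
  refine ⟨by rw [e2, div_slot hl], by rw [e2, mod_slot hl], fun k => ?_⟩
  rw [e, hG.dec_enc h.2]

theorem fit_vw {r q : ℕ} (h : Fit G r q) (k : Fin 4) :
    vw G (r / G.W) (r + q) k = dec G (r % G.W) k + dec G q k := by
  obtain ⟨a, b, c⟩ := hG.fit_add h
  rw [← a, hG.vw_self, b, c]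

theorem fit_lt {r q : ℕ} (h : Fit G r q) (hr : r < 16 * G.W) : r + q < 16 * G.W := by
  rw [← hG.div_lt, (hG.fit_add h).1, hG.div_lt]
  exact hr

theorem fit_zero (r : ℕ) : Fit G r 0 := ⟨hG.pW, fun k => by
  rw [hG.dec_zero]; exact hG.dec_inr (hG.mod_lt r) k⟩

theorem tb_rp (k u m : ℕ) : (rp G k u).testBit (m * G.W) = true ↔ m < 16 ∧ sb m k = u := by
  have hs : ∀ j, Small G.W (cnd (Nat.beq (sb j k) u) 1 0) := fun j y hy => by
    cases e : Nat.beq (sb j k) u <;> rw [e] at hy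
    · simp [cnd] at hy
    · rw [Nat.testBit_one_eq_true_iff_self_eq_zero.1 hy]; exact hG.pW
  rw [rp_eq, ← Nat.add_zero (m * G.W), tb_bld _ (fun j _ => hs j) _ _ hG.pW, ← Nat.beq_eq]
  cases Nat.beq (sb m k) u <;> simp [cnd]

theorem sparse_rp (k u : ℕ) : Sparse G.W (rp G k u) := fun z hz => by
  have hs : ∀ j y, (cnd (Nat.beq (sb j k) u) 1 0).testBit y = true → y = 0 := fun j y hy => by
    cases e : Nat.beq (sb j k) u <;> rw [e] at hy
    · simp [cnd] at hy
    · exact Nat.testBit_one_eq_true_iff_self_eq_zero.1 hy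
  rw [rp_eq, ← Nat.div_add_mod' z G.W, tb_bld _ (fun j _ y hy => hs j y hy ▸ hG.pW) _ _
    (hG.mod_lt z)] at hz
  exact hs _ _ hz.2

variable (hg : GeoOK G)
include hg

theorem tb_h16 (k : Fin 4) {v a : ℕ} (ha : a ≤ 1) (hv : v ≤ XM G k) (z : ℕ) :
    (h16 G k (v * 2 + a)).testBit z = true ↔
      z < 16 * G.W ∧ v ≤ if a = 1 then XM G k - 1 - pt G z k else pt G z k := by
  have hy := hG.mod_lt z
  have r := hG.dec_inr hy k
  have s := sb_le (z / G.W) k
  rw [h16_eq, frc, frc, show (v * 2 + a) % 2 = a by omega, show (v * 2 + a) / 2 = v by omega,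
    ← hG.div_lt]
  conv_lhs => rw [← Nat.div_add_mod' z G.W]
  rw [Nat.testBit_or, tb_mul_sparse hG.pW (hG.small_compl (hG.small_ltk _ _)) _ _
    (hG.sparse_rp _ _) _ hy, tb_mul_sparse hG.pW (hG.small_ltk _ _) _ _ (hG.sparse_rp _ _) _ hy,
    Bool.or_eq_true, Bool.and_eq_true, Bool.and_eq_true, hG.tb_rp, hG.tb_rp,
    hG.tb_compl (hG.small_ltk _ _), hg.lt _ _ _ hv, xk_XM, hg.lt _ _ _ (Nat.sub_le _ _)]
  unfold pt rf
  split_ifs <;> omega

theorem tb_cone {r : ℕ} (hr : r < 16 * G.W) (z : ℕ) : (cone G r).testBit z = true ↔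
    z < 16 * G.W ∧ ∀ k, dec G (r % G.W) k ≤ vw G (r / G.W) z k := by
  have hm := hG.div_lt.2 hr
  have ra := hG.dec_inr (hG.mod_lt r)
  rw [cone_eq, frc, frc, cA_eq, cB_eq, frc, frc, frc, frc]
  generalize r % G.W = a at ra ⊢
  generalize r / G.W = m at hm ⊢
  have key : ∀ (k : Fin 4) u, u = dec G a k * 2 + sb m k → ((h16 G k u).testBit z = true ↔
      z < 16 * G.W ∧ dec G a k ≤ vw G m z k) := fun k u e => by
    rw [e, hG.tb_h16 hg k (sb_le _ _) (ra k).le]
    rfl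
  have e3 : m &&& 3 = m % 4 := Nat.and_two_pow_sub_one_eq_mod m 2
  have e4 : m >>> 2 = m / 4 := Nat.shiftRight_eq_div_pow m 2
  have d0 : a / G.st1 / G.X1 = dec G a 0 := by
    rw [Nat.div_div_eq_div_mul, Nat.mul_comm, ← hG.hst0]; rfl
  have d2 : a % G.st1 / G.M = dec G a 2 := by
    rw [hG.hst1, Nat.mul_comm, Nat.mod_mul_right_div_self]; rfl
  have d3 : a % G.st1 % G.M = dec G a 3 := by
    rw [hG.hst1, Nat.mod_mul_left_mod]; rfl
  have f0 : (a / G.st1 * 4 + m % 4) / 4 = a / G.st1 := by omega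
  have f1 : (a % G.st1 * 4 + m / 4) / 4 = a % G.st1 := by omega
  rw [e3, e4, f0, f1, d0, d2, d3, forall4]
  simp only [Nat.testBit_and, Bool.and_eq_true]
  refine ((and_congr (and_congr (key 0 _ ?_) (key 1 _ ?_)) (and_congr (key 2 _ ?_) (key 3 _ ?_))).trans
    (by tauto))
  · simp only [sb_eq, Fin.val_zero]; omega
  · show a / G.st1 % G.X1 * 2 + _ = a / G.st1 % G.X1 * 2 + _
    simp only [sb_eq, Fin.val_one]; omega
  · simp only [sb_eq, Fin.val_two]; omega
  · simp only [sb_eq, show (3 : Fin 4).val = 3 from rfl]; omega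

theorem tb_cone' {r q : ℕ} (hr : r < 16 * G.W) (h : Fit G r q) (z : ℕ) :
    (cone G (16 * G.W - r - q - 1)).testBit z = true ↔
      z < 16 * G.W ∧ ∀ k, vw G (r / G.W) z k ≤ dec G (r % G.W) k + dec G q k := by
  have hm := hG.div_lt.2 hr
  obtain ⟨a, b, c⟩ := hG.fit_add h
  have hl := hG.mod_lt (r + q)
  have e : 16 * G.W - r - q - 1 = (15 - r / G.W) * G.W + (G.W - 1 - (r % G.W + q)) := by
    have := Nat.div_add_mod' r G.W
    have : r / G.W * G.W ≤ 15 * G.W := Nat.mul_le_mul_right _ (by omega)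
    rw [Nat.sub_mul]
    omega
  have hl' : G.W - 1 - (r % G.W + q) < G.W := by omega
  rw [hG.tb_cone hg (by omega), e, div_slot hl', mod_slot hl']
  refine and_congr_right fun _ => forall_congr' fun k => ?_
  have p := sb_compl hm k
  have p2 := hG.pt_inr z k
  have p3 := h.2 k
  rw [hG.dec_compl (b ▸ hl), c]
  unfold vw rf
  split_ifs <;> omega

theorem tb_cell {r : ℕ} (hr : r < 16 * G.W) (z : ℕ) : (cell G r).testBit z = true ↔
    z < 16 * G.W ∧ pt G z = pt G r := by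
  have e : cell G r = cone G r &&& cone G (16 * G.W - r - 0 - 1) := by
    rw [cell_eq, show 16 * G.W - r = (16 * G.W - r - 0 - 1) + 1 by omega]
    rfl
  rw [e, Nat.testBit_and, Bool.and_eq_true, hG.tb_cone hg hr, hG.tb_cone' hg hr (hG.fit_zero r)]
  simp only [hG.dec_zero, Nat.add_zero]
  constructor
  · rintro ⟨⟨a, b⟩, -, c⟩
    refine ⟨a, hG.pt_of_vw (m := r / G.W) ?_⟩
    rw [hG.vw_self]
    exact funext fun k => le_antisymm (c k) (b k)
  · rintro ⟨a, b⟩
    rw [vw_congr b, hG.vw_self]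
    exact ⟨⟨a, fun _ => le_rfl⟩, a, fun _ => le_rfl⟩

theorem tb_bey {v : ℕ} (hv : v ≤ G.M) (z : ℕ) :
    (bey G v).testBit z = true ↔ z < 16 * G.W ∧ v ≤ pt G z 3 :=
  hG.tb_h16 hg 3 (a := 0) (by norm_num) hv z

theorem tb_room (r q : ℕ) : (room G r).testBit q = true ↔ Fit G r q := by
  have hl := hG.mod_lt r
  rw [room_eq, hg.dn, Fit]
  refine ⟨fun ⟨_, b, c⟩ => ⟨b, fun k => ?_⟩, fun ⟨b, c⟩ => ⟨by omega, b, fun k => ?_⟩⟩
  · have := c k
    have := hG.dec_inr hl k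
    rw [hG.dec_compl hl] at *
    omega
  · have := c k
    rw [hG.dec_compl hl]
    omega

theorem lw_spec {Y : ℕ} (hY : Y ≠ 0) : ∃ b, Y.testBit b = true ∧
    (∀ i, Y.testBit i = true → b ≤ i) ∧
      (b < G.W → volq G.hq (lwh Y) = b + 1 ∧ hqv G (lwh Y - 1) = b) := by
  obtain ⟨b, h1, h2, h3⟩ := lowest hY
  refine ⟨b, h1, h2, fun hb => ?_⟩
  have e : volq G.hq (lwh Y) = b + 1 := by rw [lwh, hsh, h3, hg.hq b hb]
  have : lwh Y ≠ 0 := fun h => by
    rw [h, hg.hq0] at e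
    omega
  rw [hqv_eq, show lwh Y - 1 + 1 = lwh Y by omega, e]
  exact ⟨rfl, rfl⟩

theorem x0_spec {r : ℕ} (hr : r < 16 * G.W) : x0 G r < G.W ∧ dec G (x0 G r) = pt G r := by
  have hy := hG.enc_lt (hG.pt_inr r)
  have h0 : (cell G r).testBit (enc G (pt G r)) = true :=
    (hG.tb_cell hg hr _).2 ⟨by omega, by rw [hG.pt_lt hy, hG.dec_enc (hG.pt_inr r)]⟩
  obtain ⟨b, h1, h2, h3⟩ := hG.lw_spec hg (Y := cell G r) fun h => by simp [h] at h0
  have hb : b < G.W := (h2 _ h0).trans_lt hy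
  rw [x0_eq, (h3 hb).2, ← hG.pt_lt hb]
  exact ⟨hb, ((hG.tb_cell hg hr _).1 h1).2⟩

/-- A closure operation only adds offsets above given ones. -/
def UpCl (G : Grp) (Y S : ℕ) : Prop :=
  ∀ y, S.testBit y = true → y < G.W ∧ ∃ q, Y.testBit q = true ∧ ∀ k, dec G q k ≤ dec G y k

theorem upf_ok {Y : ℕ} (hY : Small G.W Y) :
    UpCl G Y (upf (ltk G 3 (G.M - 1) ^^^ G.ONE) (ltk G 3 (G.M - 1)) Y) := by
  intro y hy
  have pM := hG.pM
  have hn : ∀ z, (ltk G 3 (G.M - 1)).testBit z = true ↔ z < G.W ∧ z % G.M < G.M - 1 :=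
    fun z => hg.lt 3 _ z (Nat.sub_le _ _)
  have hh : ∀ z, (ltk G 3 (G.M - 1) ^^^ G.ONE).testBit z = true ↔
      z < G.W ∧ ¬ z % G.M < G.M - 1 := fun z => by
    rw [hG.tb_compl (hG.small_ltk _ _), hn]
    tauto
  generalize ltk G 3 (G.M - 1) ^^^ G.ONE = h at hy hh
  generalize ltk G 3 (G.M - 1) = nh at hy hn
  rw [upf, Nat.testBit_or, Bool.or_eq_true] at hy
  rcases hy with hy | hy
  swap
  · exact ⟨hY y hy, y, hy, fun _ => le_rfl⟩
  have key : ∀ j, j ≤ G.AA → (Y &&& nh) % 2 ^ (j * G.M) ≤ h % 2 ^ (j * G.M) := fun j hj => by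
    rcases j with _ | j
    · simp [Nat.mod_one]
    have e : (j + 1) * G.M - 1 = j * G.M + (G.M - 1) := by rw [Nat.add_mul]; omega
    have e1 : ((j + 1) * G.M - 1) % G.M = G.M - 1 := by rw [e, mod_slot (by omega)]
    have e2 : (j + 1) * G.M ≤ G.W := hG.WA ▸ Nat.mul_le_mul_right _ hj
    refine le_trans (Nat.lt_pow_two_of_testBit _ fun i hi => ?_).le
      (two_pow_le_of_tb (i := (j + 1) * G.M - 1) ?_)
    · rw [Nat.testBit_mod_two_pow, Nat.testBit_and]
      by_cases a : i < (j + 1) * G.M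
      · have : nh.testBit i = false := by
          rw [← Bool.not_eq_true, hn, show i = (j + 1) * G.M - 1 by omega]
          omega
        simp [this]
      · simp [a]
    · rw [Nat.testBit_mod_two_pow, Bool.and_eq_true, decide_eq_true_eq, hh, e1]
      have : 0 < (j + 1) * G.M := Nat.mul_pos (Nat.succ_pos j) pM
      omega
  have sh : h < 2 ^ G.W := Small.lt fun z hz => ((hh z).1 hz).1
  have ss : Y &&& nh < 2 ^ G.W := (small_and hY _).lt
  have k1 := key _ le_rfl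
  rw [← hG.WA, Nat.mod_eq_of_lt sh, Nat.mod_eq_of_lt ss] at k1
  have hyW : y < G.W := small_of_lt (Nat.xor_lt_two_pow ((Nat.sub_le _ _).trans_lt sh) sh) y hy
  refine ⟨hyW, ?_⟩
  by_contra hc
  have := tb_sub (y := y) (Nat.div_mul_le_self y G.M) k1 (key _ (hG.div_lt_A.2 hyW).le)
    fun q h1 h2 => by
      by_contra hq
      rw [Bool.not_eq_false, Nat.testBit_and, Bool.and_eq_true] at hq
      have e : q / G.M = y / G.M := le_antisymm (Nat.div_le_div_right h2)
        ((Nat.le_div_iff_mul_le pM).2 h1)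
      refine hc ⟨q, hq.1, fun k => ?_⟩
      by_cases hk : k = 3
      · subst hk
        have a := Nat.div_add_mod q G.M
        have b := Nat.div_add_mod y G.M
        rw [e] at a
        show q % G.M ≤ y % G.M
        omega
      · exact (hG.dec_same e k hk).le
  rw [Nat.testBit_xor, this] at hy
  simp at hy

theorem ups_ok {Y S : ℕ} (h : UpCl G Y S) (i : ℕ) : UpCl G Y (ups (cm G i) (cs G i) S) := by
  intro y hy
  rw [ups, Nat.testBit_or, Bool.or_eq_true] at hy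
  rcases hy with hy | hy
  · exact h y hy
  obtain ⟨k, hk⟩ : ∃ k : Fin 4, ck G i = k := ⟨⟨_, Nat.lt_succ_of_le Nat.and_le_right⟩, rfl⟩
  rw [cm, cs, hk, Nat.testBit_shiftLeft, Nat.testBit_and, Bool.and_eq_true, Bool.and_eq_true,
    decide_eq_true_eq, xk_XM, hg.lt _ _ _ (Nat.sub_le _ _)] at hy
  obtain ⟨a, b, c, d⟩ := hy
  obtain ⟨-, q, e, f⟩ := h _ b
  generalize cdl G i = n at *
  have r := hG.dec_inr c
  have e1 := enc_single G k n
  have hr : InR G fun j => dec G (y - n * stq G k) j + (Pi.single k n : Fin 4 → ℕ) j := fun j => by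
    by_cases hj : j = k
    · subst hj; simp only [Pi.single_eq_same]; omega
    · simpa [hj] using r j
  have e2 := enc_add' G (dec G (y - n * stq G k)) (Pi.single k n) _ fun _ => rfl
  rw [hG.enc_dec, e1, Nat.sub_add_cancel a] at e2
  refine ⟨e2 ▸ hG.enc_lt hr, q, e, fun j => ?_⟩
  rw [e2, hG.dec_enc hr]
  exact (f j).trans (Nat.le_add_right _ _)

theorem clo_ok {Y : ℕ} (hY : Small G.W Y) : UpCl G Y ((clo G).1 Y) := by
  have h5 := hG.ups_ok hg (hG.ups_ok hg (hG.ups_ok hg (hG.ups_ok hg (hG.ups_ok hg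
    (hG.upf_ok hg hY) 1) 2) 3) 4) 5
  unfold clo
  generalize ck G 0 = o
  rcases o with _ | _ | _ | o
  · exact h5
  · exact hG.ups_ok hg h5 6
  · exact hG.ups_ok hg (hG.ups_ok hg h5 6) 7
  · exact hG.ups_ok hg (hG.ups_ok hg (hG.ups_ok hg h5 6) 7) 8

end DimOK

end Pool.Agent.Lib.MP_4d22c1_co.Chk
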